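import Mathlib
import Pool.Agent.LNK.Common

/-!
Definitions and basic facts for the project JNG: linkages in highly connected graphs with `2k - 3`
vertices that have many common neighbours.

`W` is always the set of active vertices: all edges of `G` lie inside `W` (`Ins G W`).
-/

set_option autoImplicit false

namespace Pool.Agent.JNG

open SimpleGraph Pool.Agent.LNK

open Classical in
/-- the neighbours of `D` outside `D` -/
noncomputable def Nb {V : Type} [Fintype V] (G : SimpleGraph V) (D : Finset V) : Finset V :=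
  Finset.univ.filter fun v => v ∉ D ∧ ∃ u ∈ D, G.Adj u v

open Classical in
/-- the edges that meet `D` -/
noncomputable def Ed {V : Type} [Fintype V] (G : SimpleGraph V) (D : Finset V) : Finset (Sym2 V) :=
  Finset.univ.filter fun e => e ∈ G.edgeSet ∧ ∃ u ∈ D, u ∈ e

/-- all edges lie inside `W` -/
def Ins {V : Type} (G : SimpleGraph V) (W : Finset V) : Prop := ∀ a b, G.Adj a b → a ∈ W

/-- `D` is nonempty and connected -/
def Cn {V : Type} (G : SimpleGraph V) (D : Finset V) : Prop :=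
  D.Nonempty ∧ ∀ u ∈ D, ∀ v ∈ D, Jn G (D : Set V) u v

/-- disjoint sets `P` and `Q` of vertices join `a` to `a'` and `b` to `b'` -/
structure Lkg {V : Type} (G : SimpleGraph V) (a a' b b' : V) (P Q : Finset V) : Prop where
  dj : ∀ v ∈ P, v ∉ Q
  jp : Jn G (P : Set V) a a'
  jq : Jn G (Q : Set V) b b'

/-- four distinct vertices -/
structure Ds {V : Type} (a a' b b' : V) : Prop where
  h1 : a ≠ a'
  h2 : a ≠ b
  h3 : a ≠ b'
  h4 : a' ≠ b
  h5 : a' ≠ b'
  h6 : b ≠ b'

open Classical in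
/-- the set of the four terminals -/
noncomputable def Xs {V : Type} (a a' b b' : V) : Finset V := {a, a', b, b'}

open Classical in
/-- the mass hypotheses for a set `X` of terminals -/
structure Ms {V : Type} [Fintype V] (G : SimpleGraph V) (W X : Finset V) : Prop where
  ins : Ins G W
  sub : X ⊆ W
  m1 : 3 * (W \ X).card + 2 ≤ (Ed G (W \ X)).card
  m2 : ∀ D ⊆ W \ X, (Nb G D).card ≤ 3 → (Ed G D).card ≤ 3 * D.card

/-- the mass lemma for smaller graphs -/
def IH (V : Type) [Fintype V] (n e : ℕ) : Prop :=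
  ∀ (G : SimpleGraph V) (W : Finset V) (a a' b b' : V), Ds a a' b b' →
    (W.card < n ∨ (W.card = n ∧ (Ed G W).card < e)) → Ms G W (Xs a a' b b') →
    ∃ P Q : Finset V, Lkg G a a' b b' P Q

/-- a minimal counterexample to the mass lemma -/
structure Ce {V : Type} [Fintype V] (G : SimpleGraph V) (W : Finset V) (a a' b b' : V) : Prop where
  ds : Ds a a' b b'
  ms : Ms G W (Xs a a' b b')
  ih : IH V W.card (Ed G W).card
  nl : ∀ P Q : Finset V, ¬ Lkg G a a' b b' P Q

/-- the edges of `G` with both ends in `S` -/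
def Rs {V : Type} (G : SimpleGraph V) (S : Set V) : SimpleGraph V where
  Adj u v := G.Adj u v ∧ u ∈ S ∧ v ∈ S
  symm := ⟨fun _ _ h => ⟨h.1.symm, h.2.2, h.2.1⟩⟩
  loopless := ⟨fun _ h => G.loopless.irrefl _ h.1⟩

/-- `p 0, p 1, ..., p r` is a path -/
structure Pth {V : Type} (G : SimpleGraph V) (p : ℕ → V) (r : ℕ) : Prop where
  adj : ∀ i, i < r → G.Adj (p i) (p (i + 1))
  inj : ∀ i j, i ≤ r → j ≤ r → p i = p j → i = j

open Classical in
/-- the vertices `p i, ..., p j` -/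
noncomputable def Sg {V : Type} (p : ℕ → V) (i j : ℕ) : Finset V := (Finset.Icc i j).image p

/-- nonempty sets without terminals have at least four neighbours -/
def Hf {V : Type} [Fintype V] (G : SimpleGraph V) (W : Finset V) (a a' b b' : V) : Prop :=
  ∀ D ⊆ W, D.Nonempty → (∀ v ∈ D, v ∉ Xs a a' b b') → 4 ≤ (Nb G D).card

/-- the terminals as a function -/
def xx {V : Type} (a a' b b' : V) : Fin 4 → V := ![a, a', b, b']

/-- four disjoint paths from the terminals to the neighbourhood of `D` -/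
structure Fo {V : Type} [Fintype V] (G : SimpleGraph V) (D : Finset V) (a a' b b' : V)
    (P : Fin 4 → Finset V) (τ : Fin 4 → V) : Prop where
  x : ∀ i, xx a a' b b' i ∈ P i
  t : ∀ i, τ i ∈ P i
  tn : ∀ i, τ i ∈ Nb G D
  un : ∀ i, ∀ v ∈ P i, v ∈ Nb G D → v = τ i
  jn : ∀ i, Jn G (P i : Set V) (xx a a' b b' i) (τ i)
  nd : ∀ i, ∀ v ∈ P i, v ∉ D
  dj : ∀ i j, i ≠ j → ∀ v ∈ P i, v ∉ P j

open Classical in
/-- `p, p'` and `q, q'` can be linked through `D` -/
def Fb {V : Type} (G : SimpleGraph V) (D : Finset V) (p p' q q' : V) : Prop :=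
  ∃ A B : Finset V, A ⊆ insert p (insert p' D) ∧ B ⊆ insert q (insert q' D) ∧ Lkg G p p' q q' A B

/-- `D` is replaced by a clique on its neighbourhood -/
def Kq {V : Type} [Fintype V] (G : SimpleGraph V) (D : Finset V) : SimpleGraph V :=
  SimpleGraph.fromRel fun u v => (u ∉ D ∧ v ∉ D ∧ G.Adj u v) ∨ (u ∈ Nb G D ∧ v ∈ Nb G D)

/-- `D` is replaced by a wheel with centre `d` and rim `z1 z2 z3 z4` -/
def Wh {V : Type} (G : SimpleGraph V) (D : Finset V) (d z1 z2 z3 z4 : V) : SimpleGraph V :=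
  SimpleGraph.fromRel fun u v => (u ∉ D ∧ v ∉ D ∧ G.Adj u v) ∨
    (u = d ∧ (v = z1 ∨ v = z2 ∨ v = z3 ∨ v = z4)) ∨ (u = z1 ∧ v = z2) ∨ (u = z2 ∧ v = z3) ∨
    (u = z3 ∧ v = z4) ∨ (u = z4 ∧ v = z1)

/-- `v` is contracted into `u` -/
def Ct {V : Type} (G : SimpleGraph V) (u v : V) : SimpleGraph V :=
  SimpleGraph.fromRel fun x y => x ≠ v ∧ y ≠ v ∧ (G.Adj x y ∨ (x = u ∧ G.Adj v y))

open Classical in
/-- the neighbours of `v` that are lost when `v` is contracted into `u` -/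
noncomputable def Cc {V : Type} [Fintype V] (G : SimpleGraph V) (X : Finset V) (u v : V) : Finset V :=
  (Nb G {v}).filter fun b => b ≠ u ∧ (G.Adj u b ∨ (u ∈ X ∧ b ∈ X))

/-! ### Basic facts -/

section

variable {V : Type}

theorem mem_Nb [Fintype V] {G : SimpleGraph V} {D : Finset V} {v : V} :
    v ∈ Nb G D ↔ v ∉ D ∧ ∃ u ∈ D, G.Adj u v := by
  classical
  unfold Nb
  rw [Finset.mem_filter]
  exact ⟨fun h => h.2, fun h => ⟨Finset.mem_univ _, h⟩⟩

theorem mem_Ed [Fintype V] {G : SimpleGraph V} {D : Finset V} {e : Sym2 V} :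
    e ∈ Ed G D ↔ e ∈ G.edgeSet ∧ ∃ u ∈ D, u ∈ e := by
  classical
  unfold Ed
  rw [Finset.mem_filter]
  exact ⟨fun h => h.2, fun h => ⟨Finset.mem_univ _, h⟩⟩

theorem mem_Xs {a a' b b' v : V} : v ∈ Xs a a' b b' ↔ v = a ∨ v = a' ∨ v = b ∨ v = b' := by
  classical
  unfold Xs
  simp only [Finset.mem_insert, Finset.mem_singleton]

theorem card_Xs {a a' b b' : V} (h : Ds a a' b b') : (Xs a a' b b').card = 4 := by
  classical
  unfold Xs
  rw [Finset.card_insert_of_notMem (by simp [h.h1, h.h2, h.h3]),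
    Finset.card_insert_of_notMem (by simp [h.h4, h.h5]), Finset.card_pair h.h6]

theorem Xs_swap (a a' b b' : V) : Xs b b' a a' = Xs a a' b b' := by
  ext v
  rw [mem_Xs, mem_Xs]
  tauto

theorem Xs_flip (a a' b b' : V) : Xs a' a b b' = Xs a a' b b' := by
  ext v
  rw [mem_Xs, mem_Xs]
  tauto

theorem Xs_flip' (a a' b b' : V) : Xs a a' b' b = Xs a a' b b' := by
  ext v
  rw [mem_Xs, mem_Xs]
  tauto

theorem Ds.swap {a a' b b' : V} (h : Ds a a' b b') : Ds b b' a a' :=
  ⟨h.h6, h.h2.symm, h.h4.symm, h.h3.symm, h.h5.symm, h.h1⟩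

theorem Ds.flip {a a' b b' : V} (h : Ds a a' b b') : Ds a' a b b' :=
  ⟨h.h1.symm, h.h4, h.h5, h.h2, h.h3, h.h6⟩

theorem Ds.flip' {a a' b b' : V} (h : Ds a a' b b') : Ds a a' b' b :=
  ⟨h.h1, h.h3, h.h2, h.h5, h.h4, h.h6.symm⟩

theorem Lkg.swap {G : SimpleGraph V} {a a' b b' : V} {P Q : Finset V} (h : Lkg G a a' b b' P Q) :
    Lkg G b b' a a' Q P := ⟨fun v hv hv' => h.dj v hv' hv, h.jq, h.jp⟩

theorem Lkg.flip {G : SimpleGraph V} {a a' b b' : V} {P Q : Finset V} (h : Lkg G a a' b b' P Q) :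
    Lkg G a' a b b' P Q := ⟨h.dj, h.jp.symm, h.jq⟩

theorem Lkg.flip' {G : SimpleGraph V} {a a' b b' : V} {P Q : Finset V} (h : Lkg G a a' b b' P Q) :
    Lkg G a a' b' b P Q := ⟨h.dj, h.jp, h.jq.symm⟩

theorem Jn.left_mem {G : SimpleGraph V} {P : Set V} {u v : V} (h : Jn G P u v) : u ∈ P := by
  obtain ⟨w, hw⟩ := h
  exact hw _ w.start_mem_support

theorem Jn.right_mem {G : SimpleGraph V} {P : Set V} {u v : V} (h : Jn G P u v) : v ∈ P :=
  Jn.left_mem h.symm

theorem Jn.of_le {G H : SimpleGraph V} (hGH : G ≤ H) {P : Set V} {u v : V} (h : Jn G P u v) : Jn H P u v := by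
  obtain ⟨w, hw⟩ := h
  exact ⟨w.mapLe hGH, fun x hx => hw x (by simpa [Walk.mapLe] using hx)⟩

theorem Rs_le (G : SimpleGraph V) (S : Set V) : Rs G S ≤ G := fun _ _ h => h.1

theorem Ins.right {G : SimpleGraph V} {W : Finset V} (h : Ins G W) {a b : V} (hab : G.Adj a b) : b ∈ W :=
  h b a hab.symm

theorem Nb_subset [Fintype V] {G : SimpleGraph V} {W : Finset V} (h : Ins G W) (D : Finset V) :
    Nb G D ⊆ W := by
  intro v hv
  obtain ⟨_, u, _, huv⟩ := mem_Nb.1 hv
  exact h.right huv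

theorem Cn.union {G : SimpleGraph V} [DecidableEq V] {D E : Finset V} (hD : Cn G D) (hE : Cn G E) {u v : V}
    (hu : u ∈ D) (hv : v ∈ E) (h : u = v ∨ G.Adj u v) : Cn G (D ∪ E) := by
  have hDE : (D : Set V) ⊆ ((D ∪ E : Finset V) : Set V) := by
    rw [Finset.coe_union]
    exact Set.subset_union_left
  have hED : (E : Set V) ⊆ ((D ∪ E : Finset V) : Set V) := by
    rw [Finset.coe_union]
    exact Set.subset_union_right
  have huv : Jn G ((D ∪ E : Finset V) : Set V) u v := by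
    rcases h with rfl | h
    · exact Jn.refl (hDE hu)
    · exact Jn.of_adj h (hDE hu) (hED hv)
  have key : ∀ x ∈ D ∪ E, Jn G ((D ∪ E : Finset V) : Set V) x u := by
    intro x hx
    rcases Finset.mem_union.1 hx with hx | hx
    · exact (hD.2 x hx u hu).mono hDE
    · exact ((hE.2 x hx v hv).mono hED).trans huv.symm
  refine ⟨⟨u, Finset.mem_union_left _ hu⟩, fun x hx y hy => (key x hx).trans (key y hy).symm⟩

/-- a walk that leaves `D` uses a neighbour of `D` -/
theorem Jn.exit [Fintype V] {G : SimpleGraph V} {P : Set V} {D : Finset V} {u v : V} (h : Jn G P u v)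
    (hu : u ∈ D) (hv : v ∉ D) : ∃ x ∈ Nb G D, x ∈ P := by
  obtain ⟨w, hw⟩ := h
  induction w with
  | nil => exact absurd hu hv
  | @cons u u' v hadj p ih =>
    have h1 : ∀ x ∈ p.support, x ∈ P := fun x hx => hw x (by
      rw [Walk.support_cons]; exact List.mem_cons_of_mem _ hx)
    by_cases h : u' ∈ D
    · exact ih h hv h1
    · exact ⟨u', mem_Nb.2 ⟨h, u, hu, hadj⟩, h1 _ p.start_mem_support⟩

/-- a connected set disjoint from the neighbourhood of `D` lies inside `D` or outside -/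
theorem Cn.full [Fintype V] {G : SimpleGraph V} {D E : Finset V} (hE : Cn G E) (h : ∀ v ∈ E, v ∉ Nb G D)
    {u : V} (hu : u ∈ E) (huD : u ∈ D) : E ⊆ D := by
  intro v hv
  by_contra hvD
  obtain ⟨x, hx, hxE⟩ := Jn.exit (hE.2 u hu v hv) huD hvD
  exact h x (by simpa using hxE) hx

theorem mem_Sg {p : ℕ → V} {i j : ℕ} {v : V} : v ∈ Sg p i j ↔ ∃ l, i ≤ l ∧ l ≤ j ∧ p l = v := by
  classical
  unfold Sg
  simp only [Finset.mem_image, Finset.mem_Icc, and_assoc]

theorem Pth.jn {G : SimpleGraph V} {p : ℕ → V} {r : ℕ} (h : Pth G p r) {i j : ℕ} (hij : i ≤ j) (hj : j ≤ r) :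
    Jn G ((Sg p i j : Finset V) : Set V) (p i) (p j) := by
  induction j, hij using Nat.le_induction with
  | base => exact Jn.refl (by simpa using mem_Sg.2 ⟨i, le_refl _, le_refl _, rfl⟩)
  | succ j hij ih =>
    have h1 : ((Sg p i j : Finset V) : Set V) ⊆ ((Sg p i (j + 1) : Finset V) : Set V) := by
      intro v hv
      rw [Finset.mem_coe, mem_Sg] at hv ⊢
      obtain ⟨l, h1, h2, h3⟩ := hv
      exact ⟨l, h1, by omega, h3⟩
    refine ((ih (by omega)).mono h1).trans (Jn.of_adj (h.adj j (by omega)) ?_ ?_)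
    · rw [Finset.mem_coe, mem_Sg]
      exact ⟨j, hij, by omega, rfl⟩
    · rw [Finset.mem_coe, mem_Sg]
      exact ⟨j + 1, by omega, le_refl _, rfl⟩

theorem Pth.cn {G : SimpleGraph V} {p : ℕ → V} {r : ℕ} (h : Pth G p r) {i j : ℕ} (hij : i ≤ j) (hj : j ≤ r) :
    Cn G (Sg p i j) := by
  refine ⟨⟨p i, mem_Sg.2 ⟨i, le_refl _, hij, rfl⟩⟩, ?_⟩
  have key : ∀ v ∈ Sg p i j, Jn G ((Sg p i j : Finset V) : Set V) (p i) v := by
    intro v hv
    obtain ⟨l, h1, h2, rfl⟩ := mem_Sg.1 hv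
    refine (h.jn h1 (by omega)).mono fun x hx => ?_
    rw [Finset.mem_coe, mem_Sg] at hx ⊢
    obtain ⟨l', h3, h4, h5⟩ := hx
    exact ⟨l', h3, by omega, h5⟩
  exact fun u hu v hv => (key u hu).symm.trans (key v hv)

end

end Pool.Agent.JNG
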