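import Mathlib
import Pool.Agent.JNG.Defs

/-!
Definitions for the second part of JNG: the strip around a vertex `h` of large degree.
-/

set_option autoImplicit false

namespace Pool.Agent.JNG

open SimpleGraph Pool.Agent.LNK

/-- `G` is 6-connected on the active set `W` -/
structure Six {V : Type} [Fintype V] (G : SimpleGraph V) (W : Finset V) : Prop where
  ins : Ins G W
  six : ∀ D ⊆ W, D.Nonempty → (∃ w ∈ W, w ∉ D ∧ w ∉ Nb G D) → 6 ≤ (Nb G D).card
  deg : ∀ v ∈ W, 6 ≤ (Nb G {v}).card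

open Classical in
/-- every linkage misses fewer than `m` of the neighbours `U` of `h` -/
structure Bd {V : Type} [Fintype V] (G : SimpleGraph V) (W : Finset V) (a a' b b' h : V) (U : Finset V)
    (m : ℕ) : Prop where
  six : Six G W
  ds : Ds a a' b b'
  xw : ∀ v ∈ Xs a a' b b', v ∈ W
  hu : ∀ u ∈ U, G.Adj h u
  ux : ∀ u ∈ U, u ∉ Xs a a' b b'
  bd : ∀ P Q : Finset V, Lkg G a a' b b' P Q → (U \ (P ∪ Q)).card < m

/-- an induced path `p 0, ..., p r` from `a` to `a'` through `h = p c` -/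
structure Tp {V : Type} (G : SimpleGraph V) (a a' h : V) (p : ℕ → V) (r c : ℕ) : Prop where
  pth : Pth G p r
  p0 : p 0 = a
  pr : p r = a'
  pc : p c = h
  cr : c ≤ r
  ind : ∀ i j, i ≤ r → j ≤ r → G.Adj (p i) (p j) → i = j + 1 ∨ j = i + 1

open Classical in
/-- the vertices outside `S` of level between `i` and `j` -/
noncomputable def Ly {V : Type} (W S : Finset V) (idx : V → ℕ) (i j : ℕ) : Finset V :=
  W.filter fun v => v ∉ S ∧ i ≤ idx v ∧ idx v ≤ j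

open Classical in
/-- a chain: the graph `G - S` is divided into levels `0, ..., T + 1` -/
structure Ch {V : Type} [Fintype V] (G : SimpleGraph V) (W S : Finset V) (b b' : V) (U : Finset V)
    (idx : V → ℕ) (T : ℕ) : Prop where
  T1 : 1 ≤ T
  le : ∀ v ∈ W, v ∉ S → idx v ≤ T + 1
  stp : ∀ u v, u ∉ S → v ∉ S → G.Adj u v → idx v ≤ idx u + 1
  ib : idx b = 0
  ib' : idx b' = T + 1
  cn : ∀ i j, 1 ≤ i → i ≤ j → j ≤ T → Cn G (Ly W S idx i j)
  cl : ∃ L : Finset V, b ∈ L ∧ L ⊆ Ly W S idx 0 0 ∧ Cn G (L ∪ Ly W S idx 1 1)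
  cr : ∃ R : Finset V, b' ∈ R ∧ R ⊆ Ly W S idx (T + 1) (T + 1) ∧ Cn G (R ∪ Ly W S idx T T)
  uu : ∀ i, 1 ≤ i → i ≤ T → ∃ u ∈ U, u ∈ Ly W S idx i i
  att : ∀ i, 1 ≤ i → i ≤ T → 4 ≤ (Nb G (Ly W S idx i i) ∩ S).card

/-- a strip: a chain which is attached to the path `p` monotonically and only before `h = p c` -/
structure St {V : Type} [Fintype V] (G : SimpleGraph V) (W : Finset V) (p : ℕ → V) (r c : ℕ) (b b' : V)
    (U : Finset V) (idx : V → ℕ) (T : ℕ) : Prop where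
  ch : Ch G W (Sg p 0 r) b b' U idx T
  minus : ∀ l, 1 ≤ l → l ≤ T → ∀ x, c < x → x ≤ r → p x ∉ Nb G (Ly W (Sg p 0 r) idx l l)
  mono : ∀ l l', 1 ≤ l → l < l' → l' ≤ T → ∀ x x', x < c → x' < c →
    p x ∈ Nb G (Ly W (Sg p 0 r) idx l l) → p x' ∈ Nb G (Ly W (Sg p 0 r) idx l' l') → x ≤ x'

/-- the standing hypotheses of the safety lemma -/
structure Cx {V : Type} [Fintype V] (G : SimpleGraph V) (W : Finset V) (a a' b b' h : V) (U : Finset V)
    (p : ℕ → V) (r c : ℕ) (idx : V → ℕ) (T : ℕ) (Y : Finset V) : Prop where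
  six : Six G W
  ds : Ds a a' b b'
  xw : ∀ v ∈ Xs a a' b b', v ∈ W
  hu : ∀ u ∈ U, G.Adj h u
  ux : ∀ u ∈ U, u ∉ Xs a a' b b'
  tp : Tp G a a' h p r c
  st : St G W p r c b b' U idx T
  yw : ∀ y ∈ Y, y ∈ W ∧ y ∉ Sg p 0 r ∧ 6 ≤ idx y ∧ idx y + 5 ≤ T
  ys : ∀ y ∈ Y, ∀ y' ∈ Y, y ≠ y' → idx y + 6 ≤ idx y' ∨ idx y' + 6 ≤ idx y

open Classical in
/-- a bad set: connected, without terminals, with at most three neighbours outside `Y` -/
structure Bad {V : Type} [Fintype V] (G : SimpleGraph V) (W : Finset V) (a a' b b' : V) (Y D : Finset V) :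
    Prop where
  cn : Cn G D
  dw : D ⊆ W
  dx : ∀ v ∈ D, v ∉ Xs a a' b b'
  dy : ∀ v ∈ D, v ∉ Y
  nb : (Nb G D \ Y).card ≤ 3

/-- cut vertices `q (e 0), ..., q (e T)` of `G - p` on the path `q` -/
structure Cu {V : Type} (G : SimpleGraph V) (S : Finset V) (q : ℕ → V) (s : ℕ) (e : ℕ → ℕ) (T : ℕ)
    (U : Finset V) : Prop where
  lt : ∀ i, i < T → e i < e (i + 1)
  e0 : 0 < e 0
  eT : e T < s
  cut : ∀ i, i ≤ T → ∀ x y, x < e i → e i < y → y ≤ s → ¬ Jn G {v | v ∉ S ∧ v ≠ q (e i)} (q x) (q y)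
  uu : ∀ i, i < T → ∃ j, e i < j ∧ j < e (i + 1) ∧ q j ∈ U

open Classical in
/-- the level of a vertex: the number of cut vertices that separate it from `q 0` -/
noncomputable def ix {V : Type} (G : SimpleGraph V) (S : Finset V) (q : ℕ → V) (e : ℕ → ℕ) (T : ℕ) (v : V) : ℕ :=
  ((Finset.range (T + 1)).filter fun i => ¬ Jn G {x | x ∉ S ∧ x ≠ q (e i)} (q 0) v).card

section

variable {V : Type}

theorem mem_Ly {W S : Finset V} {idx : V → ℕ} {i j : ℕ} {v : V} :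
    v ∈ Ly W S idx i j ↔ v ∈ W ∧ v ∉ S ∧ i ≤ idx v ∧ idx v ≤ j := by
  classical
  unfold Ly
  rw [Finset.mem_filter]

theorem Bd.swap [Fintype V] {G : SimpleGraph V} {W : Finset V} {a a' b b' h : V} {U : Finset V} {m : ℕ}
    (H : Bd G W a a' b b' h U m) : Bd G W b b' a a' h U m := by
  classical
  refine ⟨H.six, H.ds.swap, ?_, H.hu, ?_, fun P Q hPQ => ?_⟩
  · rw [Xs_swap]
    exact H.xw
  · rw [Xs_swap]
    exact H.ux
  · rw [Finset.union_comm]
    exact H.bd Q P hPQ.swap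

theorem Bd.flip [Fintype V] {G : SimpleGraph V} {W : Finset V} {a a' b b' h : V} {U : Finset V} {m : ℕ}
    (H : Bd G W a a' b b' h U m) : Bd G W a' a b b' h U m := by
  classical
  refine ⟨H.six, H.ds.flip, ?_, H.hu, ?_, fun P Q hPQ => H.bd P Q hPQ.flip⟩
  · rw [Xs_flip]
    exact H.xw
  · rw [Xs_flip]
    exact H.ux

theorem Bd.flip' [Fintype V] {G : SimpleGraph V} {W : Finset V} {a a' b b' h : V} {U : Finset V} {m : ℕ}
    (H : Bd G W a a' b b' h U m) : Bd G W a a' b' b h U m := by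
  classical
  refine ⟨H.six, H.ds.flip', ?_, H.hu, ?_, fun P Q hPQ => H.bd P Q hPQ.flip'⟩
  · rw [Xs_flip']
    exact H.xw
  · rw [Xs_flip']
    exact H.ux

open Classical in
/-- the left part of a chain up to level `j` is connected -/
theorem Ch.left [Fintype V] {G : SimpleGraph V} {W S : Finset V} {b b' : V} {U : Finset V} {idx : V → ℕ}
    {T : ℕ} (H : Ch G W S b b' U idx T) : ∃ L : Finset V, b ∈ L ∧ L ⊆ Ly W S idx 0 0 ∧
    ∀ j, 1 ≤ j → j ≤ T → Cn G (L ∪ Ly W S idx 1 j) := by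
  obtain ⟨L, hb, hL, hc⟩ := H.cl
  refine ⟨L, hb, hL, fun j hj hjT => ?_⟩
  obtain ⟨u, _, hu⟩ := H.uu 1 (le_refl _) H.T1
  have h1 : (L ∪ Ly W S idx 1 1) ∪ Ly W S idx 1 j = L ∪ Ly W S idx 1 j := by
    ext v
    simp only [Finset.mem_union, mem_Ly]
    constructor
    · rintro ((h | ⟨h2, h3, h4, h5⟩) | h)
      · exact Or.inl h
      · exact Or.inr ⟨h2, h3, h4, h5.trans hj⟩
      · exact Or.inr h
    · rintro (h | h)
      · exact Or.inl (Or.inl h)
      · exact Or.inr h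
  rw [← h1]
  refine hc.union (H.cn 1 j (le_refl _) hj hjT) (Finset.mem_union_right _ hu) (v := u) ?_ (Or.inl rfl)
  rw [mem_Ly] at hu ⊢
  exact ⟨hu.1, hu.2.1, hu.2.2.1, hu.2.2.2.trans hj⟩

open Classical in
/-- the right part of a chain from level `i` on is connected -/
theorem Ch.right [Fintype V] {G : SimpleGraph V} {W S : Finset V} {b b' : V} {U : Finset V} {idx : V → ℕ}
    {T : ℕ} (H : Ch G W S b b' U idx T) : ∃ R : Finset V, b' ∈ R ∧ R ⊆ Ly W S idx (T + 1) (T + 1) ∧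
    ∀ i, 1 ≤ i → i ≤ T → Cn G (R ∪ Ly W S idx i T) := by
  obtain ⟨R, hb, hR, hc⟩ := H.cr
  refine ⟨R, hb, hR, fun i hi hiT => ?_⟩
  obtain ⟨u, _, hu⟩ := H.uu T H.T1 (le_refl _)
  have h1 : (R ∪ Ly W S idx T T) ∪ Ly W S idx i T = R ∪ Ly W S idx i T := by
    ext v
    simp only [Finset.mem_union, mem_Ly]
    constructor
    · rintro ((h | ⟨h2, h3, h4, h5⟩) | h)
      · exact Or.inl h
      · exact Or.inr ⟨h2, h3, hiT.trans h4, h5⟩
      · exact Or.inr h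
    · rintro (h | h)
      · exact Or.inl (Or.inl h)
      · exact Or.inr h
  rw [← h1]
  refine hc.union (H.cn i T hi hiT (le_refl _)) (Finset.mem_union_right _ hu) (v := u) ?_ (Or.inl rfl)
  rw [mem_Ly] at hu ⊢
  exact ⟨hu.1, hu.2.1, hiT.trans hu.2.2.1, hu.2.2.2⟩

end

end Pool.Agent.JNG
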