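import Mathlib
import Pool.Agent.JNG.Defs2

/-!
From the connectivity of G to the hypothesis Six after deleting A0.
Proof. Let H = Cof G A0, W = the complement of A0. `ins`: clear. `six`: let D be inside W, nonempty, w in W
outside D and outside Nb H D, and suppose card (Nb H D) is at most 5. Let Z = A0 + Nb H D, with fewer than
2 k + 2 elements (2 k - 4 + 5). Take u in D. u and w are not in Z, so Jn G (complement of Z) u w. The walk
leaves D (w is not in D) at some edge x y with x in D, y not in D and y not in Z, so y is not in A0, and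
x y is an edge of H, y in Nb H D, a contradiction.
`deg`: let v be in W. If some w in W is different from v and not in Nb H {v}, use `six` with D = {v}. Otherwise
Nb H {v} is W minus v, which has at least card V - (2 k - 4) - 1 elements, at least 7.
-/

set_option autoImplicit false

namespace Pool.Agent.JNG

open SimpleGraph Pool.Agent.LNK

open Classical in
theorem six_of {V : Type} [Fintype V] {G : SimpleGraph V} {k : ℕ} (A0 : Finset V) (hA : A0.card + 4 = 2 * k)
    (hV : 2 * k + 8 ≤ Fintype.card V)
    (hG : ∀ Z : Finset V, Z.card < 2 * k + 2 → ∀ u v, u ∉ Z → v ∉ Z → Jn G {x | x ∉ Z} u v) :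
    Six (Cof G (A0 : Set V)) (Finset.univ \ A0) := by
  have hW : ∀ v, v ∈ Finset.univ \ A0 ↔ v ∉ A0 := by
    intro v
    rw [Finset.mem_sdiff]
    exact ⟨fun h => h.2, fun h => ⟨Finset.mem_univ v, h⟩⟩
  have hadj : ∀ u v, (Cof G (A0 : Set V)).Adj u v ↔ G.Adj u v ∧ u ∉ A0 ∧ v ∉ A0 := by
    intro u v
    exact Iff.rfl
  have six : ∀ D ⊆ Finset.univ \ A0, D.Nonempty →
      (∃ w ∈ Finset.univ \ A0, w ∉ D ∧ w ∉ Nb (Cof G (A0 : Set V)) D) →
      6 ≤ (Nb (Cof G (A0 : Set V)) D).card := by
    intro D hD hne hw
    obtain ⟨w, hwW, hwD, hwN⟩ := hw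
    obtain ⟨u, hu⟩ := hne
    by_contra hlt
    have hZ : (A0 ∪ Nb (Cof G (A0 : Set V)) D).card < 2 * k + 2 := by
      have := Finset.card_union_le A0 (Nb (Cof G (A0 : Set V)) D)
      omega
    have huZ : u ∉ A0 ∪ Nb (Cof G (A0 : Set V)) D := by
      rw [Finset.mem_union]
      rintro (h | h)
      · exact (hW u).1 (hD hu) h
      · exact (mem_Nb.1 h).1 hu
    have hwZ : w ∉ A0 ∪ Nb (Cof G (A0 : Set V)) D := by
      rw [Finset.mem_union]
      rintro (h | h)
      · exact (hW w).1 hwW h
      · exact hwN h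
    obtain ⟨p, hp⟩ := hG _ hZ u w huZ hwZ
    have key : ∀ {x y : V} (p : G.Walk x y), (∀ z ∈ p.support, z ∈ {x | x ∉ A0 ∪
        Nb (Cof G (A0 : Set V)) D}) → x ∈ D → y ∉ D → False := by
      intro x y p
      induction p with
      | nil => exact fun _ h1 h2 => h2 h1
      | @cons x x' y hxx p ih =>
        intro hs hx hy
        have hx' : x' ∉ A0 ∪ Nb (Cof G (A0 : Set V)) D :=
          hs x' (by rw [Walk.support_cons]; exact List.mem_cons_of_mem _ p.start_mem_support)
        rw [Finset.mem_union] at hx'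
        push Not at hx'
        by_cases hxD : x' ∈ D
        · exact ih (fun z hz => hs z (by rw [Walk.support_cons]; exact List.mem_cons_of_mem _ hz))
            hxD hy
        · exact hx'.2 (mem_Nb.2 ⟨hxD, x, hx, (hadj _ _).2 ⟨hxx, (hW x).1 (hD hx), hx'.1⟩⟩)
    exact key p hp hu hwD
  refine ⟨?_, six, ?_⟩
  · intro x y hxy
    exact (hW x).2 ((hadj x y).1 hxy).2.1
  · intro v hv
    by_cases hw : ∃ w ∈ Finset.univ \ A0, w ∉ ({v} : Finset V) ∧ w ∉ Nb (Cof G (A0 : Set V)) {v}
    · exact six {v} (Finset.singleton_subset_iff.2 hv) (Finset.singleton_nonempty v) hw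
    · push Not at hw
      have hsub : (Finset.univ \ A0).erase v ⊆ Nb (Cof G (A0 : Set V)) {v} := by
        intro w hw'
        rw [Finset.mem_erase] at hw'
        exact hw w hw'.2 (by rw [Finset.mem_singleton]; exact hw'.1)
      have h1 := Finset.card_le_card hsub
      have h2 : (Finset.univ \ A0).card - 1 ≤ ((Finset.univ \ A0).erase v).card :=
        Finset.pred_card_le_card_erase
      have h3 : (Finset.univ \ A0).card = Fintype.card V - A0.card := by
        rw [Finset.card_sdiff_of_subset (Finset.subset_univ _), Finset.card_univ]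
      omega

end Pool.Agent.JNG
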