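import Mathlib
import Pool.Agent.JNG.Defs

/-!
Assembly when all pairs but two consist of vertices of A0.
Proof. Choose an injection f from the indices other than i1, i2 into U minus (P + Q). Put C i1 = P, C i2 = Q and
C i = {s i, t i, f i} for the others. `LNK.paths_of_sets`: C i joins s i to t i (f i is adjacent to both); disjoint: P, Q by
hypothesis; P, Q avoid A0 and the f i; s i, t i in A0, which is disjoint from U (hAU: a vertex is not adjacent to itself), s, t
injective together.
-/

set_option autoImplicit false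

namespace Pool.Agent.JNG

open SimpleGraph Pool.Agent.LNK

open Classical in
theorem spc {V : Type} {G : SimpleGraph V} {k : ℕ} {A0 U : Finset V} (hAU : ∀ a ∈ A0, ∀ u ∈ U, G.Adj a u)
    {s t : Fin k → V} (hst : Function.Injective (Sum.elim s t)) {i1 i2 : Fin k} (hi : i1 ≠ i2)
    (ho : ∀ i, i ≠ i1 → i ≠ i2 → s i ∈ A0 ∧ t i ∈ A0) {P Q : Finset V} (hd : ∀ v ∈ P, v ∉ Q)
    (hP : Jn G (P : Set V) (s i1) (t i1)) (hQ : Jn G (Q : Set V) (s i2) (t i2)) (hPA : ∀ v ∈ P, v ∉ A0)
    (hQA : ∀ v ∈ Q, v ∉ A0) (hk : k ≤ (U \ (P ∪ Q)).card) :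
    ∃ p : ∀ i, G.Walk (s i) (t i), (∀ i, (p i).IsPath) ∧
      ∀ i j, i ≠ j → ∀ v, v ∈ (p i).support → v ∉ (p j).support := by
  have hAd : ∀ v, v ∈ A0 → v ∉ U := fun v hv hv' => (hAU v hv v hv').ne rfl
  obtain ⟨f⟩ : Nonempty (Fin k ↪ {u // u ∈ U \ (P ∪ Q)}) := by
    apply Function.Embedding.nonempty_of_card_le
    rw [Fintype.card_coe, Fintype.card_fin]
    exact hk
  have hf : ∀ i, (f i).1 ∈ U ∧ (f i).1 ∉ P ∧ (f i).1 ∉ Q := by
    intro i
    obtain ⟨e1, e2⟩ := Finset.mem_sdiff.1 (f i).2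
    rw [Finset.mem_union] at e2
    push Not at e2
    exact ⟨e1, e2.1, e2.2⟩
  have hss : ∀ i j, s i = s j → i = j := by
    intro i j hij
    have h1 : Sum.elim s t (Sum.inl i) = Sum.elim s t (Sum.inl j) := hij
    exact Sum.inl_injective (hst h1)
  have htt : ∀ i j, t i = t j → i = j := by
    intro i j hij
    have h1 : Sum.elim s t (Sum.inr i) = Sum.elim s t (Sum.inr j) := hij
    exact Sum.inr_injective (hst h1)
  have hs't : ∀ i j, s i ≠ t j := by
    intro i j hij
    have h1 : Sum.elim s t (Sum.inl i) = Sum.elim s t (Sum.inr j) := hij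
    exact absurd (hst h1) (by simp)
  obtain ⟨C, hC1, hC2, hC3⟩ : ∃ C : Fin k → Set V, C i1 = (P : Set V) ∧ C i2 = (Q : Set V) ∧
      ∀ i, i ≠ i1 → i ≠ i2 → C i = {v | v = s i ∨ v = t i ∨ v = (f i).1} := by
    refine ⟨fun i => if i = i1 then (P : Set V) else if i = i2 then (Q : Set V) else
      {v | v = s i ∨ v = t i ∨ v = (f i).1}, ?_, ?_, ?_⟩
    · simp
    · simp [hi.symm]
    · intro i h1 h2
      simp [h1, h2]
  have hCm : ∀ i, i ≠ i1 → i ≠ i2 → ∀ v ∈ C i, v = s i ∨ v = t i ∨ v = (f i).1 := by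
    intro i h1 h2 v hv
    rw [hC3 i h1 h2] at hv
    exact hv
  have hCP : ∀ i, i ≠ i1 → i ≠ i2 → ∀ v ∈ C i, v ∉ P ∧ v ∉ Q := by
    intro i h1 h2 v hv
    obtain ⟨e1, e2⟩ := ho i h1 h2
    rcases hCm i h1 h2 v hv with rfl | rfl | rfl
    · exact ⟨fun h => hPA _ h e1, fun h => hQA _ h e1⟩
    · exact ⟨fun h => hPA _ h e2, fun h => hQA _ h e2⟩
    · exact (hf i).2
  refine paths_of_sets s t C (fun i => ?_) fun i j hij v hv hv' => ?_
  · by_cases h1 : i = i1
    · subst h1
      rw [hC1]
      exact hP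
    · by_cases h2 : i = i2
      · subst h2
        rw [hC2]
        exact hQ
      · rw [hC3 i h1 h2]
        obtain ⟨e1, e2⟩ := ho i h1 h2
        have m1 : s i ∈ {v | v = s i ∨ v = t i ∨ v = (f i).1} := Or.inl rfl
        have m2 : t i ∈ {v | v = s i ∨ v = t i ∨ v = (f i).1} := Or.inr (Or.inl rfl)
        have m3 : (f i).1 ∈ {v | v = s i ∨ v = t i ∨ v = (f i).1} := Or.inr (Or.inr rfl)
        exact (Jn.of_adj (hAU _ e1 _ (hf i).1) m1 m3).trans (Jn.of_adj (hAU _ e2 _ (hf i).1).symm m3 m2)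
  · by_cases h1 : i = i1
    · by_cases h2 : j = i1
      · exact hij (h1.trans h2.symm)
      · rw [h1, hC1] at hv
        by_cases h3 : j = i2
        · rw [h3, hC2] at hv'
          exact hd v (by simpa using hv) (by simpa using hv')
        · exact (hCP j h2 h3 v hv').1 (by simpa using hv)
    · by_cases h2 : i = i2
      · rw [h2, hC2] at hv
        by_cases h3 : j = i1
        · rw [h3, hC1] at hv'
          exact hd v (by simpa using hv') (by simpa using hv)
        · by_cases h4 : j = i2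
          · exact hij (h2.trans h4.symm)
          · exact (hCP j h3 h4 v hv').2 (by simpa using hv)
      · by_cases h3 : j = i1
        · rw [h3, hC1] at hv'
          exact (hCP i h1 h2 v hv).1 (by simpa using hv')
        · by_cases h4 : j = i2
          · rw [h4, hC2] at hv'
            exact (hCP i h1 h2 v hv).2 (by simpa using hv')
          · obtain ⟨a1, a2⟩ := ho i h1 h2
            obtain ⟨b1, b2⟩ := ho j h3 h4
            rcases hCm i h1 h2 v hv with rfl | rfl | rfl <;> rcases hCm j h3 h4 _ hv' with hv' | hv' | hv'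
            · exact hij (hss _ _ hv')
            · exact hs't _ _ hv'
            · exact hAd _ a1 (hv' ▸ (hf j).1)
            · exact hs't _ _ hv'.symm
            · exact hij (htt _ _ hv')
            · exact hAd _ a2 (hv' ▸ (hf j).1)
            · exact hAd _ b1 (hv' ▸ (hf i).1)
            · exact hAd _ b2 (hv' ▸ (hf i).1)
            · exact hij (f.injective (Subtype.ext hv'))

end Pool.Agent.JNG
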