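import Mathlib
import Pool.Agent.JNG.Defs2

/-!
A cut vertex of G - p in a window of q that contains many vertices of U.
Proof. Let S = Sg p 0 r, J = Rs G (complement of S), A = {q 0, .., q i}, B = {q j, .., q s}.
Claim: there are no two disjoint walks of J from A to B. Suppose w1, w2 are such (paths, `Lkd J A B 2`).
Truncate: let w1' be a part of w1 from its last vertex in A before its first vertex in B, so that w1' starts
at q x (x <= i), ends at q y (y >= j) and has no other vertex in A + B; similarly w2'. The set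
Q' = Sg q 0 x + (vertices of w1') + Sg q y s joins b to b' and is disjoint from P = Sg p 0 r (J avoids S; q is
disjoint from p); P, Q' is a linkage, so it misses fewer than m vertices of U. The vertices q l with
i < l < j, q l in U are not in Sg q 0 x, not in Sg q y s (q injective), so fewer than m of them are not on w1'.
The same for w2'. As w1', w2' are disjoint, every such vertex is missed by w1' or by w2': fewer than 2 m of
them in total, against hm.
By Menger (`LNK.menger`, contraposition) there is Z with Sep J A B Z and at most one element. q i, .., q j is a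
walk of J from A to B, so Z is not empty and Z = {q l} for some i <= l <= j. Finally let e < l < f <= s and
suppose Jn G {v | v not in S, v not q l} (q e) (q f). Then q 0 or q e is in A minus q l: walk along q from
q 0 to q e avoiding q l (e < l), so q 0 in A reaches q e, then q f, then q s in B (along q, f > l) in J avoiding
q l, against Sep.
-/

set_option autoImplicit false

namespace Pool.Agent.JNG

open SimpleGraph Pool.Agent.LNK

private theorem rs_supp {V : Type} {G : SimpleGraph V} {S : Set V} {u v : V} (w : (Rs G S).Walk u v) :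
    u ∈ S → ∀ x ∈ w.support, x ∈ S := by
  induction w with
  | nil =>
    intro h x hx
    rw [Walk.support_nil, List.mem_singleton] at hx
    rw [hx]
    exact h
  | cons hadj p ih =>
    intro h x hx
    rw [Walk.support_cons, List.mem_cons] at hx
    rcases hx with rfl | hx
    · exact h
    · exact ih hadj.2.2 x hx

private theorem rch_rs {V : Type} {G : SimpleGraph V} {S A Z : Set V} {u v : V} (w : G.Walk u v) :
    (∀ x ∈ w.support, x ∈ S ∧ x ∉ Z) → Rch (Rs G S) A Z u → Rch (Rs G S) A Z v := by
  induction w with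
  | nil => intro _ h; exact h
  | @cons u v' v hadj p ih =>
    intro hs h
    have h1 := hs u (Walk.start_mem_support _)
    have h2 := hs v' (by rw [Walk.support_cons]; exact List.mem_cons_of_mem _ p.start_mem_support)
    exact ih (fun x hx => hs x (by rw [Walk.support_cons]; exact List.mem_cons_of_mem _ hx))
      (Rch.step u v' h ⟨hadj, h1.1, h2.1⟩ h2.2)

private theorem rch_along {V : Type} {G : SimpleGraph V} {S A Z : Set V} {q : ℕ → V} {s : ℕ} (hq : Pth G q s)
    {e f : ℕ} (hef : e ≤ f) (hf : f ≤ s) (h : ∀ l, e ≤ l → l ≤ f → q l ∈ S ∧ q l ∉ Z)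
    (h0 : Rch (Rs G S) A Z (q e)) : Rch (Rs G S) A Z (q f) := by
  obtain ⟨w, hw⟩ := hq.jn hef hf
  refine rch_rs w (fun x hx => ?_) h0
  have h1 := hw x hx
  rw [Finset.mem_coe, mem_Sg] at h1
  obtain ⟨l, h2, h3, rfl⟩ := h1
  exact h l h2 h3

open Classical in
theorem win {V : Type} [Fintype V] {G : SimpleGraph V} {W : Finset V} {a a' b b' h : V} {U : Finset V}
    {m : ℕ} (H : Bd G W a a' b b' h U m) {p q : ℕ → V} {r c s : ℕ} (hp : Tp G a a' h p r c) (hq : Pth G q s)
    (hq0 : q 0 = b) (hqs : q s = b') (hd : ∀ i j, i ≤ r → j ≤ s → p i ≠ q j) {i j : ℕ} (hij : i < j)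
    (hj : j ≤ s) (hm : 2 * m ≤ ((Finset.Ioo i j).filter fun l => q l ∈ U).card) :
    ∃ l, i ≤ l ∧ l ≤ j ∧ ∀ e f, e < l → l < f → f ≤ s →
      ¬ Jn G {v | v ∉ Sg p 0 r ∧ v ≠ q l} (q e) (q f) := by
  obtain ⟨S, hS⟩ : ∃ S : Set V, S = {v | v ∉ Sg p 0 r} := ⟨_, rfl⟩
  have hqS : ∀ l, l ≤ s → q l ∈ S := by
    intro l hl
    rw [hS]
    intro hcon
    obtain ⟨x, _, hx, hxl⟩ := mem_Sg.1 hcon
    exact hd x l hx hl hxl
  obtain ⟨A, hA⟩ : ∃ A : Set V, A = {v | ∃ x, x ≤ i ∧ q x = v} := ⟨_, rfl⟩
  obtain ⟨B, hB⟩ : ∃ B : Set V, B = {v | ∃ y, j ≤ y ∧ y ≤ s ∧ q y = v} := ⟨_, rfl⟩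
  have key : ∀ (u v : V) (w : (Rs G S).Walk u v), u ∈ A → v ∈ B →
      (((Finset.Ioo i j).filter fun l => q l ∈ U).filter fun l => q l ∉ w.support).card < m := by
    intro u v w hu hv
    rw [hA] at hu
    rw [hB] at hv
    obtain ⟨x, hx, hxu⟩ := hu
    obtain ⟨y, hy, hys, hyv⟩ := hv
    have hws : ∀ z ∈ w.support, z ∈ S := rs_supp w (by rw [← hxu]; exact hqS x (by omega))
    have hj1 : Jn G ((Sg q 0 x ∪ w.support.toFinset ∪ Sg q y s : Finset V) : Set V) b b' := by
      have e1 : Jn G ((Sg q 0 x ∪ w.support.toFinset ∪ Sg q y s : Finset V) : Set V) (q 0) (q x) :=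
        (hq.jn (Nat.zero_le x) (by omega)).mono (by
          intro z hz
          simp only [Finset.coe_union]
          exact Or.inl (Or.inl hz))
      have e2 : Jn G ((Sg q 0 x ∪ w.support.toFinset ∪ Sg q y s : Finset V) : Set V) (q x) (q y) := by
        rw [hxu, hyv]
        refine ⟨w.mapLe (Rs_le G S), fun z hz => ?_⟩
        have hz' : z ∈ w.support := by simpa [Walk.mapLe] using hz
        simp only [Finset.coe_union]
        exact Or.inl (Or.inr (by simpa using hz'))
      have e3 : Jn G ((Sg q 0 x ∪ w.support.toFinset ∪ Sg q y s : Finset V) : Set V) (q y) (q s) :=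
        (hq.jn hys (le_refl s)).mono (by
          intro z hz
          simp only [Finset.coe_union]
          exact Or.inr hz)
      rw [← hq0, ← hqs]
      exact (e1.trans e2).trans e3
    have hl : Lkg G a a' b b' (Sg p 0 r) (Sg q 0 x ∪ w.support.toFinset ∪ Sg q y s) := by
      refine ⟨?_, ?_, hj1⟩
      · intro z hz hz'
        rw [Finset.mem_union, Finset.mem_union, List.mem_toFinset] at hz'
        rcases hz' with (hz' | hz') | hz'
        · obtain ⟨l, _, h2, rfl⟩ := mem_Sg.1 hz'
          have := hqS l (by omega)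
          rw [hS] at this
          exact this hz
        · have := hws z hz'
          rw [hS] at this
          exact this hz
        · obtain ⟨l, _, h2, rfl⟩ := mem_Sg.1 hz'
          have := hqS l h2
          rw [hS] at this
          exact this hz
      · have e1 := hp.pth.jn (Nat.zero_le r) (le_refl r)
        rw [hp.p0, hp.pr] at e1
        exact e1
    refine lt_of_le_of_lt ?_ (H.bd _ _ hl)
    refine Finset.card_le_card_of_injOn q ?_ ?_
    · intro l hl'
      rw [Finset.mem_coe, Finset.mem_filter, Finset.mem_filter, Finset.mem_Ioo] at hl'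
      obtain ⟨⟨⟨h1, h2⟩, h3⟩, h4⟩ := hl'
      rw [Finset.mem_coe, Finset.mem_sdiff]
      refine ⟨h3, fun hcon => ?_⟩
      rw [Finset.mem_union, Finset.mem_union, Finset.mem_union, List.mem_toFinset] at hcon
      rcases hcon with hcon | (hcon | hcon) | hcon
      · have := hqS l (by omega)
        rw [hS] at this
        exact this hcon
      · obtain ⟨l', h5, h6, h7⟩ := mem_Sg.1 hcon
        have := hq.inj l' l (by omega) (by omega) h7
        omega
      · exact h4 hcon
      · obtain ⟨l', h5, h6, h7⟩ := mem_Sg.1 hcon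
        have := hq.inj l' l (by omega) (by omega) h7
        omega
    · intro l hl' l' hl'' hll
      rw [Finset.mem_coe, Finset.mem_filter, Finset.mem_filter, Finset.mem_Ioo] at hl' hl''
      exact hq.inj l l' (by omega) (by omega) hll
  have hnl : ¬ Lkd (Rs G S) A B 2 := by
    rintro ⟨u, v, w, hu, hv, _, hdj⟩
    have h1 := key _ _ (w 0) (hu 0) (hv 0)
    have h2 := key _ _ (w 1) (hu 1) (hv 1)
    have h3 : ((Finset.Ioo i j).filter fun l => q l ∈ U) ⊆
        (((Finset.Ioo i j).filter fun l => q l ∈ U).filter fun l => q l ∉ (w 0).support) ∪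
        (((Finset.Ioo i j).filter fun l => q l ∈ U).filter fun l => q l ∉ (w 1).support) := by
      intro l hl
      rw [Finset.mem_union]
      by_cases h4 : q l ∈ (w 0).support
      · exact Or.inr (Finset.mem_filter.2 ⟨hl, hdj 0 1 (by decide) _ h4⟩)
      · exact Or.inl (Finset.mem_filter.2 ⟨hl, h4⟩)
    have h4 := (Finset.card_le_card h3).trans (Finset.card_union_le _ _)
    omega
  obtain ⟨Z, hZ, hZc⟩ : ∃ Z : Finset V, Sep (Rs G S) A B Z ∧ Z.card < 2 := by
    by_contra hcon
    push Not at hcon
    exact hnl (menger _ _ _ _ hcon)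
  obtain ⟨l, hil, hlj, hlZ⟩ : ∃ l, i ≤ l ∧ l ≤ j ∧ q l ∈ Z := by
    by_contra hcon
    push Not at hcon
    refine hZ (q j) (by rw [hB]; exact ⟨j, le_refl _, hj, rfl⟩) ?_
    refine rch_along hq hij.le hj (fun l h1 h2 => ⟨hqS l (by omega), by simpa using hcon l h1 h2⟩) ?_
    exact Rch.base _ (by rw [hA]; exact ⟨i, le_refl _, rfl⟩) (by simpa using hcon i (le_refl _) hij.le)
  have hZ1 : ∀ z ∈ Z, z = q l := by
    intro z hz
    exact Finset.card_le_one.1 (by omega) z hz (q l) hlZ
  refine ⟨l, hil, hlj, fun e f hel hlf hfs hcon => ?_⟩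
  have hne : ∀ x, x ≤ s → x ≠ l → q x ∉ (Z : Set V) := by
    intro x hx hxl hcon'
    exact hxl (hq.inj x l hx (by omega) (hZ1 _ (by simpa using hcon')))
  refine hZ (q s) (by rw [hB]; exact ⟨s, hj, le_refl _, rfl⟩) ?_
  refine rch_along hq hfs (le_refl s) (fun x h1 h2 => ⟨hqS x h2, hne x h2 (by omega)⟩) ?_
  obtain ⟨w, hw⟩ := hcon
  refine rch_rs w (fun x hx => ?_) ?_
  · have h1 := hw x hx
    refine ⟨?_, fun h2 => h1.2 (hZ1 _ (by simpa using h2))⟩
    rw [hS]
    exact h1.1
  · refine rch_along hq (Nat.zero_le e) (by omega) (fun x h1 h2 => ⟨hqS x (by omega), hne x (by omega) (by omega)⟩) ?_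
    exact Rch.base _ (by rw [hA]; exact ⟨0, Nat.zero_le _, rfl⟩) (hne 0 (by omega) (by omega))

end Pool.Agent.JNG
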