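import Mathlib
import Pool.Agent.JNG.Defs2
import Pool.Agent.JNG.WIN

/-!
Many cut vertices on q.
Proof. P = Sg p 0 r and Q = Sg q 0 s form a linkage, so fewer than m vertices of U are outside P + Q. U meets P in
at most 2 vertices (the neighbours of h = p c on the induced path p are among p (c-1), p (c+1)). So the set
I of the indices l <= s with q l in U has at least (T + 1)(2 m + 3) elements. Enumerate the first
(T + 1)(2 m + 3) elements of I increasingly: n 0 < n 1 < ... (orderEmbOfFin or Nat.nth). For t <= T the window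
i = n (t (2m+3)), j = n (t (2m+3) + 2m + 1) has 2 m indices of I strictly inside; `win` gives e t in it, and
n (t (2m+3) + 2m + 2) lies strictly between e t and e (t+1) (for t < T). e 0 > 0 because e 0 >= n 0 and q 0 = b is
not in U; e T < s because e T is at most n ((T+1)(2m+3) - 2) which is less than an index of I, at most s.
For t > T let e t be anything.
-/

set_option autoImplicit false

namespace Pool.Agent.JNG

open SimpleGraph Pool.Agent.LNK

/-- an increasing enumeration of a finite set of natural numbers -/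
theorem cuts_enum (I : Finset ℕ) : ∃ n : ℕ → ℕ, (∀ k, k < I.card → n k ∈ I) ∧
    ∀ k k', k < k' → k' < I.card → n k < n k' := by
  refine ⟨fun k => if h : k < I.card then I.orderEmbOfFin rfl ⟨k, h⟩ else 0, ?_, ?_⟩
  · intro k hk
    simp only [hk, dif_pos]
    exact Finset.orderEmbOfFin_mem I rfl _
  · intro k k' h1 h2
    have h3 : k < I.card := h1.trans h2
    simp only [h2, h3, dif_pos]
    exact (I.orderEmbOfFin rfl).strictMono (by simpa using h1)

theorem cuts {V : Type} [Fintype V] {G : SimpleGraph V} {W : Finset V} {a a' b b' h : V} {U : Finset V}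
    {m : ℕ} (H : Bd G W a a' b b' h U m) {p q : ℕ → V} {r c s : ℕ} (hp : Tp G a a' h p r c) (hq : Pth G q s)
    (hq0 : q 0 = b) (hqs : q s = b') (hd : ∀ i j, i ≤ r → j ≤ s → p i ≠ q j) (T : ℕ)
    (hU : (T + 1) * (2 * m + 3) + m + 3 ≤ U.card) : ∃ e : ℕ → ℕ, Cu G (Sg p 0 r) q s e T U := by
  classical
  have hL : Lkg G a a' b b' (Sg p 0 r) (Sg q 0 s) := by
    refine ⟨?_, ?_, ?_⟩
    · intro v hv hv'
      obtain ⟨l, _, hl, rfl⟩ := mem_Sg.1 hv
      obtain ⟨l', _, hl', h1⟩ := mem_Sg.1 hv'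
      exact hd l l' hl hl' h1.symm
    · have := hp.pth.jn (Nat.zero_le r) le_rfl
      rwa [hp.p0, hp.pr] at this
    · have := hq.jn (Nat.zero_le s) le_rfl
      rwa [hq0, hqs] at this
  have h1 : (U \ (Sg p 0 r ∪ Sg q 0 s)).card < m := H.bd _ _ hL
  have h2 : (U ∩ Sg p 0 r).card ≤ 2 := by
    refine (Finset.card_le_card (t := {p (c - 1), p (c + 1)}) ?_).trans Finset.card_le_two
    intro v hv
    obtain ⟨hv1, hv2⟩ := Finset.mem_inter.1 hv
    obtain ⟨l, _, hl, rfl⟩ := mem_Sg.1 hv2
    have hadj := H.hu _ hv1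
    rw [← hp.pc] at hadj
    rw [Finset.mem_insert, Finset.mem_singleton]
    rcases hp.ind c l hp.cr hl hadj with h | h
    · left
      rw [h, Nat.add_sub_cancel]
    · right
      rw [h]
  obtain ⟨I, hI⟩ : ∃ I : Finset ℕ, I = (Finset.range (s + 1)).filter (fun l => q l ∈ U) := ⟨_, rfl⟩
  have h3 : (U ∩ Sg q 0 s).card ≤ I.card := by
    refine (Finset.card_le_card (t := I.image q) ?_).trans Finset.card_image_le
    intro v hv
    obtain ⟨hv1, hv2⟩ := Finset.mem_inter.1 hv
    obtain ⟨l, _, hl, rfl⟩ := mem_Sg.1 hv2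
    rw [hI]
    exact Finset.mem_image.2 ⟨l, Finset.mem_filter.2 ⟨Finset.mem_range.2 (by omega), hv1⟩, rfl⟩
  have h4 : U.card ≤ (U \ (Sg p 0 r ∪ Sg q 0 s)).card + (U ∩ Sg p 0 r).card +
      (U ∩ Sg q 0 s).card := by
    refine (Finset.card_le_card (t := (U \ (Sg p 0 r ∪ Sg q 0 s)) ∪ (U ∩ Sg p 0 r) ∪
      (U ∩ Sg q 0 s)) ?_).trans ((Finset.card_union_le _ _).trans
        (Nat.add_le_add_right (Finset.card_union_le _ _) _))
    intro v hv
    simp only [Finset.mem_union, Finset.mem_sdiff, Finset.mem_inter]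
    by_cases hP : v ∈ Sg p 0 r
    · exact Or.inl (Or.inr ⟨hv, hP⟩)
    · by_cases hQ : v ∈ Sg q 0 s
      · exact Or.inr ⟨hv, hQ⟩
      · exact Or.inl (Or.inl ⟨hv, fun h => h.elim hP hQ⟩)
  have h5 : (T + 1) * (2 * m + 3) ≤ I.card := by omega
  obtain ⟨n, hn1, hn2⟩ := cuts_enum I
  have hIm : ∀ l, l ∈ I ↔ l ≤ s ∧ q l ∈ U := by
    intro l
    rw [hI, Finset.mem_filter, Finset.mem_range, Nat.lt_succ_iff]
  have hK : ∀ t, t ≤ T → t * (2 * m + 3) + 2 * m + 3 ≤ I.card := by
    intro t ht
    have h6 : (t + 1) * (2 * m + 3) ≤ (T + 1) * (2 * m + 3) := Nat.mul_le_mul_right _ (by omega)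
    have h7 : (t + 1) * (2 * m + 3) = t * (2 * m + 3) + 2 * m + 3 := by ring
    omega
  have hwin : ∀ t, ∃ l, t ≤ T → n (t * (2 * m + 3)) ≤ l ∧ l ≤ n (t * (2 * m + 3) + 2 * m + 1) ∧
      ∀ e f, e < l → l < f → f ≤ s → ¬ Jn G {v | v ∉ Sg p 0 r ∧ v ≠ q l} (q e) (q f) := by
    intro t
    by_cases ht : t ≤ T
    · have hk := hK t ht
      have hj := hn1 (t * (2 * m + 3) + 2 * m + 1) (by omega)
      obtain ⟨l, hl1, hl2, hl3⟩ := win H hp hq hq0 hqs hd
        (hn2 (t * (2 * m + 3)) (t * (2 * m + 3) + 2 * m + 1) (by omega) (by omega))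
        ((hIm _).1 hj).1 (by
          have h8 : ((Finset.Ioo (t * (2 * m + 3)) (t * (2 * m + 3) + 2 * m + 1)).image n).card =
              2 * m := by
            rw [Finset.card_image_of_injOn, Nat.card_Ioo]
            · omega
            · intro x hx y hy hxy
              have hx' := Finset.mem_Ioo.1 (Finset.mem_coe.1 hx)
              have hy' := Finset.mem_Ioo.1 (Finset.mem_coe.1 hy)
              rcases lt_trichotomy x y with h9 | h9 | h9
              · have := hn2 x y h9 (by omega)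
                exact absurd hxy (by omega)
              · exact h9
              · have := hn2 y x h9 (by omega)
                exact absurd hxy (by omega)
          refine h8.symm.le.trans (Finset.card_le_card ?_)
          intro v hv
          obtain ⟨x, hx, rfl⟩ := Finset.mem_image.1 hv
          have hx' := Finset.mem_Ioo.1 hx
          refine Finset.mem_filter.2 ⟨Finset.mem_Ioo.2 ⟨hn2 _ _ hx'.1 (by omega),
            hn2 _ _ hx'.2 (by omega)⟩, ((hIm _).1 (hn1 x (by omega))).2⟩)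
      exact ⟨l, fun _ => ⟨hl1, hl2, hl3⟩⟩
    · exact ⟨0, fun h => absurd h ht⟩
  choose e he using hwin
  refine ⟨e, ?_, ?_, ?_, ?_, ?_⟩
  · intro i hi
    have h6 := (he i hi.le).2.1
    have h7 := (he (i + 1) hi).1
    have hk := hK (i + 1) hi
    have h8 : (i + 1) * (2 * m + 3) = i * (2 * m + 3) + 2 * m + 3 := by ring
    rw [h8] at h7 hk
    have h9 := hn2 (i * (2 * m + 3) + 2 * m + 1) (i * (2 * m + 3) + 2 * m + 3) (by omega) (by omega)
    omega
  · have h6 := (he 0 (Nat.zero_le _)).1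
    have hk := hK 0 (Nat.zero_le _)
    have h7 := (hIm _).1 (hn1 (0 * (2 * m + 3)) (by omega))
    rcases Nat.eq_zero_or_pos (e 0) with h8 | h8
    · have h9 : n (0 * (2 * m + 3)) = 0 := by omega
      rw [h9, hq0] at h7
      exact absurd (mem_Xs.2 (Or.inr (Or.inr (Or.inl rfl)))) (H.ux b h7.2)
    · exact h8
  · have h6 := (he T le_rfl).2.1
    have hk := hK T le_rfl
    have h7 := (hIm _).1 (hn1 (T * (2 * m + 3) + 2 * m + 2) (by omega))
    have h8 := hn2 (T * (2 * m + 3) + 2 * m + 1) (T * (2 * m + 3) + 2 * m + 2) (by omega) (by omega)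
    omega
  · intro i hi x y hx hy hys
    exact (he i hi).2.2 x y hx hy hys
  · intro i hi
    have h6 := (he i hi.le).2.1
    have h7 := (he (i + 1) hi).1
    have hk := hK (i + 1) hi
    have h8 : (i + 1) * (2 * m + 3) = i * (2 * m + 3) + 2 * m + 3 := by ring
    rw [h8] at h7 hk
    have h9 := hn2 (i * (2 * m + 3) + 2 * m + 1) (i * (2 * m + 3) + 2 * m + 2) (by omega) (by omega)
    have h10 := hn2 (i * (2 * m + 3) + 2 * m + 2) (i * (2 * m + 3) + 2 * m + 3) (by omega) (by omega)
    exact ⟨n (i * (2 * m + 3) + 2 * m + 2), by omega, by omega,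
      ((hIm _).1 (hn1 _ (by omega))).2⟩

end Pool.Agent.JNG
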