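import Mathlib
import Pool.Agent.JNG.Defs2

/-!
The levels. Write J for G - S and L i for the set of v with Jn G {x | x not in S, x not q (e i)} (q 0) v.
Proof. (1) For i < T: L i is inside L (i+1): let w be a walk from q 0 to v avoiding S and q (e i). If it avoids
q (e (i+1)) we are done. Otherwise it gives Jn G {..} (q 0) (q (e (i+1))) avoiding q (e i), against `cut` with
x = 0 < e 0 <= e i and y = e (i+1) > e i (at most s). So for i <= j <= T L i is inside L j.
(2) ix v is the number of i <= T with v not in L i, and by (1) these i form an initial segment of 0, .., T. So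
v in L i iff ix v <= i: if v in L i then v in L j for all j from i to T, so ix v <= i; if v is not in L i then
v is not in L j for all j <= i, so ix v >= i + 1.
-/

set_option autoImplicit false

namespace Pool.Agent.JNG

open SimpleGraph Pool.Agent.LNK

theorem cu_mono {V : Type} {G : SimpleGraph V} {S U : Finset V} {q : ℕ → V} {s T : ℕ} {e : ℕ → ℕ}
    (h : Cu G S q s e T U) {i j : ℕ} (hij : i ≤ j) (hj : j ≤ T) : e i ≤ e j := by
  induction j, hij using Nat.le_induction with
  | base => exact le_refl _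
  | succ j hij ih => exact (ih (by omega)).trans (h.lt j (by omega)).le

theorem cu_pos {V : Type} {G : SimpleGraph V} {S U : Finset V} {q : ℕ → V} {s T : ℕ} {e : ℕ → ℕ}
    (h : Cu G S q s e T U) {i : ℕ} (hi : i ≤ T) : 0 < e i :=
  lt_of_lt_of_le h.e0 (cu_mono h (Nat.zero_le i) hi)

theorem cu_lt {V : Type} {G : SimpleGraph V} {S U : Finset V} {q : ℕ → V} {s T : ℕ} {e : ℕ → ℕ}
    (h : Cu G S q s e T U) {i : ℕ} (hi : i ≤ T) : e i < s :=
  lt_of_le_of_lt (cu_mono h hi (le_refl T)) h.eT

theorem lam_step {V : Type} {G : SimpleGraph V} {S U : Finset V} {q : ℕ → V} {s T : ℕ} {e : ℕ → ℕ}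
    (h : Cu G S q s e T U) {i : ℕ} (hi : i < T) {v : V}
    (hv : Jn G {x | x ∉ S ∧ x ≠ q (e i)} (q 0) v) :
    Jn G {x | x ∉ S ∧ x ≠ q (e (i + 1))} (q 0) v := by
  classical
  by_contra hc
  obtain ⟨w, hw⟩ := hv
  have hm : q (e (i + 1)) ∈ w.support := by
    by_contra hn
    exact hc ⟨w, fun x hx => ⟨(hw x hx).1, fun h' => hn (h' ▸ hx)⟩⟩
  refine h.cut i hi.le 0 (e (i + 1)) (cu_pos h hi.le) (h.lt i hi) (cu_lt h hi).le
    ⟨w.takeUntil _ hm, fun x hx => hw x (w.support_takeUntil_subset_support hm hx)⟩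

theorem lam_mono {V : Type} {G : SimpleGraph V} {S U : Finset V} {q : ℕ → V} {s T : ℕ} {e : ℕ → ℕ}
    (h : Cu G S q s e T U) {i j : ℕ} (hij : i ≤ j) (hj : j ≤ T) {v : V}
    (hv : Jn G {x | x ∉ S ∧ x ≠ q (e i)} (q 0) v) :
    Jn G {x | x ∉ S ∧ x ≠ q (e j)} (q 0) v := by
  induction j, hij using Nat.le_induction with
  | base => exact hv
  | succ j hij ih => exact lam_step h (by omega) (ih (by omega))

theorem lam {V : Type} {G : SimpleGraph V} {S U : Finset V} {q : ℕ → V} {s T : ℕ} {e : ℕ → ℕ}
    (h : Cu G S q s e T U) {i : ℕ} (hi : i ≤ T) (v : V) :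
    Jn G {x | x ∉ S ∧ x ≠ q (e i)} (q 0) v ↔ ix G S q e T v ≤ i := by
  classical
  constructor
  · intro hv
    unfold ix
    have : ((Finset.range (T + 1)).filter
        fun i => ¬ Jn G {x | x ∉ S ∧ x ≠ q (e i)} (q 0) v) ⊆ Finset.range i := by
      intro j hj
      rw [Finset.mem_filter, Finset.mem_range] at hj
      rw [Finset.mem_range]
      by_contra hc
      exact hj.2 (lam_mono h (not_lt.1 hc) (by omega) hv)
    have h2 := Finset.card_le_card this
    rw [Finset.card_range] at h2
    exact h2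
  · intro hv
    by_contra hc
    have : Finset.range (i + 1) ⊆ ((Finset.range (T + 1)).filter
        fun i => ¬ Jn G {x | x ∉ S ∧ x ≠ q (e i)} (q 0) v) := by
      intro j hj
      rw [Finset.mem_range] at hj
      rw [Finset.mem_filter, Finset.mem_range]
      exact ⟨by omega, fun h' => hc (lam_mono h (by omega) hi h')⟩
    have h2 := Finset.card_le_card this
    rw [Finset.card_range] at h2
    unfold ix at hv
    have h3 : i + 1 ≤ i := h2.trans hv
    omega

end Pool.Agent.JNG
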