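import Mathlib
import Pool.Agent.JNG.Defs2
import Pool.Agent.JNG.LAM

/-!
Elementary properties of the levels (hq: q is a path in G - S, hqS).
Proof. Use `lam`. L i = the vertices of level at most i, for i <= T.
(le) ix v is the size of a subset of range (T+1).
(q) Let x <= s. If x < e i then q x in L i (walk along q from 0 to x; q injective so q (e i) is avoided). If
x >= e i then q x is not in L i: x = e i: q (e i) is not allowed in the walk; x > e i: `cut` with q 0. So the level
of q x is the number of i <= T with e i <= x. In particular ix (q 0) = 0, ix (q s) = T + 1, and for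
e (i-1) <= x < e i the level is i.
(stp) Let u, v be outside S and adjacent. Suppose ix v >= ix u + 2, put i = ix u + 1, which is at most T
(ix v <= T + 1). u in L (i-1) and in L i. v is not in L i, although u is in L i and v is adjacent: so v = q (e i)
(otherwise extend the walk by v). Similarly v is not in L (i-1), u in L (i-1), so v = q (e (i-1)), but e (i-1) < e i
and q is injective, a contradiction.
-/

set_option autoImplicit false

namespace Pool.Agent.JNG

open SimpleGraph Pool.Agent.LNK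

theorem ix_le {V : Type} (G : SimpleGraph V) (S : Finset V) (q : ℕ → V) (e : ℕ → ℕ) (T : ℕ) (v : V) :
    ix G S q e T v ≤ T + 1 := by
  classical
  unfold ix
  exact (Finset.card_filter_le _ _).trans (le_of_eq (Finset.card_range _))

theorem ix_q {V : Type} {G : SimpleGraph V} {S U : Finset V} {q : ℕ → V} {s T : ℕ} {e : ℕ → ℕ}
    (h : Cu G S q s e T U) (hq : Pth G q s) (hqS : ∀ x, x ≤ s → q x ∉ S) {i x : ℕ} (hi : i ≤ T)
    (hx : x ≤ s) : ix G S q e T (q x) ≤ i ↔ x < e i := by
  rw [← lam h hi]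
  constructor
  · intro hj
    by_contra hc
    rcases Nat.eq_or_lt_of_le (not_lt.1 hc) with h1 | h1
    · exact (Jn.right_mem hj).2 (by rw [h1])
    · exact h.cut i hi 0 x (cu_pos h hi) h1 hx hj
  · intro hlt
    refine (hq.jn (Nat.zero_le x) hx).mono fun y hy => ?_
    rw [Finset.mem_coe, mem_Sg] at hy
    obtain ⟨l, _, hl, rfl⟩ := hy
    refine ⟨hqS l (by omega), fun hc => ?_⟩
    have := hq.inj l (e i) (by omega) (cu_lt h hi).le hc
    omega

theorem ix_ext {V : Type} {G : SimpleGraph V} {S U : Finset V} {q : ℕ → V} {s T : ℕ} {e : ℕ → ℕ}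
    (h : Cu G S q s e T U) {u v : V} (hv : v ∉ S) (huv : G.Adj u v) {i : ℕ} (hi : i ≤ T)
    (hu : ix G S q e T u ≤ i) (hne : v ≠ q (e i)) : ix G S q e T v ≤ i := by
  rw [← lam h hi] at hu ⊢
  exact hu.trans (Jn.of_adj huv (Jn.right_mem hu) ⟨hv, hne⟩)

theorem ix_stp {V : Type} {G : SimpleGraph V} {S U : Finset V} {q : ℕ → V} {s T : ℕ} {e : ℕ → ℕ}
    (h : Cu G S q s e T U) (hq : Pth G q s) {u v : V} (hv : v ∉ S)
    (huv : G.Adj u v) : ix G S q e T v ≤ ix G S q e T u + 1 := by
  by_contra hc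
  have hle := ix_le G S q e T v
  have hi : ix G S q e T u + 1 ≤ T := by omega
  have h1 : v = q (e (ix G S q e T u + 1)) := by
    by_contra hne
    exact hc (ix_ext h hv huv hi (by omega) hne)
  have h2 : v = q (e (ix G S q e T u)) := by
    by_contra hne
    have := ix_ext h hv huv (by omega : ix G S q e T u ≤ T) (le_refl _) hne
    omega
  have h3 := hq.inj _ _ (cu_lt h hi).le (cu_lt h (by omega : ix G S q e T u ≤ T)).le (h1.symm.trans h2)
  have h4 := h.lt (ix G S q e T u) (by omega)
  omega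

theorem lev {V : Type} {G : SimpleGraph V} {S U : Finset V} {q : ℕ → V} {s T : ℕ} {e : ℕ → ℕ}
    (h : Cu G S q s e T U) (hq : Pth G q s) (hqS : ∀ x, x ≤ s → q x ∉ S) :
    (∀ v, ix G S q e T v ≤ T + 1) ∧ ix G S q e T (q 0) = 0 ∧ ix G S q e T (q s) = T + 1 ∧
    (∀ i x, 1 ≤ i → i ≤ T → (ix G S q e T (q x) = i ∧ x ≤ s ↔ e (i - 1) ≤ x ∧ x < e i)) ∧
    ∀ u v, u ∉ S → v ∉ S → G.Adj u v → ix G S q e T v ≤ ix G S q e T u + 1 := by
  refine ⟨fun v => ix_le G S q e T v, ?_, ?_, ?_, fun u v _ hv huv => ix_stp h hq hv huv⟩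
  · exact Nat.le_zero.1 ((ix_q h hq hqS (Nat.zero_le T) (Nat.zero_le s)).2 h.e0)
  · have h1 := ix_le G S q e T (q s)
    have h2 : ¬ ix G S q e T (q s) ≤ T := by
      rw [ix_q h hq hqS (le_refl T) (le_refl s)]
      exact not_lt.2 h.eT.le
    omega
  · intro i x h1 hiT
    have hs := cu_lt h hiT
    constructor
    · rintro ⟨h2, h3⟩
      have g1 := (ix_q h hq hqS hiT h3).1 h2.le
      have g2 := (ix_q h hq hqS (by omega : i - 1 ≤ T) h3).not.1 (by omega)
      exact ⟨not_lt.1 g2, g1⟩
    · rintro ⟨h2, h3⟩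
      have hx : x ≤ s := by omega
      have g1 := (ix_q h hq hqS hiT hx).2 h3
      have g2 := (ix_q h hq hqS (by omega : i - 1 ≤ T) hx).not.2 (by omega)
      exact ⟨by omega, hx⟩

end Pool.Agent.JNG
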