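import Mathlib
import Pool.Agent.JNG.Defs2
import Pool.Agent.JNG.LAM
import Pool.Agent.JNG.LEV

/-!
Every level i (1 <= i <= T) has at least four neighbours in S.
Proof. Let d = q (e (i-1)), d' = q (e i) and M = the vertices v with Jn G {x | x not in S, x not d, x not d'}
(q y) v for some y with e (i-1) < y < e i. By `uu` there is such a y with q y in U, so M is nonempty. M is
inside level i: q y has level i by `lev`; along a walk avoiding S, d, d' the level does not change: if u has level i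
and u' is adjacent to u, outside S, not d, not d': u in L i and u' not d', so u' in L i; if u' were in L (i-1)
then, as u is not d, u would be in L (i-1) (`lam`), a contradiction. So the level of u' is i.
Nb G M is inside S + {d, d'}: a neighbour outside S, not d, d' is joined to q y as well.
M has no terminal outside M + Nb G M problem: b = q 0 is in W, not in M (level 0), and not in Nb G M: it is not in S
and not d, d' (e (i-1) > 0, q injective). So `six` (M inside W, w = b) gives card (Nb G M) at least 6, and at least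
4 of these are in S. Each is adjacent to M, so to level i, and it is not in level i because it is in S.
-/

set_option autoImplicit false

namespace Pool.Agent.JNG

open SimpleGraph Pool.Agent.LNK

/-- along a walk that avoids `S` and both cut vertices the level stays `i` -/
theorem lat_walk {V : Type} {G : SimpleGraph V} {W S U : Finset V} {q : ℕ → V} {s T : ℕ}
    {e : ℕ → ℕ} (hins : Ins G W) (h : Cu G S q s e T U) (i : ℕ) (hi : 1 ≤ i) (hiT : i ≤ T) {u v : V}
    (w : G.Walk u v) (hw : ∀ x ∈ w.support, x ∉ S ∧ x ≠ q (e (i - 1)) ∧ x ≠ q (e i))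
    (hu : ix G S q e T u = i) (huW : u ∈ W) : ix G S q e T v = i ∧ v ∈ W := by
  induction w with
  | nil => exact ⟨hu, huW⟩
  | @cons u u' v hadj p ih =>
    have h1 : ∀ x ∈ p.support, x ∉ S ∧ x ≠ q (e (i - 1)) ∧ x ≠ q (e i) := fun x hx => hw x (by
      rw [Walk.support_cons]; exact List.mem_cons_of_mem _ hx)
    have h2 := hw u (by rw [Walk.support_cons]; exact List.mem_cons_self)
    have h3 := h1 u' p.start_mem_support
    have h4 := ix_ext h h3.1 hadj hiT hu.le h3.2.2
    have h5 : ¬ ix G S q e T u' ≤ i - 1 := by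
      intro hc
      have := ix_ext h h2.1 hadj.symm (by omega : i - 1 ≤ T) hc h2.2.1
      omega
    exact ih h1 (by omega) (hins.right hadj)

open Classical in
theorem lat {V : Type} [Fintype V] {G : SimpleGraph V} {W S U : Finset V} {q : ℕ → V} {s T : ℕ}
    {e : ℕ → ℕ} (h6 : Six G W) (h : Cu G S q s e T U) (hq : Pth G q s) (hqS : ∀ x, x ≤ s → q x ∉ S)
    (hqW : q 0 ∈ W) (i : ℕ) (hi : 1 ≤ i) (hiT : i ≤ T) :
    4 ≤ (Nb G (Ly W S (ix G S q e T) i i) ∩ S).card := by
  obtain ⟨y, hy1, hy2, _⟩ := h.uu (i - 1) (by omega)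
  rw [show i - 1 + 1 = i by omega] at hy2
  have hs := cu_lt h hiT
  have hs' := cu_lt h (by omega : i - 1 ≤ T)
  obtain ⟨hl1, hl2, hl3, hl4, hl5⟩ := lev h hq hqS
  have hyi : ix G S q e T (q y) = i := ((hl4 i y hi hiT).2 ⟨hy1.le, hy2⟩).1
  have hyW : q y ∈ W := h6.ins _ _ (hq.adj y (by omega))
  have hyN : q y ∉ S ∧ q y ≠ q (e (i - 1)) ∧ q y ≠ q (e i) := by
    refine ⟨hqS y (by omega), fun hc => ?_, fun hc => ?_⟩
    · have := hq.inj _ _ (by omega) (by omega) hc
      omega
    · have := hq.inj _ _ (by omega) (by omega) hc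
      omega
  obtain ⟨M, hM⟩ : ∃ M : Finset V, ∀ v, v ∈ M ↔
      Jn G {x | x ∉ S ∧ x ≠ q (e (i - 1)) ∧ x ≠ q (e i)} (q y) v :=
    ⟨Finset.univ.filter fun v => Jn G {x | x ∉ S ∧ x ≠ q (e (i - 1)) ∧ x ≠ q (e i)} (q y) v,
      fun v => by rw [Finset.mem_filter]; exact ⟨fun h => h.2, fun h => ⟨Finset.mem_univ _, h⟩⟩⟩
  have hML : ∀ v ∈ M, v ∈ Ly W S (ix G S q e T) i i := by
    intro v hv
    obtain ⟨w, hw⟩ := (hM v).1 hv
    obtain ⟨h1, h2⟩ := lat_walk h6.ins h i hi hiT w hw hyi hyW
    rw [mem_Ly]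
    exact ⟨h2, (hw v w.end_mem_support).1, h1.ge, h1.le⟩
  have hMW : M ⊆ W := fun v hv => (mem_Ly.1 (hML v hv)).1
  have hMne : M.Nonempty := ⟨q y, (hM _).2 (Jn.refl hyN)⟩
  have hNb : ∀ v ∈ Nb G M, v ∉ S → v = q (e (i - 1)) ∨ v = q (e i) := by
    intro v hv hvS
    obtain ⟨hvM, u, huM, huv⟩ := mem_Nb.1 hv
    by_contra hc
    push Not at hc
    have h1 := (hM u).1 huM
    exact hvM ((hM v).2 (h1.trans (Jn.of_adj huv (Jn.right_mem h1) ⟨hvS, hc.1, hc.2⟩)))
  have h0S := hqS 0 (Nat.zero_le s)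
  have h6' := h6.six M hMW hMne ⟨q 0, hqW, fun hc => by
    have := mem_Ly.1 (hML _ hc)
    rw [hl2] at this
    omega, fun hc => by
    rcases hNb _ hc h0S with h1 | h1
    · have := hq.inj _ _ (Nat.zero_le s) hs'.le h1
      have := cu_pos h (by omega : i - 1 ≤ T)
      omega
    · have := hq.inj _ _ (Nat.zero_le s) hs.le h1
      have := cu_pos h hiT
      omega⟩
  have hsub : Nb G M ⊆ (Nb G (Ly W S (ix G S q e T) i i) ∩ S) ∪ {q (e (i - 1)), q (e i)} := by
    intro v hv
    by_cases hvS : v ∈ S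
    · refine Finset.mem_union_left _ (Finset.mem_inter.2 ⟨?_, hvS⟩)
      obtain ⟨hvM, u, huM, huv⟩ := mem_Nb.1 hv
      exact mem_Nb.2 ⟨fun hc => (mem_Ly.1 hc).2.1 hvS, u, hML u huM, huv⟩
    · refine Finset.mem_union_right _ ?_
      rw [Finset.mem_insert, Finset.mem_singleton]
      exact hNb v hv hvS
  have h7 := Finset.card_le_card hsub
  have h8 := Finset.card_union_le (Nb G (Ly W S (ix G S q e T) i i) ∩ S) {q (e (i - 1)), q (e i)}
  have h9 : ({q (e (i - 1)), q (e i)} : Finset V).card ≤ 2 := Finset.card_le_two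
  omega

end Pool.Agent.JNG
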