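import Mathlib
import Pool.Agent.JNG.Defs2
import Pool.Agent.JNG.LAM
import Pool.Agent.JNG.LEV

/-!
The levels i, .., j are connected (1 <= i <= j <= T).
Proof. It is enough to show that level i is connected for 1 <= i <= T, and that it contains q (e (i-1)) and
q (e i - 1), which is adjacent to q (e i) in level i + 1 (`lev`); then add the levels one after the other (Cn.union).
Level i: let v be outside S, in W, of level i: by `lam` there is a walk w from q 0 to v avoiding S and q (e i), and
none avoiding S and q (e (i-1)). So w visits d = q (e (i-1)); let w2 be the part of w after the last visit of d.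
Every vertex x of w2 is in L i (initial part of w). Every vertex x of w2 other than d is not in L (i-1): the rest
of w2 from x to v avoids d, so x in L (i-1) would give v in L (i-1). d itself is not in L (i-1). So w2 joins d
to v inside level i. (All vertices are in W by Ins because they have an edge, or v = d; d = q x has an edge.)
-/

set_option autoImplicit false

namespace Pool.Agent.JNG

open SimpleGraph Pool.Agent.LNK

theorem lcn_walk {V : Type} {G : SimpleGraph V} {W S U : Finset V} {q : ℕ → V} {s T : ℕ}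
    {e : ℕ → ℕ} (hins : Ins G W) (h : Cu G S q s e T U) (i : ℕ) (hi : 1 ≤ i) (hiT : i ≤ T) {u v : V}
    (w : G.Walk u v) : (∀ x ∈ w.support, x ∉ S ∧ x ≠ q (e i)) → ix G S q e T u ≤ i →
    ix G S q e T v = i → v ∈ W →
    Jn G ((Ly W S (ix G S q e T) i i : Finset V) : Set V) (q (e (i - 1))) v ∨
      (ix G S q e T u = i ∧ Jn G ((Ly W S (ix G S q e T) i i : Finset V) : Set V) u v) := by
  induction w with
  | @nil u =>
    intro hw hu hv hvW
    refine Or.inr ⟨hv, Jn.refl ?_⟩
    rw [Finset.mem_coe, mem_Ly]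
    exact ⟨hvW, (hw u (by simp)).1, hv.ge, hv.le⟩
  | @cons u u' v hadj p ih =>
    intro hw hu hv hvW
    have h1 : ∀ x ∈ p.support, x ∉ S ∧ x ≠ q (e i) := fun x hx => hw x (by
      rw [Walk.support_cons]; exact List.mem_cons_of_mem _ hx)
    have h2 := hw u (by rw [Walk.support_cons]; exact List.mem_cons_self)
    have h3 := h1 u' p.start_mem_support
    have h4 := ix_ext h h3.1 hadj hiT hu h3.2
    rcases ih h1 h4 hv hvW with h5 | ⟨h5, h6⟩
    · exact Or.inl h5
    · by_cases h7 : ix G S q e T u = i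
      · refine Or.inr ⟨h7, (Jn.of_adj hadj ?_ (Jn.left_mem h6)).trans h6⟩
        rw [Finset.mem_coe, mem_Ly]
        exact ⟨hins _ _ hadj, h2.1, h7.ge, h7.le⟩
      · have h8 : u' = q (e (i - 1)) := by
          by_contra hne
          have := ix_ext h h3.1 hadj (by omega : i - 1 ≤ T) (by omega) hne
          omega
        rw [← h8]
        exact Or.inl h6

theorem lcn_one {V : Type} [Fintype V] {G : SimpleGraph V} {W S U : Finset V} {q : ℕ → V} {s T : ℕ}
    {e : ℕ → ℕ} (hins : Ins G W) (h : Cu G S q s e T U) (hq : Pth G q s) (hqS : ∀ x, x ≤ s → q x ∉ S)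
    (i : ℕ) (hi : 1 ≤ i) (hiT : i ≤ T) : Cn G (Ly W S (ix G S q e T) i i) := by
  obtain ⟨hl1, hl2, hl3, hl4, hl5⟩ := lev h hq hqS
  have hs' := cu_lt h (by omega : i - 1 ≤ T)
  have hd : q (e (i - 1)) ∈ Ly W S (ix G S q e T) i i := by
    have h1 := h.lt (i - 1) (by omega)
    rw [show i - 1 + 1 = i by omega] at h1
    have h2 := ((hl4 i (e (i - 1)) hi hiT).2 ⟨le_refl _, h1⟩).1
    rw [mem_Ly]
    exact ⟨hins _ _ (hq.adj _ hs'), hqS _ hs'.le, h2.ge, h2.le⟩
  have key : ∀ v ∈ Ly W S (ix G S q e T) i i,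
      Jn G ((Ly W S (ix G S q e T) i i : Finset V) : Set V) (q (e (i - 1))) v := by
    intro v hv
    rw [mem_Ly] at hv
    obtain ⟨w, hw⟩ := (lam h hiT v).2 hv.2.2.2
    rcases lcn_walk hins h i hi hiT w hw (by rw [hl2]; exact Nat.zero_le _)
      (le_antisymm hv.2.2.2 hv.2.2.1) hv.1 with h1 | ⟨h1, _⟩
    · exact h1
    · rw [hl2] at h1
      omega
  exact ⟨⟨_, hd⟩, fun u hu v hv => (key u hu).symm.trans (key v hv)⟩

theorem lcn {V : Type} [Fintype V] {G : SimpleGraph V} {W S U : Finset V} {q : ℕ → V} {s T : ℕ}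
    {e : ℕ → ℕ} (hins : Ins G W) (h : Cu G S q s e T U) (hq : Pth G q s) (hqS : ∀ x, x ≤ s → q x ∉ S)
    (i j : ℕ) (hi : 1 ≤ i) (hij : i ≤ j) (hj : j ≤ T) : Cn G (Ly W S (ix G S q e T) i j) := by
  classical
  obtain ⟨hl1, hl2, hl3, hl4, hl5⟩ := lev h hq hqS
  induction j, hij using Nat.le_induction with
  | base => exact lcn_one hins h hq hqS i hi hj
  | succ j hij ih =>
    have ih' := ih (by omega)
    have h1 := lcn_one hins h hq hqS (j + 1) (by omega) hj
    have heq : Ly W S (ix G S q e T) i j ∪ Ly W S (ix G S q e T) (j + 1) (j + 1) =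
        Ly W S (ix G S q e T) i (j + 1) := by
      ext v
      rw [Finset.mem_union, mem_Ly, mem_Ly, mem_Ly]
      constructor
      · rintro (⟨g1, g2, g3, g4⟩ | ⟨g1, g2, g3, g4⟩)
        · exact ⟨g1, g2, g3, by omega⟩
        · exact ⟨g1, g2, by omega, g4⟩
      · rintro ⟨g1, g2, g3, g4⟩
        by_cases hv : ix G S q e T v ≤ j
        · exact Or.inl ⟨g1, g2, g3, hv⟩
        · exact Or.inr ⟨g1, g2, by omega, g4⟩
    rw [← heq]
    have hpos := cu_pos h (by omega : j ≤ T)
    have hlt := cu_lt h (by omega : j ≤ T)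
    have he1 := h.lt (j - 1) (by omega)
    rw [show j - 1 + 1 = j by omega] at he1
    have he2 := h.lt j (by omega)
    have hadj := hq.adj (e j - 1) (by omega)
    rw [show e j - 1 + 1 = e j by omega] at hadj
    have hu1 := ((hl4 j (e j - 1) (by omega) (by omega)).2 ⟨by omega, by omega⟩).1
    have hv1 := ((hl4 (j + 1) (e j) (by omega) hj).2 ⟨by simp, he2⟩).1
    refine ih'.union h1 (u := q (e j - 1)) (v := q (e j)) ?_ ?_ (Or.inr hadj)
    · rw [mem_Ly, hu1]
      exact ⟨hins _ _ hadj, hqS _ (by omega), hij, le_refl _⟩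
    · rw [mem_Ly, hv1]
      exact ⟨hins.right hadj, hqS _ hlt.le, le_refl _, le_refl _⟩

end Pool.Agent.JNG
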