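import Mathlib
import Pool.Agent.JNG.Defs2
import Pool.Agent.JNG.CUT
import Pool.Agent.JNG.LEV
import Pool.Agent.JNG.LCN
import Pool.Agent.JNG.LAT

/-!
The chain.
Proof. `cuts` gives e with Cu G S q s e T U, S = Sg p 0 r; idx = ix G S q e T. The fields: T1 is hT; le, stp, ib, ib'
from `lev` (q 0 = b, q s = b'); cn = `lcn`; att = `lat`; uu: for 1 <= i <= T the vertex q j in U with
e (i-1) < j < e i has level i (`lev`), and it is in W and not in S.
cl: L = Sg q 0 (e 0 - 1): contains b, level 0 (`lev`: q x with x < e 0 is in L 0, see `lam`, or: level at most 0 because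
Jn along q avoiding q (e 0)), connected (Pth.cn), and q (e 0 - 1) is adjacent to q (e 0), which has level 1 (`lev` with
i = 1): Cn.union. cr: R = Sg q (e T) s: contains b', level T + 1 (the level of q x with x >= e T is not at most T by
`lam` and `cut`), connected, and q (e T) is adjacent to q (e T - 1) of level T.
-/

set_option autoImplicit false

namespace Pool.Agent.JNG

open SimpleGraph Pool.Agent.LNK

theorem chn_lt {V : Type} {G : SimpleGraph V} {S U : Finset V} {q : ℕ → V} {s T : ℕ} {e : ℕ → ℕ}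
    (h : Cu G S q s e T U) {i j : ℕ} (hij : i ≤ j) (hj : j ≤ T) : e i ≤ e j := by
  induction j, hij using Nat.le_induction with
  | base => exact le_rfl
  | succ j hij ih => exact (ih (by omega)).trans (h.lt j (by omega)).le

theorem chn_lt' {V : Type} {G : SimpleGraph V} {S U : Finset V} {q : ℕ → V} {s T : ℕ} {e : ℕ → ℕ}
    (h : Cu G S q s e T U) {i j : ℕ} (hij : i < j) (hj : j ≤ T) : e i < e j :=
  lt_of_lt_of_le (h.lt i (by omega)) (chn_lt h (show i + 1 ≤ j by omega) hj)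

theorem chn_zero {V : Type} {G : SimpleGraph V} {S U : Finset V} {q : ℕ → V} {s T : ℕ} {e : ℕ → ℕ}
    (h : Cu G S q s e T U) (hq : Pth G q s) (hqS : ∀ x, x ≤ s → q x ∉ S) {x : ℕ} (hx : x < e 0) :
    ix G S q e T (q x) = 0 := by
  classical
  unfold ix
  rw [Finset.card_eq_zero, Finset.filter_eq_empty_iff]
  intro i hi hn
  have hi' : i ≤ T := by
    have := Finset.mem_range.1 hi
    omega
  have h1 := chn_lt h (Nat.zero_le i) hi'
  have h2 := chn_lt h hi' le_rfl
  have h3 := h.eT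
  refine hn ((hq.jn (Nat.zero_le x) (by omega)).mono ?_)
  intro v hv
  rw [Finset.mem_coe, mem_Sg] at hv
  obtain ⟨l, _, hl, rfl⟩ := hv
  refine ⟨hqS l (by omega), fun he => ?_⟩
  have := hq.inj l (e i) (by omega) (by omega) he
  omega

theorem chn_last {V : Type} {G : SimpleGraph V} {S U : Finset V} {q : ℕ → V} {s T : ℕ} {e : ℕ → ℕ}
    (h : Cu G S q s e T U) {x : ℕ} (hx : e T ≤ x) (hxs : x ≤ s) :
    ix G S q e T (q x) = T + 1 := by
  classical
  unfold ix
  rw [Finset.filter_true_of_mem, Finset.card_range]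
  intro i hi hn
  have hi' : i ≤ T := by
    have := Finset.mem_range.1 hi
    omega
  have h1 := chn_lt h (Nat.zero_le i) hi'
  have h2 := chn_lt h hi' le_rfl
  have h3 := h.e0
  rcases Nat.lt_or_ge (e i) x with h4 | h4
  · exact h.cut i hi' 0 x (by omega) h4 hxs hn
  · have h5 : x = e i := by omega
    have h6 := Jn.right_mem hn
    exact h6.2 (by rw [h5])

theorem chain {V : Type} [Fintype V] {G : SimpleGraph V} {W : Finset V} {a a' b b' h : V} {U : Finset V}
    {m : ℕ} (H : Bd G W a a' b b' h U m) {p q : ℕ → V} {r c s : ℕ} (hp : Tp G a a' h p r c) (hq : Pth G q s)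
    (hq0 : q 0 = b) (hqs : q s = b') (hd : ∀ i j, i ≤ r → j ≤ s → p i ≠ q j) (T : ℕ) (hT : 1 ≤ T)
    (hU : (T + 1) * (2 * m + 3) + m + 3 ≤ U.card) :
    ∃ idx : V → ℕ, Ch G W (Sg p 0 r) b b' U idx T := by
  classical
  obtain ⟨e, he⟩ := cuts H hp hq hq0 hqs hd T hU
  have hqS : ∀ x, x ≤ s → q x ∉ Sg p 0 r := by
    intro x hx hm
    obtain ⟨l, _, hl, hlx⟩ := mem_Sg.1 hm
    exact hd l x hl hx hlx
  have hins := H.six.ins
  obtain ⟨l1, l2, l3, l4, l5⟩ := lev he hq hqS
  have hlt : ∀ i j, i ≤ j → j ≤ T → e i ≤ e j := fun i j h1 h2 => chn_lt he h1 h2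
  have heT := he.eT
  have he0 := he.e0
  have hqW : ∀ x, x ≤ s → q x ∈ W := by
    intro x hx
    rcases Nat.eq_zero_or_pos x with h0 | h0
    · rw [h0]
      exact hins _ _ (hq.adj 0 (by omega))
    · have := hq.adj (x - 1) (by omega)
      rw [Nat.sub_add_cancel h0] at this
      exact hins.right this
  have hqW0 : q 0 ∈ W := hqW 0 (Nat.zero_le _)
  have hcn := fun i j h1 h2 h3 => lcn hins he hq hqS i j h1 h2 h3
  refine ⟨ix G (Sg p 0 r) q e T, hT, fun v _ _ => l1 v, l5, ?_, ?_, hcn, ?_, ?_, ?_, ?_⟩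
  · rw [← hq0]
    exact l2
  · rw [← hqs]
    exact l3
  · refine ⟨Sg q 0 (e 0 - 1), ?_, ?_, ?_⟩
    · rw [mem_Sg]
      exact ⟨0, le_rfl, Nat.zero_le _, hq0⟩
    · intro v hv
      obtain ⟨l, _, hl, rfl⟩ := mem_Sg.1 hv
      have h0 := hlt 0 T (Nat.zero_le _) le_rfl
      rw [mem_Ly, chn_zero he hq hqS (show l < e 0 by omega)]
      exact ⟨hqW l (by omega), hqS l (by omega), le_rfl, le_rfl⟩
    · have h0 := hlt 0 T (Nat.zero_le _) le_rfl
      have h01 := he.lt 0 (by omega)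
      have h1 : q (e 0) ∈ Ly W (Sg p 0 r) (ix G (Sg p 0 r) q e T) 1 1 := by
        have := ((l4 1 (e 0) le_rfl hT).2 ⟨le_rfl, h01⟩).1
        rw [mem_Ly, this]
        exact ⟨hqW _ (by omega), hqS _ (by omega), le_rfl, le_rfl⟩
      refine (hq.cn (Nat.zero_le (e 0 - 1)) (by omega)).union (hcn 1 1 le_rfl le_rfl hT)
        (u := q (e 0 - 1)) ?_ h1 (Or.inr ?_)
      · rw [mem_Sg]
        exact ⟨e 0 - 1, Nat.zero_le _, le_rfl, rfl⟩
      · have := hq.adj (e 0 - 1) (by omega)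
        rwa [Nat.sub_add_cancel he0] at this
  · refine ⟨Sg q (e T) s, ?_, ?_, ?_⟩
    · rw [mem_Sg]
      exact ⟨s, heT.le, le_rfl, hqs⟩
    · intro v hv
      obtain ⟨l, hl1, hl, rfl⟩ := mem_Sg.1 hv
      rw [mem_Ly, chn_last he hl1 hl]
      exact ⟨hqW l (by omega), hqS l (by omega), le_rfl, le_rfl⟩
    · have hTT := he.lt (T - 1) (by omega)
      rw [Nat.sub_add_cancel hT] at hTT
      have h1 : q (e T - 1) ∈ Ly W (Sg p 0 r) (ix G (Sg p 0 r) q e T) T T := by
        have := ((l4 T (e T - 1) hT le_rfl).2 ⟨by omega, by omega⟩).1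
        rw [mem_Ly, this]
        exact ⟨hqW _ (by omega), hqS _ (by omega), le_rfl, le_rfl⟩
      refine (hq.cn heT.le le_rfl).union (hcn T T hT le_rfl le_rfl)
        (u := q (e T)) ?_ h1 (Or.inr ?_)
      · rw [mem_Sg]
        exact ⟨e T, le_rfl, heT.le, rfl⟩
      · have := hq.adj (e T - 1) (by omega)
        rw [Nat.sub_add_cancel (by omega)] at this
        exact this.symm
  · intro i h1 h2
    obtain ⟨j, hj1, hj2, hjU⟩ := he.uu (i - 1) (by omega)
    rw [Nat.sub_add_cancel h1] at hj2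
    have h3 := hlt i T h2 le_rfl
    have h4 := ((l4 i j h1 h2).2 ⟨hj1.le, hj2⟩).1
    refine ⟨q j, hjU, ?_⟩
    rw [mem_Ly, h4]
    exact ⟨hqW _ (by omega), hqS _ (by omega), le_rfl, le_rfl⟩
  · intro i h1 h2
    exact lat H.six he hq hqS hqW0 i h1 h2

end Pool.Agent.JNG
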