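import Mathlib
import Pool.Agent.JNG.Defs

/-!
A path function from a walk.
Proof. From Jn take the walk w inside P, let w1 = w.bypass (a path, its support is inside that of w), and
p i = w1.getVert i, r = w1.length. Adjacency: Walk.adj_getVert_succ; injectivity: IsPath.getVert_injOn.
-/

set_option autoImplicit false

namespace Pool.Agent.JNG

open SimpleGraph Pool.Agent.LNK

theorem ptf {V : Type} {G : SimpleGraph V} {P : Set V} {a a' : V} (h : Jn G P a a') :
    ∃ (p : ℕ → V) (r : ℕ), Pth G p r ∧ p 0 = a ∧ p r = a' ∧ ∀ i, i ≤ r → p i ∈ P := by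
  classical
  obtain ⟨w, hw⟩ := h
  refine ⟨w.bypass.getVert, w.bypass.length, ?_, w.bypass.getVert_zero, w.bypass.getVert_length,
    fun i _ => hw _ (w.support_bypass_subset (w.bypass.getVert_mem_support i))⟩
  have hpath := w.bypass_isPath
  constructor
  · intro i hi
    exact w.bypass.adj_getVert_succ hi
  · intro i j hi hj h
    exact hpath.getVert_injOn (by simpa using hi) (by simpa using hj) h

end Pool.Agent.JNG
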