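import Mathlib
import Pool.Agent.JNG.Defs2
import Pool.Agent.JNG.PTF

/-!
If every linkage misses fewer than m vertices of U, and U is large, then every linkage passes through h.
More precisely: path functions p, q of disjoint paths from a to a' and from b to b' pass through h.
Proof. Let P = Sg p 0 r, Q = Sg q 0 s; they form a linkage, so U minus (P + Q) has fewer than m elements and one
of U meet P, U meet Q has at least m + 2 elements (U has at least 3 m + 4). Suppose h is in neither P nor Q.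
Say U meet P has at least m + 2 elements (otherwise exchange the pairs, Bd.swap). Let i be the least and j
the largest index with p i, p j in U (i < j). P' = Sg p 0 i + {h} + Sg p j r joins a to a' (h is adjacent to
p i and p j) and is disjoint from Q. P' meets U only in p i, p j (h is not in U as it is not adjacent to
itself), so P', Q miss at least m vertices of U, against `bd`.
-/

set_option autoImplicit false

namespace Pool.Agent.JNG

open SimpleGraph Pool.Agent.LNK

open Classical in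
private theorem hin_aux {V : Type} [Fintype V] {G : SimpleGraph V} {W : Finset V} {a a' b b' h : V}
    {U : Finset V} {m : ℕ}
    (H : Bd G W a a' b b' h U m) {p q : ℕ → V} {r s : ℕ} (hp : Pth G p r)
    (hp0 : p 0 = a) (hpr : p r = a') (hq : Pth G q s) (hq0 : q 0 = b) (hqs : q s = b')
    (hd : ∀ i j, i ≤ r → j ≤ s → p i ≠ q j) (hhp : ∀ c, c ≤ r → p c ≠ h) (hhq : ∀ c, c ≤ s → q c ≠ h)
    (hc : m + 2 ≤ (U ∩ Sg p 0 r).card) : False := by
  have hex : ∃ i, i ≤ r ∧ p i ∈ U := by
    have h0 : 0 < (U ∩ Sg p 0 r).card := by omega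
    obtain ⟨v, hv⟩ := Finset.card_pos.1 h0
    rw [Finset.mem_inter, mem_Sg] at hv
    obtain ⟨hvU, l, _, hl, rfl⟩ := hv
    exact ⟨l, hl, hvU⟩
  -- least index
  obtain ⟨i, ⟨hi, hiU⟩, hmin⟩ : ∃ i, (i ≤ r ∧ p i ∈ U) ∧ ∀ l, l ≤ r → p l ∈ U → i ≤ l :=
    ⟨Nat.find hex, Nat.find_spec hex, fun l h1 h2 => Nat.find_min' hex ⟨h1, h2⟩⟩
  -- largest index
  obtain ⟨j, ⟨hj, hjU⟩, hmax⟩ : ∃ j, (j ≤ r ∧ p j ∈ U) ∧ ∀ l, l ≤ r → p l ∈ U → l ≤ j := by
    have hne : ((Finset.range (r + 1)).filter fun l => p l ∈ U).Nonempty := by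
      obtain ⟨l, h1, h2⟩ := hex
      exact ⟨l, Finset.mem_filter.2 ⟨Finset.mem_range.2 (by omega), h2⟩⟩
    refine ⟨((Finset.range (r + 1)).filter fun l => p l ∈ U).max' hne, ?_, ?_⟩
    · have := Finset.max'_mem _ hne
      rw [Finset.mem_filter, Finset.mem_range] at this
      exact ⟨by omega, this.2⟩
    · intro l h1 h2
      exact Finset.le_max' _ _ (Finset.mem_filter.2 ⟨Finset.mem_range.2 (by omega), h2⟩)
  have hij : i ≤ j := hmin j hj hjU
  have hhU : h ∉ U := fun hh => G.loopless.irrefl _ (H.hu h hh)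
  set P' : Finset V := Sg p 0 i ∪ ({h} ∪ Sg p j r) with hP'
  have hPQ : Lkg G a a' b b' P' (Sg q 0 s) := by
    refine ⟨?_, ?_, ?_⟩
    · intro v hv hv'
      obtain ⟨l', _, hl', rfl⟩ := mem_Sg.1 hv'
      rw [hP', Finset.mem_union, Finset.mem_union, Finset.mem_singleton] at hv
      rcases hv with hv | hv | hv
      · obtain ⟨l, _, hl, hlv⟩ := mem_Sg.1 hv
        exact hd l l' (by omega) hl' hlv
      · exact hhq l' hl' hv
      · obtain ⟨l, _, hl, hlv⟩ := mem_Sg.1 hv
        exact hd l l' hl hl' hlv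
    · have e1 : ((Sg p 0 i : Finset V) : Set V) ⊆ (P' : Set V) := by
        rw [hP', Finset.coe_union]
        exact Set.subset_union_left
      have e2 : ((Sg p j r : Finset V) : Set V) ⊆ (P' : Set V) := by
        intro v hv
        rw [Finset.mem_coe] at hv ⊢
        rw [hP']
        exact Finset.mem_union_right _ (Finset.mem_union_right _ hv)
      have e3 : h ∈ (P' : Set V) := by
        rw [Finset.mem_coe, hP']
        exact Finset.mem_union_right _ (Finset.mem_union_left _ (Finset.mem_singleton_self h))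
      have f1 : Jn G (P' : Set V) a (p i) := by
        have := (hp.jn (Nat.zero_le i) hi).mono e1
        rwa [hp0] at this
      have f2 : Jn G (P' : Set V) (p j) a' := by
        have := (hp.jn hj (le_refl r)).mono e2
        rwa [hpr] at this
      have f3 : Jn G (P' : Set V) (p i) h := Jn.of_adj (H.hu _ hiU).symm (Jn.right_mem f1) e3
      have f4 : Jn G (P' : Set V) h (p j) := Jn.of_adj (H.hu _ hjU) e3 (Jn.left_mem f2)
      exact ((f1.trans f3).trans f4).trans f2
    · have := hq.jn (Nat.zero_le s) (le_refl s)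
      rwa [hq0, hqs] at this
  have hbd := H.bd _ _ hPQ
  -- `U ∩ P` minus `p i, p j` is missed
  have hsub : ((U ∩ Sg p 0 r).erase (p i)).erase (p j) ⊆ U \ (P' ∪ Sg q 0 s) := by
    intro v hv
    rw [Finset.mem_erase, Finset.mem_erase, Finset.mem_inter, mem_Sg] at hv
    obtain ⟨hvj, hvi, hvU, l, _, hl, rfl⟩ := hv
    have h1 := hmin l hl hvU
    have h2 := hmax l hl hvU
    rw [Finset.mem_sdiff]
    refine ⟨hvU, ?_⟩
    intro hmem
    rw [Finset.mem_union, hP', Finset.mem_union, Finset.mem_union, Finset.mem_singleton] at hmem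
    rcases hmem with (hm | hm | hm) | hm
    · obtain ⟨l', _, hl', h3⟩ := mem_Sg.1 hm
      have h4 := hp.inj l' l (by omega) hl h3
      have h5 : l = i := by omega
      exact hvi (by rw [h5])
    · exact hhp l hl hm
    · obtain ⟨l', hl'', hl', h3⟩ := mem_Sg.1 hm
      have h4 := hp.inj l' l hl' hl h3
      have h5 : l = j := by omega
      exact hvj (by rw [h5])
    · obtain ⟨l', _, hl', h3⟩ := mem_Sg.1 hm
      exact hd l l' hl hl' h3.symm
  have h1 := Finset.card_le_card hsub
  have h2 : (U ∩ Sg p 0 r).card - 1 ≤ ((U ∩ Sg p 0 r).erase (p i)).card :=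
    Finset.pred_card_le_card_erase
  have h3 : ((U ∩ Sg p 0 r).erase (p i)).card - 1 ≤
      (((U ∩ Sg p 0 r).erase (p i)).erase (p j)).card :=
    Finset.pred_card_le_card_erase
  omega

theorem hin {V : Type} [Fintype V] {G : SimpleGraph V} {W : Finset V} {a a' b b' h : V} {U : Finset V} {m : ℕ}
    (H : Bd G W a a' b b' h U m) (hU : 3 * m + 4 ≤ U.card) {p q : ℕ → V} {r s : ℕ} (hp : Pth G p r)
    (hp0 : p 0 = a) (hpr : p r = a') (hq : Pth G q s) (hq0 : q 0 = b) (hqs : q s = b')
    (hd : ∀ i j, i ≤ r → j ≤ s → p i ≠ q j) : (∃ c, c ≤ r ∧ p c = h) ∨ ∃ c, c ≤ s ∧ q c = h := by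
  classical
  by_contra hcon
  push Not at hcon
  obtain ⟨hhp, hhq⟩ := hcon
  have hPQ : Lkg G a a' b b' (Sg p 0 r) (Sg q 0 s) := by
    refine ⟨?_, ?_, ?_⟩
    · intro v hv hv'
      obtain ⟨l, _, hl, rfl⟩ := mem_Sg.1 hv
      obtain ⟨l', _, hl', h3⟩ := mem_Sg.1 hv'
      exact hd l l' hl hl' h3.symm
    · have := hp.jn (Nat.zero_le r) (le_refl r)
      rwa [hp0, hpr] at this
    · have := hq.jn (Nat.zero_le s) (le_refl s)
      rwa [hq0, hqs] at this
  have hbd := H.bd _ _ hPQ
  have hcard : U.card ≤ (U \ (Sg p 0 r ∪ Sg q 0 s)).card + ((U ∩ Sg p 0 r).card +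
      (U ∩ Sg q 0 s).card) := by
    have h1 : U ⊆ (U \ (Sg p 0 r ∪ Sg q 0 s)) ∪ ((U ∩ Sg p 0 r) ∪ (U ∩ Sg q 0 s)) := by
      intro v hv
      by_cases h1 : v ∈ Sg p 0 r
      · exact Finset.mem_union_right _ (Finset.mem_union_left _ (Finset.mem_inter.2 ⟨hv, h1⟩))
      · by_cases h2 : v ∈ Sg q 0 s
        · exact Finset.mem_union_right _ (Finset.mem_union_right _ (Finset.mem_inter.2 ⟨hv, h2⟩))
        · apply Finset.mem_union_left
          rw [Finset.mem_sdiff, Finset.mem_union]
          exact ⟨hv, fun h3 => h3.elim h1 h2⟩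
    have h2 := Finset.card_le_card h1
    have h3 := Finset.card_union_le (U \ (Sg p 0 r ∪ Sg q 0 s))
      ((U ∩ Sg p 0 r) ∪ (U ∩ Sg q 0 s))
    have h4 := Finset.card_union_le (U ∩ Sg p 0 r) (U ∩ Sg q 0 s)
    omega
  rcases Nat.lt_or_ge (U ∩ Sg p 0 r).card (m + 2) with h1 | h1
  · have h2 : m + 2 ≤ (U ∩ Sg q 0 s).card := by omega
    exact hin_aux H.swap hq hq0 hqs hp hp0 hpr (fun i j hi hj => (hd j i hj hi).symm) hhq hhp h2
  · exact hin_aux H hp hp0 hpr hq hq0 hqs hd hhp hhq h1

end Pool.Agent.JNG
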