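import Mathlib
import Pool.Agent.JNG.Defs2
import Pool.Agent.JNG.PTF
import Pool.Agent.JNG.HIN

/-!
A linkage whose path through h is induced.
Proof. From a linkage get path functions p, q (`ptf`, disjoint because P and Q are). By `hin` one of them passes
through h; by symmetry (the conclusion is symmetric) let it be the path from a to a'. Among all quadruples
(p, r, q, s) with Pth G p r, p 0 = a, p r = a', Pth G q s, q 0 = b, q s = b', disjoint, h on p, choose one with
r minimal. Suppose p i, p j adjacent with i + 2 <= j <= r. Then p' = p 0, .., p i, p j, .., p r (p' l = p l for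
l <= i, p' l = p (l + j - i - 1) for l > i, r' = r - (j - i - 1)) is a path disjoint from q, with r' < r. If h
is on p', this is against minimality. If h is not on p', then h is on neither p' nor q (h is on p, which is
disjoint from q), against `hin`. So adjacent vertices of p are consecutive: `ind`.
-/

set_option autoImplicit false

namespace Pool.Agent.JNG

open SimpleGraph Pool.Agent.LNK

private theorem ind_aux {V : Type} [Fintype V] {G : SimpleGraph V} {W : Finset V} {a a' b b' h : V}
    {U : Finset V} {m : ℕ} (H : Bd G W a a' b b' h U m) (hU : 3 * m + 4 ≤ U.card) :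
    ∀ (r : ℕ) (p q : ℕ → V) (s : ℕ), Pth G p r → p 0 = a → p r = a' → Pth G q s → q 0 = b →
      q s = b' → (∀ i j, i ≤ r → j ≤ s → p i ≠ q j) → (∃ c, c ≤ r ∧ p c = h) →
      ∃ (p : ℕ → V) (r c : ℕ) (q : ℕ → V) (s : ℕ), Tp G a a' h p r c ∧ Pth G q s ∧ q 0 = b ∧
        q s = b' ∧ ∀ i j, i ≤ r → j ≤ s → p i ≠ q j := by
  intro r
  induction r using Nat.strong_induction_on with
  | _ r ih =>
    intro p q s hp hp0 hpr hq hq0 hqs hd hex
    obtain ⟨c, hc, hch⟩ := hex
    by_cases hind : ∀ i j, i ≤ r → j ≤ r → G.Adj (p i) (p j) → i = j + 1 ∨ j = i + 1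
    · exact ⟨p, r, c, q, s, ⟨hp, hp0, hpr, hch, hc, hind⟩, hq, hq0, hqs, hd⟩
    · have hij : ∃ i j, i + 2 ≤ j ∧ j ≤ r ∧ G.Adj (p i) (p j) := by
        push Not at hind
        obtain ⟨i, j, hi, hj, hadj, h1, h2⟩ := hind
        have hne : i ≠ j := by
          rintro rfl
          exact G.loopless.irrefl _ hadj
        rcases Nat.lt_or_ge i j with h3 | h3
        · exact ⟨i, j, by omega, hj, hadj⟩
        · exact ⟨j, i, by omega, hi, hadj.symm⟩
      obtain ⟨i, j, hij, hj, hadj⟩ := hij
      obtain ⟨d, hdd⟩ : ∃ d, d = j - i - 1 := ⟨_, rfl⟩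
      obtain ⟨g, hg⟩ : ∃ g : ℕ → ℕ, ∀ l, g l = if l ≤ i then l else l + d := ⟨_, fun _ => rfl⟩
      have hg1 : ∀ l, l ≤ i → g l = l := fun l hl => by rw [hg, if_pos hl]
      have hg2 : ∀ l, i < l → g l = l + d := fun l hl => by rw [hg, if_neg (by omega)]
      have hgr : ∀ l, l ≤ r - d → g l ≤ r := by
        intro l hl
        rcases Nat.lt_or_ge i l with h1 | h1
        · rw [hg2 l h1]; omega
        · rw [hg1 l h1]; omega
      have hp' : Pth G (fun l => p (g l)) (r - d) := by
        refine ⟨?_, ?_⟩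
        · intro l hl
          show G.Adj (p (g l)) (p (g (l + 1)))
          rcases Nat.lt_trichotomy l i with h1 | h1 | h1
          · rw [hg1 l (by omega), hg1 (l + 1) (by omega)]
            exact hp.adj l (by omega)
          · rw [hg1 l (by omega), hg2 (l + 1) (by omega)]
            have e1 : l + 1 + d = j := by omega
            rw [e1, h1]
            exact hadj
          · rw [hg2 l h1, hg2 (l + 1) (by omega)]
            have e1 : l + 1 + d = l + d + 1 := by omega
            rw [e1]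
            exact hp.adj (l + d) (by omega)
        · intro l l' hl hl' he
          have h3 := hp.inj _ _ (hgr l hl) (hgr l' hl') he
          rcases Nat.lt_or_ge i l with h1 | h1 <;> rcases Nat.lt_or_ge i l' with h2 | h2
          · rw [hg2 l h1, hg2 l' h2] at h3; omega
          · rw [hg2 l h1, hg1 l' h2] at h3; omega
          · rw [hg1 l h1, hg2 l' h2] at h3; omega
          · rw [hg1 l h1, hg1 l' h2] at h3; omega
      have hp'0 : (fun l => p (g l)) 0 = a := by
        show p (g 0) = a
        rw [hg1 0 (Nat.zero_le _), hp0]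
      have hp'r : (fun l => p (g l)) (r - d) = a' := by
        show p (g (r - d)) = a'
        rw [hg2 (r - d) (by omega), show r - d + d = r by omega, hpr]
      have hd' : ∀ l l', l ≤ r - d → l' ≤ s → (fun l => p (g l)) l ≠ q l' := by
        intro l l' hl hl'
        exact hd (g l) l' (hgr l hl) hl'
      rcases hin H hU hp' hp'0 hp'r hq hq0 hqs hd' with h1 | h1
      · exact ih (r - d) (by omega) _ q s hp' hp'0 hp'r hq hq0 hqs hd' h1
      · obtain ⟨c', hc', hqc⟩ := h1
        exact absurd (hch.trans hqc.symm) (hd c c' hc hc')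

theorem ind_path {V : Type} [Fintype V] {G : SimpleGraph V} {W : Finset V} {a a' b b' h : V} {U : Finset V}
    {m : ℕ} (H : Bd G W a a' b b' h U m) (hU : 3 * m + 4 ≤ U.card) (hl : ∃ P Q, Lkg G a a' b b' P Q) :
    (∃ (p : ℕ → V) (r c : ℕ) (q : ℕ → V) (s : ℕ), Tp G a a' h p r c ∧ Pth G q s ∧ q 0 = b ∧ q s = b' ∧
      ∀ i j, i ≤ r → j ≤ s → p i ≠ q j) ∨
    (∃ (p : ℕ → V) (r c : ℕ) (q : ℕ → V) (s : ℕ), Tp G b b' h p r c ∧ Pth G q s ∧ q 0 = a ∧ q s = a' ∧
      ∀ i j, i ≤ r → j ≤ s → p i ≠ q j) := by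
  obtain ⟨P, Q, hPQ⟩ := hl
  obtain ⟨p, r, hp, hp0, hpr, hpP⟩ := ptf hPQ.jp
  obtain ⟨q, s, hq, hq0, hqs, hqQ⟩ := ptf hPQ.jq
  have hd : ∀ i j, i ≤ r → j ≤ s → p i ≠ q j := by
    intro i j hi hj he
    have h1 := hpP i hi
    have h2 := hqQ j hj
    rw [Finset.mem_coe] at h1 h2
    rw [he] at h1
    exact hPQ.dj _ h1 h2
  rcases hin H hU hp hp0 hpr hq hq0 hqs hd with h1 | h1
  · exact Or.inl (ind_aux H hU r p q s hp hp0 hpr hq hq0 hqs hd h1)
  · exact Or.inr (ind_aux H.swap hU s q p r hq hq0 hqs hp hp0 hpr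
      (fun i j hi hj => (hd j i hj hi).symm) h1)

end Pool.Agent.JNG
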