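import Mathlib
import Pool.Agent.JNG.Defs

/-!
Sum of the degrees of the vertices outside X.
Proof. Double counting of the pairs (v, e) with v in W minus X, e an edge containing v: for fixed v there are
card (Nb G {v}) edges (the map w -> s(v, w) is a bijection from Nb G {v} to the edges at v); for a fixed
edge e of Ed G (W minus X) with ends in W (hins) the number of ends outside X is 2 minus the number of ends in
X, and it is 1 exactly when e is also in Ed G X.
(Use Finset.sum_card_bipartiteAbove_eq_sum_card_bipartiteBelow or Finset.sum_comm.)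
-/

set_option autoImplicit false

namespace Pool.Agent.JNG

open SimpleGraph Pool.Agent.LNK

open Classical in
theorem dsm {V : Type} [Fintype V] {G : SimpleGraph V} {W X : Finset V} (hins : Ins G W) (hX : X ⊆ W) :
    (∑ v ∈ W \ X, (Nb G {v}).card) + (Ed G X ∩ Ed G (W \ X)).card = 2 * (Ed G (W \ X)).card := by
  have h1 : ∀ v ∈ W \ X, (Nb G {v}).card
      = ((Ed G (W \ X)).bipartiteAbove (fun (v : V) (e : Sym2 V) => v ∈ e) v).card := by
    intro v hv
    have h2 : (Ed G (W \ X)).bipartiteAbove (fun (v : V) (e : Sym2 V) => v ∈ e) v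
        = (Nb G {v}).image (fun w => s(v, w)) := by
      ext e
      rw [Finset.mem_bipartiteAbove, Finset.mem_image, mem_Ed]
      constructor
      · rintro ⟨⟨he, _⟩, hve⟩
        obtain ⟨w, rfl⟩ := hve
        rw [SimpleGraph.mem_edgeSet] at he
        refine ⟨w, mem_Nb.2 ⟨?_, v, Finset.mem_singleton_self v, he⟩, rfl⟩
        rw [Finset.mem_singleton]
        exact he.ne'
      · rintro ⟨w, hw, rfl⟩
        obtain ⟨_, u, hu, huw⟩ := mem_Nb.1 hw
        rw [Finset.mem_singleton] at hu
        subst hu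
        exact ⟨⟨huw, u, hv, Sym2.mem_mk_left _ _⟩, Sym2.mem_mk_left _ _⟩
    rw [h2, Finset.card_image_of_injective]
    intro x y hxy
    exact Sym2.congr_right.1 hxy
  rw [Finset.sum_congr rfl h1, Finset.sum_card_bipartiteAbove_eq_sum_card_bipartiteBelow]
  have h3 : (Ed G X ∩ Ed G (W \ X)).card
      = ∑ e ∈ Ed G (W \ X), (if e ∈ Ed G X then 1 else 0) := by
    rw [← Finset.card_filter]
    congr 1
    ext e
    rw [Finset.mem_inter, Finset.mem_filter, and_comm]
  rw [h3, ← Finset.sum_add_distrib, Finset.card_eq_sum_ones, Finset.mul_sum]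
  apply Finset.sum_congr rfl
  intro e he
  obtain ⟨he1, u, hu, hue⟩ := mem_Ed.1 he
  obtain ⟨w, rfl⟩ := hue
  rw [SimpleGraph.mem_edgeSet] at he1
  have huw : u ≠ w := he1.ne
  have hwW : w ∈ W := hins.right he1
  rw [Finset.mem_sdiff] at hu
  have h4 : (W \ X).bipartiteBelow (fun (v : V) (e : Sym2 V) => v ∈ e) s(u, w)
      = if w ∈ X then {u} else {u, w} := by
    ext x
    rw [Finset.mem_bipartiteBelow, Finset.mem_sdiff, Sym2.mem_iff]
    split_ifs with hw
    · rw [Finset.mem_singleton]
      constructor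
      · rintro ⟨⟨_, h6⟩, rfl | rfl⟩
        · rfl
        · exact absurd hw h6
      · rintro rfl
        exact ⟨hu, Or.inl rfl⟩
    · rw [Finset.mem_insert, Finset.mem_singleton]
      constructor
      · rintro ⟨_, h7⟩
        exact h7
      · rintro (rfl | rfl)
        · exact ⟨hu, Or.inl rfl⟩
        · exact ⟨⟨hwW, hw⟩, Or.inr rfl⟩
  have h5 : s(u, w) ∈ Ed G X ↔ w ∈ X := by
    rw [mem_Ed]
    constructor
    · rintro ⟨_, x, hx, hxe⟩
      rcases Sym2.mem_iff.1 hxe with rfl | rfl
      · exact absurd hx hu.2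
      · exact hx
    · intro hw
      exact ⟨he1, w, hw, Sym2.mem_mk_right _ _⟩
  rw [h4]
  by_cases hw : w ∈ X
  · rw [if_pos hw, if_pos (h5.2 hw), Finset.card_singleton]
    norm_num
  · rw [if_neg hw, if_neg (fun h => hw (h5.1 h)), Finset.card_pair huw]
    norm_num

end Pool.Agent.JNG
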