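import Mathlib
import Pool.Agent.JNG.Defs2
import Pool.Agent.JNG.DSM

/-!
The mass after deleting Y.
Proof. X = Xs. Let dg v = card (Nb G {v}). Edges of G meeting W minus X and not meeting Y are edges of Cof G Y meeting
(W minus Y) minus X, and the edges meeting Y are at most sum over Y of dg. So
2 card Ed' >= 2 card (Ed G (W minus X)) - 2 sum over Y of dg
= sum over v in W minus X of dg v + card (Ed G X and Ed G (W minus X)) - 2 sum over Y of dg (`dsm`), and
card ((W minus Y) minus X) = card (W minus X) - card Y (Y is inside U, inside W, disjoint from X). So it is enough that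
(*) sum over v in W minus X of (dg v - 6) + card (Ed G X and Ed G (W minus X)) + 6 card Y >= 2 sum over Y of dg + 4.
If h is not in X, then h in W minus X, h not in cc (not adjacent to itself), dg h >= card U >= card cc, and all dg v - 6 >= 0
(`deg`), so the first sum is at least card cc - 6 + sum over cc of (dg v - 6). If h is in X, the edges h u, u in U, are in
Ed G X and Ed G (W minus X), at least card cc many, and the first sum is at least the sum over cc. With hs: (*) holds.
-/

set_option autoImplicit false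

namespace Pool.Agent.JNG

open SimpleGraph Pool.Agent.LNK

open Classical in
theorem mas {V : Type} [Fintype V] {G : SimpleGraph V} {W : Finset V} {a a' b b' h : V} {U : Finset V}
    (h6 : Six G W) (hds : Ds a a' b b') (hxw : ∀ v ∈ Xs a a' b b', v ∈ W) (hu : ∀ u ∈ U, G.Adj h u)
    (hux : ∀ u ∈ U, u ∉ Xs a a' b b') {cc Y : Finset V} (hc : cc ⊆ U) (hY : Y ⊆ cc)
    (hs : 2 * (∑ y ∈ Y, (Nb G {y}).card) + 10 ≤ cc.card + ∑ v ∈ cc, ((Nb G {v}).card - 6)) :
    3 * ((W \ Y) \ Xs a a' b b').card + 2 ≤
      (Ed (Cof G (Y : Set V)) ((W \ Y) \ Xs a a' b b')).card := by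
  have hXW : Xs a a' b b' ⊆ W := fun v hv => hxw v hv
  have hd := dsm h6.ins hXW
  have hUW : ∀ u ∈ U, u ∈ W \ Xs a a' b b' := fun u h =>
    Finset.mem_sdiff.2 ⟨h6.ins.right (hu u h), hux u h⟩
  have hYW : Y ⊆ W \ Xs a a' b b' := fun y hy => hUW y (hc (hY hy))
  have hccW : cc ⊆ W \ Xs a a' b b' := fun y hy => hUW y (hc hy)
  -- the number of vertices
  have hcard : ((W \ Y) \ Xs a a' b b').card + Y.card = (W \ Xs a a' b b').card := by
    have h1 : (W \ Y) \ Xs a a' b b' = (W \ Xs a a' b b') \ Y := by
      ext v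
      simp only [Finset.mem_sdiff]
      tauto
    rw [h1]
    exact Finset.card_sdiff_add_card_eq_card hYW
  -- the number of edges
  have hedge : (Ed G (W \ Xs a a' b b')).card ≤
      (Ed (Cof G (Y : Set V)) ((W \ Y) \ Xs a a' b b')).card + ∑ y ∈ Y, (Nb G {y}).card := by
    have hsub : Ed G (W \ Xs a a' b b') ⊆ Ed (Cof G (Y : Set V)) ((W \ Y) \ Xs a a' b b') ∪
        Y.biUnion fun y => (Nb G {y}).image fun w => s(y, w) := by
      intro e he
      obtain ⟨h1, w, hw, hwe⟩ := mem_Ed.1 he
      rw [Finset.mem_union]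
      induction e using Sym2.ind with
      | _ x y =>
        rw [SimpleGraph.mem_edgeSet] at h1
        by_cases hx : x ∈ Y
        · right
          rw [Finset.mem_biUnion]
          refine ⟨x, hx, Finset.mem_image.2 ⟨y, mem_Nb.2 ⟨?_, x, by simp, h1⟩, rfl⟩⟩
          rw [Finset.mem_singleton]
          exact h1.ne'
        · by_cases hy : y ∈ Y
          · right
            rw [Finset.mem_biUnion]
            refine ⟨y, hy, Finset.mem_image.2 ⟨x, mem_Nb.2 ⟨?_, y, by simp, h1.symm⟩, Sym2.eq_swap⟩⟩
            rw [Finset.mem_singleton]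
            exact h1.ne
          · left
            refine mem_Ed.2 ⟨?_, w, ?_, hwe⟩
            · rw [SimpleGraph.mem_edgeSet]
              exact ⟨h1, by simpa using hx, by simpa using hy⟩
            · have hwY : w ∉ Y := by
                rcases Sym2.mem_iff.1 hwe with rfl | rfl
                · exact hx
                · exact hy
              rw [Finset.mem_sdiff] at hw
              rw [Finset.mem_sdiff, Finset.mem_sdiff]
              exact ⟨⟨hw.1, hwY⟩, hw.2⟩
    refine (Finset.card_le_card hsub).trans ((Finset.card_union_le _ _).trans ?_)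
    refine Nat.add_le_add_left (Finset.card_biUnion_le.trans ?_) _
    exact Finset.sum_le_sum fun y _ => Finset.card_image_le
  -- the excess
  have hexc : ∑ v ∈ W \ Xs a a' b b', (Nb G {v}).card =
      6 * (W \ Xs a a' b b').card + ∑ v ∈ W \ Xs a a' b b', ((Nb G {v}).card - 6) := by
    have h1 : ∑ v ∈ W \ Xs a a' b b', (Nb G {v}).card =
        ∑ v ∈ W \ Xs a a' b b', (6 + ((Nb G {v}).card - 6)) := by
      refine Finset.sum_congr rfl fun v hv => ?_
      have h2 := h6.deg v (Finset.mem_sdiff.1 hv).1
      omega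
    rw [h1, Finset.sum_add_distrib, Finset.sum_const, smul_eq_mul, mul_comm]
  have hne : cc.Nonempty := by
    rw [Finset.nonempty_iff_ne_empty]
    rintro rfl
    simp at hs
  obtain ⟨u0, hu0⟩ := hne
  have hhW : h ∈ W := h6.ins h u0 (hu u0 (hc hu0))
  have hcU : cc.card ≤ U.card := Finset.card_le_card hc
  by_cases hhX : h ∈ Xs a a' b b'
  · -- `h` is a terminal
    have hI : U.card ≤ (Ed G (Xs a a' b b') ∩ Ed G (W \ Xs a a' b b')).card := by
      have h1 : (U.image fun u => s(h, u)) ⊆ Ed G (Xs a a' b b') ∩ Ed G (W \ Xs a a' b b') := by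
        intro e he
        obtain ⟨u, huU, rfl⟩ := Finset.mem_image.1 he
        rw [Finset.mem_inter]
        refine ⟨mem_Ed.2 ⟨?_, h, hhX, by simp⟩, mem_Ed.2 ⟨?_, u, hUW u huU, by simp⟩⟩ <;>
        · rw [SimpleGraph.mem_edgeSet]
          exact hu u huU
      have h2 : (U.image fun u => s(h, u)).card = U.card := by
        refine Finset.card_image_of_injective _ fun x y hxy => ?_
        exact Sym2.congr_right.1 hxy
      rw [← h2]
      exact Finset.card_le_card h1
    have hS : ∑ v ∈ cc, ((Nb G {v}).card - 6) ≤ ∑ v ∈ W \ Xs a a' b b', ((Nb G {v}).card - 6) :=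
      Finset.sum_le_sum_of_subset hccW
    omega
  · -- `h` is not a terminal
    have hhc : h ∉ cc := fun h1 => (hu h (hc h1)).ne rfl
    have hdh : U.card ≤ (Nb G {h}).card := by
      refine Finset.card_le_card fun u huU => mem_Nb.2 ⟨?_, h, by simp, hu u huU⟩
      rw [Finset.mem_singleton]
      exact (hu u huU).ne'
    have hS : ((Nb G {h}).card - 6) + ∑ v ∈ cc, ((Nb G {v}).card - 6) ≤
        ∑ v ∈ W \ Xs a a' b b', ((Nb G {v}).card - 6) := by
      rw [← Finset.sum_insert hhc (f := fun v => (Nb G {v}).card - 6)]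
      refine Finset.sum_le_sum_of_subset fun v hv => ?_
      rcases Finset.mem_insert.1 hv with rfl | hv
      · exact Finset.mem_sdiff.2 ⟨hhW, hhX⟩
      · exact hccW hv
    omega

end Pool.Agent.JNG
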