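import Mathlib
import Pool.Agent.JNG.Defs

/-!
Component of a vertex inside a finite set.
Proof. D1 = the vertices v of D with Jn G D u v. It is connected (a walk inside D from u has all its
vertices in D1, because every vertex of it is joined to u by an initial part), contains u, and a
neighbour w of D1 outside D1 is not in D (otherwise it would be joined to u inside D), so w is in Nb G D.
-/

set_option autoImplicit false

namespace Pool.Agent.JNG

open SimpleGraph Pool.Agent.LNK

theorem comp {V : Type} [Fintype V] (G : SimpleGraph V) (D : Finset V) (u : V) (hu : u ∈ D) :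
    ∃ D1 ⊆ D, u ∈ D1 ∧ Cn G D1 ∧ Nb G D1 ⊆ Nb G D := by
  classical
  set D1 : Finset V := D.filter (fun v => Jn G (D : Set V) u v) with hD1
  have hmem : ∀ v, v ∈ D1 ↔ v ∈ D ∧ Jn G (D : Set V) u v := fun v => by
    rw [hD1, Finset.mem_filter]
  have huD : Jn G (D : Set V) u u := Jn.refl (by simpa using hu)
  have key : ∀ v ∈ D1, Jn G (D1 : Set V) u v := by
    intro v hv
    obtain ⟨w, hw⟩ := ((hmem v).1 hv).2
    refine ⟨w, fun x hx => ?_⟩
    rw [Finset.mem_coe, hmem]
    refine ⟨by simpa using hw x hx, w.takeUntil x hx, fun y hy => hw y ?_⟩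
    exact w.support_takeUntil_subset_support hx hy
  refine ⟨D1, Finset.filter_subset _ _, (hmem u).2 ⟨hu, huD⟩, ⟨⟨u, (hmem u).2 ⟨hu, huD⟩⟩, ?_⟩, ?_⟩
  · intro x hx y hy
    exact (key x hx).symm.trans (key y hy)
  · intro z hz
    obtain ⟨hz1, x, hx, hxz⟩ := mem_Nb.1 hz
    have hxD := (hmem x).1 hx
    rw [mem_Nb]
    refine ⟨fun hzD => hz1 ((hmem z).2 ⟨hzD, ?_⟩), x, hxD.1, hxz⟩
    exact hxD.2.trans (Jn.of_adj hxz (by simpa using hxD.1) (by simpa using hzD))

end Pool.Agent.JNG
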