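import Mathlib
import Pool.Agent.JNG.Defs

/-!
Contracting v into u loses at most 1 + card Cc edges.
Proof. Map the edges e of G that meet W minus X, other than uv and the vb with b in Cc G X u v, injectively to
edges of Ct G u v that meet (W minus v) minus X: if v is not in e, then e goes to itself (e meets
(W minus v) minus X). If e = vb, then b is not u, b is not adjacent to u in G, and not both u and b are in X;
e goes to ub, which is an edge of Ct G u v (b is not u, b is not v), not an edge of G, and meets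
(W minus v) minus X because u, b are in W (hins) and not both in X. Injective: the images ub are not edges of
G and determine b.
-/

set_option autoImplicit false

namespace Pool.Agent.JNG

open SimpleGraph Pool.Agent.LNK

private theorem ct_of {V : Type} {G : SimpleGraph V} {u v x y : V} (hxy : x ≠ y) (hx : x ≠ v)
    (hy : y ≠ v) (h : G.Adj x y ∨ (x = u ∧ G.Adj v y)) : (Ct G u v).Adj x y := by
  unfold Ct
  rw [SimpleGraph.fromRel_adj]
  exact ⟨hxy, Or.inl ⟨hx, hy, h⟩⟩

open Classical in
theorem cte {V : Type} [Fintype V] {G : SimpleGraph V} {W X : Finset V} (hins : Ins G W) (hX : X ⊆ W)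
    {u v : V} (huv : G.Adj u v) (hv : v ∉ X) :
    (Ed G (W \ X)).card ≤ (Ed (Ct G u v) ((W.erase v) \ X)).card + 1 + (Cc G X u v).card := by
  set T : Finset (Sym2 V) := insert s(u, v) ((Cc G X u v).image fun b => s(v, b)) with hT
  have hTc : T.card ≤ 1 + (Cc G X u v).card := by
    refine (Finset.card_insert_le _ _).trans ?_
    have := Finset.card_image_le (s := Cc G X u v) (f := fun b => s(v, b))
    omega
  let f : V → V := fun x => if x = v then u else x
  have hfv : f v = u := if_pos rfl
  have hfx : ∀ x, x ≠ v → f x = x := fun x hx => if_neg hx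
  have hne : u ≠ v := huv.ne
  have key : ∀ e ∈ Ed G (W \ X) \ T, Sym2.map f e ∈ Ed (Ct G u v) ((W.erase v) \ X) ∧
      ((v ∉ e ∧ Sym2.map f e = e ∧ e ∈ G.edgeSet) ∨
        ∃ b, e = s(v, b) ∧ Sym2.map f e = s(u, b) ∧ ¬ G.Adj u b) := by
    intro e he
    rw [Finset.mem_sdiff, mem_Ed] at he
    obtain ⟨⟨heG, w, hw, hwe⟩, heT⟩ := he
    rw [Finset.mem_sdiff] at hw
    by_cases hve : v ∈ e
    · obtain ⟨b, rfl⟩ := Sym2.mem_iff_exists.1 hve
      rw [SimpleGraph.mem_edgeSet] at heG
      have hbv : b ≠ v := heG.ne.symm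
      have hbu : b ≠ u := by
        rintro rfl
        apply heT
        rw [hT, Finset.mem_insert]
        exact Or.inl Sym2.eq_swap
      have hbC : b ∉ Cc G X u v := by
        intro hb
        apply heT
        rw [hT, Finset.mem_insert]
        exact Or.inr (Finset.mem_image.2 ⟨b, hb, rfl⟩)
      have hbN : b ∈ Nb G {v} := by
        rw [mem_Nb]
        exact ⟨by rw [Finset.mem_singleton]; exact hbv, v, Finset.mem_singleton_self v, heG⟩
      have hnot : ¬ (G.Adj u b ∨ (u ∈ X ∧ b ∈ X)) := by
        intro h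
        apply hbC
        unfold Cc
        rw [Finset.mem_filter]
        exact ⟨hbN, hbu, h⟩
      have hmap : Sym2.map f s(v, b) = s(u, b) := by
        rw [Sym2.map_mk, hfv, hfx b hbv]
      have hadj : (Ct G u v).Adj u b := ct_of (Ne.symm hbu) hne hbv (Or.inr ⟨rfl, heG⟩)
      have huW : u ∈ W := hins u v huv
      have hbW : b ∈ W := hins.right heG
      refine ⟨?_, Or.inr ⟨b, rfl, hmap, fun h => hnot (Or.inl h)⟩⟩
      rw [hmap, mem_Ed]
      refine ⟨hadj, ?_⟩
      by_cases huX : u ∈ X
      · refine ⟨b, ?_, Sym2.mem_mk_right _ _⟩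
        rw [Finset.mem_sdiff, Finset.mem_erase]
        exact ⟨⟨hbv, hbW⟩, fun h => hnot (Or.inr ⟨huX, h⟩)⟩
      · refine ⟨u, ?_, Sym2.mem_mk_left _ _⟩
        rw [Finset.mem_sdiff, Finset.mem_erase]
        exact ⟨⟨hne, huW⟩, huX⟩
    · have hmap : Sym2.map f e = e := by
        induction e using Sym2.ind with
        | _ x y =>
          have hx : x ≠ v := fun h => hve (h ▸ Sym2.mem_mk_left _ _)
          have hy : y ≠ v := fun h => hve (h ▸ Sym2.mem_mk_right _ _)
          rw [Sym2.map_mk, hfx x hx, hfx y hy]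
      refine ⟨?_, Or.inl ⟨hve, hmap, heG⟩⟩
      rw [hmap, mem_Ed]
      constructor
      · induction e using Sym2.ind with
        | _ x y =>
          have hx : x ≠ v := fun h => hve (h ▸ Sym2.mem_mk_left _ _)
          have hy : y ≠ v := fun h => hve (h ▸ Sym2.mem_mk_right _ _)
          rw [SimpleGraph.mem_edgeSet] at heG ⊢
          exact ct_of heG.ne hx hy (Or.inl heG)
      · refine ⟨w, ?_, hwe⟩
        rw [Finset.mem_sdiff, Finset.mem_erase]
        exact ⟨⟨fun h => hve (h ▸ hwe), hw.1⟩, hw.2⟩
  have hinj : Set.InjOn (Sym2.map f) (Ed G (W \ X) \ T : Finset (Sym2 V)) := by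
    intro e he e' he' h
    rcases (key e he).2 with ⟨h1, h2, h3⟩ | ⟨b, h1, h2, h3⟩
    · rcases (key e' he').2 with ⟨h1', h2', h3'⟩ | ⟨b', h1', h2', h3'⟩
      · rw [← h2, ← h2', h]
      · exfalso
        rw [h2, h2'] at h
        rw [h, SimpleGraph.mem_edgeSet] at h3
        exact h3' h3
    · rcases (key e' he').2 with ⟨h1', h2', h3'⟩ | ⟨b', h1', h2', h3'⟩
      · exfalso
        rw [h2, h2'] at h
        rw [← h, SimpleGraph.mem_edgeSet] at h3'
        exact h3 h3'
      · rw [h2, h2'] at h
        have hb : b = b' := by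
          rcases Sym2.eq_iff.1 h with h4 | h4
          · exact h4.2
          · exact h4.2.trans h4.1
        rw [h1, h1', hb]
  have h1 : (Ed G (W \ X) \ T).card ≤ (Ed (Ct G u v) ((W.erase v) \ X)).card :=
    Finset.card_le_card_of_injOn _ (fun e he => (key e he).1) hinj
  have h2 : (Ed G (W \ X)).card ≤ (Ed G (W \ X) \ T).card + T.card := by
    have := Finset.le_card_sdiff T (Ed G (W \ X))
    omega
  omega

end Pool.Agent.JNG
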