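import Mathlib
import Pool.Agent.JNG.Defs

/-!
A linkage after contraction gives a linkage.
Proof. Let P, Q be a linkage of Ct G u v; v is isolated in Ct G u v and not a terminal, so we may remove v from P
and Q (a walk from a does not visit v). If u is in P, put P' = insert v P, Q' = Q; if u is in Q, put
Q' = insert v Q; otherwise change nothing. An edge of Ct G u v inside P is an edge of G or of the form u y with v y an edge of
G, and then u, v, y are joined in insert v P. (If u is not in P, every edge of Ct inside P is an edge of G.)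
-/

set_option autoImplicit false

namespace Pool.Agent.JNG

open SimpleGraph Pool.Agent.LNK

private theorem ctl_walk {V : Type} {G : SimpleGraph V} {u v : V} (huv : G.Adj u v) {P P' : Set V}
    (hP : ∀ z ∈ P, z ≠ v → z ∈ P') (hvP : u ∈ P → v ∈ P') {x y : V} (w : (Ct G u v).Walk x y) :
    x ≠ v → (∀ z ∈ w.support, z ∈ P) → Jn G P' x y := by
  induction w with
  | @nil x =>
    intro hx hw
    exact Jn.refl (hP x (hw x (by simp)) hx)
  | @cons x x' y hadj p ih =>
    intro hx hw
    have hxP : x ∈ P := hw x (Walk.start_mem_support _)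
    have hxP' : x' ∈ P := hw x' (by
      rw [Walk.support_cons]
      exact List.mem_cons_of_mem _ p.start_mem_support)
    have hp : ∀ z ∈ p.support, z ∈ P := fun z hz => hw z (by
      rw [Walk.support_cons]
      exact List.mem_cons_of_mem _ hz)
    unfold Ct at hadj
    rw [SimpleGraph.fromRel_adj] at hadj
    obtain ⟨_, hadj⟩ := hadj
    have hx'v : x' ≠ v := by
      rcases hadj with h | h
      · exact h.2.1
      · exact h.1
    refine Jn.trans ?_ (ih hx'v hp)
    have h1 : x ∈ P' := hP x hxP hx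
    have h2 : x' ∈ P' := hP x' hxP' hx'v
    rcases hadj with ⟨_, _, h3 | ⟨h3, h4⟩⟩ | ⟨_, _, h3 | ⟨h3, h4⟩⟩
    · exact Jn.of_adj h3 h1 h2
    · subst h3
      exact (Jn.of_adj huv h1 (hvP hxP)).trans (Jn.of_adj h4 (hvP hxP) h2)
    · exact Jn.of_adj h3.symm h1 h2
    · subst h3
      exact (Jn.of_adj h4.symm h1 (hvP hxP')).trans (Jn.of_adj huv.symm (hvP hxP') h2)

theorem ctl {V : Type} [Fintype V] {G : SimpleGraph V} {a a' b b' u v : V} (huv : G.Adj u v)
    (hv : v ∉ Xs a a' b b') {P Q : Finset V} (hl : Lkg (Ct G u v) a a' b b' P Q) :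
    ∃ P Q : Finset V, Lkg G a a' b b' P Q := by
  classical
  rw [mem_Xs] at hv
  push Not at hv
  obtain ⟨ha, ha', hb, hb'⟩ := hv
  let f : Finset V → Finset V := fun S => if u ∈ S then insert v S else S.erase v
  have hf1 : ∀ S : Finset V, ∀ z ∈ S, z ≠ v → z ∈ f S := by
    intro S z hz hzv
    change z ∈ (if u ∈ S then insert v S else S.erase v)
    split_ifs
    · exact Finset.mem_insert_of_mem hz
    · exact Finset.mem_erase.2 ⟨hzv, hz⟩
  have hf2 : ∀ S : Finset V, u ∈ S → v ∈ f S := by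
    intro S hS
    change v ∈ (if u ∈ S then insert v S else S.erase v)
    rw [if_pos hS]
    exact Finset.mem_insert_self _ _
  have hf3 : ∀ S : Finset V, ∀ z ∈ f S, (z = v ∧ u ∈ S) ∨ (z ≠ v ∧ z ∈ S) := by
    intro S z hz
    change z ∈ (if u ∈ S then insert v S else S.erase v) at hz
    split_ifs at hz with h
    · by_cases hzv : z = v
      · exact Or.inl ⟨hzv, h⟩
      · exact Or.inr ⟨hzv, (Finset.mem_insert.1 hz).resolve_left hzv⟩
    · exact Or.inr (Finset.mem_erase.1 hz)
  refine ⟨f P, f Q, ?_, ?_, ?_⟩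
  · intro z hzP hzQ
    rcases hf3 P z hzP with ⟨h1, h2⟩ | ⟨h1, h2⟩
    · rcases hf3 Q z hzQ with ⟨h3, h4⟩ | ⟨h3, h4⟩
      · exact hl.dj u h2 h4
      · exact h3 h1
    · rcases hf3 Q z hzQ with ⟨h3, h4⟩ | ⟨h3, h4⟩
      · exact h1 h3
      · exact hl.dj z h2 h4
  · obtain ⟨w, hw⟩ := hl.jp
    exact ctl_walk huv (fun z hz hzv => hf1 P z hz hzv) (fun h => hf2 P h) w (Ne.symm ha) hw
  · obtain ⟨w, hw⟩ := hl.jq
    exact ctl_walk huv (fun z hz hzv => hf1 Q z hz hzv) (fun h => hf2 Q h) w (Ne.symm hb) hw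

end Pool.Agent.JNG
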