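import Mathlib
import Pool.Agent.JNG.Defs

/-!
A linkage in Kq G D gives a linkage in G, when D is connected with at most three neighbours.
Proof. First shrink the sets to the vertices of two walks of Kq G D (all edges of Kq G D avoid D and the
terminals are not in D), so that P and Q are disjoint from D. At most one of P, Q contains two vertices of
Nb G D (card at most 3, P and Q disjoint). If Q has at most one vertex of Nb G D, then Q is joined in G
as well (a walk inside Q uses no new edge, because a new edge has two different ends in Nb G D), and P + D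
joins a to a' in G: every edge of Kq G D inside P is an edge of G or joins two vertices of Nb G D, which
are joined through the connected set D. The other case is symmetric (Lkg.swap).
Useful general lemma: if every edge of H inside P is an edge of G or has both ends in a set N every vertex
of which has a G-neighbour in the connected set D, then Jn H P u v implies Jn G (P + D) u v (induction on
the walk).
-/

set_option autoImplicit false

namespace Pool.Agent.JNG

open SimpleGraph Pool.Agent.LNK

theorem kq_adj {V : Type} [Fintype V] {G : SimpleGraph V} {D : Finset V} {u v : V} :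
    (Kq G D).Adj u v ↔ u ≠ v ∧ ((u ∉ D ∧ v ∉ D ∧ G.Adj u v) ∨ (u ∈ Nb G D ∧ v ∈ Nb G D)) := by
  unfold Kq
  rw [SimpleGraph.fromRel_adj]
  constructor
  · rintro ⟨h1, (h | h) | (h | h)⟩
    · exact ⟨h1, Or.inl h⟩
    · exact ⟨h1, Or.inr h⟩
    · exact ⟨h1, Or.inl ⟨h.2.1, h.1, h.2.2.symm⟩⟩
    · exact ⟨h1, Or.inr ⟨h.2, h.1⟩⟩
  · rintro ⟨h1, h⟩
    exact ⟨h1, Or.inl h⟩

theorem kq_right {V : Type} [Fintype V] {G : SimpleGraph V} {D : Finset V} {u v : V}
    (h : (Kq G D).Adj u v) : v ∉ D := by
  rw [kq_adj] at h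
  rcases h.2 with h | h
  · exact h.2.1
  · exact (mem_Nb.1 h.2).1

/-- a walk of `Kq G D` starting outside `D` avoids `D` -/
theorem kq_avoid {V : Type} [Fintype V] {G : SimpleGraph V} {D : Finset V} {u v : V}
    (w : (Kq G D).Walk u v) (hu : u ∉ D) : ∀ x ∈ w.support, x ∉ D := by
  induction w with
  | nil =>
    intro x hx
    rw [Walk.support_nil, List.mem_singleton] at hx
    rw [hx]
    exact hu
  | @cons u u' v hadj p ih =>
    intro x hx
    rw [Walk.support_cons, List.mem_cons] at hx
    rcases hx with rfl | hx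
    · exact hu
    · exact ih (kq_right hadj) x hx

/-- walks of `Kq G D` through `D` -/
theorem kq_thr {V : Type} [Fintype V] {G : SimpleGraph V} {D : Finset V} (hc : Cn G D)
    {P : Set V} {u v : V} (w : (Kq G D).Walk u v) (hw : ∀ x ∈ w.support, x ∈ P) :
    Jn G (P ∪ (D : Set V)) u v := by
  induction w with
  | nil => exact Jn.refl (Or.inl (hw _ (Walk.start_mem_support _)))
  | @cons u u' v hadj p ih =>
    have h1 : ∀ x ∈ p.support, x ∈ P := fun x hx => hw x (by
      rw [Walk.support_cons]; exact List.mem_cons_of_mem _ hx)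
    have hu : u ∈ P := hw _ (Walk.start_mem_support _)
    have hu' : u' ∈ P := h1 _ p.start_mem_support
    refine Jn.trans ?_ (ih h1)
    rw [kq_adj] at hadj
    rcases hadj.2 with h | h
    · exact Jn.of_adj h.2.2 (Or.inl hu) (Or.inl hu')
    · obtain ⟨_, d, hd, hdu⟩ := mem_Nb.1 h.1
      obtain ⟨_, d', hd', hdu'⟩ := mem_Nb.1 h.2
      have h2 : Jn G (P ∪ (D : Set V)) u d := Jn.of_adj hdu.symm (Or.inl hu) (Or.inr hd)
      have h3 : Jn G (P ∪ (D : Set V)) d' u' := Jn.of_adj hdu' (Or.inr hd') (Or.inl hu')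
      have h4 : Jn G (P ∪ (D : Set V)) d d' := (hc.2 d hd d' hd').mono Set.subset_union_right
      exact h2.trans (h4.trans h3)

/-- walks of `Kq G D` that use no new edge -/
theorem kq_in {V : Type} [Fintype V] {G : SimpleGraph V} {D : Finset V}
    {P : Set V} (hP : ∀ x ∈ P, ∀ y ∈ P, x ∈ Nb G D → y ∈ Nb G D → x = y)
    {u v : V} (w : (Kq G D).Walk u v) (hw : ∀ x ∈ w.support, x ∈ P) :
    Jn G P u v := by
  induction w with
  | nil => exact Jn.refl (hw _ (Walk.start_mem_support _))
  | @cons u u' v hadj p ih =>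
    have h1 : ∀ x ∈ p.support, x ∈ P := fun x hx => hw x (by
      rw [Walk.support_cons]; exact List.mem_cons_of_mem _ hx)
    have hu : u ∈ P := hw _ (Walk.start_mem_support _)
    have hu' : u' ∈ P := h1 _ p.start_mem_support
    refine Jn.trans ?_ (ih h1)
    rw [kq_adj] at hadj
    rcases hadj.2 with h | h
    · exact Jn.of_adj h.2.2 hu hu'
    · exact absurd (hP u hu u' hu' h.1 h.2) hadj.1

theorem cll_aux {V : Type} [Fintype V] {G : SimpleGraph V} {D : Finset V} {a a' b b' : V}
    (hc : Cn G D) (ha : a ∉ D) (hb : b ∉ D) {P Q : Finset V}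
    (hl : Lkg (Kq G D) a a' b b' P Q)
    (hQ : ∀ x ∈ Q, ∀ y ∈ Q, x ∈ Nb G D → y ∈ Nb G D → x = y) :
    ∃ P Q : Finset V, Lkg G a a' b b' P Q := by
  classical
  obtain ⟨wp, hwp⟩ := hl.jp
  obtain ⟨wq, hwq⟩ := hl.jq
  refine ⟨(P \ D) ∪ D, Q \ D, ?_, ?_, ?_⟩
  · intro v hv hv'
    rw [Finset.mem_sdiff] at hv'
    rcases Finset.mem_union.1 hv with h | h
    · exact hl.dj v (Finset.mem_sdiff.1 h).1 hv'.1
    · exact hv'.2 h
  · have h := kq_thr hc (P := ((P \ D : Finset V) : Set V)) wp (fun x hx => by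
      rw [Finset.mem_coe, Finset.mem_sdiff]
      exact ⟨hwp x hx, kq_avoid wp ha x hx⟩)
    rw [Finset.coe_union]
    exact h
  · apply kq_in (P := ((Q \ D : Finset V) : Set V)) _ wq
    · intro x hx
      rw [Finset.mem_coe, Finset.mem_sdiff]
      exact ⟨hwq x hx, kq_avoid wq hb x hx⟩
    · intro x hx y hy
      rw [Finset.mem_coe, Finset.mem_sdiff] at hx hy
      exact hQ x hx.1 y hy.1

theorem cll {V : Type} [Fintype V] {G : SimpleGraph V} {D : Finset V} {a a' b b' : V} (hc : Cn G D)
    (h3 : (Nb G D).card ≤ 3) (hX : ∀ v ∈ Xs a a' b b', v ∉ D) {P Q : Finset V}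
    (hl : Lkg (Kq G D) a a' b b' P Q) : ∃ P Q : Finset V, Lkg G a a' b b' P Q := by
  classical
  have ha : a ∉ D := hX a (mem_Xs.2 (Or.inl rfl))
  have hb : b ∉ D := hX b (mem_Xs.2 (Or.inr (Or.inr (Or.inl rfl))))
  by_cases hQ : ∀ x ∈ Q, ∀ y ∈ Q, x ∈ Nb G D → y ∈ Nb G D → x = y
  · exact cll_aux hc ha hb hl hQ
  · by_cases hP : ∀ x ∈ P, ∀ y ∈ P, x ∈ Nb G D → y ∈ Nb G D → x = y
    · obtain ⟨P', Q', h⟩ := cll_aux hc hb ha hl.swap hP
      exact ⟨Q', P', h.swap⟩
    · exfalso
      push Not at hQ hP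
      obtain ⟨x, hx, y, hy, hxN, hyN, hxy⟩ := hP
      obtain ⟨z, hz, t, ht, hzN, htN, hzt⟩ := hQ
      have hsub : ({x, y, z, t} : Finset V) ⊆ Nb G D := by
        intro v hv
        simp only [Finset.mem_insert, Finset.mem_singleton] at hv
        rcases hv with rfl | rfl | rfl | rfl <;> assumption
      have h1 : ∀ p ∈ P, ∀ q ∈ Q, p ≠ q := by
        rintro p hp q hq rfl
        exact hl.dj p hp hq
      have hcard : ({x, y, z, t} : Finset V).card = 4 := by
        rw [Finset.card_insert_of_notMem, Finset.card_insert_of_notMem, Finset.card_pair hzt]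
        · simp only [Finset.mem_insert, Finset.mem_singleton, not_or]
          exact ⟨h1 y hy z hz, h1 y hy t ht⟩
        · simp only [Finset.mem_insert, Finset.mem_singleton, not_or]
          exact ⟨hxy, h1 x hx z hz, h1 x hx t ht⟩
      have := Finset.card_le_card hsub
      omega

end Pool.Agent.JNG
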