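import Mathlib
import Pool.Agent.JNG.Defs
import Pool.Agent.JNG.CMP

/-!
Replacing a maximal connected set D with at most three neighbours by a clique on its neighbourhood keeps the
mass hypotheses.
Proof. `ins`, `sub`: clear (Nb G D is inside W and outside D; X is disjoint from D).
`m1`: (W minus D) minus X = (W minus X) minus D. Every edge of G that meets W minus X and does not meet D
is an edge of Kq G D meeting (W minus D) minus X. So card Ed' is at least card Ed G (W minus X) - card Ed G D,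
which is at least 3 card(W minus X) + 2 - 3 card D by m1 and m2 (for D) of G.
`m2`: let D' be inside (W minus D) minus X with card (Nb Kq D') at most 3.
Case 1: D' is disjoint from Nb G D. Then no vertex of D' is adjacent to D in G, the new edges do not meet
D', so Nb and Ed of D' are the same in G and in Kq G D, and m2 of G gives the claim.
Case 2: z in D' and z in Nb G D. Let D1 be the component of z in D' with respect to Kq G D (`comp`), and
E = D + D1. E is connected in G: every vertex v of D1 is joined to z by a walk of Kq G D inside D1; its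
initial part up to the first vertex in Nb G D uses edges of G only (an edge of Kq G D with an end outside
Nb G D is an edge of G), and that vertex is adjacent to D. Nb G E is inside Nb (Kq) D1: a neighbour w of D
outside E is in Nb G D, so it is adjacent to z in Kq (w is not z); a neighbour w of D1 outside E is not
in D, so the edge is in Kq. Hence card (Nb G E) is at most 3, E is inside W minus X, and hmax gives E = D,
a contradiction as z is in E and not in D.
-/

set_option autoImplicit false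

namespace Pool.Agent.JNG

open SimpleGraph Pool.Agent.LNK

private theorem clq_adj {V : Type} [Fintype V] {G : SimpleGraph V} {D : Finset V} {u v : V} :
    (Kq G D).Adj u v ↔ u ≠ v ∧ ((u ∉ D ∧ v ∉ D ∧ G.Adj u v) ∨ (u ∈ Nb G D ∧ v ∈ Nb G D)) := by
  unfold Kq
  rw [SimpleGraph.fromRel_adj]
  constructor
  · rintro ⟨h, h1 | h1⟩
    · exact ⟨h, h1⟩
    · refine ⟨h, ?_⟩
      rcases h1 with ⟨h2, h3, h4⟩ | ⟨h2, h3⟩
      · exact Or.inl ⟨h3, h2, h4.symm⟩
      · exact Or.inr ⟨h3, h2⟩
  · rintro ⟨h, h1⟩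
    exact ⟨h, Or.inl h1⟩

private theorem clq_walk {V : Type} [Fintype V] {G : SimpleGraph V} {D D1 : Finset V} {E : Set V}
    (hDE : (D : Set V) ⊆ E) (hD1E : (D1 : Set V) ⊆ E) {u z : V} (w : (Kq G D).Walk u z)
    (hw : ∀ x ∈ w.support, x ∈ D1) (hz : z ∈ Nb G D) : ∃ d ∈ D, Jn G E u d := by
  induction w with
  | @nil u =>
    obtain ⟨_, d, hd, hdu⟩ := mem_Nb.1 hz
    exact ⟨d, hd, Jn.of_adj hdu.symm (hD1E (hw u (by simp))) (hDE hd)⟩
  | @cons u u' z hadj p ih =>
    have h1 : ∀ x ∈ p.support, x ∈ D1 := fun x hx => hw x (by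
      rw [Walk.support_cons]; exact List.mem_cons_of_mem _ hx)
    have huD1 : u ∈ D1 := hw u (by simp)
    have hu'D1 : u' ∈ D1 := h1 u' p.start_mem_support
    by_cases hu : u ∈ Nb G D
    · obtain ⟨_, d, hd, hdu⟩ := mem_Nb.1 hu
      exact ⟨d, hd, Jn.of_adj hdu.symm (hD1E huD1) (hDE hd)⟩
    · obtain ⟨d, hd, hj⟩ := ih h1 hz
      obtain ⟨_, h2⟩ := clq_adj.1 hadj
      rcases h2 with ⟨_, _, h3⟩ | ⟨h3, _⟩
      · exact ⟨d, hd, (Jn.of_adj h3 (hD1E huD1) (hD1E hu'D1)).trans hj⟩
      · exact absurd h3 hu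

open Classical in
theorem clq {V : Type} [Fintype V] {G : SimpleGraph V} {W X D : Finset V} (h : Ms G W X) (hD : D ⊆ W \ X)
    (hc : Cn G D) (h3 : (Nb G D).card ≤ 3)
    (hmax : ∀ E : Finset V, Cn G E → D ⊆ E → E ⊆ W \ X → (Nb G E).card ≤ 3 → E = D) :
    Ms (Kq G D) (W \ D) X := by
  have hXD : ∀ v ∈ X, v ∉ D := fun v hv hvD => (Finset.mem_sdiff.1 (hD hvD)).2 hv
  refine ⟨?_, ?_, ?_, ?_⟩
  · intro a b hab
    obtain ⟨_, h1 | h1⟩ := clq_adj.1 hab
    · exact Finset.mem_sdiff.2 ⟨h.ins a b h1.2.2, h1.1⟩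
    · exact Finset.mem_sdiff.2 ⟨Nb_subset h.ins D h1.1, (mem_Nb.1 h1.1).1⟩
  · intro v hv
    exact Finset.mem_sdiff.2 ⟨h.sub hv, hXD v hv⟩
  · have hm1 := h.m1
    have hm2 := h.m2 D hD h3
    have hsub : Ed G (W \ X) ⊆ Ed (Kq G D) ((W \ D) \ X) ∪ Ed G D := by
      intro e he
      rw [Finset.mem_union]
      by_cases heD : e ∈ Ed G D
      · exact Or.inr heD
      · left
        obtain ⟨h1, u, hu, hue⟩ := mem_Ed.1 he
        obtain ⟨v, rfl⟩ := hue
        rw [SimpleGraph.mem_edgeSet] at h1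
        have huD : u ∉ D := fun h2 => heD (mem_Ed.2 ⟨by
          rw [SimpleGraph.mem_edgeSet]; exact h1, u, h2, Sym2.mem_mk_left u v⟩)
        have hvD : v ∉ D := fun h2 => heD (mem_Ed.2 ⟨by
          rw [SimpleGraph.mem_edgeSet]; exact h1, v, h2, Sym2.mem_mk_right u v⟩)
        rw [Finset.mem_sdiff] at hu
        refine mem_Ed.2 ⟨?_, u, ?_, Sym2.mem_mk_left u v⟩
        · rw [SimpleGraph.mem_edgeSet]
          exact clq_adj.2 ⟨h1.ne, Or.inl ⟨huD, hvD, h1⟩⟩
        · exact Finset.mem_sdiff.2 ⟨Finset.mem_sdiff.2 ⟨hu.1, huD⟩, hu.2⟩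
    have h4 := (Finset.card_le_card hsub).trans (Finset.card_union_le _ _)
    have h5 : (W \ D) \ X = (W \ X) \ D := by
      ext v
      simp only [Finset.mem_sdiff]
      tauto
    have h6 : ((W \ D) \ X).card + D.card = (W \ X).card := by
      rw [h5]
      exact Finset.card_sdiff_add_card_eq_card hD
    omega
  · intro D' hD' hcard
    have hD'D : ∀ v ∈ D', v ∉ D := fun v hv =>
      (Finset.mem_sdiff.1 (Finset.mem_sdiff.1 (hD' hv)).1).2
    have hD'X : ∀ v ∈ D', v ∉ X := fun v hv => (Finset.mem_sdiff.1 (hD' hv)).2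
    have hD'W : ∀ v ∈ D', v ∈ W := fun v hv =>
      (Finset.mem_sdiff.1 (Finset.mem_sdiff.1 (hD' hv)).1).1
    by_cases hz : ∃ z ∈ D', z ∈ Nb G D
    · exfalso
      obtain ⟨z, hzD', hzN⟩ := hz
      obtain ⟨D1, hD1, hzD1, hc1, hN1⟩ := comp (Kq G D) D' z hzD'
      have hE := hmax (D ∪ D1) ?_ Finset.subset_union_left ?_ ?_
      · have h1 : z ∈ D ∪ D1 := Finset.mem_union_right _ hzD1
        rw [hE] at h1
        exact hD'D z hzD' h1
      · obtain ⟨d0, hd0⟩ := hc.1
        have hDE : (D : Set V) ⊆ ((D ∪ D1 : Finset V) : Set V) := by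
          rw [Finset.coe_union]
          exact Set.subset_union_left
        have hD1E : (D1 : Set V) ⊆ ((D ∪ D1 : Finset V) : Set V) := by
          rw [Finset.coe_union]
          exact Set.subset_union_right
        have key : ∀ v ∈ D ∪ D1, Jn G ((D ∪ D1 : Finset V) : Set V) v d0 := by
          intro v hv
          rcases Finset.mem_union.1 hv with hv | hv
          · exact (hc.2 v hv d0 hd0).mono hDE
          · obtain ⟨w, hw⟩ := hc1.2 v hv z hzD1
            obtain ⟨d, hd, hj⟩ := clq_walk hDE hD1E w (fun x hx => by simpa using hw x hx) hzN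
            exact hj.trans ((hc.2 d hd d0 hd0).mono hDE)
        exact ⟨⟨d0, Finset.mem_union_left _ hd0⟩, fun u hu v hv => (key u hu).trans (key v hv).symm⟩
      · intro v hv
        rcases Finset.mem_union.1 hv with hv | hv
        · exact hD hv
        · exact Finset.mem_sdiff.2 ⟨hD'W v (hD1 hv), hD'X v (hD1 hv)⟩
      · refine (Finset.card_le_card ?_).trans hcard
        refine Finset.Subset.trans ?_ hN1
        intro w hw
        obtain ⟨hwE, u, hu, huw⟩ := mem_Nb.1 hw
        have hwD : w ∉ D := fun h1 => hwE (Finset.mem_union_left _ h1)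
        have hwD1 : w ∉ D1 := fun h1 => hwE (Finset.mem_union_right _ h1)
        rcases Finset.mem_union.1 hu with hu | hu
        · refine mem_Nb.2 ⟨hwD1, z, hzD1, clq_adj.2 ⟨?_, Or.inr ⟨hzN, mem_Nb.2 ⟨hwD, u, hu, huw⟩⟩⟩⟩
          rintro rfl
          exact hwD1 hzD1
        · exact mem_Nb.2 ⟨hwD1, u, hu, clq_adj.2 ⟨huw.ne, Or.inl ⟨hD'D u (hD1 hu), hwD, huw⟩⟩⟩
    · push Not at hz
      have hadj : ∀ u ∈ D', ∀ v, (Kq G D).Adj u v ↔ G.Adj u v := by
        intro u hu v
        rw [clq_adj]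
        constructor
        · rintro ⟨_, h1 | h1⟩
          · exact h1.2.2
          · exact absurd h1.1 (hz u hu)
        · intro h1
          refine ⟨h1.ne, Or.inl ⟨hD'D u hu, ?_, h1⟩⟩
          intro h2
          exact hz u hu (mem_Nb.2 ⟨hD'D u hu, v, h2, h1.symm⟩)
      have hNb : Nb (Kq G D) D' = Nb G D' := by
        ext v
        rw [mem_Nb, mem_Nb]
        constructor
        · rintro ⟨h1, u, hu, h2⟩
          exact ⟨h1, u, hu, (hadj u hu v).1 h2⟩
        · rintro ⟨h1, u, hu, h2⟩
          exact ⟨h1, u, hu, (hadj u hu v).2 h2⟩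
      have hEd : Ed (Kq G D) D' = Ed G D' := by
        ext e
        rw [mem_Ed, mem_Ed]
        constructor
        · rintro ⟨h1, u, hu, hue⟩
          obtain ⟨v, rfl⟩ := hue
          rw [SimpleGraph.mem_edgeSet] at h1
          exact ⟨by rw [SimpleGraph.mem_edgeSet]; exact (hadj u hu v).1 h1, u, hu,
            Sym2.mem_mk_left u v⟩
        · rintro ⟨h1, u, hu, hue⟩
          obtain ⟨v, rfl⟩ := hue
          rw [SimpleGraph.mem_edgeSet] at h1
          exact ⟨by rw [SimpleGraph.mem_edgeSet]; exact (hadj u hu v).2 h1, u, hu,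
            Sym2.mem_mk_left u v⟩
      rw [hEd]
      refine h.m2 D' ?_ ?_
      · intro v hv
        exact Finset.mem_sdiff.2 ⟨hD'W v hv, hD'X v hv⟩
      · rw [← hNb]
        exact hcard

end Pool.Agent.JNG
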