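import Mathlib
import Pool.Agent.JNG.Defs
import Pool.Agent.JNG.CMP
import Pool.Agent.JNG.CLQ
import Pool.Agent.JNG.CLL

/-!
In a minimal counterexample every nonempty set without terminals has at least four neighbours.
Proof. Suppose D is nonempty, inside W, without terminals, card (Nb G D) at most 3. By `comp` we may take D
connected. Choose E connected, without terminals, inside W, card (Nb G E) at most 3, with the largest number
of elements (finitely many candidates). By `clq` the graph Kq G E with W minus E satisfies the mass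
hypotheses, and card (W minus E) is less than card W, so `ih` gives a linkage of Kq G E, and `cll` a linkage
of G, against `nl`.
-/

set_option autoImplicit false

namespace Pool.Agent.JNG

open SimpleGraph Pool.Agent.LNK

theorem r1 {V : Type} [Fintype V] {G : SimpleGraph V} {W : Finset V} {a a' b b' : V}
    (h : Ce G W a a' b b') : Hf G W a a' b b' := by
  classical
  intro D hDW hne hDX
  by_contra hcon
  obtain ⟨u, hu⟩ := hne
  obtain ⟨D1, hD1, huD1, hcD1, hNb⟩ := comp G D u hu
  have h3 : (Nb G D1).card ≤ 3 := (Finset.card_le_card hNb).trans (by omega)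
  set X := Xs a a' b b' with hX
  set S : Finset (Finset V) := (W \ X).powerset.filter
    (fun E => Cn G E ∧ (Nb G E).card ≤ 3) with hS
  have hD1S : D1 ∈ S := by
    rw [hS, Finset.mem_filter, Finset.mem_powerset]
    refine ⟨fun v hv => ?_, hcD1, h3⟩
    rw [Finset.mem_sdiff]
    exact ⟨hDW (hD1 hv), hDX v (hD1 hv)⟩
  obtain ⟨E, hE, hmax⟩ := Finset.exists_max_image S Finset.card ⟨D1, hD1S⟩
  rw [hS, Finset.mem_filter, Finset.mem_powerset] at hE
  obtain ⟨hEW, hEc, hE3⟩ := hE
  have hms : Ms (Kq G E) (W \ E) X := by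
    refine clq h.ms hEW hEc hE3 ?_
    intro E' hc' hsub hE'W h3'
    have hE'S : E' ∈ S := by
      rw [hS, Finset.mem_filter, Finset.mem_powerset]
      exact ⟨hE'W, hc', h3'⟩
    exact (Finset.eq_of_subset_of_card_le hsub (hmax E' hE'S)).symm
  have hEW' : E ⊆ W := fun v hv => (Finset.mem_sdiff.1 (hEW hv)).1
  have hlt : (W \ E).card < W.card := by
    apply Finset.card_lt_card
    rw [Finset.ssubset_iff_subset_ne]
    refine ⟨Finset.sdiff_subset, fun he => ?_⟩
    obtain ⟨x, hx⟩ := hEc.1
    have : x ∈ W \ E := by rw [he]; exact hEW' hx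
    exact (Finset.mem_sdiff.1 this).2 hx
  obtain ⟨P, Q, hl⟩ := h.ih (Kq G E) (W \ E) a a' b b' h.ds (Or.inl hlt) hms
  obtain ⟨P', Q', hl'⟩ := cll hEc hE3
    (fun v hv hvE => (Finset.mem_sdiff.1 (hEW hvE)).2 hv) hl
  exact h.nl P' Q' hl'

end Pool.Agent.JNG
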