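import Mathlib
import Pool.Agent.JNG.Defs

/-!
Two disjoint paths through D from z1, z2 to z3, z4.
Proof. Menger (`LNK.menger`) in H = Rs G (D + {z1,z2,z3,z4}) from S = {z1, z2} to T = {z3, z4} with n = 2.
Suppose Z has at most one element and separates. D is connected and every zi has a neighbour in D, so Z is
not empty, and Z = {w} with w in D (if w = z1, then z2, D, z3 are joined outside Z; similarly for the
others). Let D1 be the set of vertices v of D, v not w, with Rch H S {w} v. Its neighbours in G are among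
z1, z2, w (a neighbour outside D is some zi; z3, z4 would be reachable; a neighbour in D other than w is
reachable), so D1 is empty by hf (D1 is inside W and has no terminals). Similarly D2 = the vertices of D
other than w reachable from T is empty. So z1, .., z4 have no neighbour in D other than w. Then D3 = D minus
w has Nb G D3 inside {w}, so D3 is empty by hf, so D = {w}, against 2 <= card D.
The two disjoint walks of Lkd start at z1, z2 (one each) and end at z3, z4 (one each); after truncation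
(the walks are disjoint, so each contains exactly one of z1, z2 and exactly one of z3, z4) their other
vertices are in D. So they give Fb G D z1 z3 z2 z4 or Fb G D z1 z4 z2 z3.
-/

set_option autoImplicit false

namespace Pool.Agent.JNG

open SimpleGraph Pool.Agent.LNK

private theorem rs_supp {V : Type} {G : SimpleGraph V} {S : Set V} {u v : V} (w : (Rs G S).Walk u v) :
    u ∈ S → ∀ x ∈ w.support, x ∈ S := by
  induction w with
  | nil =>
    intro h x hx
    rw [Walk.support_nil, List.mem_singleton] at hx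
    rw [hx]
    exact h
  | cons hadj p ih =>
    intro h x hx
    rw [Walk.support_cons, List.mem_cons] at hx
    rcases hx with rfl | hx
    · exact h
    · exact ih hadj.2.2 x hx

private theorem rch_rs {V : Type} {G : SimpleGraph V} {S A Z : Set V} {u v : V} (w : G.Walk u v) :
    (∀ x ∈ w.support, x ∈ S ∧ x ∉ Z) → Rch (Rs G S) A Z u → Rch (Rs G S) A Z v := by
  induction w with
  | nil => intro _ h; exact h
  | @cons u v' v hadj p ih =>
    intro hs h
    have h1 := hs u (Walk.start_mem_support _)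
    have h2 := hs v' (by rw [Walk.support_cons]; exact List.mem_cons_of_mem _ p.start_mem_support)
    exact ih (fun x hx => hs x (by rw [Walk.support_cons]; exact List.mem_cons_of_mem _ hx))
      (Rch.step u v' h ⟨hadj, h1.1, h2.1⟩ h2.2)

private theorem fbw {V : Type} {G : SimpleGraph V} {D : Finset V} {Y : Set V} {p p' q q' : V}
    (w : (Rs G Y).Walk p p') (w' : (Rs G Y).Walk q q') (hd : ∀ v ∈ w.support, v ∉ w'.support)
    (hY : ∀ v ∈ Y, v ∈ D ∨ v = p ∨ v = p' ∨ v = q ∨ v = q') (hp : p ∈ Y) (hq : q ∈ Y) :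
    Fb G D p p' q q' := by
  classical
  refine ⟨w.support.toFinset, w'.support.toFinset, ?_, ?_, ?_, ?_, ?_⟩
  · intro v hv
    rw [List.mem_toFinset] at hv
    rw [Finset.mem_insert, Finset.mem_insert]
    rcases hY v (rs_supp w hp v hv) with h | h | h | h | h
    · exact Or.inr (Or.inr h)
    · exact Or.inl h
    · exact Or.inr (Or.inl h)
    · rw [h] at hv
      exact absurd w'.start_mem_support (hd _ hv)
    · rw [h] at hv
      exact absurd w'.end_mem_support (hd _ hv)
  · intro v hv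
    rw [List.mem_toFinset] at hv
    rw [Finset.mem_insert, Finset.mem_insert]
    rcases hY v (rs_supp w' hq v hv) with h | h | h | h | h
    · exact Or.inr (Or.inr h)
    · rw [h] at hv
      exact absurd hv (hd _ w.start_mem_support)
    · rw [h] at hv
      exact absurd hv (hd _ w.end_mem_support)
    · exact Or.inl h
    · exact Or.inr (Or.inl h)
  · intro v hv hv'
    rw [List.mem_toFinset] at hv hv'
    exact hd v hv hv'
  · refine ⟨w.mapLe (Rs_le G Y), fun z hz => ?_⟩
    have hz' : z ∈ w.support := by simpa [Walk.mapLe] using hz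
    simpa using hz'
  · refine ⟨w'.mapLe (Rs_le G Y), fun z hz => ?_⟩
    have hz' : z ∈ w'.support := by simpa [Walk.mapLe] using hz
    simpa using hz'

/-- half of the argument: no vertex of `D` other than `w` can be reached from one side -/
private theorem side {V : Type} [Fintype V] {G : SimpleGraph V} {W : Finset V} {a a' b b' : V}
    (hf : Hf G W a a' b b') {D : Finset V} (hD : D ⊆ W) (hDX : ∀ v ∈ D, v ∉ Xs a a' b b') {Y : Set V}
    {z1 z2 z3 z4 w : V} (hYD : ∀ v ∈ D, v ∈ Y) (hY : ∀ v ∈ Nb G D, v ∈ Y)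
    (hN : ∀ v ∈ Nb G D, v = z1 ∨ v = z2 ∨ v = z3 ∨ v = z4)
    (h3 : ¬ Rch (Rs G Y) {z1, z2} {w} z3) (h4 : ¬ Rch (Rs G Y) {z1, z2} {w} z4) :
    ∀ v ∈ D, v ≠ w → ¬ Rch (Rs G Y) {z1, z2} {w} v := by
  classical
  intro v hv hvw hr
  obtain ⟨D1, hD1⟩ : ∃ D1 : Finset V, ∀ x, x ∈ D1 ↔ x ∈ D ∧ x ≠ w ∧ Rch (Rs G Y) {z1, z2} {w} x :=
    ⟨Finset.univ.filter fun x => x ∈ D ∧ x ≠ w ∧ Rch (Rs G Y) {z1, z2} {w} x, fun x => by
      rw [Finset.mem_filter]
      exact ⟨fun h => h.2, fun h => ⟨Finset.mem_univ _, h⟩⟩⟩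
  have h1 := hf D1 (fun x hx => hD ((hD1 x).1 hx).1) ⟨v, (hD1 v).2 ⟨hv, hvw, hr⟩⟩
    (fun x hx => hDX x ((hD1 x).1 hx).1)
  have h2 : Nb G D1 ⊆ {z1, z2, w} := by
    intro x hx
    obtain ⟨hx1, u, hu, hux⟩ := mem_Nb.1 hx
    obtain ⟨hu1, hu2, hu3⟩ := (hD1 u).1 hu
    rw [Finset.mem_insert, Finset.mem_insert, Finset.mem_singleton]
    by_cases hxw : x = w
    · exact Or.inr (Or.inr hxw)
    · by_cases hxD : x ∈ D
      · exfalso
        exact hx1 ((hD1 x).2 ⟨hxD, hxw, Rch.step u x hu3 ⟨hux, hYD u hu1, hYD x hxD⟩ (by simpa using hxw)⟩)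
      · have hxN : x ∈ Nb G D := mem_Nb.2 ⟨hxD, u, hu1, hux⟩
        have hrx : Rch (Rs G Y) {z1, z2} {w} x :=
          Rch.step u x hu3 ⟨hux, hYD u hu1, hY x hxN⟩ (by simpa using hxw)
        rcases hN x hxN with h | h | h | h
        · exact Or.inl h
        · exact Or.inr (Or.inl h)
        · exact absurd (h ▸ hrx) h3
        · exact absurd (h ▸ hrx) h4
  have h5 := (Finset.card_le_card h2).trans Finset.card_le_three
  omega

open Classical in
theorem prg {V : Type} [Fintype V] {G : SimpleGraph V} {W : Finset V} {a a' b b' : V}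
    (hf : Hf G W a a' b b') {D : Finset V} (hD : D ⊆ W) (hDX : ∀ v ∈ D, v ∉ Xs a a' b b') (hc : Cn G D)
    (h2 : 2 ≤ D.card) {z1 z2 z3 z4 : V} (hds : Ds z1 z2 z3 z4) (hN : Nb G D = {z1, z2, z3, z4}) :
    Fb G D z1 z3 z2 z4 ∨ Fb G D z1 z4 z2 z3 := by
  obtain ⟨Y, hY⟩ : ∃ Y : Set V, ∀ v, v ∈ Y ↔ v ∈ D ∨ v = z1 ∨ v = z2 ∨ v = z3 ∨ v = z4 :=
    ⟨{v | v ∈ D ∨ v = z1 ∨ v = z2 ∨ v = z3 ∨ v = z4}, fun v => Iff.rfl⟩
  have hNm : ∀ v, v ∈ Nb G D ↔ v = z1 ∨ v = z2 ∨ v = z3 ∨ v = z4 := by
    intro v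
    rw [hN]
    simp
  have hYD : ∀ v ∈ D, v ∈ Y := fun v hv => (hY v).2 (Or.inl hv)
  have hYN : ∀ v ∈ Nb G D, v ∈ Y := fun v hv => (hY v).2 (Or.inr ((hNm v).1 hv))
  have m1 : z1 ∈ Nb G D := (hNm _).2 (Or.inl rfl)
  have m2 : z2 ∈ Nb G D := (hNm _).2 (Or.inr (Or.inl rfl))
  have m3 : z3 ∈ Nb G D := (hNm _).2 (Or.inr (Or.inr (Or.inl rfl)))
  have m4 : z4 ∈ Nb G D := (hNm _).2 (Or.inr (Or.inr (Or.inr rfl)))
  have hl : Lkd (Rs G Y) {z1, z2} {z3, z4} 2 := by
    refine menger _ _ _ _ fun Z hZ => ?_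
    by_contra hlt
    push Not at hlt
    -- a vertex of D in Z
    obtain ⟨w, hwZ, hwD⟩ : ∃ w, w ∈ Z ∧ w ∈ D := by
      by_contra hcon
      push Not at hcon
      obtain ⟨x, hx, hxZ⟩ : ∃ x, (x = z1 ∨ x = z2) ∧ x ∉ Z := by
        by_contra hcon'
        push Not at hcon'
        exact hds.h1 (Finset.card_le_one.1 (by omega) z1 (hcon' z1 (Or.inl rfl)) z2 (hcon' z2 (Or.inr rfl)))
      obtain ⟨y, hy, hyZ⟩ : ∃ y, (y = z3 ∨ y = z4) ∧ y ∉ Z := by
        by_contra hcon'
        push Not at hcon'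
        exact hds.h6 (Finset.card_le_one.1 (by omega) z3 (hcon' z3 (Or.inl rfl)) z4 (hcon' z4 (Or.inr rfl)))
      have hxN : x ∈ Nb G D := by
        rcases hx with rfl | rfl
        · exact m1
        · exact m2
      have hyN : y ∈ Nb G D := by
        rcases hy with rfl | rfl
        · exact m3
        · exact m4
      obtain ⟨_, u, hu, hux⟩ := mem_Nb.1 hxN
      obtain ⟨_, u', hu', huy⟩ := mem_Nb.1 hyN
      obtain ⟨p, hp⟩ := hc.2 u hu u' hu'
      refine hZ y (by rcases hy with rfl | rfl <;> simp) ?_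
      have r1 : Rch (Rs G Y) {z1, z2} (Z : Set V) x := by
        refine Rch.base x ?_ (by simpa using hxZ)
        rcases hx with rfl | rfl <;> simp
      have r2 : Rch (Rs G Y) {z1, z2} (Z : Set V) u :=
        Rch.step x u r1 ⟨hux.symm, hYN x hxN, hYD u hu⟩ (fun h => hcon u (by simpa using h) hu)
      have r3 : Rch (Rs G Y) {z1, z2} (Z : Set V) u' := by
        refine rch_rs p (fun v hv => ?_) r2
        have hv' : v ∈ D := by simpa using hp v hv
        exact ⟨hYD v hv', fun h => hcon v (by simpa using h) hv'⟩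
      exact Rch.step u' y r3 ⟨huy, hYD u' hu', hYN y hyN⟩ (by simpa using hyZ)
    have hZw : (Z : Set V) = {w} := by
      ext v
      rw [Finset.mem_coe, Set.mem_singleton_iff]
      constructor
      · intro hv
        exact Finset.card_le_one.1 (by omega) v hv w hwZ
      · rintro rfl
        exact hwZ
    rw [hZw] at hZ
    have hZ' := hZ.symm
    have hn : ∀ z ∈ Nb G D, z ∉ ({w} : Set V) := by
      intro z hz hzw
      rw [Set.mem_singleton_iff] at hzw
      rw [hzw] at hz
      exact (mem_Nb.1 hz).1 hwD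
    have s1 := side hf hD hDX (z1 := z1) (z2 := z2) (z3 := z3) (z4 := z4) hYD hYN
      (fun v hv => (hNm v).1 hv) (hZ z3 (by simp)) (hZ z4 (by simp))
    have s2 := side hf hD hDX (z1 := z3) (z2 := z4) (z3 := z1) (z4 := z2) hYD hYN
      (fun v hv => by have := (hNm v).1 hv; tauto) (hZ' z1 (by simp)) (hZ' z2 (by simp))
    obtain ⟨v, hv, hvw⟩ : ∃ v ∈ D, v ≠ w := by
      by_contra hcon
      push Not at hcon
      have : D.card ≤ 1 := Finset.card_le_one.2 fun x hx y hy => (hcon x hx).trans (hcon y hy).symm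
      omega
    have h3 := hf (D.erase w) ((Finset.erase_subset _ _).trans hD) ⟨v, Finset.mem_erase.2 ⟨hvw, hv⟩⟩
      (fun x hx => hDX x (Finset.mem_of_mem_erase hx))
    have h4 : Nb G (D.erase w) ⊆ {w} := by
      intro x hx
      obtain ⟨hx1, u, hu, hux⟩ := mem_Nb.1 hx
      obtain ⟨huw, huD⟩ := Finset.mem_erase.1 hu
      rw [Finset.mem_singleton]
      by_contra hxw
      have hxD : x ∉ D := fun h => hx1 (Finset.mem_erase.2 ⟨hxw, h⟩)
      have hxN : x ∈ Nb G D := mem_Nb.2 ⟨hxD, u, huD, hux⟩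
      have hadj : (Rs G Y).Adj x u := ⟨hux.symm, hYN x hxN, hYD u huD⟩
      rcases (hNm x).1 hxN with h | h | h | h
      · exact s1 u huD huw (Rch.step x u (Rch.base x (by simp [h]) (hn x hxN)) hadj (by simpa using huw))
      · exact s1 u huD huw (Rch.step x u (Rch.base x (by simp [h]) (hn x hxN)) hadj (by simpa using huw))
      · exact s2 u huD huw (Rch.step x u (Rch.base x (by simp [h]) (hn x hxN)) hadj (by simpa using huw))
      · exact s2 u huD huw (Rch.step x u (Rch.base x (by simp [h]) (hn x hxN)) hadj (by simpa using huw))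
    have h5 := Finset.card_le_card h4
    rw [Finset.card_singleton] at h5
    omega
  obtain ⟨x, y, w, hx, hy, hw, hd⟩ := hl
  have hd01 : ∀ v ∈ (w 0).support, v ∉ (w 1).support := hd 0 1 (by decide)
  have hd10 : ∀ v ∈ (w 1).support, v ∉ (w 0).support := hd 1 0 (by decide)
  have hxy0 : x 0 ≠ x 1 := by
    intro h
    refine hd01 (x 0) (w 0).start_mem_support ?_
    rw [h]
    exact (w 1).start_mem_support
  have hxy1 : y 0 ≠ y 1 := by
    intro h
    refine hd01 (y 0) (w 0).end_mem_support ?_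
    rw [h]
    exact (w 1).end_mem_support
  have hY1 : z1 ∈ Y := hYN _ m1
  have hY2 : z2 ∈ Y := hYN _ m2
  generalize w 0 = p0 at hd01 hd10
  generalize w 1 = p1 at hd01 hd10
  have hx0 : x 0 = z1 ∨ x 0 = z2 := by simpa using hx 0
  have hx1 : x 1 = z1 ∨ x 1 = z2 := by simpa using hx 1
  have hy0 : y 0 = z3 ∨ y 0 = z4 := by simpa using hy 0
  have hy1 : y 1 = z3 ∨ y 1 = z4 := by simpa using hy 1
  clear hx hy hd hw w
  generalize x 0 = x0 at *
  generalize x 1 = x1 at *
  generalize y 0 = y0 at *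
  generalize y 1 = y1 at *
  rcases hx0 with rfl | rfl <;> rcases hx1 with rfl | rfl
  · exact absurd rfl hxy0
  · rcases hy0 with rfl | rfl <;> rcases hy1 with rfl | rfl
    · exact absurd rfl hxy1
    · exact Or.inl (fbw p0 p1 hd01 (fun v hv => by have := (hY v).1 hv; tauto) hY1 hY2)
    · exact Or.inr (fbw p0 p1 hd01 (fun v hv => by have := (hY v).1 hv; tauto) hY1 hY2)
    · exact absurd rfl hxy1
  · rcases hy0 with rfl | rfl <;> rcases hy1 with rfl | rfl
    · exact absurd rfl hxy1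
    · exact Or.inr (fbw p1 p0 hd10 (fun v hv => by have := (hY v).1 hv; tauto) hY1 hY2)
    · exact Or.inl (fbw p1 p0 hd10 (fun v hv => by have := (hY v).1 hv; tauto) hY1 hY2)
    · exact absurd rfl hxy1
  · exact absurd rfl hxy0

end Pool.Agent.JNG
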