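import Mathlib
import Pool.Agent.JNG.Defs

/-!
Four disjoint paths from the terminals to the neighbourhood of a set D.
Proof. Menger (`LNK.menger`, file Pool/Agent/LNK/Menger.lean) in the graph Cof G D (edges at D removed,
Pool/Agent/LNK/Common.lean) from S = range xx to T = Nb G D with n = 4. Suppose Z has at most 3 elements and
Sep (Cof G D) S T Z. Let E = D together with all v such that Rch (Cof G D) (Nb G D) Z v. Then E contains no
terminal (Sep.symm), E is inside W, E is nonempty. Every neighbour w of E outside E is in Z: if w is
adjacent to D then w is in Nb G D, and w not in Z would give Rch by `base`, so w in E; if w is adjacent to a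
reachable v and w is not in D and not in Z then w is reachable by `step`. (A reachable vertex is not in D
by construction: base vertices are in Nb G D, steps use edges of Cof G D.) So Nb G E has at most 3
elements, against Hf. The four walks of Lkd are then truncated at their first vertex in Nb G D and
reindexed by the terminals, exactly as in the proof of `LNK.tokens` (Common.lean; use `upto`, `cof_avoid`,
`cof_le`); turn the sets into finsets with Set.toFinset or classical filter.
-/

set_option autoImplicit false

namespace Pool.Agent.JNG

open SimpleGraph Pool.Agent.LNK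

private theorem xx_mem_Xs {V : Type} (a a' b b' : V) (i : Fin 4) : xx a a' b b' i ∈ Xs a a' b b' := by
  rw [mem_Xs]
  fin_cases i <;> simp [xx]

private theorem xx_inj {V : Type} {a a' b b' : V} (hds : Ds a a' b b') :
    Function.Injective (xx a a' b b') := by
  have h1 := hds.h1
  have h2 := hds.h2
  have h3 := hds.h3
  have h4 := hds.h4
  have h5 := hds.h5
  have h6 := hds.h6
  intro i j hij
  fin_cases i <;> fin_cases j <;> simp [xx] at hij ⊢ <;> simp_all

/-- a vertex reached from the neighbourhood of `D` in `Cof G D` is not in `D` -/
private theorem rch_not_mem {V : Type} [Fintype V] {G : SimpleGraph V} {D : Finset V} {Z : Set V} {v : V}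
    (h : Rch (Cof G (D : Set V)) (Nb G D : Set V) Z v) : v ∉ D := by
  cases h with
  | base _ h _ => exact (mem_Nb.1 (by simpa using h)).1
  | step u _ _ hadj _ => exact fun hv => hadj.2.2 (by simpa using hv)

theorem fou {V : Type} [Fintype V] {G : SimpleGraph V} {W : Finset V} {a a' b b' : V} (hins : Ins G W)
    (hds : Ds a a' b b') (hX : ∀ v ∈ Xs a a' b b', v ∈ W) (hf : Hf G W a a' b b') {D : Finset V}
    (hD : D ⊆ W) (hDX : ∀ v ∈ D, v ∉ Xs a a' b b') (hne : D.Nonempty) :
    ∃ (P : Fin 4 → Finset V) (τ : Fin 4 → V), Fo G D a a' b b' P τ := by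
  classical
  set x : Fin 4 → V := xx a a' b b' with hxdef
  have hxinj : Function.Injective x := xx_inj hds
  have hl : Lkd (Cof G (D : Set V)) (Set.range x) (Nb G D : Set V) 4 := by
    refine menger _ _ _ _ fun Z hZ => ?_
    have hZ' := hZ.symm
    set E : Finset V := D ∪ Finset.univ.filter
      (fun v => Rch (Cof G (D : Set V)) (Nb G D : Set V) (Z : Set V) v) with hE
    have memE : ∀ v, v ∈ E ↔ v ∈ D ∨ Rch (Cof G (D : Set V)) (Nb G D : Set V) (Z : Set V) v := by
      intro v
      rw [hE, Finset.mem_union, Finset.mem_filter]
      simp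
    have hEW : E ⊆ W := by
      intro v hv
      rcases (memE v).1 hv with hv | hv
      · exact hD hv
      · cases hv with
        | base _ h _ => exact Nb_subset hins D (by simpa using h)
        | step u _ _ hadj _ => exact hins.right hadj.1
    have hEX : ∀ v ∈ E, v ∉ Xs a a' b b' := by
      intro v hv hvX
      rcases (memE v).1 hv with hv | hv
      · exact hDX v hv hvX
      · have : v ∈ Set.range x := by
          rw [mem_Xs] at hvX
          rcases hvX with rfl | rfl | rfl | rfl
          · exact ⟨0, rfl⟩
          · exact ⟨1, rfl⟩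
          · exact ⟨2, rfl⟩
          · exact ⟨3, rfl⟩
        exact hZ' v this hv
    have h4 := hf E hEW (hne.mono (by rw [hE]; exact Finset.subset_union_left)) hEX
    refine h4.trans (Finset.card_le_card fun w hw => ?_)
    obtain ⟨hwE, u, huE, huw⟩ := mem_Nb.1 hw
    rw [memE] at hwE
    push Not at hwE
    by_contra hwZ
    have hwZ' : w ∉ (Z : Set V) := by simpa using hwZ
    rcases (memE u).1 huE with hu | hu
    · exact hwE.2 (Rch.base w (by simpa using mem_Nb.2 ⟨hwE.1, u, hu, huw⟩) hwZ')
    · exact hwE.2 (Rch.step u w hu ⟨huw, by simpa using rch_not_mem hu, by simpa using hwE.1⟩ hwZ')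
  obtain ⟨s, t, w, hs, ht, _, hd⟩ := hl
  choose c hc using hs
  have hcinj : Function.Injective c := by
    intro i j hij
    by_contra hne'
    refine hd i j hne' (s i) (w i).start_mem_support ?_
    rw [← hc i, hij, hc j]
    exact (w j).start_mem_support
  have hcs : Function.Surjective c := Finite.injective_iff_surjective.1 hcinj
  choose e he using hcs
  have hup := fun y => upto (T := (Nb G D : Set V)) (w (e y)) (ht (e y))
  choose P τ h1 h2 h3 h4 h5 h6 using hup
  have hax : ∀ y, s (e y) = x y := fun y => by rw [← hc (e y), he y]
  have hcoe : ∀ y, (((P y).toFinset : Finset V) : Set V) = P y := fun y => by simp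
  refine ⟨fun y => (P y).toFinset, τ, ?_, ?_, ?_, ?_, ?_, ?_, ?_⟩
  · intro y
    rw [Set.mem_toFinset]
    have := h1 y
    rw [hax y] at this
    exact this
  · intro y
    rw [Set.mem_toFinset]
    exact h2 y
  · intro y
    simpa using h3 y
  · intro y v hv hvN
    rw [Set.mem_toFinset] at hv
    exact h4 y v hv (by simpa using hvN)
  · intro y
    have h := Jn.of_le (cof_le (D : Set V)) (h5 y (τ y) (h2 y))
    rw [hax y] at h
    show Jn G (((P y).toFinset : Finset V) : Set V) (xx a a' b b' y) (τ y)
    rw [hcoe y]
    exact h
  · intro y v hv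
    rw [Set.mem_toFinset] at hv
    have hsD : s (e y) ∉ (D : Set V) := by
      rw [hax y]
      intro h
      exact hDX _ (by simpa using h) (xx_mem_Xs a a' b b' y)
    have := cof_avoid (w (e y)) hsD v (h6 y v hv)
    simpa using this
  · intro y y' hyy v hv hv'
    rw [Set.mem_toFinset] at hv hv'
    refine hd (e y) (e y') ?_ v (h6 y v hv) (h6 y' v hv')
    intro h
    apply hyy
    rw [← he y, h, he y']

end Pool.Agent.JNG
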