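import Mathlib
import Pool.Agent.JNG.Defs

/-!
Gluing four paths and a linkage inside D and its neighbourhood.
Proof. The new sets are P' = P 0 + P 1 + A and Q' = P 2 + P 3 + B. P' joins a to a': from a to τ 0 in P 0,
from τ 0 to τ 1 in A, from τ 1 to a' in P 1 (symm). The same for Q'. Disjoint: P 0, P 1 against P 2, P 3 by
`dj`; v in A and v in P 2: v is not in D (`nd`), so v is in Nb G D, so v = τ 2 by `un`, but τ 2 is in B
(Jn.left_mem of the second part of the linkage) and A, B are disjoint. The other cases are the same.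
(xx a a' b b' 0 = a and so on by rfl.)
-/

set_option autoImplicit false

namespace Pool.Agent.JNG

open SimpleGraph Pool.Agent.LNK

theorem glu {V : Type} [Fintype V] {G : SimpleGraph V} {D : Finset V} {a a' b b' : V}
    {P : Fin 4 → Finset V} {τ : Fin 4 → V} (h : Fo G D a a' b b' P τ) {A B : Finset V}
    (hl : Lkg G (τ 0) (τ 1) (τ 2) (τ 3) A B) (hA : ∀ v ∈ A, v ∈ D ∨ v ∈ Nb G D)
    (hB : ∀ v ∈ B, v ∈ D ∨ v ∈ Nb G D) : ∃ P Q : Finset V, Lkg G a a' b b' P Q := by
  classical
  have hin : ∀ (i : Fin 4) (v : V), v ∈ P i → (v ∈ D ∨ v ∈ Nb G D) → v = τ i := by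
    intro i v hv hv2
    rcases hv2 with hv2 | hv2
    · exact absurd hv2 (h.nd i v hv)
    · exact h.un i v hv hv2
  have t0 : τ 0 ∈ A := Jn.left_mem hl.jp
  have t1 : τ 1 ∈ A := Jn.right_mem hl.jp
  have t2 : τ 2 ∈ B := Jn.left_mem hl.jq
  have t3 : τ 3 ∈ B := Jn.right_mem hl.jq
  refine ⟨P 0 ∪ P 1 ∪ A, P 2 ∪ P 3 ∪ B, ⟨?_, ?_, ?_⟩⟩
  · intro v hv hv'
    rw [Finset.mem_union, Finset.mem_union] at hv hv'
    rcases hv with (hv | hv) | hv <;> rcases hv' with (hv' | hv') | hv'
    · exact h.dj 0 2 (by decide) v hv hv'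
    · exact h.dj 0 3 (by decide) v hv hv'
    · have := hin 0 v hv (hB v hv')
      exact hl.dj v (this ▸ t0) hv'
    · exact h.dj 1 2 (by decide) v hv hv'
    · exact h.dj 1 3 (by decide) v hv hv'
    · have := hin 1 v hv (hB v hv')
      exact hl.dj v (this ▸ t1) hv'
    · have := hin 2 v hv' (hA v hv)
      exact hl.dj v hv (this ▸ t2)
    · have := hin 3 v hv' (hA v hv)
      exact hl.dj v hv (this ▸ t3)
    · exact hl.dj v hv hv'
  · have m0 : ((P 0 : Finset V) : Set V) ⊆ ((P 0 ∪ P 1 ∪ A : Finset V) : Set V) := by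
      intro v hv
      simp only [Finset.coe_union, Set.mem_union, Finset.mem_coe] at hv ⊢
      exact Or.inl (Or.inl hv)
    have m1 : ((P 1 : Finset V) : Set V) ⊆ ((P 0 ∪ P 1 ∪ A : Finset V) : Set V) := by
      intro v hv
      simp only [Finset.coe_union, Set.mem_union, Finset.mem_coe] at hv ⊢
      exact Or.inl (Or.inr hv)
    have m2 : ((A : Finset V) : Set V) ⊆ ((P 0 ∪ P 1 ∪ A : Finset V) : Set V) := by
      intro v hv
      simp only [Finset.coe_union, Set.mem_union, Finset.mem_coe] at hv ⊢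
      exact Or.inr hv
    exact (((h.jn 0).mono m0).trans (hl.jp.mono m2)).trans ((h.jn 1).mono m1).symm
  · have m0 : ((P 2 : Finset V) : Set V) ⊆ ((P 2 ∪ P 3 ∪ B : Finset V) : Set V) := by
      intro v hv
      simp only [Finset.coe_union, Set.mem_union, Finset.mem_coe] at hv ⊢
      exact Or.inl (Or.inl hv)
    have m1 : ((P 3 : Finset V) : Set V) ⊆ ((P 2 ∪ P 3 ∪ B : Finset V) : Set V) := by
      intro v hv
      simp only [Finset.coe_union, Set.mem_union, Finset.mem_coe] at hv ⊢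
      exact Or.inl (Or.inr hv)
    have m2 : ((B : Finset V) : Set V) ⊆ ((P 2 ∪ P 3 ∪ B : Finset V) : Set V) := by
      intro v hv
      simp only [Finset.coe_union, Set.mem_union, Finset.mem_coe] at hv ⊢
      exact Or.inr hv
    exact (((h.jn 2).mono m0).trans (hl.jq.mono m2)).trans ((h.jn 3).mono m1).symm

end Pool.Agent.JNG
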