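import Mathlib
import Pool.Agent.JNG.Defs
import Pool.Agent.JNG.FOU
import Pool.Agent.JNG.GLU
import Pool.Agent.JNG.R1T

/-!
In a minimal counterexample a set D with exactly four neighbours, other than the set of all non-terminals,
meets at most 3 card D + 1 edges.
Proof. Suppose card (Ed G D) is at least 3 card D + 2. By `r1` and `fou` there are four disjoint paths
P i from the terminals to vertices τ i of Nb G D, the τ i are distinct (dj), so Nb G D is the set of the
four τ i. Let G' = Rs G (D + Nb G D), W' = D + Nb G D, X' = Xs (τ 0) (τ 1) (τ 2) (τ 3) = Nb G D.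
W' is inside W and W' is not W: otherwise all terminals are in W' and not in D, so the terminals are exactly
the elements of Nb G D and D = W minus terminals. So card W' < card W.
Ms G' W' X': W' minus X' = D, Ed G' D = Ed G D (both ends of an edge meeting D are in W'), so m1 holds by
assumption; for D' inside D nonempty Nb G' D' = Nb G D' has at least 4 elements by r1, and for the empty
set both sides are 0. By `ih` there is a linkage A, B of τ 0, τ 1, τ 2, τ 3 in G'; shrink A and B to the
vertices of walks, which are in W' (edges of G' are inside W', and τ i in W'). `glu` gives a linkage of G,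
against `nl`.
-/

set_option autoImplicit false

namespace Pool.Agent.JNG

open SimpleGraph Pool.Agent.LNK

open Classical in
theorem r2 {V : Type} [Fintype V] {G : SimpleGraph V} {W : Finset V} {a a' b b' : V}
    (h : Ce G W a a' b b') {D : Finset V} (hD : D ⊆ W) (hDX : ∀ v ∈ D, v ∉ Xs a a' b b')
    (hne : D.Nonempty) (h4 : (Nb G D).card = 4) (hn : D ≠ W \ Xs a a' b b') :
    (Ed G D).card ≤ 3 * D.card + 1 := by
  by_contra hcon
  have hcon' : 3 * D.card + 2 ≤ (Ed G D).card := by omega
  have hf := r1 h
  obtain ⟨P, τ, hF⟩ := fou h.ms.ins h.ds (fun v hv => h.ms.sub hv) hf hD hDX hne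
  have hτ : Function.Injective τ := by
    intro i j hij
    by_contra hne'
    exact hF.dj i j hne' (τ i) (hF.t i) (by rw [hij]; exact hF.t j)
  have himg : Finset.univ.image τ = Nb G D := by
    apply Finset.eq_of_subset_of_card_le
    · intro v hv
      rw [Finset.mem_image] at hv
      obtain ⟨i, _, rfl⟩ := hv
      exact hF.tn i
    · rw [h4, Finset.card_image_of_injective _ hτ, Finset.card_univ, Fintype.card_fin]
  have hXs : Xs (τ 0) (τ 1) (τ 2) (τ 3) = Nb G D := by
    rw [← himg]
    ext v
    rw [mem_Xs, Finset.mem_image]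
    constructor
    · rintro (rfl | rfl | rfl | rfl)
      · exact ⟨0, Finset.mem_univ _, rfl⟩
      · exact ⟨1, Finset.mem_univ _, rfl⟩
      · exact ⟨2, Finset.mem_univ _, rfl⟩
      · exact ⟨3, Finset.mem_univ _, rfl⟩
    · rintro ⟨i, _, rfl⟩
      fin_cases i
      · exact Or.inl rfl
      · exact Or.inr (Or.inl rfl)
      · exact Or.inr (Or.inr (Or.inl rfl))
      · exact Or.inr (Or.inr (Or.inr rfl))
  have hds : Ds (τ 0) (τ 1) (τ 2) (τ 3) :=
    ⟨fun he => absurd (hτ he) (by decide), fun he => absurd (hτ he) (by decide),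
      fun he => absurd (hτ he) (by decide), fun he => absurd (hτ he) (by decide),
      fun he => absurd (hτ he) (by decide), fun he => absurd (hτ he) (by decide)⟩
  set N := Nb G D with hN
  set W' : Finset V := D ∪ N with hW'
  set G' := Rs G (W' : Set V) with hG'
  have hDN : ∀ v ∈ D, v ∉ N := fun v hv hvN => (mem_Nb.1 hvN).1 hv
  have hW'W : W' ⊆ W := by
    rw [hW']
    exact Finset.union_subset hD (Nb_subset h.ms.ins D)
  have hadj : ∀ u v, u ∈ D → G.Adj u v → G'.Adj u v := by
    intro u v hu huv
    refine ⟨huv, ?_, ?_⟩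
    · rw [Finset.mem_coe, hW', Finset.mem_union]
      exact Or.inl hu
    · rw [Finset.mem_coe, hW', Finset.mem_union]
      by_cases hv : v ∈ D
      · exact Or.inl hv
      · exact Or.inr (mem_Nb.2 ⟨hv, u, hu, huv⟩)
  have hlt : W'.card < W.card := by
    apply Finset.card_lt_card
    rw [Finset.ssubset_iff_subset_ne]
    refine ⟨hW'W, fun he => hn ?_⟩
    have h1 : Xs a a' b b' ⊆ N := by
      intro v hv
      have h2 : v ∈ W' := by rw [he]; exact h.ms.sub hv
      rw [hW', Finset.mem_union] at h2
      rcases h2 with h2 | h2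
      · exact absurd hv (hDX v h2)
      · exact h2
    have h2 : Xs a a' b b' = N :=
      Finset.eq_of_subset_of_card_le h1 (by rw [h4, card_Xs h.ds])
    rw [h2, ← he, hW']
    ext v
    rw [Finset.mem_sdiff, Finset.mem_union]
    constructor
    · intro hv
      exact ⟨Or.inl hv, hDN v hv⟩
    · rintro ⟨h3 | h3, h5⟩
      · exact h3
      · exact absurd h3 h5
  have hsd : W' \ N = D := by
    ext v
    rw [hW', Finset.mem_sdiff, Finset.mem_union]
    constructor
    · rintro ⟨h3 | h3, h5⟩
      · exact h3
      · exact absurd h3 h5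
    · intro hv
      exact ⟨Or.inl hv, hDN v hv⟩
  have hms : Ms G' W' (Xs (τ 0) (τ 1) (τ 2) (τ 3)) := by
    rw [hXs]
    refine ⟨?_, ?_, ?_, ?_⟩
    · intro x y hxy
      exact hxy.2.1
    · rw [hW']
      exact Finset.subset_union_right
    · rw [hsd]
      refine hcon'.trans (Finset.card_le_card ?_)
      intro e he
      rw [mem_Ed] at he ⊢
      obtain ⟨h1, u, hu, hue⟩ := he
      refine ⟨?_, u, hu, hue⟩
      obtain ⟨v, rfl⟩ := hue
      rw [SimpleGraph.mem_edgeSet] at h1 ⊢
      exact hadj u v hu h1
    · rw [hsd]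
      intro D' hD' hc'
      rcases D'.eq_empty_or_nonempty with h0 | h0
      · have : Ed G' D' = ∅ := by
          rw [h0]
          apply Finset.eq_empty_of_forall_notMem
          intro e he
          obtain ⟨_, u, hu, _⟩ := mem_Ed.1 he
          exact absurd hu (Finset.notMem_empty u)
        rw [this, Finset.card_empty]
        exact Nat.zero_le _
      · exfalso
        have h1 := hf D' (hD'.trans hD) h0 (fun v hv => hDX v (hD' hv))
        have h2 : Nb G D' ⊆ Nb G' D' := by
          intro v hv
          rw [mem_Nb] at hv ⊢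
          obtain ⟨h3, u, hu, huv⟩ := hv
          exact ⟨h3, u, hu, hadj u v (hD' hu) huv⟩
        have h3 := Finset.card_le_card h2
        omega
  obtain ⟨A, B, hl⟩ := h.ih G' W' (τ 0) (τ 1) (τ 2) (τ 3) hds (Or.inl hlt) hms
  have hτW : ∀ i, τ i ∈ W' := fun i => by
    rw [hW', Finset.mem_union]; exact Or.inr (hF.tn i)
  have hshr : ∀ (S : Finset V) (x y : V), x ∈ W' → Jn G' (S : Set V) x y →
      Jn G ((S.filter (fun v => v ∈ W') : Finset V) : Set V) x y := by
    intro S x y hx hj
    have h1 : Jn G' ((S.filter (fun v => v ∈ W') : Finset V) : Set V) x y := by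
      obtain ⟨w, hw⟩ := hj
      refine ⟨w, fun z hz => ?_⟩
      rw [Finset.mem_coe, Finset.mem_filter]
      refine ⟨by simpa using hw z hz, ?_⟩
      clear hw
      induction w with
      | nil =>
        rw [Walk.support_nil, List.mem_singleton] at hz
        rw [hz]; exact hx
      | cons hadj' p ih =>
        rw [Walk.support_cons, List.mem_cons] at hz
        rcases hz with rfl | hz
        · exact hx
        · exact ih hadj'.2.2 hz
    exact Jn.of_le (Rs_le _ _) h1
  obtain ⟨P', Q', hl'⟩ := glu hF (A := A.filter (fun v => v ∈ W'))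
    (B := B.filter (fun v => v ∈ W'))
    ⟨fun v hv hv' => hl.dj v (Finset.mem_filter.1 hv).1 (Finset.mem_filter.1 hv').1,
      hshr A _ _ (hτW 0) hl.jp, hshr B _ _ (hτW 2) hl.jq⟩
    (fun v hv => Finset.mem_union.1 (Finset.mem_filter.1 hv).2)
    (fun v hv => Finset.mem_union.1 (Finset.mem_filter.1 hv).2)
  exact h.nl P' Q' hl'

end Pool.Agent.JNG
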