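import Mathlib
import Pool.Agent.JNG.Defs

/-!
A linkage of the wheel graph gives a linkage of G, when the pairings (z1 z2, z3 z4) and (z1 z4, z2 z3) can
be realised through D (hypotheses hA and hB).
Proof. Shrink P and Q to the vertices of two walks of G' = Wh, so P, Q meet D at most in d. All edges of G'
inside a set S avoiding d are edges of G or rim edges. Let Z = {z1,..,z4}. Every zi has a G-neighbour in D and
D is connected, so (*): if S joins u to v in G' (u, v not in D), then (S minus d) + D joins u to v in G.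
And (**): if S contains d and at most one zi, then S minus d still joins u to v (u, v not d): d has at most
one neighbour in S.
Case 1: one of P, Q, say Q, has at most one zi. If d is in Q remove it (**). Then Q contains no wheel edge,
so it is joined in G, and P' = (P minus d) + D joins a to a' by (*). P' and Q are disjoint.
Case 2: both contain exactly two of the zi. If P contains z1, z3 and Q contains z2, z4 (or the reverse):
if d is in neither, no wheel edges are used and P, Q work in G. If d is in P, then Q is joined in G and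
P' = (P minus d) + D works; symmetric for Q. Otherwise {P, Q} contains {z1, z2 | z3, z4} or {z1, z4 | z2, z3}.
By hA (or hB) there are disjoint sets A, B inside {z1, z2} + D and {z3, z4} + D joining z1, z2 and z3, z4;
then (P minus d) + A and (Q minus d) + B work: inside P all wheel edges join z1, z2 or d, and z1, z2 are
joined in A; a walk through d enters and leaves by z1 or z2.
Useful: induction on a walk for the statement: every vertex of the walk other than d is joined to the start.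
-/

set_option autoImplicit false

namespace Pool.Agent.JNG

open SimpleGraph Pool.Agent.LNK

private theorem whl_conv {V : Type} {G G' : SimpleGraph V} {D : Finset V} {d : V} {Z : Finset V}
    {Rim : V → V → Prop} (hdD : d ∈ D) (hZ : ∀ z ∈ Z, z ∉ D)
    (hW : ∀ u v, G'.Adj u v → (u ∉ D ∧ v ∉ D ∧ G.Adj u v) ∨ (u = d ∧ v ∈ Z) ∨ (v = d ∧ u ∈ Z) ∨
      (u ∈ Z ∧ v ∈ Z ∧ Rim u v)) {S S' : Set V} (h1 : ∀ x ∈ S, x ∉ D → x ∈ S')
    (h2 : ∀ z z', z ∈ Z → z' ∈ Z → z ∈ S → z' ∈ S → Rim z z' → Jn G S' z z')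
    (h3 : d ∈ S → ∀ z z', z ∈ Z → z' ∈ Z → z ∈ S → z' ∈ S → Jn G S' z z') {u v : V}
    (w : G'.Walk u v) : (∀ x ∈ w.support, x ∈ S) → v ∉ D →
      (u ∉ D → Jn G S' u v) ∧ (u = d → ∀ z ∈ Z, z ∈ S → Jn G S' z v) := by
  induction w with
  | nil =>
    intro hS hv
    exact ⟨fun hu => Jn.refl (h1 _ (hS _ (by simp)) hu), fun hu => absurd (hu ▸ hdD) hv⟩
  | @cons u u' v hadj q ih =>
    intro hS hv
    have hS' : ∀ x ∈ q.support, x ∈ S := fun x hx => hS x (by
      rw [Walk.support_cons]; exact List.mem_cons_of_mem _ hx)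
    have huS : u ∈ S := hS u (by simp)
    have huS' : u' ∈ S := hS' u' q.start_mem_support
    obtain ⟨i1, i2⟩ := ih hS' hv
    refine ⟨fun hu => ?_, fun hu z hz hzS => ?_⟩
    · rcases hW u u' hadj with ⟨_, k1, k2⟩ | ⟨k1, _⟩ | ⟨k1, k2⟩ | ⟨k1, k2, k3⟩
      · exact (Jn.of_adj k2 (h1 u huS hu) (h1 u' huS' k1)).trans (i1 k1)
      · exact absurd (k1 ▸ hdD) hu
      · exact i2 k1 u k2 huS
      · exact (h2 u u' k1 k2 huS huS' k3).trans (i1 (hZ u' k2))
    · rcases hW u u' hadj with ⟨k1, _, _⟩ | ⟨_, k2⟩ | ⟨_, k2⟩ | ⟨k1, _, _⟩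
      · exact absurd (hu ▸ hdD) k1
      · exact (h3 (hu ▸ huS) z u' hz k2 hzS huS').trans (i1 (hZ u' k2))
      · exact absurd (hu ▸ hdD) (hZ u k2)
      · exact absurd (hu ▸ hdD) (hZ u k1)

private theorem whl_join {V : Type} [Fintype V] {G : SimpleGraph V} {D : Finset V} (hc : Cn G D)
    {S' : Set V} (hD : ∀ x ∈ D, x ∈ S') {z z' : V} (hz : z ∈ Nb G D) (hz' : z' ∈ Nb G D)
    (hzS : z ∈ S') (hzS' : z' ∈ S') : Jn G S' z z' := by
  obtain ⟨-, x, hx, hxz⟩ := mem_Nb.1 hz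
  obtain ⟨-, y, hy, hyz⟩ := mem_Nb.1 hz'
  exact ((Jn.of_adj hxz.symm hzS (hD x hx)).trans
    ((hc.2 x hx y hy).mono (fun v hv => hD v (Finset.mem_coe.1 hv)))).trans
      (Jn.of_adj hyz (hD y hy) hzS')

open Classical in
theorem whl {V : Type} [Fintype V] {G : SimpleGraph V} {D : Finset V} {a a' b b' : V} (hc : Cn G D)
    (hX : ∀ v ∈ Xs a a' b b', v ∉ D) {d : V} (hd : d ∈ D) {z1 z2 z3 z4 : V} (hds : Ds z1 z2 z3 z4)
    (hN : Nb G D = {z1, z2, z3, z4}) (hA : Fb G D z1 z2 z3 z4) (hB : Fb G D z1 z4 z2 z3)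
    {P Q : Finset V} (hl : Lkg (Wh G D d z1 z2 z3 z4) a a' b b' P Q) :
    ∃ P Q : Finset V, Lkg G a a' b b' P Q := by
  classical
  obtain ⟨Z, hZdef⟩ : ∃ Z : Finset V, Z = Nb G D := ⟨_, rfl⟩
  have hZm : ∀ v, v ∈ Z ↔ v = z1 ∨ v = z2 ∨ v = z3 ∨ v = z4 := by
    intro v
    rw [hZdef, hN]
    simp only [Finset.mem_insert, Finset.mem_singleton]
  have hZD : ∀ z ∈ Z, z ∉ D := by
    intro z hz
    rw [hZdef] at hz
    exact (mem_Nb.1 hz).1
  have hz1 : z1 ∈ Z := (hZm z1).2 (Or.inl rfl)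
  have hz2 : z2 ∈ Z := (hZm z2).2 (Or.inr (Or.inl rfl))
  have hz3 : z3 ∈ Z := (hZm z3).2 (Or.inr (Or.inr (Or.inl rfl)))
  have hz4 : z4 ∈ Z := (hZm z4).2 (Or.inr (Or.inr (Or.inr rfl)))
  obtain ⟨Rim, hRim⟩ : ∃ Rim : V → V → Prop, Rim = fun u v =>
      ((u = z1 ∧ v = z2) ∨ (u = z2 ∧ v = z3) ∨ (u = z3 ∧ v = z4) ∨ (u = z4 ∧ v = z1)) ∨
      ((v = z1 ∧ u = z2) ∨ (v = z2 ∧ u = z3) ∨ (v = z3 ∧ u = z4) ∨ (v = z4 ∧ u = z1)) := ⟨_, rfl⟩
  have hW : ∀ u v, (Wh G D d z1 z2 z3 z4).Adj u v → (u ∉ D ∧ v ∉ D ∧ G.Adj u v) ∨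
      (u = d ∧ v ∈ Z) ∨ (v = d ∧ u ∈ Z) ∨ (u ∈ Z ∧ v ∈ Z ∧ Rim u v) := by
    intro u v huv
    unfold Wh at huv
    rw [SimpleGraph.fromRel_adj] at huv
    rw [hRim, hZm, hZm]
    rcases huv.2 with (⟨k1, k2, k3⟩ | ⟨k1, k2⟩ | k | k | k | k) |
      (⟨k1, k2, k3⟩ | ⟨k1, k2⟩ | k | k | k | k)
    · exact Or.inl ⟨k1, k2, k3⟩
    · exact Or.inr (Or.inl ⟨k1, k2⟩)
    · exact Or.inr (Or.inr (Or.inr ⟨by tauto, by tauto, by tauto⟩))
    · exact Or.inr (Or.inr (Or.inr ⟨by tauto, by tauto, by tauto⟩))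
    · exact Or.inr (Or.inr (Or.inr ⟨by tauto, by tauto, by tauto⟩))
    · exact Or.inr (Or.inr (Or.inr ⟨by tauto, by tauto, by tauto⟩))
    · exact Or.inl ⟨k2, k1, k3.symm⟩
    · exact Or.inr (Or.inr (Or.inl ⟨k1, k2⟩))
    · exact Or.inr (Or.inr (Or.inr ⟨by tauto, by tauto, by tauto⟩))
    · exact Or.inr (Or.inr (Or.inr ⟨by tauto, by tauto, by tauto⟩))
    · exact Or.inr (Or.inr (Or.inr ⟨by tauto, by tauto, by tauto⟩))
    · exact Or.inr (Or.inr (Or.inr ⟨by tauto, by tauto, by tauto⟩))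
  -- conversion of a walk
  have conv : ∀ (S S' : Finset V) (u v : V), u ∉ D → v ∉ D →
      Jn (Wh G D d z1 z2 z3 z4) (S : Set V) u v → (∀ x ∈ S, x ∉ D → x ∈ S') →
      (∀ z z', z ∈ Z → z' ∈ Z → z ∈ S → z' ∈ S → Rim z z' → Jn G (S' : Set V) z z') →
      (d ∈ S → ∀ z z', z ∈ Z → z' ∈ Z → z ∈ S → z' ∈ S → Jn G (S' : Set V) z z') →
      Jn G (S' : Set V) u v := by
    intro S S' u v hu hv hj h1 h2 h3
    obtain ⟨w, hw⟩ := hj
    exact (whl_conv hd hZD hW (S := (S : Set V)) (S' := (S' : Set V)) h1 h2 h3 w hw hv).1 hu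
  have toD : ∀ (S : Finset V) (u v : V), u ∉ D → v ∉ D →
      Jn (Wh G D d z1 z2 z3 z4) (S : Set V) u v → Jn G ((S \ D ∪ D : Finset V) : Set V) u v := by
    intro S u v hu hv hj
    have hall : ∀ z z', z ∈ Z → z' ∈ Z → z ∈ S → z' ∈ S →
        Jn G ((S \ D ∪ D : Finset V) : Set V) z z' := by
      intro z z' hz hz' hzS hzS'
      refine whl_join hc (fun x hx => Finset.mem_coe.2 (Finset.mem_union_right _ hx))
        (hZdef ▸ hz) (hZdef ▸ hz') ?_ ?_
      · exact Finset.mem_coe.2 (Finset.mem_union_left _ (Finset.mem_sdiff.2 ⟨hzS, hZD z hz⟩))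
      · exact Finset.mem_coe.2 (Finset.mem_union_left _ (Finset.mem_sdiff.2 ⟨hzS', hZD z' hz'⟩))
    exact conv S _ u v hu hv hj
      (fun x hx hxD => Finset.mem_union_left _ (Finset.mem_sdiff.2 ⟨hx, hxD⟩))
      (fun z z' h1 h2 h3 h4 _ => hall z z' h1 h2 h3 h4) (fun _ => hall)
  -- at most one rim vertex
  have alo : ∀ (S : Finset V) (u v : V), u ∉ D → v ∉ D →
      Jn (Wh G D d z1 z2 z3 z4) (S : Set V) u v →
      (∀ z z', z ∈ Z → z' ∈ Z → z ∈ S → z' ∈ S → z = z') →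
      Jn G ((S \ D : Finset V) : Set V) u v := by
    intro S u v hu hv hj hS
    have hall : ∀ z z', z ∈ Z → z' ∈ Z → z ∈ S → z' ∈ S →
        Jn G ((S \ D : Finset V) : Set V) z z' := by
      intro z z' hz hz' hzS hzS'
      rw [← hS z z' hz hz' hzS hzS']
      exact Jn.refl (Finset.mem_coe.2 (Finset.mem_sdiff.2 ⟨hzS, hZD z hz⟩))
    exact conv S _ u v hu hv hj (fun x hx hxD => Finset.mem_sdiff.2 ⟨hx, hxD⟩)
      (fun z z' h1 h2 h3 h4 _ => hall z z' h1 h2 h3 h4) (fun _ => hall)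
  -- three rim vertices are missing
  have three : ∀ (S : Finset V) (x y z t : V), (∀ v, v ∈ Z ↔ v = x ∨ v = y ∨ v = z ∨ v = t) →
      x ∉ S → y ∉ S → z ∉ S → ∀ v v', v ∈ Z → v' ∈ Z → v ∈ S → v' ∈ S → v = v' := by
    intro S x y z t hZ' hx hy hz
    have key : ∀ v ∈ Z, v ∈ S → v = t := by
      intro v hv hvS
      rcases (hZ' v).1 hv with rfl | rfl | rfl | rfl
      · exact absurd hvS hx
      · exact absurd hvS hy
      · exact absurd hvS hz
      · rfl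
    intro v v' hv hv' hvS hvS'
    rw [key v hv hvS, key v' hv' hvS']
  -- two pairs that can be linked through D
  have fb : ∀ (P Q : Finset V) (a a' b b' x y u w : V), a ∉ D → a' ∉ D → b ∉ D → b' ∉ D →
      Lkg (Wh G D d z1 z2 z3 z4) a a' b b' P Q →
      (∀ v, v ∈ Z ↔ v = x ∨ v = y ∨ v = u ∨ v = w) → x ∈ P → y ∈ P → u ∈ Q → w ∈ Q →
      Fb G D x y u w → ∃ P Q : Finset V, Lkg G a a' b b' P Q := by
    intro P Q a a' b b' x y u w ha ha' hb hb' hl hZ' hx hy hu hw hfb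
    obtain ⟨A, B, hAs, hBs, hAB⟩ := hfb
    have hP : ∀ v ∈ Z, v ∈ P → v = x ∨ v = y := by
      intro v hv hvP
      rcases (hZ' v).1 hv with h | h | h | h
      · exact Or.inl h
      · exact Or.inr h
      · exact absurd (h ▸ hu) (hl.dj v hvP)
      · exact absurd (h ▸ hw) (hl.dj v hvP)
    have hQ : ∀ v ∈ Z, v ∈ Q → v = u ∨ v = w := by
      intro v hv hvQ
      rcases (hZ' v).1 hv with h | h | h | h
      · exact absurd hvQ (hl.dj v (h ▸ hx))
      · exact absurd hvQ (hl.dj v (h ▸ hy))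
      · exact Or.inl h
      · exact Or.inr h
    have hjP : ∀ z z', z ∈ Z → z' ∈ Z → z ∈ P → z' ∈ P →
        Jn G ((P \ D ∪ A : Finset V) : Set V) z z' := by
      intro z z' hz hz' hzP hzP'
      have hj : Jn G ((P \ D ∪ A : Finset V) : Set V) x y :=
        hAB.jp.mono (fun v hv => Finset.mem_coe.2 (Finset.mem_union_right _ (Finset.mem_coe.1 hv)))
      rcases hP z hz hzP with rfl | rfl <;> rcases hP z' hz' hzP' with rfl | rfl
      · exact Jn.refl (Jn.left_mem hj)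
      · exact hj
      · exact hj.symm
      · exact Jn.refl (Jn.right_mem hj)
    have hjQ : ∀ z z', z ∈ Z → z' ∈ Z → z ∈ Q → z' ∈ Q →
        Jn G ((Q \ D ∪ B : Finset V) : Set V) z z' := by
      intro z z' hz hz' hzQ hzQ'
      have hj : Jn G ((Q \ D ∪ B : Finset V) : Set V) u w :=
        hAB.jq.mono (fun v hv => Finset.mem_coe.2 (Finset.mem_union_right _ (Finset.mem_coe.1 hv)))
      rcases hQ z hz hzQ with rfl | rfl <;> rcases hQ z' hz' hzQ' with rfl | rfl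
      · exact Jn.refl (Jn.left_mem hj)
      · exact hj
      · exact hj.symm
      · exact Jn.refl (Jn.right_mem hj)
    refine ⟨P \ D ∪ A, Q \ D ∪ B, ?_, ?_, ?_⟩
    · intro v hv hv'
      rcases Finset.mem_union.1 hv with hv | hv <;> rcases Finset.mem_union.1 hv' with hv' | hv'
      · exact hl.dj v (Finset.mem_sdiff.1 hv).1 (Finset.mem_sdiff.1 hv').1
      · obtain ⟨k1, k2⟩ := Finset.mem_sdiff.1 hv
        rcases Finset.mem_insert.1 (hBs hv') with h | h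
        · exact hl.dj v k1 (h ▸ hu)
        · rcases Finset.mem_insert.1 h with h | h
          · exact hl.dj v k1 (h ▸ hw)
          · exact k2 h
      · obtain ⟨k1, k2⟩ := Finset.mem_sdiff.1 hv'
        rcases Finset.mem_insert.1 (hAs hv) with h | h
        · exact hl.dj v (h ▸ hx) k1
        · rcases Finset.mem_insert.1 h with h | h
          · exact hl.dj v (h ▸ hy) k1
          · exact k2 h
      · exact hAB.dj v hv hv'
    · exact conv P _ a a' ha ha' hl.jp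
        (fun x hx hxD => Finset.mem_union_left _ (Finset.mem_sdiff.2 ⟨hx, hxD⟩))
        (fun z z' h1 h2 h3 h4 _ => hjP z z' h1 h2 h3 h4) (fun _ => hjP)
    · exact conv Q _ b b' hb hb' hl.jq
        (fun x hx hxD => Finset.mem_union_left _ (Finset.mem_sdiff.2 ⟨hx, hxD⟩))
        (fun z z' h1 h2 h3 h4 _ => hjQ z z' h1 h2 h3 h4) (fun _ => hjQ)
  -- one side goes through D
  have one : ∀ (P Q : Finset V) (a a' b b' : V), a ∉ D → a' ∉ D → 
      Lkg (Wh G D d z1 z2 z3 z4) a a' b b' P Q → Jn G ((Q \ D : Finset V) : Set V) b b' →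
      ∃ P Q : Finset V, Lkg G a a' b b' P Q := by
    intro P Q a a' b b' ha ha' hl hj
    refine ⟨P \ D ∪ D, Q \ D, ?_, toD P a a' ha ha' hl.jp, hj⟩
    intro v hv hv'
    obtain ⟨k1, k2⟩ := Finset.mem_sdiff.1 hv'
    rcases Finset.mem_union.1 hv with hv | hv
    · exact hl.dj v (Finset.mem_sdiff.1 hv).1 k1
    · exact k2 hv
  -- the main case
  have main : ∀ (P Q : Finset V) (a a' b b' : V), a ∉ D → a' ∉ D → b ∉ D → b' ∉ D →
      Lkg (Wh G D d z1 z2 z3 z4) a a' b b' P Q → z1 ∈ P → (z2 ∈ P ∨ z2 ∈ Q) → (z3 ∈ P ∨ z3 ∈ Q) →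
      (z4 ∈ P ∨ z4 ∈ Q) → ¬ (∀ z z', z ∈ Z → z' ∈ Z → z ∈ P → z' ∈ P → z = z') →
      ¬ (∀ z z', z ∈ Z → z' ∈ Z → z ∈ Q → z' ∈ Q → z = z') →
      ∃ P Q : Finset V, Lkg G a a' b b' P Q := by
    intro P Q a a' b b' ha ha' hb hb' hl k1 k2 k3 k4 nP nQ
    have hPQ : ∀ v, v ∈ P → v ∉ Q := hl.dj
    have hQP : ∀ v, v ∈ Q → v ∉ P := fun v h h' => hl.dj v h' h
    rcases k2 with k2 | k2 <;> rcases k3 with k3 | k3 <;> rcases k4 with k4 | k4
    · exact absurd (three Q z1 z2 z3 z4 (fun v => by rw [hZm]) (hPQ _ k1) (hPQ _ k2) (hPQ _ k3)) nQ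
    · exact absurd (three Q z1 z2 z3 z4 (fun v => by rw [hZm]) (hPQ _ k1) (hPQ _ k2) (hPQ _ k3)) nQ
    · exact absurd (three Q z1 z2 z4 z3 (fun v => by rw [hZm]; tauto) (hPQ _ k1) (hPQ _ k2)
        (hPQ _ k4)) nQ
    · exact fb P Q a a' b b' z1 z2 z3 z4 ha ha' hb hb' hl (fun v => by rw [hZm]) k1 k2 k3 k4 hA
    · exact absurd (three Q z1 z3 z4 z2 (fun v => by rw [hZm]; tauto) (hPQ _ k1) (hPQ _ k3)
        (hPQ _ k4)) nQ
    · -- z1, z3 in P, z2, z4 in Q
      by_cases hdP : d ∈ P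
      · refine one P Q a a' b b' ha ha' hl (conv Q _ b b' hb hb' hl.jq
          (fun x hx hxD => Finset.mem_sdiff.2 ⟨hx, hxD⟩) ?_ (fun h => absurd h (hPQ _ hdP)))
        intro z z' _ _ hzQ hzQ' hr
        rw [hRim] at hr
        have n1 := hPQ _ k1
        have n3 := hPQ _ k3
        rcases hr with (⟨rfl, rfl⟩ | ⟨rfl, rfl⟩ | ⟨rfl, rfl⟩ | ⟨rfl, rfl⟩) |
          (⟨rfl, rfl⟩ | ⟨rfl, rfl⟩ | ⟨rfl, rfl⟩ | ⟨rfl, rfl⟩) <;>
        first
          | exact absurd hzQ n1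
          | exact absurd hzQ' n1
          | exact absurd hzQ n3
          | exact absurd hzQ' n3
      · obtain ⟨P1, Q1, h⟩ := one Q P b b' a a' hb hb' hl.swap (conv P _ a a' ha ha' hl.jp
          (fun x hx hxD => Finset.mem_sdiff.2 ⟨hx, hxD⟩) (by
            intro z z' _ _ hzP hzP' hr
            rw [hRim] at hr
            have n2 := hQP _ k2
            have n4 := hQP _ k4
            rcases hr with (⟨rfl, rfl⟩ | ⟨rfl, rfl⟩ | ⟨rfl, rfl⟩ | ⟨rfl, rfl⟩) |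
              (⟨rfl, rfl⟩ | ⟨rfl, rfl⟩ | ⟨rfl, rfl⟩ | ⟨rfl, rfl⟩) <;>
            first
              | exact absurd hzP n2
              | exact absurd hzP' n2
              | exact absurd hzP n4
              | exact absurd hzP' n4) (fun h => absurd h hdP))
        exact ⟨Q1, P1, h.swap⟩
    · exact fb P Q a a' b b' z1 z4 z2 z3 ha ha' hb hb' hl (fun v => by rw [hZm]; tauto) k1 k4 k2 k3 hB
    · exact absurd (three P z2 z3 z4 z1 (fun v => by rw [hZm]; tauto) (hQP _ k2) (hQP _ k3)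
        (hQP _ k4)) nP
  have haD : a ∉ D := hX a (mem_Xs.2 (Or.inl rfl))
  have haD' : a' ∉ D := hX a' (mem_Xs.2 (Or.inr (Or.inl rfl)))
  have hbD : b ∉ D := hX b (mem_Xs.2 (Or.inr (Or.inr (Or.inl rfl))))
  have hbD' : b' ∉ D := hX b' (mem_Xs.2 (Or.inr (Or.inr (Or.inr rfl))))
  by_cases nQ : ∀ z z', z ∈ Z → z' ∈ Z → z ∈ Q → z' ∈ Q → z = z'
  · exact one P Q a a' b b' haD haD' hl (alo Q b b' hbD hbD' hl.jq nQ)
  by_cases nP : ∀ z z', z ∈ Z → z' ∈ Z → z ∈ P → z' ∈ P → z = z'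
  · obtain ⟨P1, Q1, h⟩ := one Q P b b' a a' hbD hbD' hl.swap (alo P a a' haD haD' hl.jp nP)
    exact ⟨Q1, P1, h.swap⟩
  -- every rim vertex is in P or in Q
  have hcov : ∀ z ∈ Z, z ∈ P ∨ z ∈ Q := by
    have hZ4 : Z.card = 4 := by
      rw [hZdef, hN]
      exact card_Xs hds
    have h1 : 1 < (Z ∩ P).card := by
      rw [Finset.one_lt_card]
      push Not at nP
      obtain ⟨z, z', h1, h2, h3, h4, h5⟩ := nP
      exact ⟨z, Finset.mem_inter.2 ⟨h1, h3⟩, z', Finset.mem_inter.2 ⟨h2, h4⟩, h5⟩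
    have h2 : 1 < (Z ∩ Q).card := by
      rw [Finset.one_lt_card]
      push Not at nQ
      obtain ⟨z, z', h1, h2, h3, h4, h5⟩ := nQ
      exact ⟨z, Finset.mem_inter.2 ⟨h1, h3⟩, z', Finset.mem_inter.2 ⟨h2, h4⟩, h5⟩
    have hdj : Disjoint (Z ∩ P) (Z ∩ Q) := by
      rw [Finset.disjoint_left]
      intro v hv hv'
      exact hl.dj v (Finset.mem_inter.1 hv).2 (Finset.mem_inter.1 hv').2
    have h3 : (Z ∩ P) ∪ (Z ∩ Q) = Z := by
      refine Finset.eq_of_subset_of_card_le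
        (Finset.union_subset Finset.inter_subset_left Finset.inter_subset_left) ?_
      rw [Finset.card_union_of_disjoint hdj, hZ4]
      omega
    intro z hz
    rw [← h3] at hz
    rcases Finset.mem_union.1 hz with h | h
    · exact Or.inl (Finset.mem_inter.1 h).2
    · exact Or.inr (Finset.mem_inter.1 h).2
  rcases hcov z1 hz1 with h | h
  · exact main P Q a a' b b' haD haD' hbD hbD' hl h (hcov z2 hz2) (hcov z3 hz3) (hcov z4 hz4) nP nQ
  · obtain ⟨P1, Q1, h'⟩ := main Q P b b' a a' hbD hbD' haD haD' hl.swap h (hcov z2 hz2).symm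
      (hcov z3 hz3).symm (hcov z4 hz4).symm nQ nP
    exact ⟨Q1, P1, h'.swap⟩

end Pool.Agent.JNG
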