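import Mathlib
import Pool.Agent.JNG.Defs

/-!
Replacing D by a wheel keeps the mass hypotheses (X is the set of terminals).
Proof. W' = insert d (W minus D), and W' minus X = insert d ((W minus X) minus D).
`ins`, `sub`: clear.
`m1`: the edges of G that meet W minus X and not D are edges of the wheel graph meeting W' minus X, and
there are the four further edges d zi (the zi are distinct and not in D). So card Ed' is at least
card Ed G (W minus X) - card Ed G D + 4, at least 3 card (W minus X) + 2 - 3 card D - 1 + 4, which is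
3 card (W' minus X) + 2.
`m2`: we show that there is no nonempty E inside W' minus X with at most 3 neighbours in G' = Wh; for the
empty set the claim is trivial. Let N' = Nb G' E.
(1) d in E: let F = (E minus d) + D, inside W minus X. Nb G F is inside N': a neighbour of D is some zi,
adjacent to d in G'; a neighbour w not in D of a vertex of E minus d is a neighbour in G'. So hf fails.
(2) d not in E and d not in N': no zi is in E, so E is not adjacent to D in G and no new edge meets E,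
Nb G E = N', against hf.
(3) d not in E, d in N': some z = zi is in E. Let z', z'' be its two neighbours on the rim and z* the
opposite vertex. z' and z'' are in E + N'. If z* is in E + N' then all zi are in E + N', Nb G (E + D)
is inside N' minus d (at most 2 elements), against hf. If z* is not in E + N' then z', z'' are not in E
(z* is adjacent to both in G'), so d, z', z'' are in N', N' = {d, z', z''}, and Nb G (E + D) is inside
{z', z'', z*}, against hf.
-/

set_option autoImplicit false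

namespace Pool.Agent.JNG

open SimpleGraph Pool.Agent.LNK

private theorem whm_adj {V : Type} {G : SimpleGraph V} {D : Finset V} {d z1 z2 z3 z4 u v : V}
    (hu : u ∉ D) (hv : v ∉ D) (h : G.Adj u v) : (Wh G D d z1 z2 z3 z4).Adj u v := by
  unfold Wh
  rw [SimpleGraph.fromRel_adj]
  exact ⟨h.ne, Or.inl (Or.inl ⟨hu, hv, h⟩)⟩

private theorem whm_adj_d {V : Type} {G : SimpleGraph V} {D : Finset V} {d z1 z2 z3 z4 v : V}
    (hv : v = z1 ∨ v = z2 ∨ v = z3 ∨ v = z4) (hdv : d ≠ v) :
    (Wh G D d z1 z2 z3 z4).Adj d v := by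
  unfold Wh
  rw [SimpleGraph.fromRel_adj]
  exact ⟨hdv, Or.inl (Or.inr (Or.inl ⟨rfl, hv⟩))⟩

private theorem whm_12 {V : Type} {G : SimpleGraph V} {D : Finset V} {d z1 z2 z3 z4 : V}
    (h : z1 ≠ z2) : (Wh G D d z1 z2 z3 z4).Adj z1 z2 := by
  unfold Wh
  rw [SimpleGraph.fromRel_adj]
  exact ⟨h, Or.inl (Or.inr (Or.inr (Or.inl ⟨rfl, rfl⟩)))⟩

private theorem whm_23 {V : Type} {G : SimpleGraph V} {D : Finset V} {d z1 z2 z3 z4 : V}
    (h : z2 ≠ z3) : (Wh G D d z1 z2 z3 z4).Adj z2 z3 := by
  unfold Wh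
  rw [SimpleGraph.fromRel_adj]
  exact ⟨h, Or.inl (Or.inr (Or.inr (Or.inr (Or.inl ⟨rfl, rfl⟩))))⟩

private theorem whm_34 {V : Type} {G : SimpleGraph V} {D : Finset V} {d z1 z2 z3 z4 : V}
    (h : z3 ≠ z4) : (Wh G D d z1 z2 z3 z4).Adj z3 z4 := by
  unfold Wh
  rw [SimpleGraph.fromRel_adj]
  exact ⟨h, Or.inl (Or.inr (Or.inr (Or.inr (Or.inr (Or.inl ⟨rfl, rfl⟩)))))⟩

private theorem whm_41 {V : Type} {G : SimpleGraph V} {D : Finset V} {d z1 z2 z3 z4 : V}
    (h : z4 ≠ z1) : (Wh G D d z1 z2 z3 z4).Adj z4 z1 := by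
  unfold Wh
  rw [SimpleGraph.fromRel_adj]
  exact ⟨h, Or.inl (Or.inr (Or.inr (Or.inr (Or.inr (Or.inr ⟨rfl, rfl⟩)))))⟩

/-- every vertex of the rim has an opposite vertex and is adjacent to the other ones -/
private theorem whm_opp {V : Type} {G : SimpleGraph V} {D : Finset V} {d z1 z2 z3 z4 z : V}
    (hds : Ds z1 z2 z3 z4) (hz : z = z1 ∨ z = z2 ∨ z = z3 ∨ z = z4) :
    ∃ zo, ∀ v, (v = z1 ∨ v = z2 ∨ v = z3 ∨ v = z4) →
      v = zo ∨ v = z ∨ (Wh G D d z1 z2 z3 z4).Adj z v := by
  rcases hz with hz | hz | hz | hz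
  · refine ⟨z3, fun v hv => ?_⟩
    rw [hz]
    rcases hv with hv | hv | hv | hv <;> rw [hv]
    · exact Or.inr (Or.inl rfl)
    · exact Or.inr (Or.inr (whm_12 hds.h1))
    · exact Or.inl rfl
    · exact Or.inr (Or.inr (whm_41 hds.h3.symm).symm)
  · refine ⟨z4, fun v hv => ?_⟩
    rw [hz]
    rcases hv with hv | hv | hv | hv <;> rw [hv]
    · exact Or.inr (Or.inr (whm_12 hds.h1).symm)
    · exact Or.inr (Or.inl rfl)
    · exact Or.inr (Or.inr (whm_23 hds.h4))
    · exact Or.inl rfl
  · refine ⟨z1, fun v hv => ?_⟩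
    rw [hz]
    rcases hv with hv | hv | hv | hv <;> rw [hv]
    · exact Or.inl rfl
    · exact Or.inr (Or.inr (whm_23 hds.h4).symm)
    · exact Or.inr (Or.inl rfl)
    · exact Or.inr (Or.inr (whm_34 hds.h6))
  · refine ⟨z2, fun v hv => ?_⟩
    rw [hz]
    rcases hv with hv | hv | hv | hv <;> rw [hv]
    · exact Or.inr (Or.inr (whm_41 hds.h3.symm))
    · exact Or.inl rfl
    · exact Or.inr (Or.inr (whm_34 hds.h6).symm)
    · exact Or.inr (Or.inl rfl)

open Classical in
theorem whm {V : Type} [Fintype V] {G : SimpleGraph V} {W : Finset V} {a a' b b' : V}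
    (h : Ms G W (Xs a a' b b')) (hf : Hf G W a a' b b') {D : Finset V} (hD : D ⊆ W)
    (hDX : ∀ v ∈ D, v ∉ Xs a a' b b') {d : V} (hd : d ∈ D) {z1 z2 z3 z4 : V} (hds : Ds z1 z2 z3 z4)
    (hN : Nb G D = {z1, z2, z3, z4}) (h1 : (Ed G D).card ≤ 3 * D.card + 1) :
    Ms (Wh G D d z1 z2 z3 z4) (insert d (W \ D)) (Xs a a' b b') := by
  have hZ : ∀ v, v ∈ Nb G D ↔ (v = z1 ∨ v = z2 ∨ v = z3 ∨ v = z4) := by
    intro v
    rw [hN]
    simp only [Finset.mem_insert, Finset.mem_singleton]
  have hZD : ∀ v, (v = z1 ∨ v = z2 ∨ v = z3 ∨ v = z4) → v ∉ D := fun v hv =>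
    (mem_Nb.1 ((hZ v).2 hv)).1
  have hZW : ∀ v, (v = z1 ∨ v = z2 ∨ v = z3 ∨ v = z4) → v ∈ W := fun v hv =>
    Nb_subset h.ins D ((hZ v).2 hv)
  have hdW : d ∈ W := hD hd
  have hdX : d ∉ Xs a a' b b' := hDX d hd
  have hZd : ∀ v, (v = z1 ∨ v = z2 ∨ v = z3 ∨ v = z4) → d ≠ v := fun v hv hdv =>
    hZD v hv (hdv ▸ hd)
  refine ⟨?_, ?_, ?_, ?_⟩
  · -- edges inside
    have hz' : ∀ v, (v = z1 ∨ v = z2 ∨ v = z3 ∨ v = z4) → v ∈ insert d (W \ D) := fun v hv =>
      Finset.mem_insert_of_mem (Finset.mem_sdiff.2 ⟨hZW v hv, hZD v hv⟩)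
    intro u v huv
    unfold Wh at huv
    rw [SimpleGraph.fromRel_adj] at huv
    obtain ⟨_, hr | hr⟩ := huv
    · rcases hr with hr | hr | hr | hr | hr | hr
      · exact Finset.mem_insert_of_mem (Finset.mem_sdiff.2 ⟨h.ins _ _ hr.2.2, hr.1⟩)
      · rw [hr.1]
        exact Finset.mem_insert_self _ _
      · exact hz' _ (Or.inl hr.1)
      · exact hz' _ (Or.inr (Or.inl hr.1))
      · exact hz' _ (Or.inr (Or.inr (Or.inl hr.1)))
      · exact hz' _ (Or.inr (Or.inr (Or.inr hr.1)))
    · rcases hr with hr | hr | hr | hr | hr | hr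
      · exact Finset.mem_insert_of_mem (Finset.mem_sdiff.2 ⟨h.ins _ _ hr.2.2.symm, hr.2.1⟩)
      · exact hz' _ hr.2
      · exact hz' _ (Or.inr (Or.inl hr.2))
      · exact hz' _ (Or.inr (Or.inr (Or.inl hr.2)))
      · exact hz' _ (Or.inr (Or.inr (Or.inr hr.2)))
      · exact hz' _ (Or.inl hr.2)
  · intro x hx
    exact Finset.mem_insert_of_mem (Finset.mem_sdiff.2 ⟨h.sub hx, fun hxD => hDX x hxD hx⟩)
  · -- mass
    have hW' : insert d (W \ D) \ Xs a a' b b' = insert d ((W \ Xs a a' b b') \ D) := by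
      ext v
      simp only [Finset.mem_sdiff, Finset.mem_insert]
      constructor
      · rintro ⟨h1 | h1, h2⟩
        · exact Or.inl h1
        · exact Or.inr ⟨⟨h1.1, h2⟩, h1.2⟩
      · rintro (h1 | h1)
        · exact ⟨Or.inl h1, by rw [h1]; exact hdX⟩
        · exact ⟨Or.inr ⟨h1.1.1, h1.2⟩, h1.1.2⟩
    have hDW : D ⊆ W \ Xs a a' b b' := fun v hv => Finset.mem_sdiff.2 ⟨hD hv, hDX v hv⟩
    have hc1 : ((W \ Xs a a' b b') \ D).card + D.card = (W \ Xs a a' b b').card :=
      Finset.card_sdiff_add_card_eq_card hDW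
    have hdn : d ∉ (W \ Xs a a' b b') \ D := fun h' => (Finset.mem_sdiff.1 h').2 hd
    have hc2 : (insert d ((W \ Xs a a' b b') \ D)).card = ((W \ Xs a a' b b') \ D).card + 1 :=
      Finset.card_insert_of_notMem hdn
    rw [hW']
    have hB : ((Nb G D).image fun z => s(d, z)).card = 4 := by
      rw [Finset.card_image_of_injOn]
      · rw [hN]
        exact card_Xs hds
      · intro x _ y _ hxy
        exact Sym2.congr_right.1 hxy
    have hAB : Disjoint (Ed G (W \ Xs a a' b b') \ Ed G D) ((Nb G D).image fun z => s(d, z)) := by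
      rw [Finset.disjoint_left]
      intro e he1 he2
      obtain ⟨z, _, rfl⟩ := Finset.mem_image.1 he2
      rw [Finset.mem_sdiff, mem_Ed, mem_Ed] at he1
      exact he1.2 ⟨he1.1.1, d, hd, Sym2.mem_mk_left _ _⟩
    have hsub : (Ed G (W \ Xs a a' b b') \ Ed G D) ∪ ((Nb G D).image fun z => s(d, z)) ⊆
        Ed (Wh G D d z1 z2 z3 z4) (insert d ((W \ Xs a a' b b') \ D)) := by
      intro e he
      rcases Finset.mem_union.1 he with he | he
      · rw [Finset.mem_sdiff, mem_Ed, mem_Ed] at he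
        obtain ⟨⟨he1, u, huW, hue⟩, he2⟩ := he
        have hnD : ∀ v ∈ e, v ∉ D := fun v hv hvD => he2 ⟨he1, v, hvD, hv⟩
        rw [mem_Ed]
        refine ⟨?_, u, ?_, hue⟩
        · induction e using Sym2.ind with
          | _ x y =>
            rw [SimpleGraph.mem_edgeSet] at he1 ⊢
            exact whm_adj (hnD x (Sym2.mem_mk_left _ _)) (hnD y (Sym2.mem_mk_right _ _)) he1
        · exact Finset.mem_insert_of_mem (Finset.mem_sdiff.2 ⟨huW, hnD u hue⟩)
      · obtain ⟨z, hz, rfl⟩ := Finset.mem_image.1 he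
        rw [mem_Ed]
        refine ⟨?_, d, Finset.mem_insert_self _ _, Sym2.mem_mk_left _ _⟩
        rw [SimpleGraph.mem_edgeSet]
        exact whm_adj_d ((hZ z).1 hz) (hZd z ((hZ z).1 hz))
    have hc3 := Finset.card_le_card hsub
    rw [Finset.card_union_of_disjoint hAB, hB] at hc3
    have hc4 := Finset.le_card_sdiff (Ed G D) (Ed G (W \ Xs a a' b b'))
    have hm1 := h.m1
    omega
  · -- small separations
    intro E hE hE3
    rcases E.eq_empty_or_nonempty with rfl | hEne
    · have h0 : Ed (Wh G D d z1 z2 z3 z4) ∅ = ∅ := by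
        refine Finset.eq_empty_of_forall_notMem fun e he => ?_
        obtain ⟨_, u, hu, _⟩ := mem_Ed.1 he
        exact absurd hu (Finset.notMem_empty u)
      rw [h0]
      simp
    exfalso
    have hEX : ∀ v ∈ E, v ∉ Xs a a' b b' := fun v hv => (Finset.mem_sdiff.1 (hE hv)).2
    have hEW : ∀ v ∈ E, v = d ∨ (v ∈ W ∧ v ∉ D) := by
      intro v hv
      have h1 := (Finset.mem_sdiff.1 (hE hv)).1
      rcases Finset.mem_insert.1 h1 with h1 | h1
      · exact Or.inl h1
      · exact Or.inr (Finset.mem_sdiff.1 h1)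
    have hEW' : ∀ v ∈ E, v ∈ W := by
      intro v hv
      rcases hEW v hv with h1 | h1
      · rw [h1]
        exact hdW
      · exact h1.1
    by_cases hdE : d ∈ E
    · -- the centre is in the set
      have h4 : 4 ≤ (Nb G (E ∪ D)).card := by
        refine hf (E ∪ D) (Finset.union_subset hEW' hD) (hEne.mono Finset.subset_union_left) ?_
        intro v hv
        rcases Finset.mem_union.1 hv with hv | hv
        · exact hEX v hv
        · exact hDX v hv
      have hsub : Nb G (E ∪ D) ⊆ Nb (Wh G D d z1 z2 z3 z4) E := by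
        intro w hw
        obtain ⟨hw1, u, hu, huw⟩ := mem_Nb.1 hw
        rw [Finset.mem_union, not_or] at hw1
        rw [mem_Nb]
        refine ⟨hw1.1, ?_⟩
        by_cases huD : u ∈ D
        · have hwZ := (hZ w).1 (mem_Nb.2 ⟨hw1.2, u, huD, huw⟩)
          exact ⟨d, hdE, whm_adj_d hwZ (hZd w hwZ)⟩
        · have huE : u ∈ E := by
            rcases Finset.mem_union.1 hu with hu | hu
            · exact hu
            · exact absurd hu huD
          exact ⟨u, huE, whm_adj huD hw1.2 huw⟩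
      have := Finset.card_le_card hsub
      omega
    · have hED : ∀ v ∈ E, v ∉ D := by
        intro v hv
        rcases hEW v hv with h1 | h1
        · exact absurd (h1 ▸ hv) hdE
        · exact h1.2
      by_cases hz : ∃ z ∈ E, z = z1 ∨ z = z2 ∨ z = z3 ∨ z = z4
      · obtain ⟨z, hzE, hz⟩ := hz
        obtain ⟨zo, hzo⟩ := whm_opp (G := G) (D := D) (d := d) hds hz
        have h4 : 4 ≤ (Nb G (E ∪ D)).card := by
          refine hf (E ∪ D) (Finset.union_subset hEW' hD) (hEne.mono Finset.subset_union_left) ?_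
          intro v hv
          rcases Finset.mem_union.1 hv with hv | hv
          · exact hEX v hv
          · exact hDX v hv
        have hdN : d ∈ Nb (Wh G D d z1 z2 z3 z4) E :=
          mem_Nb.2 ⟨hdE, z, hzE, (whm_adj_d hz (hZd z hz)).symm⟩
        have hsub : Nb G (E ∪ D) ⊆ insert zo ((Nb (Wh G D d z1 z2 z3 z4) E).erase d) := by
          intro w hw
          obtain ⟨hw1, u, hu, huw⟩ := mem_Nb.1 hw
          rw [Finset.mem_union, not_or] at hw1
          have hwd : w ≠ d := fun hwd => hw1.2 (hwd ▸ hd)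
          rw [Finset.mem_insert, Finset.mem_erase]
          by_cases huD : u ∈ D
          · have hwZ := (hZ w).1 (mem_Nb.2 ⟨hw1.2, u, huD, huw⟩)
            rcases hzo w hwZ with h5 | h5 | h5
            · exact Or.inl h5
            · exact absurd (h5 ▸ hzE) hw1.1
            · exact Or.inr ⟨hwd, mem_Nb.2 ⟨hw1.1, z, hzE, h5⟩⟩
          · have huE : u ∈ E := by
              rcases Finset.mem_union.1 hu with hu | hu
              · exact hu
              · exact absurd hu huD
            exact Or.inr ⟨hwd, mem_Nb.2 ⟨hw1.1, u, huE, whm_adj huD hw1.2 huw⟩⟩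
        have h5 := Finset.card_le_card hsub
        have h6 := Finset.card_insert_le zo ((Nb (Wh G D d z1 z2 z3 z4) E).erase d)
        have h7 := Finset.card_erase_add_one hdN
        omega
      · have h4 : 4 ≤ (Nb G E).card := hf E hEW' hEne hEX
        have hsub : Nb G E ⊆ Nb (Wh G D d z1 z2 z3 z4) E := by
          intro w hw
          obtain ⟨hw1, u, hu, huw⟩ := mem_Nb.1 hw
          have hwD : w ∉ D := by
            intro hwD
            exact hz ⟨u, hu, (hZ u).1 (mem_Nb.2 ⟨hED u hu, w, hwD, huw.symm⟩)⟩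
          exact mem_Nb.2 ⟨hw1, u, hu, whm_adj (hED u hu) hwD huw⟩
        have := Finset.card_le_card hsub
        omega

end Pool.Agent.JNG
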