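import Mathlib
import Pool.Agent.JNG.Defs
import Pool.Agent.JNG.R1T
import Pool.Agent.JNG.R2T
import Pool.Agent.JNG.PRG
import Pool.Agent.JNG.WHM
import Pool.Agent.JNG.WHL

/-!
In a minimal counterexample every connected set without terminals with at most four neighbours, other than
the set of all non-terminals, is a single vertex.
Proof. Suppose 2 <= card D. By r1 card (Nb G D) = 4; write Nb G D = {y1,y2,y3,y4}. By r2 card (Ed G D) is at
most 3 card D + 1. `prg` for the labellings (y1,y2,y3,y4), (y1,y3,y2,y4), (y1,y4,y2,y3) says: of the three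
pairings (12|34), (13|24), (14|23) at least two satisfy Fb (Fb is symmetric in the obvious ways: exchange
p, p', exchange q, q', exchange the pairs). If (12|34) and (14|23) do, put z = (y1,y2,y3,y4); if (12|34) and
(13|24) do, put z = (y1,y2,y4,y3); if (13|24) and (14|23) do, put z = (y1,y3,y2,y4). Then
Fb G D z1 z2 z3 z4 and Fb G D z1 z4 z2 z3. Pick d in D. By `whm` the graph Wh G D d z1 z2 z3 z4 with
insert d (W minus D) satisfies the mass hypotheses, and card (insert d (W minus D)) = card W - card D + 1 is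
less than card W. `ih` gives a linkage of the wheel graph and `whl` a linkage of G, against `nl`.
-/

set_option autoImplicit false

namespace Pool.Agent.JNG

open SimpleGraph Pool.Agent.LNK

private theorem tig_flip {V : Type} {G : SimpleGraph V} {D : Finset V} {p p' q q' : V}
    (h : Fb G D p p' q q') : Fb G D p p' q' q := by
  classical
  obtain ⟨A, B, hA, hB, hl⟩ := h
  exact ⟨A, B, hA, by rw [Finset.insert_comm]; exact hB, hl.flip'⟩

open Classical in
private theorem tig_fin {V : Type} [Fintype V] {G : SimpleGraph V} {W : Finset V} {a a' b b' : V}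
    (h : Ce G W a a' b b') {D : Finset V} (hD : D ⊆ W) (hDX : ∀ v ∈ D, v ∉ Xs a a' b b') (hc : Cn G D)
    (h2 : 2 ≤ D.card) (h1 : (Ed G D).card ≤ 3 * D.card + 1) {z1 z2 z3 z4 : V}
    (hds : Ds z1 z2 z3 z4) (hN : Nb G D = {z1, z2, z3, z4}) (hA : Fb G D z1 z2 z3 z4)
    (hB : Fb G D z1 z4 z2 z3) : False := by
  obtain ⟨d, hd⟩ := hc.1
  have hms := whm h.ms (r1 h) hD hDX hd hds hN h1
  have hlt : (insert d (W \ D)).card < W.card := by
    have e1 := Finset.card_insert_le d (W \ D)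
    have e2 : (W \ D).card = W.card - D.card := Finset.card_sdiff_of_subset hD
    have e3 := Finset.card_le_card hD
    omega
  obtain ⟨P, Q, hPQ⟩ := h.ih _ _ a a' b b' h.ds (Or.inl hlt) hms
  obtain ⟨P', Q', hPQ'⟩ := whl hc (fun v hv hvD => hDX v hvD hv) hd hds hN hA hB hPQ
  exact h.nl P' Q' hPQ'

open Classical in
theorem tig {V : Type} [Fintype V] {G : SimpleGraph V} {W : Finset V} {a a' b b' : V}
    (h : Ce G W a a' b b') {D : Finset V} (hD : D ⊆ W) (hDX : ∀ v ∈ D, v ∉ Xs a a' b b') (hc : Cn G D)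
    (h4 : (Nb G D).card ≤ 4) (hn : D ≠ W \ Xs a a' b b') : D.card = 1 := by
  by_contra hne
  have h0 : 0 < D.card := Finset.card_pos.2 hc.1
  have h2 : 2 ≤ D.card := by omega
  have hf := r1 h
  have h4' : (Nb G D).card = 4 := le_antisymm h4 (hf D hD hc.1 hDX)
  have h1 := r2 h hD hDX hc.1 h4' hn
  obtain ⟨y1, s, hy1, hs, hsc⟩ := Finset.card_eq_succ.1 h4'
  obtain ⟨y2, y3, y4, h23, h24, h34, rfl⟩ := Finset.card_eq_three.1 hsc
  have hy : y1 ≠ y2 ∧ y1 ≠ y3 ∧ y1 ≠ y4 := by
    simpa using hy1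
  obtain ⟨h12, h13, h14⟩ := hy
  have hN : Nb G D = {y1, y2, y3, y4} := hs.symm
  have hN2 : Nb G D = {y1, y3, y2, y4} := by
    rw [hN]; ext v; simp only [Finset.mem_insert, Finset.mem_singleton]; tauto
  have hN3 : Nb G D = {y1, y4, y2, y3} := by
    rw [hN]; ext v; simp only [Finset.mem_insert, Finset.mem_singleton]; tauto
  have hN4 : Nb G D = {y1, y2, y4, y3} := by
    rw [hN]; ext v; simp only [Finset.mem_insert, Finset.mem_singleton]; tauto
  have d1 : Ds y1 y2 y3 y4 := ⟨h12, h13, h14, h23, h24, h34⟩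
  have d2 : Ds y1 y3 y2 y4 := ⟨h13, h12, h14, h23.symm, h34, h24⟩
  have d3 : Ds y1 y4 y2 y3 := ⟨h14, h12, h13, h24.symm, h34.symm, h23⟩
  have d4 : Ds y1 y2 y4 y3 := ⟨h12, h14, h13, h24, h23, h34.symm⟩
  have p1 := prg hf hD hDX hc h2 d1 hN
  have p2 := prg hf hD hDX hc h2 d2 hN2
  have p3 := prg hf hD hDX hc h2 d3 hN3
  -- pairings
  have c1 : Fb G D y1 y2 y3 y4 → Fb G D y1 y4 y2 y3 → False := fun hA hB =>
    tig_fin h hD hDX hc h2 h1 d1 hN hA hB
  have c2 : Fb G D y1 y2 y3 y4 → Fb G D y1 y3 y2 y4 → False := fun hA hB =>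
    tig_fin h hD hDX hc h2 h1 d4 hN4 (tig_flip hA) hB
  have c3 : Fb G D y1 y3 y2 y4 → Fb G D y1 y4 y2 y3 → False := fun hA hB =>
    tig_fin h hD hDX hc h2 h1 d2 hN2 hA (tig_flip hB)
  rcases p1 with p1 | p1
  · rcases p2 with p2 | p2
    · exact c2 p2 p1
    · exact c3 p1 (tig_flip p2)
  · rcases p3 with p3 | p3
    · exact c1 (tig_flip p3) p1
    · exact c3 (tig_flip p3) p1

end Pool.Agent.JNG
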