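import Mathlib
import Pool.Agent.JNG.Defs
import Pool.Agent.JNG.CMP
import Pool.Agent.JNG.R1T
import Pool.Agent.JNG.TIG

/-!
In a minimal counterexample contraction keeps the second mass hypothesis.
Proof. Let D be inside (W minus v) minus Xs with card (Nb (Ct G u v) D) at most 3. If D is empty the claim is
trivial. Case 1: u in D (so u is not a terminal). Let E = insert v D. Then Nb G E is inside Nb (Ct G u v) D
(a neighbour w of v outside E is a neighbour of u in Ct), so card at most 3, against r1.
Case 2: u not in D, v not in Nb G D. Then Nb G D is inside Nb (Ct) D, against r1.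
Case 3: u not in D, v in Nb G D. Then some vertex of D is adjacent to v in G, so it is adjacent to u in Ct:
u in Nb (Ct) D. Nb G D is inside insert v (Nb (Ct) D), so card (Nb G D) is at most 4, and it is exactly 4 by
r1, so Nb G D = insert v (Nb (Ct) D), in particular u in Nb G D. Let x be in D and D1 the component of x in D
(`comp`), Nb G D1 inside Nb G D, D1 is not W minus Xs (v is not in D1); by `tig` D1 = {x}; card (Nb G {x}) is
at least 4 by r1, so Nb G {x} = Nb G D, so x is adjacent to both u and v. So in Ct the vertex x has at most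
three neighbours (the neighbours of x in Ct are Nb G D minus v). Hence Ed (Ct) D has at most
sum over x in D of 3 = 3 card D elements (every edge meeting D is xw with x in D and w in Nb G D minus v).
-/

set_option autoImplicit false

namespace Pool.Agent.JNG

open SimpleGraph Pool.Agent.LNK

private theorem ctm_of {V : Type} {G : SimpleGraph V} {u v x y : V} (hxy : x ≠ y) (hx : x ≠ v)
    (hy : y ≠ v) (h : G.Adj x y ∨ (x = u ∧ G.Adj v y)) : (Ct G u v).Adj x y := by
  unfold Ct
  rw [SimpleGraph.fromRel_adj]
  exact ⟨hxy, Or.inl ⟨hx, hy, h⟩⟩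

open Classical in
theorem ctm {V : Type} [Fintype V] {G : SimpleGraph V} {W : Finset V} {a a' b b' : V}
    (h : Ce G W a a' b b') {u v : V} (huv : G.Adj u v) (hv : v ∉ Xs a a' b b') :
    ∀ D ⊆ (W.erase v) \ Xs a a' b b', (Nb (Ct G u v) D).card ≤ 3 → (Ed (Ct G u v) D).card ≤ 3 * D.card := by
  intro D hD h3
  have hr1 := r1 h
  have hvW : v ∈ W := h.ms.ins.right huv
  have hD1 : ∀ x ∈ D, x ∈ W ∧ x ≠ v ∧ x ∉ Xs a a' b b' := by
    intro x hx
    have h1 := hD hx
    rw [Finset.mem_sdiff, Finset.mem_erase] at h1
    exact ⟨h1.1.2, h1.1.1, h1.2⟩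
  have hDW : D ⊆ W := fun x hx => (hD1 x hx).1
  have huv' : u ≠ v := huv.ne
  rcases D.eq_empty_or_nonempty with rfl | hne
  · have h1 : Ed (Ct G u v) ∅ = ∅ := by
      rw [Finset.eq_empty_iff_forall_notMem]
      intro e he
      rw [mem_Ed] at he
      obtain ⟨_, w, hw, _⟩ := he
      exact absurd hw (Finset.notMem_empty w)
    rw [h1]
    simp
  by_cases huD : u ∈ D
  · exfalso
    have hsub : Nb G (insert v D) ⊆ Nb (Ct G u v) D := by
      intro w hw
      rw [mem_Nb] at hw ⊢
      obtain ⟨hw1, x, hx, hxw⟩ := hw
      rw [Finset.mem_insert] at hw1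
      push Not at hw1
      refine ⟨hw1.2, ?_⟩
      rcases Finset.mem_insert.1 hx with hx | hx
      · subst hx
        exact ⟨u, huD, ctm_of (fun h => hw1.2 (h ▸ huD)) huv' hw1.1 (Or.inr ⟨rfl, hxw⟩)⟩
      · exact ⟨x, hx, ctm_of hxw.ne (hD1 x hx).2.1 hw1.1 (Or.inl hxw)⟩
    have h4 := hr1 (insert v D) (Finset.insert_subset hvW hDW) (Finset.insert_nonempty _ _) (by
      intro x hx
      rcases Finset.mem_insert.1 hx with hx | hx
      · rw [hx]
        exact hv
      · exact (hD1 x hx).2.2)
    have h5 := Finset.card_le_card hsub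
    omega
  · have h4 := hr1 D hDW hne (fun x hx => (hD1 x hx).2.2)
    have hsub : ∀ w ∈ Nb G D, w ≠ v → w ∈ Nb (Ct G u v) D := by
      intro w hw hwv
      rw [mem_Nb] at hw ⊢
      obtain ⟨hw1, x, hx, hxw⟩ := hw
      exact ⟨hw1, x, hx, ctm_of hxw.ne (hD1 x hx).2.1 hwv (Or.inl hxw)⟩
    by_cases hvN : v ∈ Nb G D
    · have hsub' : Nb G D ⊆ insert v (Nb (Ct G u v) D) := by
        intro w hw
        by_cases hwv : w = v
        · rw [hwv]
          exact Finset.mem_insert_self _ _
        · exact Finset.mem_insert_of_mem (hsub w hw hwv)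
      have h5 : (insert v (Nb (Ct G u v) D)).card ≤ 4 :=
        (Finset.card_insert_le _ _).trans (by omega)
      have h6 : Nb G D = insert v (Nb (Ct G u v) D) :=
        Finset.eq_of_subset_of_card_le hsub' (by omega)
      have h7 : (Nb G D).card = 4 := by
        have := Finset.card_le_card hsub'
        omega
      have hx : ∀ x ∈ D, Nb G {x} = Nb G D := by
        intro x hx
        obtain ⟨E, hED, hxE, hcE, hNE⟩ := comp G D x hx
        have h8 : (Nb G E).card ≤ 4 := by
          have := Finset.card_le_card hNE
          omega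
        have h9 : E ≠ W \ Xs a a' b b' := by
          intro hE
          have h10 : v ∈ E := by
            rw [hE, Finset.mem_sdiff]
            exact ⟨hvW, hv⟩
          exact (hD1 v (hED h10)).2.1 rfl
        have h10 := tig h (hED.trans hDW) (fun y hy => (hD1 y (hED hy)).2.2) hcE h8 h9
        obtain ⟨y, hy⟩ := Finset.card_eq_one.1 h10
        rw [hy, Finset.mem_singleton] at hxE
        subst hxE
        rw [hy] at hNE
        have h11 := hr1 {x} (Finset.singleton_subset_iff.2 (hDW hx)) (Finset.singleton_nonempty _)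
          (fun y hy => by
            rw [Finset.mem_singleton] at hy
            rw [hy]
            exact (hD1 x hx).2.2)
        exact Finset.eq_of_subset_of_card_le hNE (by omega)
      have hEd : Ed (Ct G u v) D ⊆ (D ×ˢ Nb (Ct G u v) D).image fun p => s(p.1, p.2) := by
        intro e he
        rw [mem_Ed] at he
        obtain ⟨heG, x, hxD, hxe⟩ := he
        obtain ⟨w, rfl⟩ := Sym2.mem_iff_exists.1 hxe
        rw [SimpleGraph.mem_edgeSet] at heG
        rw [Finset.mem_image]
        refine ⟨(x, w), ?_, rfl⟩
        rw [Finset.mem_product]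
        refine ⟨hxD, ?_⟩
        rw [mem_Nb]
        refine ⟨?_, x, hxD, heG⟩
        unfold Ct at heG
        rw [SimpleGraph.fromRel_adj] at heG
        have key : G.Adj x w → w ∉ D := by
          intro hxw
          have h8 : w ∈ Nb G {x} := by
            rw [mem_Nb]
            exact ⟨by rw [Finset.mem_singleton]; exact hxw.ne.symm, x, Finset.mem_singleton_self x, hxw⟩
          rw [hx x hxD] at h8
          exact (mem_Nb.1 h8).1
        obtain ⟨_, ⟨_, _, h8 | ⟨h8, _⟩⟩ | ⟨_, _, h8 | ⟨h8, _⟩⟩⟩ := heG
        · exact key h8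
        · exact absurd (h8 ▸ hxD) huD
        · exact key h8.symm
        · change w = u at h8
          rw [h8]
          exact huD
      calc (Ed (Ct G u v) D).card ≤ ((D ×ˢ Nb (Ct G u v) D).image fun p => s(p.1, p.2)).card :=
            Finset.card_le_card hEd
        _ ≤ (D ×ˢ Nb (Ct G u v) D).card := Finset.card_image_le
        _ = D.card * (Nb (Ct G u v) D).card := Finset.card_product _ _
        _ ≤ D.card * 3 := Nat.mul_le_mul_left _ h3
        _ = 3 * D.card := Nat.mul_comm _ _
    · exfalso
      have hsub' : Nb G D ⊆ Nb (Ct G u v) D := by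
        intro w hw
        exact hsub w hw (fun h => hvN (h ▸ hw))
      have := Finset.card_le_card hsub'
      omega

end Pool.Agent.JNG
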