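import Mathlib
import Pool.Agent.JNG.Defs
import Pool.Agent.JNG.CTE
import Pool.Agent.JNG.CTM
import Pool.Agent.JNG.CTL

/-!
In a minimal counterexample every edge uv with v not a terminal satisfies 3 <= card Cc.
Proof. Suppose card Cc is at most 2. Then Ct G u v with W.erase v satisfies the mass hypotheses: `ins` and
`sub` are clear; m1 by `cte`: card Ed' is at least card Ed G (W minus X) - 3, at least
3 card (W minus X) + 2 - 3 = 3 card ((W minus v) minus X) + 2; m2 is `ctm`. card (W.erase v) is less than
card W. `ih` and `ctl` give a linkage, against `nl`.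
-/

set_option autoImplicit false

namespace Pool.Agent.JNG

open SimpleGraph Pool.Agent.LNK

theorem ctr {V : Type} [Fintype V] {G : SimpleGraph V} {W : Finset V} {a a' b b' : V}
    (h : Ce G W a a' b b') {u v : V} (huv : G.Adj u v) (hv : v ∉ Xs a a' b b') :
    3 ≤ (Cc G (Xs a a' b b') u v).card := by
  classical
  by_contra hlt
  push Not at hlt
  have hvW : v ∈ W := h.ms.ins.right huv
  have huW : u ∈ W := h.ms.ins u v huv
  have hcard : (W \ Xs a a' b b').card = ((W.erase v) \ Xs a a' b b').card + 1 := by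
    have h1 : (W.erase v) \ Xs a a' b b' = (W \ Xs a a' b b').erase v := by
      ext x
      simp only [Finset.mem_sdiff, Finset.mem_erase]
      tauto
    rw [h1, Finset.card_erase_add_one]
    rw [Finset.mem_sdiff]
    exact ⟨hvW, hv⟩
  have hms : Ms (Ct G u v) (W.erase v) (Xs a a' b b') := by
    refine ⟨?_, ?_, ?_, ?_⟩
    · intro x y hxy
      unfold Ct at hxy
      rw [SimpleGraph.fromRel_adj] at hxy
      rw [Finset.mem_erase]
      obtain ⟨_, ⟨h1, h2, h3⟩ | ⟨h1, h2, h3⟩⟩ := hxy
      · refine ⟨h1, ?_⟩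
        rcases h3 with h3 | h3
        · exact h.ms.ins x y h3
        · rw [h3.1]
          exact huW
      · refine ⟨h2, ?_⟩
        rcases h3 with h3 | h3
        · exact h.ms.ins.right h3
        · exact h.ms.ins.right h3.2
    · intro x hx
      rw [Finset.mem_erase]
      exact ⟨fun h1 => hv (h1 ▸ hx), h.ms.sub hx⟩
    · have h1 := cte h.ms.ins h.ms.sub huv hv
      have h2 := h.ms.m1
      have h3 : (Cc G (Xs a a' b b') u v).card ≤ 2 := by omega
      omega
    · exact ctm h huv hv
  have hlt' : (W.erase v).card < W.card := Finset.card_erase_lt_of_mem hvW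
  obtain ⟨P, Q, hPQ⟩ := h.ih (Ct G u v) (W.erase v) a a' b b' h.ds (Or.inl hlt') hms
  obtain ⟨P', Q', hPQ'⟩ := ctl huv hv hPQ
  exact h.nl P' Q' hPQ'

end Pool.Agent.JNG
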