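import Mathlib
import Pool.Agent.JNG.Defs
import Pool.Agent.JNG.CMP
import Pool.Agent.JNG.R1T
import Pool.Agent.JNG.FOU
import Pool.Agent.JNG.CTR

/-!
A minimal counterexample has no non-terminal v of degree 4.
Proof. `fou` with D = {v}: disjoint sets P i joining the terminals x i to vertices τ i of N = Nb G {v}, each
P i meets N only in τ i and does not contain v. N has 4 elements, so N = {τ 0, .., τ 3}. By `ctr` for the edge
(τ i) v: at least 3 elements of N minus τ i (which has 3 elements) are adjacent to τ i or are terminals like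
τ i. So any two elements of N are adjacent or both are terminals. If a terminal x j is in N then, as
x j in P j meets N only in τ j, x j = τ j. Hence:
if τ 0 and τ 1 are adjacent: P = P 0 + P 1 joins a to a', Q = P 2 + P 3 + {v} joins b to b'. If τ 2, τ 3 are
adjacent: symmetric. Otherwise all τ i are terminals, τ i is a terminal in N, so N is the set of all
terminals (N has 4 elements). Then by m1 (W minus Xs is not {v}, because only 4 edges meet {v}) there is
another non-terminal x; let D1 be the component of x in (W minus Xs) minus v (`comp`). Nb G D1 is inside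
Nb G ((W minus Xs) minus v), inside Xs (v is only adjacent to terminals), and has at least 4 elements, so
Nb G D1 = Xs. So insert a (insert a' D1) joins a to a' and {b, v, b'} joins b to b'. Against `nl`.
-/

set_option autoImplicit false

namespace Pool.Agent.JNG

open SimpleGraph Pool.Agent.LNK

theorem fi4 {V : Type} [Fintype V] {G : SimpleGraph V} {W : Finset V} {a a' b b' : V}
    (h : Ce G W a a' b b') {v : V} (hvW : v ∈ W) (hv : v ∉ Xs a a' b b') : (Nb G {v}).card ≠ 4 := by
  classical
  intro h4
  have hf := r1 h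
  set X := Xs a a' b b' with hX
  set N := Nb G {v} with hN
  have hvN : ∀ u, u ∈ N ↔ G.Adj v u := by
    intro u
    rw [hN, mem_Nb]
    constructor
    · rintro ⟨_, w, hw, hwu⟩
      rw [Finset.mem_singleton] at hw
      rw [← hw]; exact hwu
    · intro hvu
      refine ⟨?_, v, Finset.mem_singleton_self v, hvu⟩
      rw [Finset.mem_singleton]
      intro he
      rw [he] at hvu
      exact G.loopless.irrefl _ hvu
  obtain ⟨P, τ, hF⟩ := fou (D := {v}) h.ms.ins h.ds (fun v hv => h.ms.sub hv) hf
    (Finset.singleton_subset_iff.2 hvW) (fun u hu => by rw [Finset.mem_singleton.1 hu]; exact hv)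
    (Finset.singleton_nonempty v)
  have hτ : Function.Injective τ := by
    intro i j hij
    by_contra hne'
    exact hF.dj i j hne' (τ i) (hF.t i) (by rw [hij]; exact hF.t j)
  have himg : Finset.univ.image τ = N := by
    apply Finset.eq_of_subset_of_card_le
    · intro u hu
      rw [Finset.mem_image] at hu
      obtain ⟨i, _, rfl⟩ := hu
      exact hF.tn i
    · rw [h4, Finset.card_image_of_injective _ hτ, Finset.card_univ, Fintype.card_fin]
  have hvτ : ∀ i, G.Adj v (τ i) := fun i => (hvN _).1 (hF.tn i)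
  have hvP : ∀ i, v ∉ P i := fun i hi => hF.nd i v hi (Finset.mem_singleton_self v)
  -- two neighbours are adjacent or both terminals
  have key : ∀ i j, i ≠ j → G.Adj (τ i) (τ j) ∨ (τ i ∈ X ∧ τ j ∈ X) := by
    intro i j hij
    have h3 := ctr h (hvτ i).symm hv
    have hsub : Cc G X (τ i) v ⊆ N.erase (τ i) := by
      intro u hu
      unfold Cc at hu
      rw [Finset.mem_filter] at hu
      rw [Finset.mem_erase]
      exact ⟨hu.2.1, hu.1⟩
    have hcard : (N.erase (τ i)).card = 3 := by
      rw [Finset.card_erase_of_mem (hF.tn i), h4]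
    have heq : Cc G X (τ i) v = N.erase (τ i) :=
      Finset.eq_of_subset_of_card_le hsub (by rw [hcard]; exact h3)
    have hj : τ j ∈ Cc G X (τ i) v := by
      rw [heq, Finset.mem_erase]
      exact ⟨fun he => hij (hτ he).symm, hF.tn j⟩
    unfold Cc at hj
    exact (Finset.mem_filter.1 hj).2.2
  have hj : ∀ i, Jn G (P i : Set V) (xx a a' b b' i) (τ i) := hF.jn
  have hPu : ∀ i j k l : Fin 4, ∀ u, i ≠ k → i ≠ l → j ≠ k → j ≠ l →
      u ∈ P i ∪ P j → u ∉ P k ∪ P l := by
    intro i j k l u h1 h2 h3 h5 hu hu'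
    rw [Finset.mem_union] at hu hu'
    rcases hu with hu | hu <;> rcases hu' with hu' | hu'
    · exact hF.dj i k h1 u hu hu'
    · exact hF.dj i l h2 u hu hu'
    · exact hF.dj j k h3 u hu hu'
    · exact hF.dj j l h5 u hu hu'
  -- paths through an edge between the ends, or through `v`
  have join1 : ∀ i j : Fin 4, G.Adj (τ i) (τ j) →
      Jn G ((P i ∪ P j : Finset V) : Set V) (xx a a' b b' i) (xx a a' b b' j) := by
    intro i j hij
    have s1 : (P i : Set V) ⊆ ((P i ∪ P j : Finset V) : Set V) := by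
      rw [Finset.coe_union]; exact Set.subset_union_left
    have s2 : (P j : Set V) ⊆ ((P i ∪ P j : Finset V) : Set V) := by
      rw [Finset.coe_union]; exact Set.subset_union_right
    exact (((hj i).mono s1).trans (Jn.of_adj hij (s1 (hF.t i)) (s2 (hF.t j)))).trans
      ((hj j).mono s2).symm
  have join2 : ∀ i j : Fin 4,
      Jn G ((insert v (P i ∪ P j) : Finset V) : Set V) (xx a a' b b' i) (xx a a' b b' j) := by
    intro i j
    have s1 : (P i : Set V) ⊆ ((insert v (P i ∪ P j) : Finset V) : Set V) := by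
      intro u hu
      rw [Finset.mem_coe] at hu ⊢
      exact Finset.mem_insert_of_mem (Finset.mem_union_left _ hu)
    have s2 : (P j : Set V) ⊆ ((insert v (P i ∪ P j) : Finset V) : Set V) := by
      intro u hu
      rw [Finset.mem_coe] at hu ⊢
      exact Finset.mem_insert_of_mem (Finset.mem_union_right _ hu)
    have s3 : v ∈ ((insert v (P i ∪ P j) : Finset V) : Set V) := by
      rw [Finset.mem_coe]
      exact Finset.mem_insert_self _ _
    exact ((((hj i).mono s1).trans (Jn.of_adj (hvτ i).symm (s1 (hF.t i)) s3)).trans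
      (Jn.of_adj (hvτ j) s3 (s2 (hF.t j)))).trans ((hj j).mono s2).symm
  by_cases h01 : G.Adj (τ 0) (τ 1)
  · refine h.nl (P 0 ∪ P 1) (insert v (P 2 ∪ P 3)) ⟨fun u hu hu' => ?_, join1 0 1 h01, join2 2 3⟩
    rw [Finset.mem_insert] at hu'
    rcases hu' with rfl | hu'
    · rw [Finset.mem_union] at hu
      exact hu.elim (hvP 0) (hvP 1)
    · exact hPu 0 1 2 3 u (by decide) (by decide) (by decide) (by decide) hu hu'
  by_cases h23 : G.Adj (τ 2) (τ 3)
  · refine h.nl (insert v (P 0 ∪ P 1)) (P 2 ∪ P 3) ⟨fun u hu hu' => ?_, join2 0 1, join1 2 3 h23⟩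
    rw [Finset.mem_insert] at hu
    rcases hu with rfl | hu
    · rw [Finset.mem_union] at hu'
      exact hu'.elim (hvP 2) (hvP 3)
    · exact hPu 0 1 2 3 u (by decide) (by decide) (by decide) (by decide) hu hu'
  have t01 := (key 0 1 (by decide)).resolve_left h01
  have t23 := (key 2 3 (by decide)).resolve_left h23
  have hNX : N = X := by
    apply Finset.eq_of_subset_of_card_le
    · rw [← himg]
      intro u hu
      rw [Finset.mem_image] at hu
      obtain ⟨i, _, rfl⟩ := hu
      fin_cases i
      · exact t01.1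
      · exact t01.2
      · exact t23.1
      · exact t23.2
    · rw [h4, hX, card_Xs h.ds]
  have hvWX : v ∈ W \ X := Finset.mem_sdiff.2 ⟨hvW, hv⟩
  -- another vertex outside the terminals
  obtain ⟨x, hx, hxv⟩ : ∃ x ∈ W \ X, x ≠ v := by
    by_contra hcon
    push Not at hcon
    have h1 : W \ X = {v} := by
      ext u
      rw [Finset.mem_singleton]
      exact ⟨fun hu => hcon u hu, fun hu => by rw [hu]; exact hvWX⟩
    have h2 := h.ms.m1
    rw [← hX, h1, Finset.card_singleton] at h2
    have h3 : Ed G {v} ⊆ N.image (fun u => s(v, u)) := by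
      intro e he
      obtain ⟨he1, u, hu, hue⟩ := mem_Ed.1 he
      rw [Finset.mem_singleton] at hu
      rw [hu] at hue
      obtain ⟨w, rfl⟩ := hue
      rw [SimpleGraph.mem_edgeSet] at he1
      rw [Finset.mem_image]
      exact ⟨w, (hvN w).2 he1, rfl⟩
    have h5 := (Finset.card_le_card h3).trans Finset.card_image_le
    omega
  have hxD : x ∈ (W \ X).erase v := Finset.mem_erase.2 ⟨hxv, hx⟩
  obtain ⟨D1, hD1, hxD1, hcD1, hNb⟩ := comp G ((W \ X).erase v) x hxD
  have hD1W : ∀ u ∈ D1, u ≠ v ∧ u ∈ W ∧ u ∉ X := by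
    intro u hu
    have h1 := hD1 hu
    rw [Finset.mem_erase, Finset.mem_sdiff] at h1
    exact ⟨h1.1, h1.2.1, h1.2.2⟩
  have hNbX : Nb G D1 ⊆ X := by
    intro w hw
    have hw' := hNb hw
    obtain ⟨h1, u, hu, huw⟩ := mem_Nb.1 hw'
    by_contra hwX
    have hwW : w ∈ W := h.ms.ins.right huw
    have hwv : w = v := by
      by_contra hwv
      exact h1 (Finset.mem_erase.2 ⟨hwv, Finset.mem_sdiff.2 ⟨hwW, hwX⟩⟩)
    rw [hwv] at huw
    have huN : u ∈ N := (hvN u).2 huw.symm
    rw [hNX] at huN
    exact (Finset.mem_sdiff.1 (Finset.mem_erase.1 hu).2).2 huN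
  have hge := hf D1 (fun u hu => (hD1W u hu).2.1) hcD1.1 (fun u hu => (hD1W u hu).2.2)
  have hNbeq : Nb G D1 = X :=
    Finset.eq_of_subset_of_card_le hNbX (by rw [hX, card_Xs h.ds]; exact hge)
  have haX : a ∈ X := mem_Xs.2 (Or.inl rfl)
  have haX' : a' ∈ X := mem_Xs.2 (Or.inr (Or.inl rfl))
  have hbX : b ∈ X := mem_Xs.2 (Or.inr (Or.inr (Or.inl rfl)))
  have hbX' : b' ∈ X := mem_Xs.2 (Or.inr (Or.inr (Or.inr rfl)))
  have hvb : G.Adj v b := (hvN b).1 (by rw [hNX]; exact hbX)
  have hvb' : G.Adj v b' := (hvN b').1 (by rw [hNX]; exact hbX')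
  obtain ⟨_, u, hu, hua⟩ := mem_Nb.1 (show a ∈ Nb G D1 by rw [hNbeq]; exact haX)
  obtain ⟨_, u', hu', hua'⟩ := mem_Nb.1 (show a' ∈ Nb G D1 by rw [hNbeq]; exact haX')
  refine h.nl (insert a (insert a' D1)) {b, v, b'} ⟨?_, ?_, ?_⟩
  · intro z hz hz'
    simp only [Finset.mem_insert, Finset.mem_singleton] at hz hz'
    have hva : v ≠ a := fun he => hv (by rw [he]; exact haX)
    have hva' : v ≠ a' := fun he => hv (by rw [he]; exact haX')
    rcases hz with rfl | rfl | hz
    · rcases hz' with h1 | h1 | h1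
      · exact h.ds.h2 h1
      · exact hva h1.symm
      · exact h.ds.h3 h1
    · rcases hz' with h1 | h1 | h1
      · exact h.ds.h4 h1
      · exact hva' h1.symm
      · exact h.ds.h5 h1
    · obtain ⟨h1, h2, h3⟩ := hD1W z hz
      rcases hz' with rfl | rfl | rfl
      · exact h3 hbX
      · exact h1 rfl
      · exact h3 hbX'
  · have s1 : (D1 : Set V) ⊆ ((insert a (insert a' D1) : Finset V) : Set V) := by
      intro z hz
      rw [Finset.mem_coe] at hz ⊢
      exact Finset.mem_insert_of_mem (Finset.mem_insert_of_mem hz)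
    have s2 : a ∈ ((insert a (insert a' D1) : Finset V) : Set V) := by
      rw [Finset.mem_coe]; exact Finset.mem_insert_self _ _
    have s3 : a' ∈ ((insert a (insert a' D1) : Finset V) : Set V) := by
      rw [Finset.mem_coe]; exact Finset.mem_insert_of_mem (Finset.mem_insert_self _ _)
    exact ((Jn.of_adj hua.symm s2 (s1 hu)).trans ((hcD1.2 u hu u' hu').mono s1)).trans
      (Jn.of_adj hua' (s1 hu') s3)
  · have s1 : b ∈ (({b, v, b'} : Finset V) : Set V) := by simp
    have s2 : v ∈ (({b, v, b'} : Finset V) : Set V) := by simp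
    have s3 : b' ∈ (({b, v, b'} : Finset V) : Set V) := by simp
    exact (Jn.of_adj hvb.symm s1 s2).trans (Jn.of_adj hvb' s2 s3)

end Pool.Agent.JNG
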