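import Mathlib
import Pool.Agent.JNG.Defs
import Pool.Agent.JNG.R1T
import Pool.Agent.JNG.FOU
import Pool.Agent.JNG.CTR

/-!
A minimal counterexample has no non-terminal v of degree 5.
Proof. `fou` with D = {v}: disjoint sets P i joining the terminals x i to distinct vertices τ i of N = Nb G {v},
each P i meets N only in τ i and does not contain v. N has five elements τ 0, .., τ 3, y. y is not a terminal
(if y = x j then y is in P j and N, so y = τ j). y is in no P i. By `ctr` for the edge y v: Cc has at least 3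
elements; b in Cc is in N minus y, so some τ i, and adjacent to y (y is not a terminal). So y is adjacent to
at least three of the τ i, hence to τ 0 and τ 1, or to τ 2 and τ 3. In the first case
P = P 0 + P 1 + {y}, Q = P 2 + P 3 + {v} (v is adjacent to τ 2 and τ 3). The second case is symmetric.
Against `nl`.
-/

set_option autoImplicit false

namespace Pool.Agent.JNG

open SimpleGraph Pool.Agent.LNK

private theorem three_of_four : ∀ S : Finset (Fin 4), 3 ≤ S.card → (0 ∈ S ∧ 1 ∈ S) ∨ (2 ∈ S ∧ 3 ∈ S) := by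
  decide

open Classical in
private theorem fo_link {V : Type} [Fintype V] {G : SimpleGraph V} {D : Finset V} {a a' b b' : V}
    {P : Fin 4 → Finset V} {τ : Fin 4 → V} (hF : Fo G D a a' b b' P τ) {c d : V} (hcd : c ≠ d)
    (hc0 : G.Adj c (τ 0)) (hc1 : G.Adj c (τ 1)) (hd2 : G.Adj d (τ 2)) (hd3 : G.Adj d (τ 3))
    (hc2 : c ∉ P 2) (hc3 : c ∉ P 3) (hd0 : d ∉ P 0) (hd1 : d ∉ P 1) :
    Lkg G a a' b b' (P 0 ∪ P 1 ∪ {c}) (P 2 ∪ P 3 ∪ {d}) := by
  refine ⟨?_, ?_, ?_⟩
  · intro w hw hw'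
    simp only [Finset.mem_union, Finset.mem_singleton] at hw hw'
    rcases hw with (hw | hw) | hw <;> rcases hw' with (hw' | hw') | hw'
    · exact hF.dj 0 2 (by decide) w hw hw'
    · exact hF.dj 0 3 (by decide) w hw hw'
    · rw [hw'] at hw; exact hd0 hw
    · exact hF.dj 1 2 (by decide) w hw hw'
    · exact hF.dj 1 3 (by decide) w hw hw'
    · rw [hw'] at hw; exact hd1 hw
    · rw [hw] at hw'; exact hc2 hw'
    · rw [hw] at hw'; exact hc3 hw'
    · exact hcd (hw.symm.trans hw')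
  · have s0 : ((P 0 : Finset V) : Set V) ⊆ ((P 0 ∪ P 1 ∪ {c} : Finset V) : Set V) := by
      intro w hw
      rw [Finset.mem_coe] at hw ⊢
      exact Finset.mem_union_left _ (Finset.mem_union_left _ hw)
    have s1 : ((P 1 : Finset V) : Set V) ⊆ ((P 0 ∪ P 1 ∪ {c} : Finset V) : Set V) := by
      intro w hw
      rw [Finset.mem_coe] at hw ⊢
      exact Finset.mem_union_left _ (Finset.mem_union_right _ hw)
    have hc : c ∈ ((P 0 ∪ P 1 ∪ {c} : Finset V) : Set V) := by
      rw [Finset.mem_coe]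
      exact Finset.mem_union_right _ (Finset.mem_singleton_self c)
    have j0 : Jn G ((P 0 ∪ P 1 ∪ {c} : Finset V) : Set V) a (τ 0) := (hF.jn 0).mono s0
    have j1 : Jn G ((P 0 ∪ P 1 ∪ {c} : Finset V) : Set V) a' (τ 1) := (hF.jn 1).mono s1
    have k0 : Jn G ((P 0 ∪ P 1 ∪ {c} : Finset V) : Set V) c (τ 0) :=
      Jn.of_adj hc0 hc (s0 (Finset.mem_coe.2 (hF.t 0)))
    have k1 : Jn G ((P 0 ∪ P 1 ∪ {c} : Finset V) : Set V) c (τ 1) :=
      Jn.of_adj hc1 hc (s1 (Finset.mem_coe.2 (hF.t 1)))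
    exact (j0.trans k0.symm).trans (k1.trans j1.symm)
  · have s2 : ((P 2 : Finset V) : Set V) ⊆ ((P 2 ∪ P 3 ∪ {d} : Finset V) : Set V) := by
      intro w hw
      rw [Finset.mem_coe] at hw ⊢
      exact Finset.mem_union_left _ (Finset.mem_union_left _ hw)
    have s3 : ((P 3 : Finset V) : Set V) ⊆ ((P 2 ∪ P 3 ∪ {d} : Finset V) : Set V) := by
      intro w hw
      rw [Finset.mem_coe] at hw ⊢
      exact Finset.mem_union_left _ (Finset.mem_union_right _ hw)
    have hd : d ∈ ((P 2 ∪ P 3 ∪ {d} : Finset V) : Set V) := by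
      rw [Finset.mem_coe]
      exact Finset.mem_union_right _ (Finset.mem_singleton_self d)
    have j2 : Jn G ((P 2 ∪ P 3 ∪ {d} : Finset V) : Set V) b (τ 2) := (hF.jn 2).mono s2
    have j3 : Jn G ((P 2 ∪ P 3 ∪ {d} : Finset V) : Set V) b' (τ 3) := (hF.jn 3).mono s3
    have k2 : Jn G ((P 2 ∪ P 3 ∪ {d} : Finset V) : Set V) d (τ 2) :=
      Jn.of_adj hd2 hd (s2 (Finset.mem_coe.2 (hF.t 2)))
    have k3 : Jn G ((P 2 ∪ P 3 ∪ {d} : Finset V) : Set V) d (τ 3) :=
      Jn.of_adj hd3 hd (s3 (Finset.mem_coe.2 (hF.t 3)))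
    exact (j2.trans k2.symm).trans (k3.trans j3.symm)

theorem fi5 {V : Type} [Fintype V] {G : SimpleGraph V} {W : Finset V} {a a' b b' : V}
    (h : Ce G W a a' b b') {v : V} (hvW : v ∈ W) (hv : v ∉ Xs a a' b b') : (Nb G {v}).card ≠ 5 := by
  classical
  intro hcard
  obtain ⟨P, τ, hF⟩ := fou (D := {v}) h.ms.ins h.ds (fun x hx => h.ms.sub hx) (r1 h)
    (Finset.singleton_subset_iff.2 hvW) (by
      intro w hw
      rw [Finset.mem_singleton] at hw
      rw [hw]
      exact hv) (Finset.singleton_nonempty v)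
  have hτ : Function.Injective τ := by
    intro i j hij
    by_contra hne
    exact hF.dj i j hne (τ i) (hF.t i) (by rw [hij]; exact hF.t j)
  have h1 : Finset.univ.image τ ⊆ Nb G {v} := by
    intro w hw
    obtain ⟨i, _, rfl⟩ := Finset.mem_image.1 hw
    exact hF.tn i
  have h2 : (Finset.univ.image τ).card = 4 := by
    rw [Finset.card_image_of_injective _ hτ, Finset.card_univ, Fintype.card_fin]
  obtain ⟨y, hy⟩ := Finset.card_eq_one.1 (show (Nb G {v} \ Finset.univ.image τ).card = 1 by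
    rw [Finset.card_sdiff_of_subset h1, hcard, h2])
  have hy1 : y ∈ Nb G {v} \ Finset.univ.image τ := by
    rw [hy]; exact Finset.mem_singleton_self y
  rw [Finset.mem_sdiff] at hy1
  obtain ⟨hyN, hyτ⟩ := hy1
  have hyτ' : ∀ i, y ≠ τ i := fun i hi => hyτ (Finset.mem_image.2 ⟨i, Finset.mem_univ i, hi.symm⟩)
  have hyP : ∀ i, y ∉ P i := fun i hi => hyτ' i (hF.un i y hi hyN)
  have hyX : y ∉ Xs a a' b b' := by
    intro hyX
    rcases mem_Xs.1 hyX with h3 | h3 | h3 | h3
    · exact hyP 0 (by rw [h3]; exact hF.x 0)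
    · exact hyP 1 (by rw [h3]; exact hF.x 1)
    · exact hyP 2 (by rw [h3]; exact hF.x 2)
    · exact hyP 3 (by rw [h3]; exact hF.x 3)
  have adjv : ∀ {w : V}, w ∈ Nb G {v} → G.Adj v w := by
    intro w hw
    obtain ⟨_, u, hu, huw⟩ := mem_Nb.1 hw
    rw [Finset.mem_singleton] at hu
    rw [hu] at huw
    exact huw
  have hyv : G.Adj y v := (adjv hyN).symm
  have h3 := ctr h hyv hv
  have h4 : Cc G (Xs a a' b b') y v
      ⊆ (Finset.univ.filter (fun i : Fin 4 => G.Adj y (τ i))).image τ := by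
    intro c hc
    unfold Cc at hc
    rw [Finset.mem_filter] at hc
    obtain ⟨hc1, hc2, hc3⟩ := hc
    have hc4 : G.Adj y c := by
      rcases hc3 with hc3 | hc3
      · exact hc3
      · exact absurd hc3.1 hyX
    have hc5 : c ∈ Finset.univ.image τ := by
      by_contra hcon
      have h5 : c ∈ Nb G {v} \ Finset.univ.image τ := Finset.mem_sdiff.2 ⟨hc1, hcon⟩
      rw [hy, Finset.mem_singleton] at h5
      exact hc2 h5
    obtain ⟨i, _, rfl⟩ := Finset.mem_image.1 hc5
    exact Finset.mem_image.2 ⟨i, Finset.mem_filter.2 ⟨Finset.mem_univ i, hc4⟩, rfl⟩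
  have h5 := h3.trans ((Finset.card_le_card h4).trans Finset.card_image_le)
  have hvP : ∀ i, v ∉ P i := fun i hi => hF.nd i v hi (Finset.mem_singleton_self v)
  have hvy : y ≠ v := hyv.ne
  rcases three_of_four _ h5 with ⟨h6, h7⟩ | ⟨h6, h7⟩
  · rw [Finset.mem_filter] at h6 h7
    exact h.nl _ _ (fo_link hF hvy h6.2 h7.2 (adjv (hF.tn 2)) (adjv (hF.tn 3)) (hyP 2) (hyP 3)
      (hvP 0) (hvP 1))
  · rw [Finset.mem_filter] at h6 h7
    exact h.nl _ _ (fo_link hF hvy.symm (adjv (hF.tn 0)) (adjv (hF.tn 1)) h6.2 h7.2 (hvP 2) (hvP 3)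
      (hyP 0) (hyP 1))

end Pool.Agent.JNG
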