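import Mathlib
import Pool.Agent.JNG.Defs
import Pool.Agent.JNG.CMP
import Pool.Agent.JNG.R1T
import Pool.Agent.JNG.TIG

/-!
In a minimal counterexample exactly 3 n + 2 edges meet the set of the n non-terminals.
Proof. Suppose card (Ed G (W minus Xs)) is at least 3 n + 3. Then n >= 1 (no edges meet the empty set), so
there are at least 6 such edges. At most four of them are of the form x v with x a terminal and v the only
neighbour of x outside Xs (at most one for each x). Choose e = s(u, v) in Ed G (W minus Xs) not of this form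
(for either end). Let G' = G.deleteEdges {e}, the same W. Then card (Ed G' W) is less than card (Ed G W)
(e meets W), m1 holds for G' (one edge less), ins and sub hold. We show m2 for G'; then `ih` (second
alternative) gives a linkage of G', hence of G (Jn.of_le), against `nl`.
m2: let D be inside W minus Xs, nonempty, card (Nb G' D) at most 3. If e has both ends in D or no end in D,
then Nb G D = Nb G' D, against r1. So e = uv with u in D, v not in D, and Nb G D is inside
insert v (Nb G' D); by r1 v is not in Nb G' D, so u is the only neighbour of v in D, and card (Nb G D) = 4.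
If D = W minus Xs, then v is a terminal (v is in W by ins, not in D) with only neighbour u outside Xs,
against the choice of e. Otherwise let x be in D and D1 its component in D (`comp`, in G): `tig` gives
D1 = {x} (D1 is not W minus Xs because D1 is inside D and D is properly inside W minus Xs), and by r1
Nb G {x} = Nb G D contains v, so x = u. So D = {u}, and u has exactly four neighbours in G, three in G':
card (Ed G' {u}) = 3 = 3 card D.
-/

set_option autoImplicit false

namespace Pool.Agent.JNG

open SimpleGraph Pool.Agent.LNK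

open Classical in
theorem dle {V : Type} [Fintype V] {G : SimpleGraph V} {W : Finset V} {a a' b b' : V}
    (h : Ce G W a a' b b') :
    (Ed G (W \ Xs a a' b b')).card = 3 * (W \ Xs a a' b b').card + 2 := by
  have hm1 := h.ms.m1
  have hm2 := h.ms.m2
  have hins := h.ms.ins
  have hsub := h.ms.sub
  have hr1 := r1 h
  have hcX := card_Xs h.ds
  have hih := h.ih
  have hnl := h.nl
  have htig : ∀ D : Finset V, D ⊆ W → (∀ v ∈ D, v ∉ Xs a a' b b') → Cn G D → (Nb G D).card ≤ 4 →
      D ≠ W \ Xs a a' b b' → D.card = 1 := fun D h1 h2 h3 h4 h5 => tig h h1 h2 h3 h4 h5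
  have hds := h.ds
  set X := Xs a a' b b' with hX
  set Z := W \ X with hZ
  by_contra hne
  have hge : 3 * Z.card + 3 ≤ (Ed G Z).card := by omega
  have memZ : ∀ v, v ∈ Z ↔ v ∈ W ∧ v ∉ X := by
    intro v
    rw [hZ, Finset.mem_sdiff]
  have hZne : Z.Nonempty := by
    rw [Finset.nonempty_iff_ne_empty]
    intro h0
    have h1 : Ed G Z = ∅ := by
      rw [h0]
      ext e
      rw [mem_Ed]
      simp
    rw [h1, Finset.card_empty] at hge
    omega
  have hZc : 1 ≤ Z.card := Finset.card_pos.2 hZne
  -- choice of the edge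
  obtain ⟨f, hf⟩ : ∃ f : V → Sym2 V, ∀ x, (∃ v ∈ Z, G.Adj x v) →
      ∃ v ∈ Z, G.Adj x v ∧ f x = s(x, v) := by
    refine ⟨fun x => if hx : ∃ v ∈ Z, G.Adj x v then s(x, Classical.choose hx) else s(x, x), ?_⟩
    intro x hx
    refine ⟨Classical.choose hx, (Classical.choose_spec hx).1, (Classical.choose_spec hx).2, ?_⟩
    simp only [dif_pos hx]
  have hcf : (X.image f).card ≤ 4 := Finset.card_image_le.trans (by rw [hcX])
  obtain ⟨e, heE, hef⟩ : ∃ e ∈ Ed G Z, e ∉ X.image f := by
    by_contra hcon
    push Not at hcon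
    have h1 := Finset.card_le_card (s := Ed G Z) (t := X.image f) hcon
    omega
  obtain ⟨heG, u, huZ, hue⟩ := mem_Ed.1 heE
  obtain ⟨v, rfl⟩ : ∃ v, e = s(u, v) := hue
  have huv : G.Adj u v := by simpa using heG
  have hv : v ∈ X → ∃ u' ∈ Z, u' ≠ u ∧ G.Adj v u' := by
    intro hvX
    obtain ⟨u', hu'Z, hu', hfv⟩ := hf v ⟨u, huZ, huv.symm⟩
    refine ⟨u', hu'Z, ?_, hu'⟩
    rintro rfl
    apply hef
    rw [Finset.mem_image]
    exact ⟨v, hvX, by rw [hfv, Sym2.eq_swap]⟩
  set G' := G.deleteEdges {s(u, v)} with hG'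
  have hadj : ∀ x y, G'.Adj x y ↔ G.Adj x y ∧ s(x, y) ≠ s(u, v) := by
    intro x y
    rw [hG', SimpleGraph.deleteEdges_adj, Set.mem_singleton_iff]
  have hedge : ∀ e, e ∈ G'.edgeSet ↔ e ∈ G.edgeSet ∧ e ≠ s(u, v) := by
    intro e
    rw [hG', SimpleGraph.edgeSet_deleteEdges, Set.mem_sdiff, Set.mem_singleton_iff]
  have hle : G' ≤ G := fun x y hxy => ((hadj x y).1 hxy).1
  have hlt : (Ed G' W).card < (Ed G W).card := by
    apply Finset.card_lt_card
    rw [Finset.ssubset_iff_subset_ne]
    constructor
    · intro e he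
      rw [mem_Ed] at he ⊢
      exact ⟨((hedge e).1 he.1).1, he.2⟩
    · intro heq
      have h1 : s(u, v) ∈ Ed G W := mem_Ed.2 ⟨heG, u, ((memZ u).1 huZ).1, Sym2.mem_mk_left u v⟩
      rw [← heq, mem_Ed, hedge] at h1
      exact h1.1.2 rfl
  have hm1' : 3 * Z.card + 2 ≤ (Ed G' Z).card := by
    have h1 : Ed G Z ⊆ insert s(u, v) (Ed G' Z) := by
      intro e he
      rw [Finset.mem_insert]
      by_cases h2 : e = s(u, v)
      · exact Or.inl h2
      · rw [mem_Ed] at he
        exact Or.inr (mem_Ed.2 ⟨(hedge e).2 ⟨he.1, h2⟩, he.2⟩)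
    have h2 := Finset.card_le_card h1
    have h3 := Finset.card_insert_le s(u, v) (Ed G' Z)
    omega
  have hm2' : ∀ D ⊆ Z, (Nb G' D).card ≤ 3 → (Ed G' D).card ≤ 3 * D.card := by
    intro D hDZ hD3
    rcases D.eq_empty_or_nonempty with h0 | hDne
    · have h1 : Ed G' D = ∅ := by
        rw [h0]
        ext e
        rw [mem_Ed]
        simp
      rw [h1, Finset.card_empty]
      exact Nat.zero_le _
    have hDW : D ⊆ W := fun x hx => ((memZ x).1 (hDZ hx)).1
    have hDX : ∀ x ∈ D, x ∉ X := fun x hx => ((memZ x).1 (hDZ hx)).2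
    have h4 := hr1 D hDW hDne hDX
    -- a lost neighbour
    obtain ⟨w, hwN, hwN'⟩ : ∃ w ∈ Nb G D, w ∉ Nb G' D := by
      by_contra hcon
      push Not at hcon
      have h5 := Finset.card_le_card (s := Nb G D) (t := Nb G' D) hcon
      omega
    -- properties of lost neighbours
    have lost : ∀ w ∈ Nb G D, w ∉ Nb G' D → ∀ z ∈ D, G.Adj z w → s(z, w) = s(u, v) := by
      intro w hw hw' z hz hzw
      by_contra h5
      exact hw' (mem_Nb.2 ⟨(mem_Nb.1 hw).1, z, hz, (hadj z w).2 ⟨hzw, h5⟩⟩)
    obtain ⟨hwD, z, hzD, hzw⟩ := mem_Nb.1 hwN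
    have hzwe := lost w hwN hwN' z hzD hzw
    have huniq : ∀ z' ∈ D, G.Adj z' w → z' = z := by
      intro z' hz' hz'w
      have h5 := lost w hwN hwN' z' hz' hz'w
      rw [← hzwe, Sym2.eq_iff] at h5
      rcases h5 with ⟨h6, _⟩ | ⟨h6, h7⟩
      · exact h6
      · exact h6.trans h7
    have hsubN : Nb G D ⊆ insert w (Nb G' D) := by
      intro w' hw'
      rw [Finset.mem_insert]
      by_cases h5 : w' ∈ Nb G' D
      · exact Or.inr h5
      · left
        obtain ⟨hw'D, z', hz'D, hz'w'⟩ := mem_Nb.1 hw'
        have h6 := lost w' hw' h5 z' hz'D hz'w'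
        rw [← hzwe, Sym2.eq_iff] at h6
        rcases h6 with ⟨_, h7⟩ | ⟨h7, _⟩
        · exact h7
        · rw [h7] at hz'D
          exact absurd hz'D hwD
    have hD4 : (Nb G D).card ≤ 4 := by
      have h5 := Finset.card_le_card hsubN
      have h6 := Finset.card_insert_le w (Nb G' D)
      omega
    by_cases hDeq : D = Z
    · exfalso
      have hwZ : w ∉ Z := by
        rw [← hDeq]
        exact hwD
      have hwW : w ∈ W := hins.right hzw
      have hwX : w ∈ X := by
        by_contra h5
        exact hwZ ((memZ w).2 ⟨hwW, h5⟩)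
      rw [Sym2.eq_iff] at hzwe
      rcases hzwe with ⟨h5, h6⟩ | ⟨_, h6⟩
      · rw [h6] at hwX
        obtain ⟨u', hu'Z, hu'u, hvu'⟩ := hv hwX
        apply hu'u
        rw [← h5]
        refine huniq u' ?_ ?_
        · rw [hDeq]
          exact hu'Z
        · rw [h6]
          exact hvu'.symm
      · rw [h6] at hwZ
        exact hwZ huZ
    · have hall : ∀ x ∈ D, x = z := by
        intro x hx
        obtain ⟨D1, hD1, hxD1, hcn, hN1⟩ := comp G D x hx
        have h5 : (Nb G D1).card ≤ 4 := (Finset.card_le_card hN1).trans hD4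
        have h6 : D1 ≠ Z := by
          intro h7
          apply hDeq
          apply Finset.Subset.antisymm hDZ
          rw [← h7]
          exact hD1
        have h7 := htig D1 (hD1.trans hDW) (fun y hy => hDX y (hD1 hy)) hcn h5 h6
        obtain ⟨y, hy⟩ := Finset.card_eq_one.1 h7
        have h8 : y = x := by
          rw [hy, Finset.mem_singleton] at hxD1
          exact hxD1.symm
        rw [h8] at hy
        have h9 := hr1 D1 (hD1.trans hDW) ⟨x, hxD1⟩ (fun y hy => hDX y (hD1 hy))
        have h10 : Nb G D1 = Nb G D := Finset.eq_of_subset_of_card_le hN1 (by omega)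
        have h11 : w ∈ Nb G D1 := by
          rw [h10]
          exact hwN
        obtain ⟨_, y', hy', hy'w⟩ := mem_Nb.1 h11
        rw [hy, Finset.mem_singleton] at hy'
        rw [hy'] at hy'w
        exact huniq x hx hy'w
      have hDs : D = {z} := by
        ext x
        rw [Finset.mem_singleton]
        constructor
        · exact hall x
        · rintro rfl
          exact hzD
      have hEd : Ed G' D ⊆ (Nb G' D).image (fun y => s(z, y)) := by
        intro e he
        obtain ⟨heG', x, hxD, hxe⟩ := mem_Ed.1 he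
        have hxz := hall x hxD
        obtain ⟨y, rfl⟩ : ∃ y, e = s(x, y) := hxe
        have hxy : G'.Adj x y := by simpa using heG'
        rw [Finset.mem_image]
        refine ⟨y, mem_Nb.2 ⟨?_, x, hxD, hxy⟩, by rw [hxz]⟩
        intro hyD
        have hyz := hall y hyD
        rw [hxz, hyz] at hxy
        exact hxy.ne rfl
      have h5 := (Finset.card_le_card hEd).trans Finset.card_image_le
      have h6 : D.card = 1 := by
        rw [hDs, Finset.card_singleton]
      omega
  obtain ⟨P, Q, hPQ⟩ := hih G' W a a' b b' hds (Or.inr ⟨rfl, hlt⟩)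
    ⟨fun x y hxy => hins x y (hle hxy), hsub, hm1', hm2'⟩
  exact hnl P Q ⟨hPQ.dj, Jn.of_le hle hPQ.jp, Jn.of_le hle hPQ.jq⟩

end Pool.Agent.JNG
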