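import Mathlib
import Pool.Agent.JNG.Defs
import Pool.Agent.JNG.R1T
import Pool.Agent.JNG.CTR

/-!
In a minimal counterexample at least five edges join terminals and non-terminals.
Proof. Let X = Xs, D0 = W minus X, and for a terminal x let N x be the set of neighbours of x in D0.
(1) N x is not empty: otherwise Nb G D0 is inside X minus x, card at most 3, so m2 gives
card (Ed G D0) at most 3 card D0, against m1.
(2) If N x = {v}, then v is adjacent to all terminals: by `ctr` for the edge x v there are at least 3 elements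
b of Cc; b is in Nb G {v}, b is not x, and b is a terminal or adjacent to x; a non-terminal b adjacent to x
would be v, impossible. So Cc is inside X minus x, which has 3 elements, so all are neighbours of v.
(3) If card (N x) = 1 for all x, then N x = {v} for one v (by (2) v is in N x' for all x'). If D0 = {v}, then
exactly 4 edges meet D0, against m1 (5 edges). Otherwise D0 minus v is nonempty with Nb G inside {v}, against
r1. So some N x has at least two elements and sum over x of card (N x) is at least 5; the edges x w with w in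
N x are distinct elements of Ed G X and Ed G D0.
-/

set_option autoImplicit false

namespace Pool.Agent.JNG

open SimpleGraph Pool.Agent.LNK

open Classical in
theorem xed {V : Type} [Fintype V] {G : SimpleGraph V} {W : Finset V} {a a' b b' : V}
    (h : Ce G W a a' b b') :
    5 ≤ (Ed G (Xs a a' b b') ∩ Ed G (W \ Xs a a' b b')).card := by
  have hXc : (Xs a a' b b').card = 4 := card_Xs h.ds
  have hr1 := r1 h
  have hctr : ∀ {u v : V}, G.Adj u v → v ∉ Xs a a' b b' → 3 ≤ (Cc G (Xs a a' b b') u v).card :=
    fun huv hv => ctr h huv hv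
  have hins := h.ms.ins
  have hsub := h.ms.sub
  have hm1 := h.ms.m1
  have hm2 := h.ms.m2
  unfold Hf at hr1
  set X := Xs a a' b b' with hX
  have hNW : ∀ D : Finset V, Nb G D ⊆ W := Nb_subset hins
  obtain ⟨N, hN⟩ : ∃ N : V → Finset V, ∀ x, N x = (W \ X).filter (fun w => G.Adj x w) := ⟨_, fun _ => rfl⟩
  have memN : ∀ x w, w ∈ N x ↔ w ∈ W ∧ w ∉ X ∧ G.Adj x w := by
    intro x w
    rw [hN, Finset.mem_filter, Finset.mem_sdiff, and_assoc]
  -- (1)
  have h1 : ∀ x ∈ X, (N x).Nonempty := by
    intro x hx
    by_contra hcon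
    rw [Finset.not_nonempty_iff_eq_empty] at hcon
    have h2 : Nb G (W \ X) ⊆ X.erase x := by
      intro w hw
      obtain ⟨hw1, u, hu, huw⟩ := mem_Nb.1 hw
      have hwW := hNW _ hw
      rw [Finset.mem_erase]
      refine ⟨?_, ?_⟩
      · rintro rfl
        rw [Finset.mem_sdiff] at hu
        have h3 : u ∈ N w := (memN w u).2 ⟨hu.1, hu.2, huw.symm⟩
        rw [hcon] at h3
        simp at h3
      · by_contra hwX
        exact hw1 (Finset.mem_sdiff.2 ⟨hwW, hwX⟩)
    have h3 := Finset.card_le_card h2
    rw [Finset.card_erase_of_mem hx, hXc] at h3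
    have h4 := hm2 (W \ X) (Finset.Subset.refl _) h3
    omega
  -- (2)
  have h2 : ∀ x ∈ X, ∀ v, N x = {v} → ∀ y ∈ X, G.Adj y v := by
    intro x hx v hv y hy
    have hv1 : v ∈ N x := by rw [hv]; exact Finset.mem_singleton_self v
    obtain ⟨hvW, hvX, hxv⟩ := (memN x v).1 hv1
    by_cases hyx : y = x
    · rw [hyx]; exact hxv
    have h3 := hctr hxv hvX
    have h4 : Cc G X x v ⊆ X.erase x := by
      intro c hc
      unfold Cc at hc
      rw [Finset.mem_filter] at hc
      obtain ⟨hc1, hc2, hc3⟩ := hc
      rw [Finset.mem_erase]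
      refine ⟨hc2, ?_⟩
      rcases hc3 with hc3 | hc3
      · by_contra hcX
        have h5 : c ∈ N x := (memN x c).2 ⟨hNW _ hc1, hcX, hc3⟩
        rw [hv, Finset.mem_singleton] at h5
        rw [h5] at hc1
        exact (mem_Nb.1 hc1).1 (Finset.mem_singleton_self v)
      · exact hc3.2
    have h5 : Cc G X x v = X.erase x := by
      apply Finset.eq_of_subset_of_card_le h4
      rw [Finset.card_erase_of_mem hx, hXc]
      exact h3
    have h6 : y ∈ Cc G X x v := by
      rw [h5, Finset.mem_erase]
      exact ⟨hyx, hy⟩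
    unfold Cc at h6
    rw [Finset.mem_filter] at h6
    obtain ⟨_, u, hu, huy⟩ := mem_Nb.1 h6.1
    rw [Finset.mem_singleton] at hu
    rw [hu] at huy
    exact huy.symm
  -- (3)
  have h3 : ∃ x ∈ X, 1 < (N x).card := by
    by_contra hcon
    push Not at hcon
    have haX : a ∈ X := by rw [hX]; exact mem_Xs.2 (Or.inl rfl)
    have h4 : ∀ x ∈ X, (N x).card = 1 := by
      intro x hx
      have h5 := hcon x hx
      have h6 := (h1 x hx).card_pos
      omega
    obtain ⟨v, hv⟩ := Finset.card_eq_one.1 (h4 a haX)
    have hv1 : v ∈ N a := by rw [hv]; exact Finset.mem_singleton_self v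
    obtain ⟨hvW, hvX, _⟩ := (memN a v).1 hv1
    have h5 : ∀ x ∈ X, N x = {v} := by
      intro x hx
      obtain ⟨w, hw⟩ := Finset.card_eq_one.1 (h4 x hx)
      have h6 : v ∈ N x := (memN x v).2 ⟨hvW, hvX, h2 a haX v hv x hx⟩
      rw [hw, Finset.mem_singleton] at h6
      rw [hw, h6]
    by_cases hD : ((W \ X).erase v).Nonempty
    · have h6 := hr1 ((W \ X).erase v)
        ((Finset.erase_subset _ _).trans Finset.sdiff_subset) hD (by
          intro w hw
          rw [Finset.mem_erase, Finset.mem_sdiff] at hw
          exact hw.2.2)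
      have h7 : Nb G ((W \ X).erase v) ⊆ {v} := by
        intro w hw
        obtain ⟨hw1, u, hu, huw⟩ := mem_Nb.1 hw
        rw [Finset.mem_erase, Finset.mem_sdiff] at hu
        rw [Finset.mem_singleton]
        by_contra hwv
        by_cases hwX : w ∈ X
        · have h8 : u ∈ N w := (memN w u).2 ⟨hu.2.1, hu.2.2, huw.symm⟩
          rw [h5 w hwX, Finset.mem_singleton] at h8
          exact hu.1 h8
        · apply hw1
          rw [Finset.mem_erase, Finset.mem_sdiff]
          exact ⟨hwv, hNW _ hw, hwX⟩
      have h8 := Finset.card_le_card h7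
      rw [Finset.card_singleton] at h8
      omega
    · rw [Finset.not_nonempty_iff_eq_empty] at hD
      have hvD : v ∈ W \ X := Finset.mem_sdiff.2 ⟨hvW, hvX⟩
      have h6 : W \ X = {v} := by
        rw [← Finset.insert_erase hvD, hD]
        rfl
      rw [h6, Finset.card_singleton] at hm1
      have h7 : Ed G {v} ⊆ X.image (fun w => s(v, w)) := by
        intro e he
        obtain ⟨he1, u, hu, hue⟩ := mem_Ed.1 he
        rw [Finset.mem_singleton] at hu
        rw [hu] at hue
        obtain ⟨w, rfl⟩ := hue
        rw [SimpleGraph.mem_edgeSet] at he1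
        rw [Finset.mem_image]
        refine ⟨w, ?_, rfl⟩
        by_contra hwX
        have h8 : w ∈ W \ X := Finset.mem_sdiff.2 ⟨hins.right he1, hwX⟩
        rw [h6, Finset.mem_singleton] at h8
        exact he1.ne h8.symm
      have h8 := (Finset.card_le_card h7).trans Finset.card_image_le
      omega
  -- conclusion
  have h4 : X.biUnion (fun x => (N x).image (fun w => s(x, w))) ⊆ Ed G X ∩ Ed G (W \ X) := by
    intro e he
    rw [Finset.mem_biUnion] at he
    obtain ⟨x, hx, he⟩ := he
    rw [Finset.mem_image] at he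
    obtain ⟨w, hw, rfl⟩ := he
    obtain ⟨hwW, hwX, hxw⟩ := (memN x w).1 hw
    rw [Finset.mem_inter, mem_Ed, mem_Ed]
    exact ⟨⟨hxw, x, hx, Sym2.mem_mk_left _ _⟩,
      ⟨hxw, w, Finset.mem_sdiff.2 ⟨hwW, hwX⟩, Sym2.mem_mk_right _ _⟩⟩
  have h5 : (X.biUnion (fun x => (N x).image (fun w => s(x, w)))).card = ∑ x ∈ X, (N x).card := by
    rw [Finset.card_biUnion]
    · apply Finset.sum_congr rfl
      intro x _
      rw [Finset.card_image_of_injective]
      intro y z hyz
      exact Sym2.congr_right.1 hyz
    · intro x hx y hy hxy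
      rw [Function.onFun, Finset.disjoint_left]
      intro e he he'
      rw [Finset.mem_image] at he he'
      obtain ⟨w, hw, rfl⟩ := he
      obtain ⟨z, hz, hzz⟩ := he'
      have hwX := ((memN x w).1 hw).2.1
      have hzX := ((memN y z).1 hz).2.1
      rcases Sym2.eq_iff.1 hzz with ⟨h6, _⟩ | ⟨h6, _⟩
      · exact hxy h6.symm
      · rw [h6] at hy
        exact hwX hy
  obtain ⟨x, hx, hx2⟩ := h3
  have h6 : ∑ y ∈ X, 1 < ∑ y ∈ X, (N y).card := by
    apply Finset.sum_lt_sum
    · intro y hy
      exact (h1 y hy).card_pos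
    · exact ⟨x, hx, hx2⟩
  rw [Finset.sum_const, smul_eq_mul, hXc, mul_one] at h6
  have h7 := Finset.card_le_card h4
  rw [h5] at h7
  omega

end Pool.Agent.JNG
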