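import Mathlib
import Pool.Agent.JNG.Defs
import Pool.Agent.JNG.DLE
import Pool.Agent.JNG.XED
import Pool.Agent.JNG.DSM

/-!
In a minimal counterexample some non-terminal has degree at most 5.
Proof. By `dsm`, `dle`, `xed`: the sum of the degrees over the n non-terminals is
2 (3 n + 2) - (number of edges to terminals), at most 6 n - 1.
-/

set_option autoImplicit false

namespace Pool.Agent.JNG

open SimpleGraph Pool.Agent.LNK

theorem low {V : Type} [Fintype V] {G : SimpleGraph V} {W : Finset V} {a a' b b' : V}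
    (h : Ce G W a a' b b') : ∃ v ∈ W, v ∉ Xs a a' b b' ∧ (Nb G {v}).card ≤ 5 := by
  classical
  by_contra hcon
  push Not at hcon
  have h1 := dsm h.ms.ins h.ms.sub
  have h2 := dle h
  have h3 := xed h
  have h4 : ∑ v ∈ W \ Xs a a' b b', 6 ≤ ∑ v ∈ W \ Xs a a' b b', (Nb G {v}).card := by
    apply Finset.sum_le_sum
    intro v hv
    rw [Finset.mem_sdiff] at hv
    exact hcon v hv.1 hv.2
  rw [Finset.sum_const, smul_eq_mul] at h4
  generalize (∑ v ∈ W \ Xs a a' b b', (Nb G {v}).card) = A at h1 h4
  omega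

end Pool.Agent.JNG
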