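import Mathlib
import Pool.Agent.JNG.Defs
import Pool.Agent.JNG.R1T
import Pool.Agent.JNG.LOW
import Pool.Agent.JNG.FI4
import Pool.Agent.JNG.FI5

/-!
The mass lemma.
Proof. Strong induction on card W and, inside, on card (Ed G W) (for all G, W and terminals): assume IH V n e
with n = card W, e = card (Ed G W) and suppose there is no linkage; then Ce G W a a' b b' holds, and `low`,
`r1`, `fi4`, `fi5` give a contradiction (the degree of v is at least 4 by r1 applied to {v}).
-/

set_option autoImplicit false

namespace Pool.Agent.JNG

open SimpleGraph Pool.Agent.LNK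

private theorem mla_aux {V : Type} [Fintype V] (n : ℕ) : ∀ (e : ℕ) (G : SimpleGraph V)
    (W : Finset V) (a a' b b' : V), Ds a a' b b' → W.card = n → (Ed G W).card = e →
    Ms G W (Xs a a' b b') → ∃ P Q : Finset V, Lkg G a a' b b' P Q := by
  induction n using Nat.strong_induction_on with
  | _ n ihn =>
    intro e
    induction e using Nat.strong_induction_on with
    | _ e ihe =>
      intro G W a a' b b' hds hW hE hms
      by_contra hno
      have hce : Ce G W a a' b b' := by
        refine ⟨hds, hms, ?_, ?_⟩
        · intro G' W' c c' d d' hds' hlt hms'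
          rcases hlt with hlt | ⟨hlt1, hlt2⟩
          · exact ihn W'.card (by omega) _ G' W' c c' d d' hds' rfl rfl hms'
          · exact ihe (Ed G' W').card (by omega) G' W' c c' d d' hds' (by omega) rfl hms'
        · intro P Q hl
          exact hno ⟨P, Q, hl⟩
      obtain ⟨v, hvW, hv, hv5⟩ := low hce
      have h4 : 4 ≤ (Nb G {v}).card := by
        refine r1 hce {v} (Finset.singleton_subset_iff.2 hvW) (Finset.singleton_nonempty v) ?_
        intro x hx
        rw [Finset.mem_singleton] at hx
        subst hx
        exact hv
      have h5 := fi4 hce hvW hv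
      have h6 := fi5 hce hvW hv
      omega

theorem mass_lemma {V : Type} [Fintype V] (G : SimpleGraph V) (W : Finset V) (a a' b b' : V)
    (hds : Ds a a' b b') (h : Ms G W (Xs a a' b b')) : ∃ P Q : Finset V, Lkg G a a' b b' P Q :=
  mla_aux W.card (Ed G W).card G W a a' b b' hds rfl rfl h

end Pool.Agent.JNG
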