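import Mathlib
import Pool.Agent.JNG.Defs2
import Pool.Agent.JNG.MAS
import Pool.Agent.JNG.MLA

/-!
(msc) If Y is safe and the mass condition holds after deleting Y, there is a linkage avoiding Y.
Proof. Ms (Cof G Y) (W minus Y) Xs: ins, sub clear (terminals are not in Y); m1 is the hypothesis; m2: for D inside
(W minus Y) minus Xs nonempty, Nb (Cof G Y) D = Nb G D minus Y has at least 4 elements; for D empty both sides are 0.
mass_lemma gives a linkage of Cof G Y; take the vertices of walks, they avoid Y (`LNK.cof_avoid`, terminals not in Y), and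
`LNK.cof_le`.
(mex) Existence of a linkage: msc with Y empty, m1 from `mas` with cc = U, Y empty. Safety for Y empty: let D be nonempty,
without terminals; if some terminal is outside Nb G D use `six` (at least 6), otherwise Nb G D contains the 4 terminals.
-/

set_option autoImplicit false

namespace Pool.Agent.JNG

open SimpleGraph Pool.Agent.LNK

private theorem msc_avoid {V : Type} {G : SimpleGraph V} {Y : Set V} {P : Set V} {u v : V}
    (h : Jn (Cof G Y) P u v) (hu : u ∉ Y) : Jn G (P \ Y) u v := by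
  obtain ⟨w, hw⟩ := h
  have h1 : Jn (Cof G Y) (P \ Y) u v := ⟨w, fun x hx => ⟨hw x hx, cof_avoid w hu x hx⟩⟩
  exact Jn.of_le (cof_le Y) h1

open Classical in
theorem msc {V : Type} [Fintype V] {G : SimpleGraph V} {W : Finset V} {a a' b b' : V} {Y : Finset V}
    (hins : Ins G W) (hds : Ds a a' b b') (hxw : ∀ v ∈ Xs a a' b b', v ∈ W) (hYX : ∀ y ∈ Y, y ∉ Xs a a' b b')
    (hsafe : ∀ D ⊆ W, D.Nonempty → (∀ v ∈ D, v ∉ Xs a a' b b') → (∀ v ∈ D, v ∉ Y) → 4 ≤ (Nb G D \ Y).card)
    (hm1 : 3 * ((W \ Y) \ Xs a a' b b').card + 2 ≤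
      (Ed (Cof G (Y : Set V)) ((W \ Y) \ Xs a a' b b')).card) :
    ∃ P Q : Finset V, Lkg G a a' b b' P Q ∧ (∀ y ∈ Y, y ∉ P) ∧ ∀ y ∈ Y, y ∉ Q := by
  have hXY : ∀ v ∈ Xs a a' b b', v ∉ Y := fun v hv hvY => hYX v hvY hv
  have hMs : Ms (Cof G (Y : Set V)) (W \ Y) (Xs a a' b b') := by
    refine ⟨?_, ?_, hm1, ?_⟩
    · intro x y hxy
      exact Finset.mem_sdiff.2 ⟨hins x y hxy.1, fun h => hxy.2.1 (by simpa using h)⟩
    · intro v hv
      exact Finset.mem_sdiff.2 ⟨hxw v hv, hXY v hv⟩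
    · intro D hD hcard
      rcases D.eq_empty_or_nonempty with rfl | hne
      · have h0 : Ed (Cof G (Y : Set V)) ∅ = ∅ := by
          rw [Finset.eq_empty_iff_forall_notMem]
          intro e he
          obtain ⟨_, u, hu, _⟩ := mem_Ed.1 he
          exact absurd hu (Finset.notMem_empty u)
        rw [h0]
        simp
      · exfalso
        have hDW : ∀ v ∈ D, v ∈ W ∧ v ∉ Y ∧ v ∉ Xs a a' b b' := by
          intro v hv
          have h1 := Finset.mem_sdiff.1 (hD hv)
          have h2 := Finset.mem_sdiff.1 h1.1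
          exact ⟨h2.1, h2.2, h1.2⟩
        have h4 := hsafe D (fun v hv => (hDW v hv).1) hne (fun v hv => (hDW v hv).2.2)
          (fun v hv => (hDW v hv).2.1)
        have h5 : Nb G D \ Y ⊆ Nb (Cof G (Y : Set V)) D := by
          intro v hv
          obtain ⟨h6, h7⟩ := Finset.mem_sdiff.1 hv
          obtain ⟨h8, u, hu, h9⟩ := mem_Nb.1 h6
          exact mem_Nb.2 ⟨h8, u, hu, h9, fun h => (hDW u hu).2.1 (by simpa using h),
            fun h => h7 (by simpa using h)⟩
        have h6 := Finset.card_le_card h5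
        omega
  obtain ⟨P, Q, hPQ⟩ := mass_lemma (Cof G (Y : Set V)) (W \ Y) a a' b b' hds hMs
  have haY : a ∉ (Y : Set V) := fun h => hXY a (mem_Xs.2 (Or.inl rfl)) (by simpa using h)
  have hbY : b ∉ (Y : Set V) := fun h =>
    hXY b (mem_Xs.2 (Or.inr (Or.inr (Or.inl rfl)))) (by simpa using h)
  refine ⟨P \ Y, Q \ Y, ⟨?_, ?_, ?_⟩, ?_, ?_⟩
  · intro v hv hv'
    exact hPQ.dj v (Finset.mem_sdiff.1 hv).1 (Finset.mem_sdiff.1 hv').1
  · have h1 := msc_avoid hPQ.jp haY
    rw [Finset.coe_sdiff]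
    exact h1
  · have h1 := msc_avoid hPQ.jq hbY
    rw [Finset.coe_sdiff]
    exact h1
  · intro y hy h1
    exact (Finset.mem_sdiff.1 h1).2 hy
  · intro y hy h1
    exact (Finset.mem_sdiff.1 h1).2 hy

theorem mex {V : Type} [Fintype V] {G : SimpleGraph V} {W : Finset V} {a a' b b' h : V} {U : Finset V}
    (h6 : Six G W) (hds : Ds a a' b b') (hxw : ∀ v ∈ Xs a a' b b', v ∈ W) (hu : ∀ u ∈ U, G.Adj h u)
    (hux : ∀ u ∈ U, u ∉ Xs a a' b b') (hU : 10 ≤ U.card) : ∃ P Q : Finset V, Lkg G a a' b b' P Q := by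
  classical
  have hm := mas h6 hds hxw hu hux (cc := U) (Y := ∅) (Finset.Subset.refl U)
    (Finset.empty_subset U) (by
      rw [Finset.sum_empty]
      omega)
  obtain ⟨P, Q, hPQ, _, _⟩ := msc (Y := ∅) h6.ins hds hxw
    (fun y hy => absurd hy (Finset.notMem_empty y)) (by
      intro D hD hne hDX _
      rw [Finset.sdiff_empty]
      by_cases ht : ∃ t ∈ Xs a a' b b', t ∉ Nb G D
      · obtain ⟨t, ht1, ht2⟩ := ht
        have := h6.six D hD hne ⟨t, hxw t ht1, fun h => hDX t h ht1, ht2⟩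
        omega
      · push Not at ht
        have h1 : Xs a a' b b' ⊆ Nb G D := fun t ht' => ht t ht'
        have h2 := Finset.card_le_card h1
        rw [card_Xs hds] at h2
        exact h2) hm
  exact ⟨P, Q, hPQ⟩

end Pool.Agent.JNG
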