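import Mathlib
import Pool.Agent.JNG.Defs2

/-!
Reversing a chain, and reversing the path p.
Proof. (1) idx' v = T + 1 - idx v (for v in W outside S; elsewhere irrelevant). Note that `stp` is required for all
u, v outside S that are adjacent; such vertices are in W (Ins), so idx <= T + 1 and the subtraction is exact.
Ly idx' i j = Ly idx (T + 1 - j) (T + 1 - i) for 1 <= i <= j <= T (and for i = j = 0, i = j = T + 1); cl and cr are
exchanged. (2) p' i = p (r - i), c' = r - c: all fields are clear, Sg p' 0 r = Sg p 0 r.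
-/

set_option autoImplicit false

namespace Pool.Agent.JNG

open SimpleGraph Pool.Agent.LNK

theorem rev_chain {V : Type} [Fintype V] {G : SimpleGraph V} {W S : Finset V} {b b' : V} {U : Finset V}
    {idx : V → ℕ} {T : ℕ} (hins : Ins G W) (H : Ch G W S b b' U idx T) :
    ∃ idx' : V → ℕ, Ch G W S b' b U idx' T ∧
      ∀ i j, 1 ≤ i → i ≤ j → j ≤ T → Ly W S idx' i j = Ly W S idx (T + 1 - j) (T + 1 - i) := by
  have key : ∀ i j, i ≤ T + 1 → j ≤ T + 1 →
      Ly W S (fun v => T + 1 - idx v) i j = Ly W S idx (T + 1 - j) (T + 1 - i) := by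
    intro i j hi hj
    ext v
    rw [mem_Ly, mem_Ly]
    constructor
    · rintro ⟨h1, h2, h3, h4⟩
      have h5 := H.le v h1 h2
      refine ⟨h1, h2, ?_, ?_⟩ <;> omega
    · rintro ⟨h1, h2, h3, h4⟩
      have h5 := H.le v h1 h2
      refine ⟨h1, h2, ?_, ?_⟩
      · show i ≤ T + 1 - idx v
        omega
      · show T + 1 - idx v ≤ j
        omega
  have hT := H.T1
  refine ⟨fun v => T + 1 - idx v, ⟨hT, ?_, ?_, ?_, ?_, ?_, ?_, ?_, ?_, ?_⟩, fun i j hi hij hj =>
    key i j (by omega) (by omega)⟩
  · intro v _ _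
    show T + 1 - idx v ≤ T + 1
    omega
  · intro u v hu hv huv
    have h := H.stp v u hv hu huv.symm
    show T + 1 - idx v ≤ T + 1 - idx u + 1
    omega
  · show T + 1 - idx b' = 0
    rw [H.ib']
    omega
  · show T + 1 - idx b = T + 1
    rw [H.ib]
    omega
  · intro i j hi hij hj
    rw [key i j (by omega) (by omega)]
    exact H.cn _ _ (by omega) (by omega) (by omega)
  · obtain ⟨R, h1, h2, h3⟩ := H.cr
    refine ⟨R, h1, ?_, ?_⟩
    · rw [key 0 0 (by omega) (by omega), Nat.sub_zero]
      exact h2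
    · rw [key 1 1 (by omega) (by omega), Nat.add_sub_cancel]
      exact h3
  · obtain ⟨L, h1, h2, h3⟩ := H.cl
    refine ⟨L, h1, ?_, ?_⟩
    · rw [key (T + 1) (T + 1) (by omega) (by omega), Nat.sub_self]
      exact h2
    · rw [key T T (by omega) (by omega), Nat.add_sub_cancel_left]
      exact h3
  · intro i hi hiT
    rw [key i i (by omega) (by omega)]
    exact H.uu _ (by omega) (by omega)
  · intro i hi hiT
    rw [key i i (by omega) (by omega)]
    exact H.att _ (by omega) (by omega)

theorem rev_path {V : Type} {G : SimpleGraph V} {a a' h : V} {p : ℕ → V} {r c : ℕ} (H : Tp G a a' h p r c) :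
    Tp G a' a h (fun i => p (r - i)) r (r - c) ∧ Sg (fun i => p (r - i)) 0 r = Sg p 0 r := by
  have hc := H.cr
  refine ⟨⟨⟨?_, ?_⟩, ?_, ?_, ?_, by omega, ?_⟩, ?_⟩
  · intro i hi
    show G.Adj (p (r - i)) (p (r - (i + 1)))
    have h := (H.pth.adj (r - (i + 1)) (by omega)).symm
    have e : r - (i + 1) + 1 = r - i := by omega
    rwa [e] at h
  · intro i j hi hj hij
    have h := H.pth.inj (r - i) (r - j) (by omega) (by omega) hij
    omega
  · show p (r - 0) = a'
    rw [Nat.sub_zero, H.pr]
  · show p (r - r) = a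
    rw [Nat.sub_self, H.p0]
  · show p (r - (r - c)) = h
    have e : r - (r - c) = c := by omega
    rw [e, H.pc]
  · intro i j hi hj hij
    have h := H.ind (r - i) (r - j) (by omega) (by omega) hij
    omega
  · ext v
    rw [mem_Sg, mem_Sg]
    constructor
    · rintro ⟨l, _, h2, h3⟩
      exact ⟨r - l, by omega, by omega, h3⟩
    · rintro ⟨l, _, h2, h3⟩
      refine ⟨r - l, by omega, by omega, ?_⟩
      show p (r - (r - l)) = v
      have e : r - (r - l) = l := by omega
      rw [e, h3]

end Pool.Agent.JNG
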