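import Mathlib
import Pool.Agent.JNG.Defs2

/-!
All inner levels are attached to the same side of h on p.
Proof. Let S = Sg p 0 r. By `att` every level l (1 <= l <= T) has at least 3 neighbours p x with x not c (Nb and S, minus
p c). Claim: for 2 <= l, l + 2 <= T, the set E = Ly l (l+1) does not have neighbours p x and p x' with x < c < x' <= r
(and the same for E = Ly l l with 2 <= l, l + 1 <= T). Proof of the claim: P' = Sg p 0 x + E + Sg p x' r joins a to
a' (Ch.cn: E is connected; x <= r). Q' = (L + Ly 1 1) + {h} + (Ly T T + R) joins b to b' (Ch.cl, Ch.cr, `uu`: levels 1 and T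
contain vertices of U, which are adjacent to h = p c). P' and Q' are disjoint: h = p c is not in P', levels are outside
S, L and R have levels 0 and T+1, E has levels between 2 and T - 1. For every level t with 2 <= t <= T - 1 outside
E the vertex of U in level t (`uu`) is missed by P' + Q'; there are at least T - 4 >= m such levels and
these vertices are different. Against `bd`.
Now suppose neither alternative holds: some level l (2 <= l, l + 1 <= T) has a neighbour p x with c < x <= r, some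
level l' has a neighbour p x' with x' < c. Each level between 2 and T - 1 has a neighbour p y, y not c, on one of the two
sides; walking from l to l' there are two consecutive levels (or one level) with neighbours on both sides, against the
claim.
-/

set_option autoImplicit false

namespace Pool.Agent.JNG

open SimpleGraph Pool.Agent.LNK

open Classical in
private theorem sid_miss {V : Type} [Fintype V] {G : SimpleGraph V} {W S : Finset V} {b b' : V}
    {U : Finset V} {idx : V → ℕ} {T : ℕ} (hc : Ch G W S b b' U idx T) (I : Finset ℕ)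
    (hI : ∀ t ∈ I, 1 ≤ t ∧ t ≤ T) (P : Finset V) (hP : ∀ v ∈ P, v ∉ S → idx v ∉ I) :
    I.card ≤ (U \ P).card := by
  rcases I.eq_empty_or_nonempty with rfl | ⟨t0, ht0⟩
  · rw [Finset.card_empty]
    exact Nat.zero_le _
  haveI : Nonempty V := ⟨(hc.uu t0 (hI t0 ht0).1 (hI t0 ht0).2).choose⟩
  choose! u hu1 hu2 using fun (t : ℕ) (ht : t ∈ I) => hc.uu t (hI t ht).1 (hI t ht).2
  have hidx : ∀ t ∈ I, idx (u t) = t := by
    intro t ht
    obtain ⟨_, _, h3, h4⟩ := mem_Ly.1 (hu2 t ht)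
    exact le_antisymm h4 h3
  have hinj : Set.InjOn u (I : Set ℕ) := by
    intro t ht t' ht' h
    rw [← hidx t ht, ← hidx t' ht', h]
  rw [← Finset.card_image_of_injOn hinj]
  refine Finset.card_le_card (fun v hv => ?_)
  obtain ⟨t, ht, rfl⟩ := Finset.mem_image.1 hv
  refine Finset.mem_sdiff.2 ⟨hu1 t ht, fun hvP => ?_⟩
  refine hP _ hvP (mem_Ly.1 (hu2 t ht)).2.1 ?_
  rw [hidx t ht]
  exact ht

private theorem sid_claim {V : Type} [Fintype V] {G : SimpleGraph V} {W : Finset V}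
    {a a' b b' h : V} {U : Finset V} {m : ℕ} (H : Bd G W a a' b b' h U m) {p : ℕ → V} {r c : ℕ}
    (hp : Tp G a a' h p r c) {idx : V → ℕ} {T : ℕ} (hc : Ch G W (Sg p 0 r) b b' U idx T)
    (hT : m + 5 ≤ T) {i j : ℕ} (hi : 2 ≤ i) (hij : i ≤ j) (hji : j ≤ i + 1) (hjT : j + 1 ≤ T)
    {x x' : ℕ} (hx : x < c) (hx' : c < x') (hx'r : x' ≤ r)
    (n1 : p x ∈ Nb G (Ly W (Sg p 0 r) idx i j)) (n2 : p x' ∈ Nb G (Ly W (Sg p 0 r) idx i j)) :
    False := by
  classical
  have hcr := hp.cr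
  obtain ⟨-, u1, hu1, had1⟩ := mem_Nb.1 n1
  obtain ⟨-, u2, hu2, had2⟩ := mem_Nb.1 n2
  obtain ⟨L, hbL, hL, hLc⟩ := hc.cl
  obtain ⟨R, hbR, hR, hRc⟩ := hc.cr
  obtain ⟨w1, hw1U, hw1⟩ := hc.uu 1 le_rfl (by omega)
  obtain ⟨w2, hw2U, hw2⟩ := hc.uu T (by omega) le_rfl
  have hE := hc.cn i j (by omega) hij (by omega)
  set S := Sg p 0 r with hS
  set P' : Finset V := (Sg p 0 x ∪ Ly W S idx i j) ∪ Sg p x' r with hP'
  set Q' : Finset V := ((L ∪ Ly W S idx 1 1) ∪ {h}) ∪ (R ∪ Ly W S idx T T) with hQ'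
  have hSmem : ∀ y, y ≤ r → p y ∈ S := fun y hy => mem_Sg.2 ⟨y, Nat.zero_le _, hy, rfl⟩
  have hPmem : ∀ v ∈ P', (∃ y, (y ≤ x ∨ (x' ≤ y ∧ y ≤ r)) ∧ p y = v) ∨
      (v ∉ S ∧ i ≤ idx v ∧ idx v ≤ j) := by
    intro v hv
    rcases Finset.mem_union.1 hv with hv | hv
    · rcases Finset.mem_union.1 hv with hv | hv
      · obtain ⟨y, _, h7, h8⟩ := mem_Sg.1 hv
        exact Or.inl ⟨y, Or.inl h7, h8⟩
      · obtain ⟨_, h7, h8, h9⟩ := mem_Ly.1 hv
        exact Or.inr ⟨h7, h8, h9⟩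
    · obtain ⟨y, h6, h7, h8⟩ := mem_Sg.1 hv
      exact Or.inl ⟨y, Or.inr ⟨h6, h7⟩, h8⟩
  have hQmem : ∀ v ∈ Q', v = p c ∨ (v ∉ S ∧ (idx v ≤ 1 ∨ T ≤ idx v)) := by
    intro v hv
    rcases Finset.mem_union.1 hv with hv | hv
    · rcases Finset.mem_union.1 hv with hv | hv
      · rcases Finset.mem_union.1 hv with hv | hv
        · obtain ⟨_, h7, h8, h9⟩ := mem_Ly.1 (hL hv)
          exact Or.inr ⟨h7, Or.inl (by omega)⟩
        · obtain ⟨_, h7, h8, h9⟩ := mem_Ly.1 hv
          exact Or.inr ⟨h7, Or.inl h9⟩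
      · rw [Finset.mem_singleton.1 hv, hp.pc]
        exact Or.inl rfl
    · rcases Finset.mem_union.1 hv with hv | hv
      · obtain ⟨_, h7, h8, h9⟩ := mem_Ly.1 (hR hv)
        exact Or.inr ⟨h7, Or.inr (by omega)⟩
      · obtain ⟨_, h7, h8, h9⟩ := mem_Ly.1 hv
        exact Or.inr ⟨h7, Or.inr h8⟩
  have hlk : Lkg G a a' b b' P' Q' := by
    refine ⟨fun v hv hv' => ?_, ?_, ?_⟩
    · rcases hPmem v hv with ⟨y, hy, rfl⟩ | ⟨hvS, hvi, hvj⟩
      · have hyr : y ≤ r := by omega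
        rcases hQmem _ hv' with hyc | ⟨hvS, -⟩
        · have := hp.pth.inj y c hyr hcr hyc
          omega
        · exact hvS (hSmem y hyr)
      · rcases hQmem _ hv' with rfl | ⟨-, h⟩
        · exact hvS (hSmem c hcr)
        · omega
    · have e1 : Jn G (P' : Set V) a (p x) := by
        rw [← hp.p0]
        refine (hp.pth.jn (Nat.zero_le x) (by omega)).mono (fun v hv => ?_)
        exact Finset.mem_coe.2 (Finset.mem_union_left _ (Finset.mem_union_left _ (Finset.mem_coe.1 hv)))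
      have e2 : Jn G (P' : Set V) (p x) u1 :=
        Jn.of_adj had1.symm (Jn.right_mem e1)
          (Finset.mem_coe.2 (Finset.mem_union_left _ (Finset.mem_union_right _ hu1)))
      have e3 : Jn G (P' : Set V) u1 u2 :=
        (hE.2 u1 hu1 u2 hu2).mono (fun v hv =>
          Finset.mem_coe.2 (Finset.mem_union_left _ (Finset.mem_union_right _ (Finset.mem_coe.1 hv))))
      have e5 : Jn G (P' : Set V) (p x') (p r) :=
        (hp.pth.jn hx'r le_rfl).mono (fun v hv =>
          Finset.mem_coe.2 (Finset.mem_union_right _ (Finset.mem_coe.1 hv)))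
      rw [← hp.pr]
      exact (((e1.trans e2).trans e3).trans (Jn.of_adj had2 (Jn.right_mem e3) (Jn.left_mem e5))).trans
        e5
    · have e1 : Jn G (Q' : Set V) b w1 :=
        (hLc.2 b (Finset.mem_union_left _ hbL) w1 (Finset.mem_union_right _ hw1)).mono (fun v hv =>
          Finset.mem_coe.2 (Finset.mem_union_left _ (Finset.mem_union_left _ (Finset.mem_coe.1 hv))))
      have e5 : Jn G (Q' : Set V) w2 b' :=
        (hRc.2 w2 (Finset.mem_union_right _ hw2) b' (Finset.mem_union_left _ hbR)).mono (fun v hv =>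
          Finset.mem_coe.2 (Finset.mem_union_right _ (Finset.mem_coe.1 hv)))
      have mh : h ∈ (Q' : Set V) :=
        Finset.mem_coe.2 (Finset.mem_union_left _ (Finset.mem_union_right _
          (Finset.mem_singleton_self h)))
      exact ((e1.trans (Jn.of_adj (H.hu w1 hw1U).symm (Jn.right_mem e1) mh)).trans
        (Jn.of_adj (H.hu w2 hw2U) mh (Jn.left_mem e5))).trans e5
  have hbd := H.bd P' Q' hlk
  have hmiss := sid_miss hc (Finset.Icc 2 (T - 1) \ Finset.Icc i j)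
    (fun t ht => by
      have h6 := Finset.mem_Icc.1 (Finset.mem_sdiff.1 ht).1
      omega) (P' ∪ Q') (fun v hv hvS hmem => by
      have h6 := Finset.mem_Icc.1 (Finset.mem_sdiff.1 hmem).1
      have h7 := (Finset.mem_sdiff.1 hmem).2
      rcases Finset.mem_union.1 hv with hv | hv
      · rcases hPmem v hv with ⟨y, hy, rfl⟩ | ⟨-, hvi⟩
        · exact hvS (hSmem y (by omega))
        · exact h7 (Finset.mem_Icc.2 hvi)
      · rcases hQmem v hv with rfl | ⟨-, hvi⟩
        · exact hvS (hSmem c hcr)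
        · omega)
  have hcard := Finset.le_card_sdiff (Finset.Icc i j) (Finset.Icc 2 (T - 1))
  rw [Nat.card_Icc, Nat.card_Icc] at hcard
  omega

theorem side {V : Type} [Fintype V] {G : SimpleGraph V} {W : Finset V} {a a' b b' h : V} {U : Finset V}
    {m : ℕ} (H : Bd G W a a' b b' h U m) {p : ℕ → V} {r c : ℕ} (hp : Tp G a a' h p r c) {idx : V → ℕ} {T : ℕ}
    (hc : Ch G W (Sg p 0 r) b b' U idx T) (hT : m + 5 ≤ T) :
    (∀ l, 2 ≤ l → l + 1 ≤ T → ∀ x, c < x → x ≤ r → p x ∉ Nb G (Ly W (Sg p 0 r) idx l l)) ∨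
    (∀ l, 2 ≤ l → l + 1 ≤ T → ∀ x, x < c → p x ∉ Nb G (Ly W (Sg p 0 r) idx l l)) := by
  classical
  have hT1 : ∀ l, 2 ≤ l → l + 1 ≤ T → (∃ x, x ≤ r ∧ x ≠ c ∧ p x ∈ Nb G (Ly W (Sg p 0 r) idx l l)) := by
    intro l hl1 hl2
    have h4 := hc.att l (by omega) (by omega)
    have h1 : 1 < (Nb G (Ly W (Sg p 0 r) idx l l) ∩ Sg p 0 r).card := by omega
    obtain ⟨v, hv, hvc⟩ := Finset.exists_mem_ne h1 (p c)
    obtain ⟨hv1, hv2⟩ := Finset.mem_inter.1 hv
    obtain ⟨x, -, hxr, rfl⟩ := mem_Sg.1 hv2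
    exact ⟨x, hxr, fun h => hvc (by rw [h]), hv1⟩
  have hup : ∀ l x, x ≤ r → p x ∈ Nb G (Ly W (Sg p 0 r) idx l l) →
      p x ∈ Nb G (Ly W (Sg p 0 r) idx l (l + 1)) := by
    intro l x hx hn
    obtain ⟨-, u, hu, had⟩ := mem_Nb.1 hn
    refine mem_Nb.2 ⟨fun h => (mem_Ly.1 h).2.1 (mem_Sg.2 ⟨x, Nat.zero_le _, hx, rfl⟩), u, ?_, had⟩
    obtain ⟨h6, h7, h8, h9⟩ := mem_Ly.1 hu
    exact mem_Ly.2 ⟨h6, h7, h8, by omega⟩
  have hup' : ∀ l x, x ≤ r → p x ∈ Nb G (Ly W (Sg p 0 r) idx (l + 1) (l + 1)) →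
      p x ∈ Nb G (Ly W (Sg p 0 r) idx l (l + 1)) := by
    intro l x hx hn
    obtain ⟨-, u, hu, had⟩ := mem_Nb.1 hn
    refine mem_Nb.2 ⟨fun h => (mem_Ly.1 h).2.1 (mem_Sg.2 ⟨x, Nat.zero_le _, hx, rfl⟩), u, ?_, had⟩
    obtain ⟨h6, h7, h8, h9⟩ := mem_Ly.1 hu
    exact mem_Ly.2 ⟨h6, h7, by omega, h9⟩
  have hcr := hp.cr
  obtain ⟨x0, hx0r, hx0c, hx0⟩ := hT1 2 le_rfl (by omega)
  rcases lt_or_gt_of_ne hx0c with h0 | h0
  · -- all neighbours lie before c
    have key : ∀ l, 2 ≤ l → l + 1 ≤ T → ∃ x, x < c ∧ p x ∈ Nb G (Ly W (Sg p 0 r) idx l l) := by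
      intro l hl
      induction l, hl using Nat.le_induction with
      | base => exact fun _ => ⟨x0, h0, hx0⟩
      | succ l hl ih =>
        intro hlT
        obtain ⟨x, hx, hn⟩ := ih (by omega)
        obtain ⟨y, hyr, hyc, hyn⟩ := hT1 (l + 1) (by omega) hlT
        rcases lt_or_gt_of_ne hyc with h1 | h1
        · exact ⟨y, h1, hyn⟩
        · exact absurd (sid_claim H hp hc hT hl (Nat.le_succ l) le_rfl hlT hx h1 hyr
            (hup l x (by omega) hn) (hup' l y hyr hyn)) id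
    refine Or.inl (fun l hl hlT x hx hxr hn => ?_)
    obtain ⟨y, hy, hyn⟩ := key l hl hlT
    exact sid_claim H hp hc hT hl le_rfl (Nat.le_succ l) hlT hy hx hxr hyn hn
  · have key : ∀ l, 2 ≤ l → l + 1 ≤ T →
        ∃ x, c < x ∧ x ≤ r ∧ p x ∈ Nb G (Ly W (Sg p 0 r) idx l l) := by
      intro l hl
      induction l, hl using Nat.le_induction with
      | base => exact fun _ => ⟨x0, h0, hx0r, hx0⟩
      | succ l hl ih =>
        intro hlT
        obtain ⟨x, hx, hxr, hn⟩ := ih (by omega)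
        obtain ⟨y, hyr, hyc, hyn⟩ := hT1 (l + 1) (by omega) hlT
        rcases lt_or_gt_of_ne hyc with h1 | h1
        · exact absurd (sid_claim H hp hc hT hl (Nat.le_succ l) le_rfl hlT h1 hx hxr
            (hup' l y hyr hyn) (hup l x hxr hn)) id
        · exact ⟨y, h1, hyr, hyn⟩
    refine Or.inr (fun l hl hlT x hx hn => ?_)
    obtain ⟨y, hy, hyr, hyn⟩ := key l hl hlT
    exact sid_claim H hp hc hT hl le_rfl (Nat.le_succ l) hlT hx hy hyr hn hyn

end Pool.Agent.JNG
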