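import Mathlib
import Pool.Agent.JNG.Defs2

/-!
A part of a chain is a chain.
Proof. Let idx' v = 0 if idx v < i0, T' + 1 if idx v > j0, and idx v - i0 + 1 otherwise, T' = j0 - i0 + 1. For
1 <= i <= j <= T' : Ly idx' i j = Ly idx (i + i0 - 1) (j + i0 - 1). `stp`: case distinction (omega), using `stp`
in both directions (G.Adj is symmetric). `cl`: L' = L if i0 = 1, and L' = L + Ly idx 1 (i0 - 1) otherwise (Ch.left:
connected; its union with level i0 is L + Ly idx 1 i0, connected). `cr` similarly with Ch.right. `uu`, `att`, `cn`: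
from the equality of the levels. ib, ib': clear.
-/

set_option autoImplicit false

namespace Pool.Agent.JNG

open SimpleGraph Pool.Agent.LNK

theorem sub_chain {V : Type} [Fintype V] {G : SimpleGraph V} {W S : Finset V} {b b' : V} {U : Finset V}
    {idx : V → ℕ} {T : ℕ} (H : Ch G W S b b' U idx T) (i0 j0 : ℕ) (h1 : 1 ≤ i0) (h2 : i0 ≤ j0) (h3 : j0 ≤ T) :
    ∃ idx' : V → ℕ, Ch G W S b b' U idx' (j0 - i0 + 1) ∧
      ∀ i j, 1 ≤ i → i ≤ j → j ≤ j0 - i0 + 1 → Ly W S idx' i j = Ly W S idx (i + i0 - 1) (j + i0 - 1) := by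
  classical
  let f : ℕ → ℕ := fun t => if t < i0 then 0 else if j0 < t then j0 - i0 + 2 else t - i0 + 1
  have hf : ∀ t, f t = if t < i0 then 0 else if j0 < t then j0 - i0 + 2 else t - i0 + 1 := fun _ => rfl
  have hf1 : ∀ t, t < i0 → f t = 0 := by
    intro t ht
    rw [hf, if_pos ht]
  have hf2 : ∀ t, j0 < t → f t = j0 - i0 + 2 := by
    intro t ht
    rw [hf, if_neg (by omega), if_pos ht]
  have hf3 : ∀ t, i0 ≤ t → t ≤ j0 → f t = t - i0 + 1 := by
    intro t ht ht'
    rw [hf, if_neg (by omega), if_neg (by omega)]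
  have hcase : ∀ t, (t < i0 ∧ f t = 0) ∨ (j0 < t ∧ f t = j0 - i0 + 2) ∨
      (i0 ≤ t ∧ t ≤ j0 ∧ f t = t - i0 + 1) := by
    intro t
    rcases Nat.lt_or_ge t i0 with h | h
    · exact Or.inl ⟨h, hf1 t h⟩
    · rcases Nat.lt_or_ge j0 t with h' | h'
      · exact Or.inr (Or.inl ⟨h', hf2 t h'⟩)
      · exact Or.inr (Or.inr ⟨h, h', hf3 t h h'⟩)
  have key : ∀ i j, 1 ≤ i → i ≤ j → j ≤ j0 - i0 + 1 →
      Ly W S (fun v => f (idx v)) i j = Ly W S idx (i + i0 - 1) (j + i0 - 1) := by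
    intro i j hi hij hj
    ext v
    rw [mem_Ly, mem_Ly]
    constructor
    · rintro ⟨hW, hS, h4, h5⟩
      refine ⟨hW, hS, ?_, ?_⟩ <;> rcases hcase (idx v) with ⟨h, h'⟩ | ⟨h, h'⟩ | ⟨h, h6, h'⟩ <;>
        omega
    · rintro ⟨hW, hS, h4, h5⟩
      refine ⟨hW, hS, ?_, ?_⟩ <;> rcases hcase (idx v) with ⟨h, h'⟩ | ⟨h, h'⟩ | ⟨h, h6, h'⟩ <;>
        omega
  refine ⟨fun v => f (idx v), ⟨by omega, ?_, ?_, ?_, ?_, ?_, ?_, ?_, ?_, ?_⟩, key⟩
  · intro v _ _
    rcases hcase (idx v) with ⟨h, h'⟩ | ⟨h, h'⟩ | ⟨h, h6, h'⟩ <;> omega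
  · intro u v hu hv huv
    have e1 := H.stp u v hu hv huv
    have e2 := H.stp v u hv hu huv.symm
    rcases hcase (idx u) with ⟨h, h'⟩ | ⟨h, h'⟩ | ⟨h, h6, h'⟩ <;>
      rcases hcase (idx v) with ⟨g, g'⟩ | ⟨g, g'⟩ | ⟨g, g6, g'⟩ <;> omega
  · have := H.ib
    exact hf1 _ (by omega)
  · have := H.ib'
    show f (idx b') = _
    rw [hf2 _ (by omega)]
  · intro i j hi hij hj
    rw [key i j hi hij hj]
    exact H.cn _ _ (by omega) (by omega) (by omega)
  · obtain ⟨L, hb, hL, hc⟩ := H.left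
    refine ⟨L ∪ Ly W S idx 1 (i0 - 1), Finset.mem_union_left _ hb, ?_, ?_⟩
    · intro v hv
      rw [mem_Ly]
      rcases Finset.mem_union.1 hv with h | h
      · have h' := mem_Ly.1 (hL h)
        have h4 : f (idx v) = 0 := hf1 _ (by omega)
        exact ⟨h'.1, h'.2.1, by omega, by omega⟩
      · have h' := mem_Ly.1 h
        have h4 : f (idx v) = 0 := hf1 _ (by omega)
        exact ⟨h'.1, h'.2.1, by omega, by omega⟩
    · have e : (L ∪ Ly W S idx 1 (i0 - 1)) ∪ Ly W S (fun v => f (idx v)) 1 1 =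
          L ∪ Ly W S idx 1 i0 := by
        rw [key 1 1 (le_refl _) (le_refl _) (by omega)]
        ext v
        simp only [Finset.mem_union, mem_Ly]
        constructor
        · rintro ((h | ⟨g1, g2, g3, g4⟩) | ⟨g1, g2, g3, g4⟩)
          · exact Or.inl h
          · exact Or.inr ⟨g1, g2, g3, by omega⟩
          · exact Or.inr ⟨g1, g2, by omega, by omega⟩
        · rintro (h | ⟨g1, g2, g3, g4⟩)
          · exact Or.inl (Or.inl h)
          · rcases Nat.lt_or_ge (idx v) i0 with h | h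
            · exact Or.inl (Or.inr ⟨g1, g2, g3, by omega⟩)
            · exact Or.inr ⟨g1, g2, by omega, by omega⟩
      rw [e]
      exact hc i0 h1 (by omega)
  · obtain ⟨R, hb, hR, hc⟩ := H.right
    refine ⟨R ∪ Ly W S idx (j0 + 1) T, Finset.mem_union_left _ hb, ?_, ?_⟩
    · intro v hv
      rw [mem_Ly]
      rcases Finset.mem_union.1 hv with h | h
      · have h' := mem_Ly.1 (hR h)
        have h4 : f (idx v) = j0 - i0 + 2 := hf2 _ (by omega)
        exact ⟨h'.1, h'.2.1, by omega, by omega⟩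
      · have h' := mem_Ly.1 h
        have h4 : f (idx v) = j0 - i0 + 2 := hf2 _ (by omega)
        exact ⟨h'.1, h'.2.1, by omega, by omega⟩
    · have e : (R ∪ Ly W S idx (j0 + 1) T) ∪ Ly W S (fun v => f (idx v)) (j0 - i0 + 1) (j0 - i0 + 1) =
          R ∪ Ly W S idx j0 T := by
        rw [key (j0 - i0 + 1) (j0 - i0 + 1) (by omega) (le_refl _) (le_refl _)]
        ext v
        simp only [Finset.mem_union, mem_Ly]
        constructor
        · rintro ((h | ⟨g1, g2, g3, g4⟩) | ⟨g1, g2, g3, g4⟩)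
          · exact Or.inl h
          · exact Or.inr ⟨g1, g2, by omega, g4⟩
          · exact Or.inr ⟨g1, g2, by omega, by omega⟩
        · rintro (h | ⟨g1, g2, g3, g4⟩)
          · exact Or.inl (Or.inl h)
          · rcases Nat.lt_or_ge j0 (idx v) with h | h
            · exact Or.inl (Or.inr ⟨g1, g2, by omega, g4⟩)
            · exact Or.inr ⟨g1, g2, by omega, by omega⟩
      rw [e]
      exact hc j0 (by omega) h3
  · intro i hi hiT
    rw [key i i hi (le_refl _) hiT]
    exact H.uu _ (by omega) (by omega)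
  · intro i hi hiT
    rw [key i i hi (le_refl _) hiT]
    exact H.att _ (by omega) (by omega)

end Pool.Agent.JNG
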