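import Mathlib
import Pool.Agent.JNG.Defs2

/-!
Choice of m levels of small degree.
Proof. For i < m let the block be the 22 numbers 6 + 22 i, .., 27 + 22 i (inside Icc 1 T because 22 m + 11 <= T), and let l i be an
index with the least value of δ among the first 16 numbers of the block. S = the set of the l i; 6 <= l i, l i + 5 <= T
(l i <= 21 + 22 (m-1)), different l i differ by at least 22 - 15 = 7. For a block: sum over the block of (δ - 6) is at least
16 (δ (l i) - 6), and 22 + 16 (δ (l i) - 6) >= 2 δ (l i) + 10 because δ (l i) >= 6 (14 δ >= 84). Sum over the m >= 1 blocks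
(disjoint, inside Icc 1 T): 22 m + sum over Icc 1 T of (δ - 6) >= 2 sum over S of δ + 10 m.
-/

set_option autoImplicit false

namespace Pool.Agent.JNG

open SimpleGraph Pool.Agent.LNK

theorem cho (m T : ℕ) (hm : 1 ≤ m) (δ : ℕ → ℕ) (hδ : ∀ l, 1 ≤ l → l ≤ T → 6 ≤ δ l) (hT : 22 * m + 11 ≤ T) :
    ∃ S : Finset ℕ, S.card = m ∧ (∀ l ∈ S, 6 ≤ l ∧ l + 5 ≤ T) ∧
      (∀ l ∈ S, ∀ l' ∈ S, l ≠ l' → l + 6 ≤ l' ∨ l' + 6 ≤ l) ∧
      2 * (∑ l ∈ S, δ l) + 10 ≤ T + ∑ l ∈ Finset.Icc 1 T, (δ l - 6) := by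
  classical
  have hex : ∀ i : ℕ, ∃ l ∈ Finset.Icc (6 + 22 * i) (21 + 22 * i),
      ∀ l' ∈ Finset.Icc (6 + 22 * i) (21 + 22 * i), δ l ≤ δ l' := fun i =>
    Finset.exists_min_image _ δ ⟨6 + 22 * i, Finset.mem_Icc.2 ⟨le_refl _, by omega⟩⟩
  choose l hl hmin using hex
  have hl' : ∀ i, 6 + 22 * i ≤ l i ∧ l i ≤ 21 + 22 * i := fun i => Finset.mem_Icc.1 (hl i)
  have hinj : Function.Injective l := by
    intro i j hij
    have h1 := hl' i
    have h2 := hl' j
    rw [hij] at h1
    omega
  refine ⟨(Finset.range m).image l, ?_, ?_, ?_, ?_⟩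
  · rw [Finset.card_image_of_injective _ hinj, Finset.card_range]
  · intro x hx
    obtain ⟨i, hi, rfl⟩ := Finset.mem_image.1 hx
    have h1 := hl' i
    have h2 := Finset.mem_range.1 hi
    omega
  · intro x hx y hy hxy
    obtain ⟨i, hi, rfl⟩ := Finset.mem_image.1 hx
    obtain ⟨j, hj, rfl⟩ := Finset.mem_image.1 hy
    have h1 := hl' i
    have h2 := hl' j
    have h3 : i ≠ j := fun h => hxy (by rw [h])
    omega
  · rw [Finset.sum_image (fun i _ j _ h => hinj h)]
    have h1 : ∑ i ∈ Finset.range m, ∑ x ∈ Finset.Icc (6 + 22 * i) (21 + 22 * i), (δ x - 6)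
        ≤ ∑ x ∈ Finset.Icc 1 T, (δ x - 6) := by
      rw [← Finset.sum_biUnion]
      · apply Finset.sum_le_sum_of_subset
        intro x hx
        rw [Finset.mem_biUnion] at hx
        obtain ⟨i, hi, hx⟩ := hx
        rw [Finset.mem_Icc] at hx ⊢
        have h2 := Finset.mem_range.1 hi
        omega
      · intro i _ j _ hij
        rw [Function.onFun, Finset.disjoint_left]
        intro x hx hx'
        rw [Finset.mem_Icc] at hx hx'
        omega
    have h2 : ∀ i ∈ Finset.range m, 16 * (δ (l i) - 6)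
        ≤ ∑ x ∈ Finset.Icc (6 + 22 * i) (21 + 22 * i), (δ x - 6) := by
      intro i _
      have h3 : ∑ x ∈ Finset.Icc (6 + 22 * i) (21 + 22 * i), (δ (l i) - 6)
          ≤ ∑ x ∈ Finset.Icc (6 + 22 * i) (21 + 22 * i), (δ x - 6) := by
        apply Finset.sum_le_sum
        intro x hx
        have := hmin i x hx
        omega
      rw [Finset.sum_const, Nat.card_Icc, smul_eq_mul] at h3
      have h4 : 21 + 22 * i + 1 - (6 + 22 * i) = 16 := by omega
      rwa [h4] at h3
    have h5 : ∀ i ∈ Finset.range m, 2 * δ (l i) + 10 ≤ 22 + 16 * (δ (l i) - 6) := by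
      intro i hi
      have h6 := hl' i
      have h7 := Finset.mem_range.1 hi
      have h8 := hδ (l i) (by omega) (by omega)
      omega
    have h9 := Finset.sum_le_sum h2
    have h10 := Finset.sum_le_sum h5
    rw [Finset.sum_add_distrib, Finset.sum_add_distrib, Finset.sum_const, Finset.sum_const,
      Finset.card_range, smul_eq_mul, smul_eq_mul, ← Finset.mul_sum] at h10
    omega

end Pool.Agent.JNG
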