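import Mathlib
import Pool.Agent.JNG.Defs2

/-!
The boundary of D on the path p.
(edg) Let i0 and i1 be the least and the largest i < c with p i in D. p 0 = a is not in D, so i0 > 0; x = i0 - 1,
x' = i1 + 1 <= c, p c = h is not in D.
(edp) The same for the indices between c and r: p c = h and p r = a' are not in D.
-/

set_option autoImplicit false

namespace Pool.Agent.JNG

open SimpleGraph Pool.Agent.LNK

variable {V : Type} [Fintype V] {G : SimpleGraph V} {W : Finset V} {a a' b b' h : V} {U : Finset V}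
  {p : ℕ → V} {r c : ℕ} {idx : V → ℕ} {T : ℕ} {Y D : Finset V}

theorem edg (C : Cx G W a a' b b' h U p r c idx T Y) (B : Bad G W a a' b b' Y D) (hh : h ∉ D) (hi : ∃ i, i < c ∧ p i ∈ D) :
    ∃ x x' : ℕ, x < x' ∧ x' ≤ c ∧ p x ∈ Nb G D ∧ p x' ∈ Nb G D ∧ p (x + 1) ∈ D ∧ p (x' - 1) ∈ D ∧
      ∀ i, i < c → p i ∈ D → x < i ∧ i < x' := by
  classical
  obtain ⟨I, hI⟩ : ∃ I : Finset ℕ, I = (Finset.range c).filter (fun i => p i ∈ D) := ⟨_, rfl⟩
  have hmem : ∀ i, i ∈ I ↔ i < c ∧ p i ∈ D := by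
    intro i
    rw [hI, Finset.mem_filter, Finset.mem_range]
  have hne : I.Nonempty := by
    obtain ⟨i, h1⟩ := hi
    exact ⟨i, (hmem i).2 h1⟩
  obtain ⟨h0c, h0D⟩ := (hmem _).1 (Finset.min'_mem I hne)
  obtain ⟨h1c, h1D⟩ := (hmem _).1 (Finset.max'_mem I hne)
  have hmin : ∀ i, i < c → p i ∈ D → I.min' hne ≤ i := fun i h1 h2 =>
    Finset.min'_le I i ((hmem i).2 ⟨h1, h2⟩)
  have hmax : ∀ i, i < c → p i ∈ D → i ≤ I.max' hne := fun i h1 h2 =>
    Finset.le_max' I i ((hmem i).2 ⟨h1, h2⟩)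
  generalize I.min' hne = i0 at h0c h0D hmin
  generalize I.max' hne = i1 at h1c h1D hmax
  have hcr := C.tp.cr
  have hpos : 0 < i0 := by
    rcases Nat.eq_zero_or_pos i0 with h | h
    · rw [h, C.tp.p0] at h0D
      exact absurd (mem_Xs.2 (Or.inl rfl)) (B.dx a h0D)
    · exact h
  have h01 := hmin i1 h1c h1D
  refine ⟨i0 - 1, i1 + 1, by omega, by omega, ?_, ?_, ?_, ?_, ?_⟩
  · refine mem_Nb.2 ⟨fun hD => ?_, p i0, h0D, ?_⟩
    · have := hmin (i0 - 1) (by omega) hD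
      omega
    · have := C.tp.pth.adj (i0 - 1) (by omega)
      rw [Nat.sub_add_cancel hpos] at this
      exact this.symm
  · refine mem_Nb.2 ⟨fun hD => ?_, p i1, h1D, C.tp.pth.adj i1 (by omega)⟩
    rcases Nat.lt_or_ge (i1 + 1) c with h | h
    · have := hmax (i1 + 1) h hD
      omega
    · have h2 : i1 + 1 = c := by omega
      rw [h2, C.tp.pc] at hD
      exact hh hD
  · rw [Nat.sub_add_cancel hpos]
    exact h0D
  · rw [Nat.add_sub_cancel]
    exact h1D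
  · intro i h2 h3
    have h4 := hmin i h2 h3
    have h5 := hmax i h2 h3
    omega

theorem edp (C : Cx G W a a' b b' h U p r c idx T Y) (B : Bad G W a a' b b' Y D) (hh : h ∉ D) (hi : ∃ i, c < i ∧ i ≤ r ∧ p i ∈ D) :
    ∃ x x' : ℕ, c ≤ x ∧ x < x' ∧ x' ≤ r ∧ p x ∈ Nb G D ∧ p x' ∈ Nb G D := by
  classical
  obtain ⟨I, hI⟩ : ∃ I : Finset ℕ, I = (Finset.range (r + 1)).filter (fun i => c < i ∧ p i ∈ D) :=
    ⟨_, rfl⟩
  have hmem : ∀ i, i ∈ I ↔ i < r + 1 ∧ c < i ∧ p i ∈ D := by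
    intro i
    rw [hI, Finset.mem_filter, Finset.mem_range]
  have hne : I.Nonempty := by
    obtain ⟨i, h1, h2, h3⟩ := hi
    exact ⟨i, (hmem i).2 ⟨by omega, h1, h3⟩⟩
  obtain ⟨h0r, h0c, h0D⟩ := (hmem _).1 (Finset.min'_mem I hne)
  obtain ⟨h1r, h1c, h1D⟩ := (hmem _).1 (Finset.max'_mem I hne)
  have hmin : ∀ i, i < r + 1 → c < i → p i ∈ D → I.min' hne ≤ i := fun i h1 h2 h3 =>
    Finset.min'_le I i ((hmem i).2 ⟨h1, h2, h3⟩)
  have hmax : ∀ i, i < r + 1 → c < i → p i ∈ D → i ≤ I.max' hne := fun i h1 h2 h3 =>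
    Finset.le_max' I i ((hmem i).2 ⟨h1, h2, h3⟩)
  generalize I.min' hne = i0 at h0r h0c h0D hmin
  generalize I.max' hne = i1 at h1r h1c h1D hmax
  have h01 := hmin i1 h1r h1c h1D
  have hlt : i1 < r := by
    rcases Nat.lt_or_ge i1 r with h | h
    · exact h
    · have h2 : i1 = r := by omega
      rw [h2, C.tp.pr] at h1D
      exact absurd (mem_Xs.2 (Or.inr (Or.inl rfl))) (B.dx a' h1D)
  refine ⟨i0 - 1, i1 + 1, by omega, by omega, by omega, ?_, ?_⟩
  · refine mem_Nb.2 ⟨fun hD => ?_, p i0, h0D, ?_⟩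
    · rcases Nat.lt_or_ge c (i0 - 1) with h | h
      · have := hmin (i0 - 1) (by omega) h hD
        omega
      · have h2 : i0 - 1 = c := by omega
        rw [h2, C.tp.pc] at hD
        exact hh hD
    · have := C.tp.pth.adj (i0 - 1) (by omega)
      rw [Nat.sub_add_cancel (by omega)] at this
      exact this.symm
  · refine mem_Nb.2 ⟨fun hD => ?_, p i1, h1D, C.tp.pth.adj i1 hlt⟩
    have := hmax (i1 + 1) (by omega) (by omega) hD
    omega

end Pool.Agent.JNG
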