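import Mathlib
import Pool.Agent.JNG.Defs2

/-!
Basic facts for the safety lemma. S = Sg p 0 r. A level l is free if no y in Y has idx y = l. Levels 0, .., 5 and
T - 4, .., T + 1 are free (`yw`), and so are the levels t with 0 < |t - idx y| < 6 for y in Y (`ys`).
(thr) A connected set E outside S that has vertices of levels at most l and at least l has a vertex of level l:
discrete intermediate value along a walk inside E, the level changes by at most 1 (`stp`).
(nyt) An element of Y is no terminal: a = p 0 and a' = p r are in S, b has level 0, b' level T + 1.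
(nyb) The four terminals are not all in Nb G D (they are not in Y, and card (Nb G D minus Y) <= 3), so by `six` (w = a
terminal outside Nb G D) card (Nb G D) >= 6, and Nb G D meets Y in at least 3 elements.
(att3) By `att` at least 4 neighbours of level l are in S, say p x, x <= r; x > c is excluded by `minus`; removing x = c
leaves at least 3 indices.
(hit) Cn.full with E = level l (`cn`, i = j = l); the neighbour found is not in Y because l is free.
(ful) h is adjacent to the vertex of U in level l (`uu`), which is in D; a neighbour of level l is in D or in Nb G D.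
-/

set_option autoImplicit false

namespace Pool.Agent.JNG

open SimpleGraph Pool.Agent.LNK

variable {V : Type} [Fintype V] {G : SimpleGraph V} {W : Finset V} {a a' b b' h : V} {U : Finset V}
  {p : ℕ → V} {r c : ℕ} {idx : V → ℕ} {T : ℕ} {Y D : Finset V}

theorem thr {S : Finset V} {b b' : V} (H : Ch G W S b b' U idx T) {E : Finset V} (hE : Cn G E)
    (hS : ∀ v ∈ E, v ∉ S) {u v : V} (hu : u ∈ E) (hv : v ∈ E) {l : ℕ} (h1 : idx u ≤ l) (h2 : l ≤ idx v) :
    ∃ w ∈ E, idx w = l := by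
  obtain ⟨q, hq⟩ := hE.2 u hu v hv
  have key : ∀ {u v : V} (q : G.Walk u v), (∀ x ∈ q.support, x ∈ E) → idx u ≤ l → l ≤ idx v →
      ∃ w ∈ E, idx w = l := by
    intro u v q
    induction q with
    | @nil u =>
      intro h3 h4 h5
      exact ⟨u, h3 u (by simp), le_antisymm h4 h5⟩
    | @cons u u' v hadj q ih =>
      intro h3 h4 h5
      have hu : u ∈ E := h3 u (by simp)
      have h6 : ∀ x ∈ q.support, x ∈ E := fun x hx => h3 x (by
        rw [Walk.support_cons]; exact List.mem_cons_of_mem _ hx)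
      have hu' : u' ∈ E := h6 u' q.start_mem_support
      rcases Nat.eq_or_lt_of_le h4 with h7 | h7
      · exact ⟨u, hu, h7⟩
      · have h8 := H.stp u u' (hS u hu) (hS u' hu') hadj
        exact ih h6 (by omega) h5
  exact key q (fun x hx => by simpa using hq x hx) h1 h2

theorem nyt (C : Cx G W a a' b b' h U p r c idx T Y) {y : V} (hy : y ∈ Y) : y ∉ Xs a a' b b' := by
  intro hX
  obtain ⟨_, h2, h3, h4⟩ := C.yw y hy
  rw [mem_Xs] at hX
  rcases hX with rfl | rfl | rfl | rfl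
  · exact h2 (mem_Sg.2 ⟨0, le_refl _, Nat.zero_le _, C.tp.p0⟩)
  · exact h2 (mem_Sg.2 ⟨r, Nat.zero_le _, le_refl _, C.tp.pr⟩)
  · rw [C.st.ch.ib] at h3
    omega
  · rw [C.st.ch.ib'] at h4
    omega

open Classical in
theorem nyb (C : Cx G W a a' b b' h U p r c idx T Y) (B : Bad G W a a' b b' Y D) : 3 ≤ (Nb G D ∩ Y).card := by
  have h1 : ∃ w ∈ Xs a a' b b', w ∉ Nb G D := by
    by_contra hcon
    push Not at hcon
    have h2 : Xs a a' b b' ⊆ Nb G D \ Y := by
      intro w hw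
      exact Finset.mem_sdiff.2 ⟨hcon w hw, fun hy => nyt C hy hw⟩
    have h3 := Finset.card_le_card h2
    rw [card_Xs C.ds] at h3
    have h4 := B.nb
    omega
  obtain ⟨w, hw, hwn⟩ := h1
  have h2 := C.six.six D B.dw B.cn.1 ⟨w, C.xw w hw, fun hD => B.dx w hD hw, hwn⟩
  have h3 := Finset.card_sdiff_add_card_inter (Nb G D) Y
  have h4 := B.nb
  omega

theorem att3 (C : Cx G W a a' b b' h U p r c idx T Y) {l : ℕ} (h1 : 1 ≤ l) (h2 : l ≤ T) :
    ∃ F : Finset ℕ, 3 ≤ F.card ∧ ∀ x ∈ F, x < c ∧ p x ∈ Nb G (Ly W (Sg p 0 r) idx l l) := by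
  classical
  obtain ⟨F, hF⟩ : ∃ F : Finset ℕ, F = (Finset.range (c + 1)).filter
      (fun x => p x ∈ Nb G (Ly W (Sg p 0 r) idx l l)) := ⟨_, rfl⟩
  have hsub : Nb G (Ly W (Sg p 0 r) idx l l) ∩ Sg p 0 r ⊆ F.image p := by
    intro v hv
    obtain ⟨hv1, hv2⟩ := Finset.mem_inter.1 hv
    obtain ⟨x, _, hx, rfl⟩ := mem_Sg.1 hv2
    refine Finset.mem_image.2 ⟨x, ?_, rfl⟩
    rw [hF, Finset.mem_filter, Finset.mem_range]
    refine ⟨?_, hv1⟩
    by_contra hcx
    exact C.st.minus l h1 h2 x (by omega) hx hv1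
  have h4 : 4 ≤ F.card := le_trans (C.st.ch.att l h1 h2)
    (le_trans (Finset.card_le_card hsub) Finset.card_image_le)
  refine ⟨F.erase c, ?_, fun x hx => ?_⟩
  · have := Finset.pred_card_le_card_erase (s := F) (a := c)
    omega
  · obtain ⟨hxc, hxF⟩ := Finset.mem_erase.1 hx
    rw [hF, Finset.mem_filter, Finset.mem_range] at hxF
    exact ⟨by omega, hxF.2⟩

theorem hit (C : Cx G W a a' b b' h U p r c idx T Y) (B : Bad G W a a' b b' Y D) {l : ℕ} (h1 : 1 ≤ l) (h2 : l ≤ T) (hf : ∀ y ∈ Y, idx y ≠ l)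
    (hd : ∃ v ∈ Ly W (Sg p 0 r) idx l l, v ∈ D) :
    Ly W (Sg p 0 r) idx l l ⊆ D ∨ ∃ v ∈ Ly W (Sg p 0 r) idx l l, v ∈ Nb G D ∧ v ∉ Y := by
  obtain ⟨u, hu, huD⟩ := hd
  by_cases hc : ∃ v ∈ Ly W (Sg p 0 r) idx l l, v ∈ Nb G D
  · obtain ⟨v, hv, hvn⟩ := hc
    refine Or.inr ⟨v, hv, hvn, fun hy => hf v hy ?_⟩
    obtain ⟨_, _, h3, h4⟩ := mem_Ly.1 hv
    exact le_antisymm h4 h3
  · push Not at hc
    exact Or.inl (Cn.full (C.st.ch.cn l l h1 (le_refl _) h2) hc hu huD)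

theorem ful (C : Cx G W a a' b b' h U p r c idx T Y) (B : Bad G W a a' b b' Y D) (hh : h ∉ D) {l : ℕ} (h1 : 1 ≤ l) (h2 : l ≤ T) (hl : Ly W (Sg p 0 r) idx l l ⊆ D) :
    h ∈ Nb G D ∧ ∃ F : Finset ℕ, 3 ≤ F.card ∧
      ∀ x ∈ F, x < c ∧ p x ∈ Nb G (Ly W (Sg p 0 r) idx l l) ∧ (p x ∈ D ∨ p x ∈ Nb G D) := by
  obtain ⟨u, huU, hu⟩ := C.st.ch.uu l h1 h2
  refine ⟨mem_Nb.2 ⟨hh, u, hl hu, (C.hu u huU).symm⟩, ?_⟩
  obtain ⟨F, hF3, hF⟩ := att3 C h1 h2
  refine ⟨F, hF3, fun x hx => ?_⟩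
  obtain ⟨h3, h4⟩ := hF x hx
  refine ⟨h3, h4, ?_⟩
  obtain ⟨_, v, hv, hvx⟩ := mem_Nb.1 h4
  by_cases hD : p x ∈ D
  · exact Or.inl hD
  · exact Or.inr (mem_Nb.2 ⟨hD, v, hl hv, hvx⟩)

end Pool.Agent.JNG
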