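import Mathlib
import Pool.Agent.JNG.Defs2
import Pool.Agent.JNG.SB1

/-!
A bad set does not contain h.
Proof. Suppose h = p c in D. h is no terminal, so 0 < c < r. The largest i < c with p i not in D (p 0 = a is not in D)
gives p i in Nb G D; the least j > c with p j not in D gives p j in Nb G D. These two elements are in S = Sg p 0 r, so
not in Y. `nyb` shows that Y is nonempty, so T >= 11. Levels 1 and 2 contain vertices u1, u2 of U (`uu`), adjacent to h,
so each is in D or in Nb G D, and not in Y (levels 1, 2 are free); if both were outside D, Nb G D minus Y would have 4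
elements. So D meets E1 = L + Ly 1 2 (Ch.left), which is connected, contains b not in D, and has only levels 0, 1, 2. By
Jn.exit there is an element of Nb G D in E1 (not in S, not in Y). In the same way levels T - 1, T and Ch.right give an
element of Nb G D in R + Ly (T-1) T. Together four elements of Nb G D minus Y, a contradiction.
-/

set_option autoImplicit false

namespace Pool.Agent.JNG

open SimpleGraph Pool.Agent.LNK

variable {V : Type} [Fintype V] {G : SimpleGraph V} {W : Finset V} {a a' b b' h : V} {U : Finset V}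
  {p : ℕ → V} {r c : ℕ} {idx : V → ℕ} {T : ℕ} {Y D : Finset V}

private theorem step_up (P : ℕ → Prop) (n : ℕ) : ∀ m, m ≤ n → ¬ P m → P n →
    ∃ i, m ≤ i ∧ i < n ∧ ¬ P i ∧ P (i + 1) := by
  induction n with
  | zero =>
    intro m hm h0 h1
    have : m = 0 := by omega
    subst this
    exact absurd h1 h0
  | succ n ih =>
    intro m hm h0 h1
    by_cases hn : P n
    · rcases Nat.lt_or_ge m (n + 1) with h | h
      · obtain ⟨i, hi1, hi2, hi3, hi4⟩ := ih m (by omega) h0 hn
        exact ⟨i, hi1, by omega, hi3, hi4⟩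
      · have : m = n + 1 := by omega
        subst this
        exact absurd h1 h0
    · rcases Nat.lt_or_ge m (n + 1) with h | h
      · exact ⟨n, by omega, by omega, hn, h1⟩
      · have : m = n + 1 := by omega
        subst this
        exact absurd h1 h0

theorem sfa (C : Cx G W a a' b b' h U p r c idx T Y) (B : Bad G W a a' b b' Y D) : h ∉ D := by
  classical
  intro hD
  have hXa : a ∉ D := fun hh => B.dx a hh (mem_Xs.2 (Or.inl rfl))
  have hXa' : a' ∉ D := fun hh => B.dx a' hh (mem_Xs.2 (Or.inr (Or.inl rfl)))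
  have hXb : b ∉ D := fun hh => B.dx b hh (mem_Xs.2 (Or.inr (Or.inr (Or.inl rfl))))
  have hXb' : b' ∉ D := fun hh => B.dx b' hh (mem_Xs.2 (Or.inr (Or.inr (Or.inr rfl))))
  have hSg : ∀ x, x ≤ r → p x ∈ Sg p 0 r := by
    intro x hx
    unfold Sg
    exact Finset.mem_image.2 ⟨x, Finset.mem_Icc.2 ⟨Nat.zero_le _, hx⟩, rfl⟩
  have hcr := C.tp.cr
  -- the neighbour before `h`
  obtain ⟨i, _, hic, hi1, hi2⟩ := step_up (fun x => p x ∈ D) c 0 (Nat.zero_le _)
    (by rw [C.tp.p0]; exact hXa) (by rw [C.tp.pc]; exact hD)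
  have hx1 : p i ∈ Nb G D :=
    mem_Nb.2 ⟨hi1, p (i + 1), hi2, (C.tp.pth.adj i (by omega)).symm⟩
  -- the neighbour after `h`
  obtain ⟨j, hcj, hjr, hj1, hj2⟩ := step_up (fun x => p x ∉ D) r c hcr
    (by rw [C.tp.pc]; exact fun hh => hh hD) (by rw [C.tp.pr]; exact hXa')
  have hj1' : p j ∈ D := not_not.1 hj1
  have hx2 : p (j + 1) ∈ Nb G D :=
    mem_Nb.2 ⟨hj2, p j, hj1', C.tp.pth.adj j hjr⟩
  have hx12 : p i ≠ p (j + 1) := by
    intro hh
    have := C.tp.pth.inj i (j + 1) (by omega) (by omega) hh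
    omega
  have hSY : ∀ v ∈ Sg p 0 r, v ∉ Y := fun v hv hvY => (C.yw v hvY).2.1 hv
  -- `Y` is nonempty
  have hT : 11 ≤ T := by
    have h3 := nyb C B
    have hne : (Nb G D ∩ Y).Nonempty := by
      rw [← Finset.card_pos]
      omega
    obtain ⟨y, hy⟩ := hne
    have := C.yw y (Finset.mem_inter.1 hy).2
    omega
  have hch := C.st.ch
  -- the left part
  obtain ⟨L, hbL, hL, hLc⟩ := hch.cl
  obtain ⟨u1, hu1U, hu1⟩ := hch.uu 1 (le_refl _) (by omega)
  have hz1 : ∃ z ∈ Nb G D, z ∉ Sg p 0 r ∧ idx z ≤ 1 := by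
    by_cases hu1D : u1 ∈ D
    · by_contra hno
      push Not at hno
      have hsub : L ∪ Ly W (Sg p 0 r) idx 1 1 ⊆ D := by
        refine hLc.full (fun v hv hvN => ?_) (Finset.mem_union_right _ hu1) hu1D
        rcases Finset.mem_union.1 hv with hv | hv
        · have h1 := mem_Ly.1 (hL hv)
          have := hno v hvN h1.2.1
          omega
        · have h1 := mem_Ly.1 hv
          have := hno v hvN h1.2.1
          omega
      exact hXb (hsub (Finset.mem_union_left _ hbL))
    · have h1 := mem_Ly.1 hu1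
      exact ⟨u1, mem_Nb.2 ⟨hu1D, h, hD, C.hu u1 hu1U⟩, h1.2.1, h1.2.2.2⟩
  -- the right part
  obtain ⟨R, hbR, hR, hRc⟩ := hch.cr
  obtain ⟨u2, hu2U, hu2⟩ := hch.uu T (by omega) (le_refl _)
  have hz2 : ∃ z ∈ Nb G D, z ∉ Sg p 0 r ∧ T ≤ idx z := by
    by_cases hu2D : u2 ∈ D
    · by_contra hno
      push Not at hno
      have hsub : R ∪ Ly W (Sg p 0 r) idx T T ⊆ D := by
        refine hRc.full (fun v hv hvN => ?_) (Finset.mem_union_right _ hu2) hu2D
        rcases Finset.mem_union.1 hv with hv | hv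
        · have h1 := mem_Ly.1 (hR hv)
          have := hno v hvN h1.2.1
          omega
        · have h1 := mem_Ly.1 hv
          have := hno v hvN h1.2.1
          omega
      exact hXb' (hsub (Finset.mem_union_left _ hbR))
    · have h1 := mem_Ly.1 hu2
      exact ⟨u2, mem_Nb.2 ⟨hu2D, h, hD, C.hu u2 hu2U⟩, h1.2.1, h1.2.2.1⟩
  obtain ⟨z1, hz1N, hz1S, hz1i⟩ := hz1
  obtain ⟨z2, hz2N, hz2S, hz2i⟩ := hz2
  have hz1Y : z1 ∉ Y := fun hh => by
    have := C.yw z1 hh
    omega
  have hz2Y : z2 ∉ Y := fun hh => by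
    have := C.yw z2 hh
    omega
  have hz12 : z1 ≠ z2 := by
    intro hh
    rw [hh] at hz1i
    omega
  have hS1 := hSg i (by omega)
  have hS2 := hSg (j + 1) (by omega)
  have hsub : ({p i, p (j + 1), z1, z2} : Finset V) ⊆ Nb G D \ Y := by
    intro v hv
    simp only [Finset.mem_insert, Finset.mem_singleton] at hv
    rw [Finset.mem_sdiff]
    rcases hv with rfl | rfl | rfl | rfl
    · exact ⟨hx1, hSY _ hS1⟩
    · exact ⟨hx2, hSY _ hS2⟩
    · exact ⟨hz1N, hz1Y⟩
    · exact ⟨hz2N, hz2Y⟩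
  have hcard : ({p i, p (j + 1), z1, z2} : Finset V).card = 4 := by
    have n1 : p i ≠ z1 := fun hh => hz1S (hh ▸ hS1)
    have n2 : p i ≠ z2 := fun hh => hz2S (hh ▸ hS1)
    have n3 : p (j + 1) ≠ z1 := fun hh => hz1S (hh ▸ hS2)
    have n4 : p (j + 1) ≠ z2 := fun hh => hz2S (hh ▸ hS2)
    rw [Finset.card_insert_of_notMem (by simp [hx12, n1, n2]),
      Finset.card_insert_of_notMem (by simp [n3, n4]), Finset.card_pair hz12]
  have h4 := Finset.card_le_card hsub
  have h3 := B.nb
  rw [hcard] at h4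
  omega

end Pool.Agent.JNG
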