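import Mathlib
import Pool.Agent.JNG.Defs2
import Pool.Agent.JNG.SB1
import Pool.Agent.JNG.SFA

/-!
A bad set meets the path p.
Proof. Suppose not: D is disjoint from S = Sg p 0 r. By `nyb` there are y1, y2, y3 in Nb G D and Y with idx y1 + 6 <= idx y2,
idx y2 + 6 <= idx y3 (`ys`). D has a vertex v1 adjacent to y1, level at most idx y1 + 1, and a vertex v3 adjacent to y3,
level at least idx y3 - 1 (`stp`). By `thr` D meets the four free levels l = idx y1 + 1, .., idx y1 + 4. If one of them is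
contained in D, `ful` (h not in D by `sfa`) gives h in Nb G D and three indices x < c with p x in Nb G D (D is disjoint from
S): four elements of Nb G D in S, not in Y, a contradiction. So by `hit` every one of the four levels contains an element
of Nb G D minus Y: a contradiction.
-/

set_option autoImplicit false

namespace Pool.Agent.JNG

open SimpleGraph Pool.Agent.LNK

variable {V : Type} [Fintype V] {G : SimpleGraph V} {W : Finset V} {a a' b b' h : V} {U : Finset V}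
  {p : ℕ → V} {r c : ℕ} {idx : V → ℕ} {T : ℕ} {Y D : Finset V}

theorem sfb_four (C : Cx G W a a' b b' h U p r c idx T Y) (B : Bad G W a a' b b' Y D) (I : Finset ℕ)
    (hI : 4 ≤ I.card) (hi : ∀ i ∈ I, i ≤ r ∧ p i ∈ Nb G D) : False := by
  classical
  have h1 : I.image p ⊆ Nb G D \ Y := by
    intro v hv
    obtain ⟨i, hiI, rfl⟩ := Finset.mem_image.1 hv
    refine Finset.mem_sdiff.2 ⟨(hi i hiI).2, fun hy => ?_⟩
    exact (C.yw _ hy).2.1 (mem_Sg.2 ⟨i, Nat.zero_le _, (hi i hiI).1, rfl⟩)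
  have h2 : (I.image p).card = I.card := by
    apply Finset.card_image_of_injOn
    intro i hi1 j hj1 hij
    exact C.tp.pth.inj i j (hi i hi1).1 (hi j hj1).1 hij
  have h3 := Finset.card_le_card h1
  have h4 : (Nb G D \ Y).card ≤ 3 := B.nb
  omega

theorem sfb (C : Cx G W a a' b b' h U p r c idx T Y) (B : Bad G W a a' b b' Y D) : ∃ i, i ≤ r ∧ p i ∈ D := by
  classical
  by_contra hcon
  push Not at hcon
  have hDS : ∀ v ∈ D, v ∉ Sg p 0 r := by
    intro v hv hvS
    obtain ⟨i, _, hir, rfl⟩ := mem_Sg.1 hvS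
    exact hcon i hir hv
  have hcr := C.tp.cr
  -- two neighbours in Y
  have h3 : 3 ≤ (Nb G D ∩ Y).card := nyb C B
  obtain ⟨y1, hy1, y2, hy2, hne⟩ := Finset.one_lt_card.1 (show 1 < (Nb G D ∩ Y).card by omega)
  have key : ∃ y1 y2, y1 ∈ Nb G D ∧ y1 ∈ Y ∧ y2 ∈ Nb G D ∧ y2 ∈ Y ∧ idx y1 + 6 ≤ idx y2 := by
    obtain ⟨ha1, ha2⟩ := Finset.mem_inter.1 hy1
    obtain ⟨hb1, hb2⟩ := Finset.mem_inter.1 hy2
    rcases C.ys y1 ha2 y2 hb2 hne with h | h
    · exact ⟨y1, y2, ha1, ha2, hb1, hb2, h⟩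
    · exact ⟨y2, y1, hb1, hb2, ha1, ha2, h⟩
  clear hy1 hy2 hne y1 y2
  obtain ⟨y1, y2, hn1, hy1, hn2, hy2, h12⟩ := key
  obtain ⟨_, hyS1, hy16, hy1T⟩ := C.yw y1 hy1
  obtain ⟨_, hyS2, _, hy2T⟩ := C.yw y2 hy2
  obtain ⟨_, v1, hv1, hadj1⟩ := mem_Nb.1 hn1
  obtain ⟨_, v2, hv2, hadj2⟩ := mem_Nb.1 hn2
  have hl1 := C.st.ch.stp y1 v1 hyS1 (hDS v1 hv1) hadj1.symm
  have hl2 := C.st.ch.stp v2 y2 (hDS v2 hv2) hyS2 hadj2
  have hlev : ∀ l, idx y1 < l → l ≤ idx y1 + 4 → ∃ v ∈ Nb G D \ Y, idx v = l := by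
    intro l hl hl'
    obtain ⟨w, hw, hwl⟩ := thr C.st.ch B.cn hDS hv1 hv2 (l := l) (by omega) (by omega)
    have hfree : ∀ y ∈ Y, idx y ≠ l := by
      intro y hy hyl
      by_cases hyy : y = y1
      · rw [hyy] at hyl
        omega
      · rcases C.ys y hy y1 hy1 hyy with h | h <;> omega
    have hwL : w ∈ Ly W (Sg p 0 r) idx l l :=
      mem_Ly.2 ⟨B.dw hw, hDS w hw, hwl.ge, hwl.le⟩
    rcases hit C B (l := l) (by omega) (by omega) hfree ⟨w, hwL, hw⟩ with h | ⟨v, hv, hvn, hvy⟩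
    · exfalso
      obtain ⟨hhn, F, hF3, hF⟩ := ful C B (sfa C B) (l := l) (by omega) (by omega) h
      have hcF : c ∉ F := fun hc => absurd (hF c hc).1 (lt_irrefl c)
      refine sfb_four C B (insert c F) ?_ ?_
      · rw [Finset.card_insert_of_notMem hcF]
        omega
      · intro i hi
        rcases Finset.mem_insert.1 hi with rfl | hi
        · rw [C.tp.pc]
          exact ⟨hcr, hhn⟩
        · obtain ⟨h5, _, h6⟩ := hF i hi
          rcases h6 with h6 | h6
          · exact absurd h6 (hcon i (by omega))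
          · exact ⟨by omega, h6⟩
    · refine ⟨v, Finset.mem_sdiff.2 ⟨hvn, hvy⟩, ?_⟩
      obtain ⟨_, _, h5, h6⟩ := mem_Ly.1 hv
      exact le_antisymm h6 h5
  have hsub : Finset.Icc (idx y1 + 1) (idx y1 + 4) ⊆ (Nb G D \ Y).image idx := by
    intro l hl
    rw [Finset.mem_Icc] at hl
    obtain ⟨v, hv, hvl⟩ := hlev l (by omega) hl.2
    exact Finset.mem_image.2 ⟨v, hv, hvl⟩
  have h5 := Finset.card_le_card hsub
  rw [Nat.card_Icc] at h5
  have h6 : ((Nb G D \ Y).image idx).card ≤ (Nb G D \ Y).card := Finset.card_image_le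
  have h7 : (Nb G D \ Y).card ≤ 3 := B.nb
  omega

end Pool.Agent.JNG
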