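import Mathlib
import Pool.Agent.JNG.Defs2
import Pool.Agent.JNG.SB1
import Pool.Agent.JNG.SB2
import Pool.Agent.JNG.SFA
import Pool.Agent.JNG.SFB

/-!
A bad set meets the path p before h.
Proof. Suppose not. By `sfb` and `sfa` there is i with c < i <= r and p i in D. `edp`: c <= x < x' <= r with p x, p x' in
Nb G D; so at most one more element in Nb G D minus Y. Let y be in Nb G D and Y (`nyb`), v in D adjacent to y, 1 <= idx y <= T.
v is not p j with j < c (assumption), not h (`sfa`), not p j with j > c (`minus`, level idx y). So v is not in S, and its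
level differs from idx y by at most 1. Take a walk inside D from v to p i, let w be the last vertex before the first vertex
p j of S on it; then c < j (as before), w is outside S, in D, joined to v inside D minus S. If 1 <= idx w <= T, this is
against `minus`. So idx w = 0 or idx w = T + 1. By `thr` (E = vertices of the initial part) D meets the free levels 1, 2, 3, 4
(idx v >= 5), or the free levels T - 3, .., T (idx v <= T - 4). By `hit` each is contained in D or contains an element of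
Nb G D minus Y, outside S; the latter at most once. So some level l is contained in D, and `ful` gives three indices x < c with
p x in Nb G D (not in D by assumption). Together with p x' (x' > c) four elements: a contradiction.
-/

set_option autoImplicit false

namespace Pool.Agent.JNG

open SimpleGraph Pool.Agent.LNK

variable {V : Type} [Fintype V] {G : SimpleGraph V} {W : Finset V} {a a' b b' h : V} {U : Finset V}
  {p : ℕ → V} {r c : ℕ} {idx : V → ℕ} {T : ℕ} {Y D : Finset V}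

theorem sfc (C : Cx G W a a' b b' h U p r c idx T Y) (B : Bad G W a a' b b' Y D) : ∃ i, i < c ∧ p i ∈ D := by
  classical
  by_contra hcon
  push Not at hcon
  have hh : h ∉ D := sfa C B
  have hpc : p c ∉ D := by
    rw [C.tp.pc]
    exact hh
  obtain ⟨i0, hi0r, hi0D⟩ := sfb C B
  have hci0 : c < i0 := by
    rcases lt_trichotomy i0 c with h1 | h1 | h1
    · exact absurd hi0D (hcon i0 h1)
    · rw [h1] at hi0D
      exact absurd hi0D hpc
    · exact h1
  obtain ⟨x, x', hcx, hxx', hx'r, hx, hx'⟩ := edp C B hh ⟨i0, hci0, hi0r, hi0D⟩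
  have hSg : ∀ j, j ≤ r → p j ∈ Sg p 0 r := fun j hj => mem_Sg.2 ⟨j, Nat.zero_le _, hj, rfl⟩
  have hpY : ∀ j, j ≤ r → p j ∉ Y := fun j hj hy => (C.yw _ hy).2.1 (hSg j hj)
  -- at most one more element
  have uniq : ∀ z1 z2 : V, z1 ∈ Nb G D → z1 ∉ Y → z1 ∉ Sg p 0 r → z2 ∈ Nb G D → z2 ∉ Y → z2 ∉ Sg p 0 r →
      z1 = z2 := by
    intro z1 z2 h1 h2 h3 h4 h5 h6
    by_contra hne
    have hpx : p x ≠ p x' := fun he => by
      have := C.tp.pth.inj x x' (by omega) hx'r he
      omega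
    have hsub : ({p x, p x', z1, z2} : Finset V) ⊆ Nb G D \ Y := by
      intro v hv
      simp only [Finset.mem_insert, Finset.mem_singleton] at hv
      rcases hv with rfl | rfl | rfl | rfl
      · exact Finset.mem_sdiff.2 ⟨hx, hpY x (by omega)⟩
      · exact Finset.mem_sdiff.2 ⟨hx', hpY x' hx'r⟩
      · exact Finset.mem_sdiff.2 ⟨h1, h2⟩
      · exact Finset.mem_sdiff.2 ⟨h4, h5⟩
    have hcard : ({p x, p x', z1, z2} : Finset V).card = 4 := by
      have e1 : p x ≠ z1 := fun he => h3 (he ▸ hSg x (by omega))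
      have e2 : p x ≠ z2 := fun he => h6 (he ▸ hSg x (by omega))
      have e3 : p x' ≠ z1 := fun he => h3 (he ▸ hSg x' hx'r)
      have e4 : p x' ≠ z2 := fun he => h6 (he ▸ hSg x' hx'r)
      rw [Finset.card_insert_of_notMem (by simp [hpx, e1, e2]),
        Finset.card_insert_of_notMem (by simp [e3, e4]), Finset.card_pair hne]
    have h7 := Finset.card_le_card hsub
    rw [hcard] at h7
    have h8 : (Nb G D \ Y).card ≤ 3 := B.nb
    omega
  -- two free levels which meet D give a contradiction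
  have two : ∀ l1 l2 : ℕ, 1 ≤ l1 → l1 ≤ T → 1 ≤ l2 → l2 ≤ T → l1 ≠ l2 → (∀ y ∈ Y, idx y ≠ l1) →
      (∀ y ∈ Y, idx y ≠ l2) → (∃ w ∈ Ly W (Sg p 0 r) idx l1 l1, w ∈ D) →
      (∃ w ∈ Ly W (Sg p 0 r) idx l2 l2, w ∈ D) → False := by
    intro l1 l2 h11 h12 h21 h22 hne hf1 hf2 hw1 hw2
    have full : ∀ l, 1 ≤ l → l ≤ T → Ly W (Sg p 0 r) idx l l ⊆ D → False := by
      intro l hl1 hl2 hl
      obtain ⟨_, F, hF3, hF⟩ := ful C B hh hl1 hl2 hl
      have hxF : x' ∉ F := fun hm => by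
        have := (hF x' hm).1
        omega
      refine sfb_four C B (insert x' F) ?_ ?_
      · rw [Finset.card_insert_of_notMem hxF]
        omega
      · intro i hi
        rcases Finset.mem_insert.1 hi with rfl | hi
        · exact ⟨hx'r, hx'⟩
        · obtain ⟨h5, _, h6⟩ := hF i hi
          have hcr := C.tp.cr
          rcases h6 with h6 | h6
          · exact absurd h6 (hcon i h5)
          · exact ⟨by omega, h6⟩
    rcases hit C B h11 h12 hf1 hw1 with g1 | ⟨z1, hz1, hz1n, hz1y⟩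
    · exact full l1 h11 h12 g1
    · rcases hit C B h21 h22 hf2 hw2 with g2 | ⟨z2, hz2, hz2n, hz2y⟩
      · exact full l2 h21 h22 g2
      · obtain ⟨_, a1, a2, a3⟩ := mem_Ly.1 hz1
        obtain ⟨_, b1, b2, b3⟩ := mem_Ly.1 hz2
        have he := uniq z1 z2 hz1n hz1y a1 hz2n hz2y b1
        rw [he] at a2 a3
        omega
  -- the element y and its neighbour v in D
  have h3 : 3 ≤ (Nb G D ∩ Y).card := nyb C B
  obtain ⟨y, hy⟩ := Finset.card_pos.1 (show 0 < (Nb G D ∩ Y).card by omega)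
  obtain ⟨hyN, hyY⟩ := Finset.mem_inter.1 hy
  obtain ⟨hyW, hyS, hy6, hyT⟩ := C.yw y hyY
  obtain ⟨_, v, hvD, hvy⟩ := mem_Nb.1 hyN
  -- an element of D in S has index greater than c
  have hDS : ∀ z ∈ D, z ∈ Sg p 0 r → ∃ j, c < j ∧ j ≤ r ∧ p j = z := by
    intro z hz hzS
    obtain ⟨j, _, hjr, hj⟩ := mem_Sg.1 hzS
    refine ⟨j, ?_, hjr, hj⟩
    rcases lt_trichotomy j c with h1 | h1 | h1
    · exact absurd (hj ▸ hz) (hcon j h1)
    · rw [h1] at hj
      exact absurd (hj ▸ hz) hpc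
    · exact h1
  -- such an element has no neighbour in the levels 1, .., T
  have hmin : ∀ z ∈ D, z ∈ Sg p 0 r → ∀ w ∈ W, w ∉ Sg p 0 r → G.Adj w z → 1 ≤ idx w → idx w ≤ T → False := by
    intro z hz hzS w hwW hwS hwz hw1 hwT
    obtain ⟨j, hcj, hjr, rfl⟩ := hDS z hz hzS
    refine C.st.minus (idx w) hw1 hwT j hcj hjr (mem_Nb.2 ⟨fun hm => (mem_Ly.1 hm).2.1 hzS, w, ?_, hwz⟩)
    exact mem_Ly.2 ⟨hwW, hwS, le_refl _, le_refl _⟩
  have hvS : v ∉ Sg p 0 r := fun hvS => hmin v hvD hvS y hyW hyS hvy.symm (by omega) (by omega)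
  have hs1 := C.st.ch.stp y v hyS hvS hvy.symm
  have hs2 := C.st.ch.stp v y hvS hyS hvy
  -- the component of v
  obtain ⟨E, hE⟩ : ∃ E : Finset V, E = Finset.univ.filter
      (fun z => Jn G {z | z ∈ D ∧ z ∉ Sg p 0 r} v z) := ⟨_, rfl⟩
  have hmE : ∀ z, z ∈ E ↔ Jn G {z | z ∈ D ∧ z ∉ Sg p 0 r} v z := by
    intro z
    rw [hE, Finset.mem_filter]
    exact ⟨fun h => h.2, fun h => ⟨Finset.mem_univ _, h⟩⟩
  have hvE : v ∈ E := (hmE v).2 (Jn.refl ⟨hvD, hvS⟩)
  have hED : ∀ z ∈ E, z ∈ D ∧ z ∉ Sg p 0 r := by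
    intro z hz
    have h5 : z ∈ {z | z ∈ D ∧ z ∉ Sg p 0 r} := Jn.right_mem ((hmE z).1 hz)
    exact h5
  have hCE : Cn G E := by
    refine ⟨⟨v, hvE⟩, ?_⟩
    have key : ∀ z ∈ E, Jn G (E : Set V) v z := by
      intro z hz
      obtain ⟨q, hq⟩ := (hmE z).1 hz
      refine ⟨q, fun s hs => ?_⟩
      refine (hmE s).2 ⟨q.takeUntil s hs, fun t ht => hq t (q.support_takeUntil_subset_support hs ht)⟩
    intro u hu w hw
    exact (key u hu).symm.trans (key w hw)
  have hESg : ∀ z ∈ E, z ∉ Sg p 0 r := fun z hz => (hED z hz).2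
  -- an edge from E to S
  obtain ⟨w, z, hwE, hzD, hzS, hwz⟩ : ∃ w z, w ∈ E ∧ z ∈ D ∧ z ∈ Sg p 0 r ∧ G.Adj w z := by
    obtain ⟨q, hq⟩ := B.cn.2 v hvD (p i0) hi0D
    have hi0E : p i0 ∉ (E : Set V) := fun hm => (hED _ hm).2 (hSg i0 hi0r)
    obtain ⟨d, hd, hd1, hd2⟩ := q.exists_boundary_dart (E : Set V) hvE hi0E
    have hsD : d.snd ∈ D := hq _ (q.dart_snd_mem_support_of_mem_darts hd)
    refine ⟨d.fst, d.snd, hd1, hsD, ?_, d.adj⟩
    by_contra hnS
    refine hd2 ((hmE _).2 (((hmE _).1 hd1).trans (Jn.of_adj d.adj ?_ ?_)))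
    · exact hED _ hd1
    · exact ⟨hsD, hnS⟩
  obtain ⟨hwD, hwS⟩ := hED w hwE
  have hwW := B.dw hwD
  have hwle := C.st.ch.le w hwW hwS
  have hlevE : ∀ l, (∃ t ∈ E, idx t = l) → ∃ t ∈ Ly W (Sg p 0 r) idx l l, t ∈ D := by
    rintro l ⟨t, ht, htl⟩
    exact ⟨t, mem_Ly.2 ⟨B.dw (hED t ht).1, (hED t ht).2, htl.ge, htl.le⟩, (hED t ht).1⟩
  have hfl : ∀ l, l ≤ 5 → ∀ y ∈ Y, idx y ≠ l := by
    intro l hl y' hy' he
    have := (C.yw y' hy').2.2.1
    omega
  have hfr : ∀ l, T ≤ l + 4 → ∀ y ∈ Y, idx y ≠ l := by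
    intro l hl y' hy' he
    have := (C.yw y' hy').2.2.2
    omega
  rcases Nat.eq_zero_or_pos (idx w) with hw0 | hw0
  · refine two 1 2 (le_refl _) (by omega) (by omega) (by omega) (by omega) (hfl 1 (by omega))
      (hfl 2 (by omega)) (hlevE 1 ?_) (hlevE 2 ?_)
    · exact thr C.st.ch hCE hESg hwE hvE (by omega) (by omega)
    · exact thr C.st.ch hCE hESg hwE hvE (by omega) (by omega)
  · by_cases hwT : idx w ≤ T
    · exact hmin z hzD hzS w hwW hwS hwz hw0 hwT
    · refine two T (T - 1) (by omega) (le_refl _) (by omega) (by omega) (by omega) (hfr T (by omega))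
        (hfr (T - 1) (by omega)) (hlevE T ?_) (hlevE (T - 1) ?_)
      · exact thr C.st.ch hCE hESg hvE hwE (by omega) (by omega)
      · exact thr C.st.ch hCE hESg hvE hwE (by omega) (by omega)

end Pool.Agent.JNG
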