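import Mathlib
import Pool.Agent.JNG.Defs2
import Pool.Agent.JNG.SB1
import Pool.Agent.JNG.SB2
import Pool.Agent.JNG.SFA
import Pool.Agent.JNG.SFC

/-!
Left witness on the path for a level l which is disjoint from D and from Nb G D.
Proof (for the left version; the right one is symmetric, with levels T-3, .., T in place of 1, .., 4). Let v in D be adjacent
to y. If v = p i: i = c is excluded (`sfa`), i > c is excluded by `minus` (level idx y), so i < c, and p i is a neighbour of
level idx y < l, so `mono` gives i <= x for all x < c with p x in Nb G (level l).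
Otherwise v is not in S; idx v <= idx y + 1 <= l and v is not in level l, so idx v < l. By `sfc` there is p i0 in D with
i0 < c. Take a walk inside D from v to p i0, let p j be its first vertex in S and w the vertex before; the vertices up to w
form a connected set E inside D minus S, which does not meet level l, so by `thr` all its levels are less than l.
If idx w >= 1: j = c is excluded, j > c is excluded by `minus`, so j < c and `mono` (idx w < l) gives the claim with i = j.
If idx w = 0: E meets the free levels 1, 2, 3, 4 (idx v >= idx y - 1 >= 5). By `edg` two elements of Nb G D are in S; by `hit`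
each of the four levels is contained in D or contains an element of Nb G D minus Y outside S, the latter at most once. So
some level t <= 4 < l is contained in D. `ful`: h in Nb G D and three indices x < c with p x in Nb G (level t) and p x in D or in
Nb G D. If none of them were in D there would be four elements (with h) in Nb G D minus Y. So p x in D for one of them, and
`mono` (t < l) gives the claim with i = x.
-/

set_option autoImplicit false

namespace Pool.Agent.JNG

open SimpleGraph Pool.Agent.LNK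

/-- a walk inside `D` from a vertex outside `S` to a vertex of `S`: the part before the first vertex
in `S` -/
theorem sfl_first {V : Type} {G : SimpleGraph V} {D S : Finset V} {v u : V} (h : Jn G (D : Set V) v u)
    (hv : v ∉ S) (hu : u ∈ S) : ∃ E : Finset V, Cn G E ∧ v ∈ E ∧ (∀ x ∈ E, x ∈ D ∧ x ∉ S) ∧
      ∃ w ∈ E, ∃ z ∈ D, z ∈ S ∧ G.Adj w z := by
  classical
  obtain ⟨w, hw⟩ := h
  induction w with
  | nil => exact absurd hu hv
  | @cons v v' u hadj q ih =>
    have h1 : ∀ x ∈ q.support, x ∈ (D : Set V) := fun x hx => hw x (by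
      rw [Walk.support_cons]; exact List.mem_cons_of_mem _ hx)
    have hvD : v ∈ D := by
      have := hw v (Walk.start_mem_support _)
      exact Finset.mem_coe.1 this
    have hvC : Cn G {v} := by
      refine ⟨⟨v, Finset.mem_singleton_self v⟩, fun x hx y hy => ?_⟩
      rw [Finset.mem_singleton.1 hx, Finset.mem_singleton.1 hy]
      exact Jn.refl (by simp)
    by_cases h : v' ∈ S
    · refine ⟨{v}, hvC, Finset.mem_singleton_self v, fun x hx => ?_, v, Finset.mem_singleton_self v,
        v', ?_, h, hadj⟩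
      · rw [Finset.mem_singleton.1 hx]
        exact ⟨hvD, hv⟩
      · exact Finset.mem_coe.1 (h1 _ q.start_mem_support)
    · obtain ⟨E, hE, hvE, hED, w, hwE, z, hz, hzS, hwz⟩ := ih h hu h1
      refine ⟨{v} ∪ E, hvC.union hE (Finset.mem_singleton_self v) hvE (Or.inr hadj),
        Finset.mem_union_left _ (Finset.mem_singleton_self v), fun x hx => ?_, w,
        Finset.mem_union_right _ hwE, z, hz, hzS, hwz⟩
      rcases Finset.mem_union.1 hx with hx | hx
      · rw [Finset.mem_singleton.1 hx]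
        exact ⟨hvD, hv⟩
      · exact hED x hx

variable {V : Type} [Fintype V] {G : SimpleGraph V} {W : Finset V} {a a' b b' h : V} {U : Finset V}
  {p : ℕ → V} {r c : ℕ} {idx : V → ℕ} {T : ℕ} {Y D : Finset V}

theorem sfl (C : Cx G W a a' b b' h U p r c idx T Y) (B : Bad G W a a' b b' Y D) {l : ℕ} (h1 : 1 ≤ l) (h2 : l ≤ T)
    (hD : ∀ v ∈ Ly W (Sg p 0 r) idx l l, v ∉ D) (hN : ∀ v ∈ Ly W (Sg p 0 r) idx l l, v ∉ Nb G D) {y : V} (hy : y ∈ Nb G D) (hyY : y ∈ Y)
    (hyl : idx y < l) : ∃ i, i < c ∧ p i ∈ D ∧ ∀ x, x < c → p x ∈ Nb G (Ly W (Sg p 0 r) idx l l) → i ≤ x := by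
  classical
  have hins := C.six.ins
  have hhD := sfa C B
  obtain ⟨hyW, hyS, hy6, hyT⟩ := C.yw y hyY
  have hmemS : ∀ {z}, z ∈ Sg p 0 r → ∃ j, j ≤ r ∧ p j = z := fun {z} hz => by
    obtain ⟨j, _, hj, hjz⟩ := mem_Sg.1 hz
    exact ⟨j, hj, hjz⟩
  -- a vertex of the path in `D` adjacent to a vertex of level between `l` and `T`
  have step : ∀ w z, w ∈ W → w ∉ Sg p 0 r → 1 ≤ idx w → idx w < l → z ∈ D → z ∈ Sg p 0 r →
      G.Adj w z → ∃ i, i < c ∧ p i ∈ D ∧ ∀ x, x < c →
        p x ∈ Nb G (Ly W (Sg p 0 r) idx l l) → i ≤ x := by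
    intro w z hwW hwS hw1 hwl hzD hzS hwz
    obtain ⟨j, hj, rfl⟩ := hmemS hzS
    have hnb : p j ∈ Nb G (Ly W (Sg p 0 r) idx (idx w) (idx w)) := by
      refine mem_Nb.2 ⟨fun h => ?_, w, mem_Ly.2 ⟨hwW, hwS, le_rfl, le_rfl⟩, hwz⟩
      exact (mem_Ly.1 h).2.1 hzS
    have hjc : j < c := by
      rcases lt_trichotomy j c with h | h | h
      · exact h
      · rw [h, C.tp.pc] at hzD
        exact absurd hzD hhD
      · exact absurd hnb (C.st.minus (idx w) hw1 (by omega) j h hj)
    exact ⟨j, hjc, hzD, fun x hx hxn => C.st.mono (idx w) l hw1 hwl h2 j x hjc hx hnb hxn⟩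
  obtain ⟨hyD, v, hvD, hvy⟩ := mem_Nb.1 hy
  by_cases hvS : v ∈ Sg p 0 r
  · exact step y v hyW hyS (by omega) hyl hvD hvS hvy.symm
  have hvW : v ∈ W := B.dw hvD
  have e1 := C.st.ch.stp v y hvS hyS hvy
  have e2 := C.st.ch.stp y v hyS hvS hvy.symm
  have hvl : idx v < l := by
    rcases Nat.lt_or_ge (idx v) l with h | h
    · exact h
    · have h5 : idx v = l := by omega
      exact absurd hvD (hD v (mem_Ly.2 ⟨hvW, hvS, h5.ge, h5.le⟩))
  obtain ⟨i0, hi0, hi0D⟩ := sfc C B
  have hcr := C.tp.cr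
  obtain ⟨E, hE, hvE, hED, w, hwE, z, hz, hzS, hwz⟩ := sfl_first (B.cn.2 v hvD _ hi0D) hvS
    (mem_Sg.2 ⟨i0, Nat.zero_le _, by omega, rfl⟩)
  have hES : ∀ x ∈ E, x ∉ Sg p 0 r := fun x hx => (hED x hx).2
  have hwW : w ∈ W := B.dw (hED w hwE).1
  have hwl : idx w < l := by
    by_contra hcon
    obtain ⟨w', hw', hwl'⟩ := thr C.st.ch hE hES hvE hwE (l := l) hvl.le (by omega)
    exact hD w' (mem_Ly.2 ⟨B.dw (hED w' hw').1, hES w' hw', hwl'.ge, hwl'.le⟩) (hED w' hw').1
  rcases Nat.lt_or_ge (idx w) 1 with hwT | hwT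
  swap
  · exact step w z hwW (hES w hwE) hwT hwl hz hzS hwz
  -- the last case: `idx w = 0`
  obtain ⟨x, x', hxx, hx'c, hxn, hx'n, _, _, _⟩ := edg C B hhD ⟨i0, hi0, hi0D⟩
  have hYS : ∀ j, j ≤ r → p j ∉ Y := by
    intro j hj hjY
    exact (C.yw _ hjY).2.1 (mem_Sg.2 ⟨j, Nat.zero_le _, hj, rfl⟩)
  have hNY := B.nb
  -- at most one of the first four levels contains a neighbour of `D`
  have hlev : ∀ t, 1 ≤ t → t ≤ 4 → Ly W (Sg p 0 r) idx t t ⊆ D ∨
      ∃ u ∈ Ly W (Sg p 0 r) idx t t, u ∈ Nb G D \ Y := by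
    intro t ht1 ht2
    obtain ⟨w', hw', hwl'⟩ := thr C.st.ch hE hES hwE hvE (l := t) (by omega) (by omega)
    rcases hit C B (l := t) ht1 (by omega) (fun y' hy' h => by
      have := (C.yw y' hy').2.2.1
      omega) ⟨w', mem_Ly.2 ⟨B.dw (hED w' hw').1, hES w' hw', hwl'.ge, hwl'.le⟩,
        (hED w' hw').1⟩ with h | ⟨u, hu, hu1, hu2⟩
    · exact Or.inl h
    · exact Or.inr ⟨u, hu, Finset.mem_sdiff.2 ⟨hu1, hu2⟩⟩
  have hxY : p x ∈ Nb G D \ Y := Finset.mem_sdiff.2 ⟨hxn, hYS x (by omega)⟩
  have hx'Y : p x' ∈ Nb G D \ Y := Finset.mem_sdiff.2 ⟨hx'n, hYS x' (by omega)⟩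
  have hxne : p x ≠ p x' := fun h => by
    have := C.tp.pth.inj x x' (by omega) (by omega) h
    omega
  have hfull : ∃ t, 1 ≤ t ∧ t ≤ 4 ∧ Ly W (Sg p 0 r) idx t t ⊆ D := by
    by_contra hcon
    push Not at hcon
    obtain ⟨u1, hu1, hu1N⟩ := (hlev 1 le_rfl (by omega)).resolve_left (hcon 1 le_rfl (by omega))
    obtain ⟨u2, hu2, hu2N⟩ := (hlev 2 (by omega) (by omega)).resolve_left
      (hcon 2 (by omega) (by omega))
    obtain ⟨_, hu1S, hu1a, hu1b⟩ := mem_Ly.1 hu1
    obtain ⟨_, hu2S, hu2a, hu2b⟩ := mem_Ly.1 hu2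
    have hS : ∀ j, j ≤ r → p j ∈ Sg p 0 r := fun j hj => mem_Sg.2 ⟨j, Nat.zero_le _, hj, rfl⟩
    have n1 : u1 ≠ u2 := fun h => by
      rw [h] at hu1b
      omega
    have hsub : ({p x, p x', u1, u2} : Finset V) ⊆ Nb G D \ Y := by
      intro g hg
      rw [Finset.mem_insert, Finset.mem_insert, Finset.mem_insert, Finset.mem_singleton] at hg
      rcases hg with rfl | rfl | rfl | rfl
      · exact hxY
      · exact hx'Y
      · exact hu1N
      · exact hu2N
    have hc4 : ({p x, p x', u1, u2} : Finset V).card = 4 := by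
      rw [Finset.card_insert_of_notMem, Finset.card_insert_of_notMem, Finset.card_pair n1]
      · rw [Finset.mem_insert, Finset.mem_singleton]
        rintro (h | h)
        · exact hu1S (h ▸ hS x' (by omega))
        · exact hu2S (h ▸ hS x' (by omega))
      · rw [Finset.mem_insert, Finset.mem_insert, Finset.mem_singleton]
        rintro (h | h | h)
        · exact hxne h
        · exact hu1S (h ▸ hS x (by omega))
        · exact hu2S (h ▸ hS x (by omega))
    have := Finset.card_le_card hsub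
    rw [hc4] at this
    exact absurd (this.trans hNY) (by norm_num)
  obtain ⟨t, ht1, ht2, htD⟩ := hfull
  obtain ⟨hhN, F, hF3, hF⟩ := ful C B hhD (l := t) ht1 (by omega) htD
  have hex : ∃ x ∈ F, p x ∈ D := by
    by_contra hcon
    push Not at hcon
    have hsub : insert (p c) (F.image p) ⊆ Nb G D \ Y := by
      intro g hg
      rcases Finset.mem_insert.1 hg with rfl | hg
      · rw [C.tp.pc]
        refine Finset.mem_sdiff.2 ⟨hhN, ?_⟩
        rw [← C.tp.pc]
        exact hYS c hcr
      · obtain ⟨x, hx, rfl⟩ := Finset.mem_image.1 hg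
        obtain ⟨hxc, _, h5⟩ := hF x hx
        exact Finset.mem_sdiff.2 ⟨h5.resolve_left (hcon x hx), hYS x (by omega)⟩
    have hc4 : (insert (p c) (F.image p)).card = F.card + 1 := by
      rw [Finset.card_insert_of_notMem, Finset.card_image_of_injOn]
      · intro x hx y hy hxy
        have h5 := (hF x (Finset.mem_coe.1 hx)).1
        have h6 := (hF y (Finset.mem_coe.1 hy)).1
        exact C.tp.pth.inj x y (by omega) (by omega) hxy
      · intro hm
        obtain ⟨x, hx, hxe⟩ := Finset.mem_image.1 hm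
        have h5 := (hF x hx).1
        have := C.tp.pth.inj x c (by omega) hcr hxe
        omega
    have := Finset.card_le_card hsub
    rw [hc4] at this
    exact absurd (this.trans hNY) (by omega)
  obtain ⟨x0, hx0, hx0D⟩ := hex
  obtain ⟨hx0c, hx0n, _⟩ := hF x0 hx0
  exact ⟨x0, hx0c, hx0D, fun x hx hxn => C.st.mono t l ht1 (by omega) h2 x0 x hx0c hx hx0n hxn⟩


end Pool.Agent.JNG
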