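import Mathlib
import Pool.Agent.JNG.Defs2
import Pool.Agent.JNG.SB1
import Pool.Agent.JNG.SB2
import Pool.Agent.JNG.SFA
import Pool.Agent.JNG.SFC
import Pool.Agent.JNG.SFL
import Pool.Agent.JNG.SFR

/-!
A free level l to the right of some y in Nb G D and Y, and to the left of another one (or p (c-1) in D), is contained in D or
contains a neighbour of D.
Proof. Suppose not. By `hit` level l is disjoint from D, and it is disjoint from Nb G D. `sfl`: i1 < c, p i1 in D, i1 <= x for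
all x < c with p x in Nb G (level l). `sfr` or (i2 = c - 1; c > 0 because of i1): i2 < c, p i2 in D, x <= i2 for these x.
`att3`: three indices x1 < x2 < x3 < c with p x in Nb G (level l). p x is not in D for them: its neighbour in level l would
be in D or in Nb G D. So i1 < x1, x3 < i2. Let w1 be the least index > i1 with p w1 not in D (w1 <= x1), w2 the largest
index < i2 with p w2 not in D (w2 >= x3): p w1, p w2 in Nb G D. `edg`: p x, p x' in Nb G D with x < i1 and i2 < x'. The four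
indices x < w1 < w2 < x' give four elements of Nb G D minus Y (they are in S), a contradiction.
-/

set_option autoImplicit false

namespace Pool.Agent.JNG

open SimpleGraph Pool.Agent.LNK

variable {V : Type} [Fintype V] {G : SimpleGraph V} {W : Finset V} {a a' b b' h : V} {U : Finset V}
  {p : ℕ → V} {r c : ℕ} {idx : V → ℕ} {T : ℕ} {Y D : Finset V}

theorem sfd_four (C : Cx G W a a' b b' h U p r c idx T Y) (B : Bad G W a a' b b' Y D) (I : Finset ℕ)
    (hI : 4 ≤ I.card) (hi : ∀ i ∈ I, i ≤ r ∧ p i ∈ Nb G D) : False := by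
  classical
  have h1 : I.image p ⊆ Nb G D \ Y := by
    intro v hv
    obtain ⟨i, hiI, rfl⟩ := Finset.mem_image.1 hv
    refine Finset.mem_sdiff.2 ⟨(hi i hiI).2, fun hy => ?_⟩
    exact (C.yw _ hy).2.1 (mem_Sg.2 ⟨i, Nat.zero_le _, (hi i hiI).1, rfl⟩)
  have h2 : (I.image p).card = I.card := by
    apply Finset.card_image_of_injOn
    intro i hi1 j hj1 hij
    exact C.tp.pth.inj i j (hi i hi1).1 (hi j hj1).1 hij
  have h3 := Finset.card_le_card h1
  have h4 : (Nb G D \ Y).card ≤ 3 := B.nb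
  omega

theorem sfd (C : Cx G W a a' b b' h U p r c idx T Y) (B : Bad G W a a' b b' Y D) {l : ℕ} (h1 : 1 ≤ l) (h2 : l ≤ T) (hf : ∀ y ∈ Y, idx y ≠ l) {y : V}
    (hy : y ∈ Nb G D) (hyY : y ∈ Y) (hyl : idx y < l)
    (hr : (∃ y' ∈ Nb G D, y' ∈ Y ∧ l < idx y') ∨ p (c - 1) ∈ D) :
    Ly W (Sg p 0 r) idx l l ⊆ D ∨ ∃ v ∈ Ly W (Sg p 0 r) idx l l, v ∈ Nb G D := by
  classical
  by_contra hcon
  push Not at hcon
  obtain ⟨hnD, hN⟩ := hcon
  have hD : ∀ v ∈ Ly W (Sg p 0 r) idx l l, v ∉ D := by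
    intro v hv hvD
    rcases hit C B h1 h2 hf ⟨v, hv, hvD⟩ with h3 | ⟨w, hw, hwn, _⟩
    · exact hnD h3
    · exact hN w hw hwn
  have hcr := C.tp.cr
  obtain ⟨i1, hi1c, hi1D, hi1⟩ := sfl C B h1 h2 hD hN hy hyY hyl
  have h6 : ∃ i2, i2 < c ∧ p i2 ∈ D ∧
      ∀ x, x < c → p x ∈ Nb G (Ly W (Sg p 0 r) idx l l) → x ≤ i2 := by
    rcases hr with ⟨y', hy'n, hy'Y, hy'l⟩ | hr
    · exact sfr C B h1 h2 hD hN hy'n hy'Y hy'l
    · exact ⟨c - 1, by omega, hr, fun x hx _ => by omega⟩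
  obtain ⟨i2, hi2c, hi2D, hi2⟩ := h6
  obtain ⟨F, hF3, hF⟩ := att3 C h1 h2
  have hFD : ∀ x ∈ F, p x ∉ D := by
    intro x hx hxD
    obtain ⟨_, u, hu, hux⟩ := mem_Nb.1 (hF x hx).2
    by_cases huD : u ∈ D
    · exact hD u hu huD
    · exact hN u hu (mem_Nb.2 ⟨huD, p x, hxD, hux.symm⟩)
  have hF1 : ∀ x ∈ F, i1 < x ∧ x < i2 := by
    intro x hx
    have h7 := hi1 x (hF x hx).1 (hF x hx).2
    have h8 := hi2 x (hF x hx).1 (hF x hx).2
    have h9 : i1 ≠ x := fun h => hFD x hx (h ▸ hi1D)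
    have h10 : x ≠ i2 := fun h => hFD x hx (h ▸ hi2D)
    omega
  obtain ⟨x1, hx1, x2, hx2, hne⟩ := Finset.one_lt_card.1 (show 1 < F.card by omega)
  have key : ∃ x1 x2, x1 ∈ F ∧ x2 ∈ F ∧ x1 < x2 := by
    rcases lt_or_gt_of_ne hne with h | h
    · exact ⟨x1, x2, hx1, hx2, h⟩
    · exact ⟨x2, x1, hx2, hx1, h⟩
  clear hx1 hx2 hne x1 x2
  obtain ⟨x1, x2, hx1, hx2, h12⟩ := key
  -- the least index after i1 outside D
  have hw1 : ∃ w, i1 < w ∧ w ≤ x1 ∧ p w ∈ Nb G D := by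
    have hex : ∃ w, i1 < w ∧ p w ∉ D := ⟨x1, (hF1 x1 hx1).1, hFD x1 hx1⟩
    have hs := Nat.find_spec hex
    have hle : Nat.find hex ≤ x1 := Nat.find_min' hex ⟨(hF1 x1 hx1).1, hFD x1 hx1⟩
    have hmin : ∀ j, j < Nat.find hex → ¬ (i1 < j ∧ p j ∉ D) := fun j hj => Nat.find_min hex hj
    generalize Nat.find hex = w at hs hle hmin
    refine ⟨w, hs.1, hle, mem_Nb.2 ⟨hs.2, p (w - 1), ?_, ?_⟩⟩
    · by_contra hcon
      have h8 : ¬ i1 < w - 1 := fun h => hmin (w - 1) (by omega) ⟨h, hcon⟩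
      have h9 : w - 1 = i1 := by omega
      rw [h9] at hcon
      exact hcon hi1D
    · have h8 := (hF x1 hx1).1
      have := C.tp.pth.adj (w - 1) (by omega)
      rwa [Nat.sub_add_cancel (by omega)] at this
  have hw2 : ∃ w, w < i2 ∧ x2 ≤ w ∧ p w ∈ Nb G D := by
    have hex : ∃ k, x2 ≤ i2 - 1 - k ∧ k < i2 ∧ p (i2 - 1 - k) ∉ D := by
      have h7 := (hF1 x2 hx2).2
      refine ⟨i2 - 1 - x2, by omega, by omega, ?_⟩
      rw [show i2 - 1 - (i2 - 1 - x2) = x2 by omega]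
      exact hFD x2 hx2
    have hs := Nat.find_spec hex
    have hmin : ∀ j, j < Nat.find hex → ¬ (x2 ≤ i2 - 1 - j ∧ j < i2 ∧ p (i2 - 1 - j) ∉ D) :=
      fun j hj => Nat.find_min hex hj
    generalize Nat.find hex = k at hs hmin
    obtain ⟨hs1, hs2, hs3⟩ := hs
    refine ⟨i2 - 1 - k, by omega, hs1, mem_Nb.2 ⟨hs3, p (i2 - 1 - k + 1), ?_, ?_⟩⟩
    · by_contra hcon
      rcases Nat.eq_zero_or_pos k with h | h
      · rw [h, Nat.sub_zero, Nat.sub_add_cancel (by omega)] at hcon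
        exact hcon hi2D
      · refine hmin (k - 1) (by omega) ⟨by omega, by omega, ?_⟩
        rw [show i2 - 1 - (k - 1) = i2 - 1 - k + 1 by omega]
        exact hcon
    · exact (C.tp.pth.adj (i2 - 1 - k) (by omega)).symm
  obtain ⟨w1, hw1a, hw1b, hw1n⟩ := hw1
  obtain ⟨w2, hw2a, hw2b, hw2n⟩ := hw2
  obtain ⟨x, x', hxx, hxc, hxn, hxn', _, _, hall⟩ := edg C B (sfa C B) ⟨i1, hi1c, hi1D⟩
  have h8 := hall i1 hi1c hi1D
  have h9 := hall i2 hi2c hi2D
  refine sfd_four C B {x, w1, w2, x'} ?_ ?_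
  · rw [Finset.card_insert_of_notMem, Finset.card_insert_of_notMem, Finset.card_pair]
    · omega
    · simp only [Finset.mem_insert, Finset.mem_singleton]
      omega
    · simp only [Finset.mem_insert, Finset.mem_singleton]
      omega
  · intro i hi
    simp only [Finset.mem_insert, Finset.mem_singleton] at hi
    rcases hi with rfl | rfl | rfl | rfl
    · exact ⟨by omega, hxn⟩
    · exact ⟨by omega, hw1n⟩
    · exact ⟨by omega, hw2n⟩
    · exact ⟨by omega, hxn'⟩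

end Pool.Agent.JNG
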