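import Mathlib
import Pool.Agent.JNG.Defs2
import Pool.Agent.JNG.SB1
import Pool.Agent.JNG.SB2
import Pool.Agent.JNG.SFA
import Pool.Agent.JNG.SFC
import Pool.Agent.JNG.SFD

/-!
First final case: the boundary of D on the path before h is p x, p x' with x < x' < c.
Proof. N = Nb G D minus Y has at most 3 elements and contains p x, p x'. Let ya and yc be elements of Nb G D and Y with the
least and the largest idx (`nyb`: idx ya + 12 <= idx yc). Every free level l with idx ya < l < idx yc is contained in D or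
contains an element of N outside S (`sfd`), the latter at most once; there are several such levels, so some is contained in
D and `ful` gives h in N. So N = {p x, p x', h}, and all free levels between are contained in D.
Let Y' be the set of y in Y with idx ya < idx y < idx yc, and D' = D + the levels idx y, y in Y'. Claim: Nb G D' is inside
{p x, p x', h, ya, yc}. Let v be in Nb G D'. If v is adjacent to D, then v is in N or in Y; in the second case
idx ya <= idx v <= idx yc, so v = ya or v = yc (ys) or v in Y', which is inside D', impossible. If v is adjacent to level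
t = idx y, y in Y', and v is not in S: its level is t - 1, t or t + 1 (`stp`); level t is inside D'; the levels t - 1, t + 1
are free and between idx ya and idx yc, so they are contained in D: impossible. If v = p j: j > c is excluded by
`minus`; j = c is h; let j < c and suppose p j is not in D. `ful` for the levels t - 1 and t + 1: among three indices with
p in D or Nb G D at least one is in D (the elements of Nb G D among p i, i < c are p x, p x'), so by `mono` there are x1 <= j
<= x2, x1, x2 < c, with p x1, p x2 in D. Let w1 be the least index > x1 with p w1 not in D; w1 <= j < x2 and p w1 in N, so w1 = x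
or w1 = x' (or p w1 = h, w1 = c, impossible), but x < x1 < w1 < x2 < x' by hall: contradiction. So p j in D: impossible.
Hence card (Nb G D') <= 5. D' is inside W, without terminals (levels between 1 and T contain no terminal), b is not in D' and
not in Nb G D' (b is not in S, not in Y). `six` gives a contradiction.
-/

set_option autoImplicit false

namespace Pool.Agent.JNG

open SimpleGraph Pool.Agent.LNK

variable {V : Type} [Fintype V] {G : SimpleGraph V} {W : Finset V} {a a' b b' h : V} {U : Finset V}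
  {p : ℕ → V} {r c : ℕ} {idx : V → ℕ} {T : ℕ} {Y D : Finset V}

omit [Fintype V] in
theorem sfe_pick {F : Finset ℕ} {Q : ℕ → Prop} {u v : ℕ} (hF : 3 ≤ F.card)
    (hq : ∀ i ∈ F, Q i ∨ i = u ∨ i = v) : ∃ i ∈ F, Q i := by
  by_contra hcon
  push Not at hcon
  have h1 : F ⊆ {u, v} := by
    intro i hi
    rcases hq i hi with h1 | h1 | h1
    · exact absurd h1 (hcon i hi)
    · rw [h1]
      exact Finset.mem_insert_self _ _
    · rw [h1]
      exact Finset.mem_insert_of_mem (Finset.mem_singleton_self _)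
  have h2 := Finset.card_le_card h1
  have h3 := Finset.card_le_two (a := u) (b := v)
  omega

/-- the first vertex outside `D` after `p x1` is a neighbour of `D` -/
theorem sfe_gap (hp : Pth G p r) {x1 : ℕ} (h3 : p x1 ∈ D) (j : ℕ) (h1 : x1 < j) (h2 : j ≤ r)
    (h4 : p j ∉ D) : ∃ w, x1 < w ∧ w ≤ j ∧ p w ∈ Nb G D := by
  induction j with
  | zero => exact absurd h1 (Nat.not_lt_zero _)
  | succ j ih =>
    by_cases h5 : p j ∈ D
    · exact ⟨j + 1, h1, le_refl _, mem_Nb.2 ⟨h4, p j, h5, hp.adj j (by omega)⟩⟩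
    · have h6 : x1 ≠ j := by
        rintro rfl
        exact h5 h3
      obtain ⟨w, hw1, hw2, hw3⟩ := ih (by omega) (by omega) h5
      exact ⟨w, hw1, by omega, hw3⟩

theorem sfe_three (B : Bad G W a a' b b' Y D) {n1 n2 n3 : V} (h1 : n1 ∈ Nb G D) (h2 : n2 ∈ Nb G D)
    (h3 : n3 ∈ Nb G D) (y1 : n1 ∉ Y) (y2 : n2 ∉ Y) (y3 : n3 ∉ Y) (d12 : n1 ≠ n2) (d13 : n1 ≠ n3)
    (d23 : n2 ≠ n3) : ∀ v ∈ Nb G D, v ∉ Y → v = n1 ∨ v = n2 ∨ v = n3 := by
  classical
  intro v hv hvY
  by_contra hcon
  push Not at hcon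
  have hs : ({v, n1, n2, n3} : Finset V) ⊆ Nb G D \ Y := by
    intro z hz
    simp only [Finset.mem_insert, Finset.mem_singleton] at hz
    rw [Finset.mem_sdiff]
    rcases hz with rfl | rfl | rfl | rfl
    · exact ⟨hv, hvY⟩
    · exact ⟨h1, y1⟩
    · exact ⟨h2, y2⟩
    · exact ⟨h3, y3⟩
  have hc : ({v, n1, n2, n3} : Finset V).card = 4 := by
    rw [Finset.card_insert_of_notMem (by simp [hcon.1, hcon.2.1, hcon.2.2]),
      Finset.card_insert_of_notMem (by simp [d12, d13]), Finset.card_pair d23]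
  have h4 := Finset.card_le_card hs
  have h5 := B.nb
  rw [hc] at h4
  have h6 : (Nb G D \ Y).card ≤ 3 := by convert h5
  omega

/-- the elements of `Y` next to `D` with the least and the largest level -/
theorem sfe_yy (C : Cx G W a a' b b' h U p r c idx T Y) (B : Bad G W a a' b b' Y D) :
    ∃ ya yc : V, ya ∈ Nb G D ∧ ya ∈ Y ∧ yc ∈ Nb G D ∧ yc ∈ Y ∧ idx ya + 12 ≤ idx yc ∧
      ∀ y ∈ Nb G D, y ∈ Y → idx ya ≤ idx y ∧ idx y ≤ idx yc := by
  classical
  have h0 := nyb C B
  have h1 : 3 ≤ (Nb G D ∩ Y).card := by convert h0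
  have hne : (Nb G D ∩ Y).Nonempty := by
    rw [← Finset.card_pos]
    omega
  obtain ⟨ya, hya, hmin⟩ := Finset.exists_min_image (Nb G D ∩ Y) idx hne
  obtain ⟨yc, hyc, hmax⟩ := Finset.exists_max_image (Nb G D ∩ Y) idx hne
  obtain ⟨y2, hy2, hy2'⟩ : ∃ y2 ∈ Nb G D ∩ Y, y2 ∉ ({ya, yc} : Finset V) := by
    by_contra hcon
    push Not at hcon
    have h2 := Finset.card_le_card (s := Nb G D ∩ Y) (t := {ya, yc}) hcon
    have h3 := Finset.card_le_two (a := ya) (b := yc)
    omega
  simp only [Finset.mem_insert, Finset.mem_singleton, not_or] at hy2'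
  rw [Finset.mem_inter] at hya hyc
  have h2 := hmin y2 hy2
  have h3 := hmax y2 hy2
  rw [Finset.mem_inter] at hy2
  have h4 := C.ys y2 hy2.2 ya hya.2 hy2'.1
  have h5 := C.ys y2 hy2.2 yc hyc.2 hy2'.2
  refine ⟨ya, yc, hya.1, hya.2, hyc.1, hyc.2, by omega, fun y hy hyY => ?_⟩
  exact ⟨hmin y (Finset.mem_inter.2 ⟨hy, hyY⟩), hmax y (Finset.mem_inter.2 ⟨hy, hyY⟩)⟩

omit [Fintype V] in
theorem sfe_mem_S {p : ℕ → V} {r i : ℕ} (hi : i ≤ r) : p i ∈ Sg p 0 r :=
  mem_Sg.2 ⟨i, Nat.zero_le _, hi, rfl⟩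

theorem sfe_p_notY (C : Cx G W a a' b b' h U p r c idx T Y) {i : ℕ} (hi : i ≤ r) : p i ∉ Y :=
  fun hy => (C.yw _ hy).2.1 (sfe_mem_S hi)

theorem sfe_b (C : Cx G W a a' b b' h U p r c idx T Y) : b ∉ Sg p 0 r := by
  obtain ⟨L, hb, hL, _⟩ := C.st.ch.cl
  exact (mem_Ly.1 (hL hb)).2.1

open Classical in
theorem sfe_core (C : Cx G W a a' b b' h U p r c idx T Y) (B : Bad G W a a' b b' Y D)
    {ya yc n1 n2 n3 : V} (hyaY : ya ∈ Y) (hycY : yc ∈ Y)
    (hmin : ∀ y ∈ Nb G D, y ∈ Y → idx ya ≤ idx y ∧ idx y ≤ idx yc)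
    (hN : ∀ v ∈ Nb G D, v ∉ Y → v = n1 ∨ v = n2 ∨ v = n3)
    (hh : h = n1 ∨ h = n2 ∨ h = n3) (hb1 : b ≠ n1) (hb2 : b ≠ n2) (hb3 : b ≠ n3)
    (hlev : ∀ l, idx ya < l → l < idx yc → (∀ y ∈ Y, idx y ≠ l) → Ly W (Sg p 0 r) idx l l ⊆ D)
    (hp : ∀ y ∈ Y, idx ya < idx y → idx y < idx yc → ∀ j, j < c →
      p j ∈ Nb G (Ly W (Sg p 0 r) idx (idx y) (idx y)) → p j ∈ D) : False := by
  set D' : Finset V := D ∪ (Y.filter (fun y => idx ya < idx y ∧ idx y < idx yc)).biUnion
    (fun y => Ly W (Sg p 0 r) idx (idx y) (idx y)) with hD'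
  have memD' : ∀ v, v ∈ D' ↔ v ∈ D ∨ ∃ y ∈ Y, idx ya < idx y ∧ idx y < idx yc ∧
      v ∈ Ly W (Sg p 0 r) idx (idx y) (idx y) := by
    intro v
    rw [hD', Finset.mem_union, Finset.mem_biUnion]
    constructor
    · rintro (h1 | ⟨y, hy, hv⟩)
      · exact Or.inl h1
      · rw [Finset.mem_filter] at hy
        exact Or.inr ⟨y, hy.1, hy.2.1, hy.2.2, hv⟩
    · rintro (h1 | ⟨y, hy, h1, h2, hv⟩)
      · exact Or.inl h1
      · exact Or.inr ⟨y, Finset.mem_filter.2 ⟨hy, h1, h2⟩, hv⟩
  have hcr : c ≤ r := C.tp.cr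
  have hsub : Nb G D' ⊆ {n1, n2, n3, ya, yc} := by
    intro v hv
    obtain ⟨hvD, u, hu, huv⟩ := mem_Nb.1 hv
    have hvD0 : v ∉ D := fun h1 => hvD ((memD' v).2 (Or.inl h1))
    have hvW : v ∈ W := C.six.ins.right huv
    simp only [Finset.mem_insert, Finset.mem_singleton]
    rcases (memD' u).1 hu with hu | ⟨y, hy, hy1, hy2, hu⟩
    · have hvN : v ∈ Nb G D := mem_Nb.2 ⟨hvD0, u, hu, huv⟩
      by_cases hvY : v ∈ Y
      · obtain ⟨h1, h2⟩ := hmin v hvN hvY
        by_cases e1 : v = ya
        · exact Or.inr (Or.inr (Or.inr (Or.inl e1)))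
        by_cases e2 : v = yc
        · exact Or.inr (Or.inr (Or.inr (Or.inr e2)))
        have h3 := C.ys v hvY ya hyaY e1
        have h4 := C.ys v hvY yc hycY e2
        refine absurd ((memD' v).2 (Or.inr ⟨v, hvY, by omega, by omega, ?_⟩)) hvD
        exact mem_Ly.2 ⟨hvW, (C.yw v hvY).2.1, le_refl _, le_refl _⟩
      · rcases hN v hvN hvY with e | e | e
        · exact Or.inl e
        · exact Or.inr (Or.inl e)
        · exact Or.inr (Or.inr (Or.inl e))
    · have hua := mem_Ly.1 hu
      have hyw := C.yw y hy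
      have hya : y ≠ ya := by
        rintro rfl
        omega
      have hyc : y ≠ yc := by
        rintro rfl
        omega
      have h3 := C.ys y hy ya hyaY hya
      have h4 := C.ys y hy yc hycY hyc
      by_cases hvS : v ∈ Sg p 0 r
      · obtain ⟨j, _, hjr, hj⟩ := mem_Sg.1 hvS
        have hvNL : v ∈ Nb G (Ly W (Sg p 0 r) idx (idx y) (idx y)) :=
          mem_Nb.2 ⟨fun h5 => (mem_Ly.1 h5).2.1 hvS, u, hu, huv⟩
        rcases lt_trichotomy j c with hjc | hjc | hjc
        · rw [← hj] at hvNL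
          have h5 := hp y hy hy1 hy2 j hjc hvNL
          rw [hj] at h5
          exact absurd h5 hvD0
        · have : v = h := by
            rw [← hj, hjc, C.tp.pc]
          rw [this]
          rcases hh with e | e | e
          · exact Or.inl e
          · exact Or.inr (Or.inl e)
          · exact Or.inr (Or.inr (Or.inl e))
        · rw [← hj] at hvNL
          exact absurd hvNL (C.st.minus (idx y) (by omega) (by omega) j hjc hjr)
      · exfalso
        have h5 := C.st.ch.stp u v hua.2.1 hvS huv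
        have h6 := C.st.ch.stp v u hvS hua.2.1 huv.symm
        have hu1 : idx u = idx y := le_antisymm hua.2.2.2 hua.2.2.1
        by_cases e : idx v = idx y
        · refine hvD ((memD' v).2 (Or.inr ⟨y, hy, hy1, hy2, mem_Ly.2 ⟨hvW, hvS, ?_, ?_⟩⟩))
          · omega
          · omega
        · have hfree : ∀ z ∈ Y, idx z ≠ idx v := by
            intro z hz hzv
            by_cases ez : z = y
            · rw [ez] at hzv
              exact e hzv.symm
            · have h7 := C.ys z hz y hy ez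
              omega
          have h8 := hlev (idx v) (by omega) (by omega) hfree
          exact hvD0 (h8 (mem_Ly.2 ⟨hvW, hvS, le_refl _, le_refl _⟩))
  have hbS := sfe_b C
  have hib : idx b = 0 := C.st.ch.ib
  have hbX : b ∈ Xs a a' b b' := mem_Xs.2 (Or.inr (Or.inr (Or.inl rfl)))
  have h6 : 6 ≤ (Nb G D').card := by
    refine C.six.six D' ?_ ?_ ⟨b, C.xw b hbX, ?_, ?_⟩
    · intro v hv
      rcases (memD' v).1 hv with h1 | ⟨y, _, _, _, h1⟩
      · exact B.dw h1
      · exact (mem_Ly.1 h1).1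
    · obtain ⟨z, hz⟩ := B.cn.1
      exact ⟨z, (memD' z).2 (Or.inl hz)⟩
    · intro hb
      rcases (memD' b).1 hb with h1 | ⟨y, hy, _, _, h1⟩
      · exact B.dx b h1 hbX
      · have h2 := (mem_Ly.1 h1).2.2.1
        have h3 := C.yw y hy
        omega
    · intro hb
      have h1 := hsub hb
      simp only [Finset.mem_insert, Finset.mem_singleton] at h1
      rcases h1 with e | e | e | e | e
      · exact hb1 e
      · exact hb2 e
      · exact hb3 e
      · have h3 := C.yw ya hyaY
        rw [e] at hib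
        omega
      · have h3 := C.yw yc hycY
        rw [e] at hib
        omega
  have h7 := Finset.card_le_card hsub
  have h8 : ({n1, n2, n3, ya, yc} : Finset V).card ≤ 5 := Finset.card_le_five
  omega

theorem sfe (C : Cx G W a a' b b' h U p r c idx T Y) (B : Bad G W a a' b b' Y D) {x x' : ℕ} (hx : x < x') (hx' : x' < c) (hn : p x ∈ Nb G D) (hn' : p x' ∈ Nb G D)
    (hall : ∀ i, i < c → p i ∈ D → x < i ∧ i < x') : False := by
  classical
  have hcr : c ≤ r := C.tp.cr
  have hhD : h ∉ D := sfa C B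
  obtain ⟨ya, yc, hya, hyaY, hyc, hycY, hd, hmin⟩ := sfe_yy C B
  have hwa := C.yw ya hyaY
  have hwc := C.yw yc hycY
  have hinj := C.tp.pth.inj
  have dx : p x ≠ p x' := fun e => by
    have := hinj x x' (by omega) (by omega) e
    omega
  have nx : p x ∉ Y := sfe_p_notY C (by omega)
  have nx' : p x' ∉ Y := sfe_p_notY C (by omega)
  -- an element of a free level in the neighbourhood
  have hfree1 : ∀ k, 1 ≤ k → k ≤ 5 → ∀ y ∈ Y, idx y ≠ idx ya + k := by
    intro k hk1 hk5 y hy e
    by_cases ey : y = ya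
    · rw [ey] at e
      omega
    · have := C.ys y hy ya hyaY ey
      omega
  have hNh : h ∈ Nb G D := by
    have key : ∀ k, 1 ≤ k → k ≤ 5 → h ∈ Nb G D ∨
        ∃ v, idx v = idx ya + k ∧ v ∈ Nb G D ∧ v ∉ Y ∧ v ∉ Sg p 0 r := by
      intro k hk1 hk5
      rcases sfd C B (l := idx ya + k) (by omega) (by omega) (hfree1 k hk1 hk5) hya hyaY (by omega)
        (Or.inl ⟨yc, hyc, hycY, by omega⟩) with h1 | ⟨v, hv, hvN⟩
      · exact Or.inl (ful C B hhD (by omega) (by omega) h1).1
      · have hv' := mem_Ly.1 hv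
        refine Or.inr ⟨v, by omega, hvN, ?_, hv'.2.1⟩
        intro hvY
        exact hfree1 k hk1 hk5 v hvY (by omega)
    rcases key 1 (by omega) (by omega) with h1 | ⟨v, hv1, hv2, hv3, hv4⟩
    · exact h1
    rcases key 2 (by omega) (by omega) with h1 | ⟨w, hw1, hw2, hw3, hw4⟩
    · exact h1
    exfalso
    have hvx : p x ≠ v := by
      rintro rfl
      exact hv4 (sfe_mem_S (by omega))
    have hvx' : p x' ≠ v := by
      rintro rfl
      exact hv4 (sfe_mem_S (by omega))
    rcases sfe_three B hn hn' hv2 nx nx' hv3 dx hvx hvx' w hw2 hw3 with e | e | e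
    · rw [e] at hw4
      exact hw4 (sfe_mem_S (by omega))
    · rw [e] at hw4
      exact hw4 (sfe_mem_S (by omega))
    · rw [e] at hw1
      omega
  have hhS : h ∈ Sg p 0 r := by
    rw [← C.tp.pc]
    exact sfe_mem_S hcr
  have hhY : h ∉ Y := by
    rw [← C.tp.pc]
    exact sfe_p_notY C hcr
  have dxh : p x ≠ h := fun e => by
    rw [← C.tp.pc] at e
    have := hinj x c (by omega) (by omega) e
    omega
  have dx'h : p x' ≠ h := fun e => by
    rw [← C.tp.pc] at e
    have := hinj x' c (by omega) (by omega) e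
    omega
  have hN := sfe_three B hn hn' hNh nx nx' hhY dx dxh dx'h
  have hlev : ∀ l, idx ya < l → l < idx yc → (∀ y ∈ Y, idx y ≠ l) →
      Ly W (Sg p 0 r) idx l l ⊆ D := by
    intro l hl1 hl2 hf
    rcases sfd C B (l := l) (by omega) (by omega) hf hya hyaY hl1
      (Or.inl ⟨yc, hyc, hycY, hl2⟩) with h1 | ⟨v, hv, hvN⟩
    · exact h1
    · exfalso
      have hv' := mem_Ly.1 hv
      have hvY : v ∉ Y := fun hvY => hf v hvY (le_antisymm hv'.2.2.2 hv'.2.2.1)
      rcases hN v hvN hvY with e | e | e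
      · rw [e] at hv'
        exact hv'.2.1 (sfe_mem_S (by omega))
      · rw [e] at hv'
        exact hv'.2.1 (sfe_mem_S (by omega))
      · rw [e] at hv'
        exact hv'.2.1 hhS
  have hidx : ∀ i, i < c → p i ∈ Nb G D → i = x ∨ i = x' := by
    intro i hi hiN
    rcases hN (p i) hiN (sfe_p_notY C (by omega)) with e | e | e
    · exact Or.inl (hinj i x (by omega) (by omega) e)
    · exact Or.inr (hinj i x' (by omega) (by omega) e)
    · rw [← C.tp.pc] at e
      have := hinj i c (by omega) (by omega) e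
      omega
  refine sfe_core C B hyaY hycY hmin hN (Or.inr (Or.inr rfl)) ?_ ?_ ?_ hlev ?_
  · intro e
    apply sfe_b C
    rw [e]
    exact sfe_mem_S (by omega)
  · intro e
    apply sfe_b C
    rw [e]
    exact sfe_mem_S (by omega)
  · intro e
    apply sfe_b C
    rw [e]
    exact hhS
  · intro y hy hy1 hy2 j hj hjN
    by_contra hjD
    have hyw := C.yw y hy
    have hya' : y ≠ ya := by
      rintro rfl
      omega
    have hyc' : y ≠ yc := by
      rintro rfl
      omega
    have h3 := C.ys y hy ya hyaY hya'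
    have h4 := C.ys y hy yc hycY hyc'
    have hfr : ∀ l, (l = idx y - 1 ∨ l = idx y + 1) → ∀ z ∈ Y, idx z ≠ l := by
      intro l hl z hz e
      by_cases ez : z = y
      · rw [ez] at e
        omega
      · have := C.ys z hz y hy ez
        omega
    have hl1 := hlev (idx y - 1) (by omega) (by omega) (hfr _ (Or.inl rfl))
    have hl2 := hlev (idx y + 1) (by omega) (by omega) (hfr _ (Or.inr rfl))
    obtain ⟨_, F1, hF1, hF1'⟩ := ful C B hhD (l := idx y - 1) (by omega) (by omega) hl1
    obtain ⟨_, F2, hF2, hF2'⟩ := ful C B hhD (l := idx y + 1) (by omega) (by omega) hl2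
    obtain ⟨x1, hx1F, hx1⟩ := sfe_pick (Q := fun i => p i ∈ D) (u := x) (v := x') hF1
      (fun i hi => by
        obtain ⟨g1, g2, g3⟩ := hF1' i hi
        rcases g3 with g3 | g3
        · exact Or.inl g3
        · exact Or.inr (hidx i g1 g3))
    obtain ⟨x2, hx2F, hx2⟩ := sfe_pick (Q := fun i => p i ∈ D) (u := x) (v := x') hF2
      (fun i hi => by
        obtain ⟨g1, g2, g3⟩ := hF2' i hi
        rcases g3 with g3 | g3
        · exact Or.inl g3
        · exact Or.inr (hidx i g1 g3))
    obtain ⟨g1, g2, _⟩ := hF1' x1 hx1F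
    obtain ⟨g4, g5, _⟩ := hF2' x2 hx2F
    have m1 := C.st.mono (idx y - 1) (idx y) (by omega) (by omega) (by omega) x1 j g1 hj g2 hjN
    have m2 := C.st.mono (idx y) (idx y + 1) (by omega) (by omega) (by omega) j x2 hj g4 hjN g5
    have n1 : x1 ≠ j := by
      rintro rfl
      exact hjD hx1
    have n2 : j ≠ x2 := by
      rintro rfl
      exact hjD hx2
    obtain ⟨w, hw1, hw2, hw3⟩ := sfe_gap C.tp.pth hx1 j (by omega) (by omega) hjD
    have a1 := hall x1 g1 hx1
    have a2 := hall x2 g4 hx2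
    rcases hidx w (by omega) hw3 with e | e
    · omega
    · omega

end Pool.Agent.JNG
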