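import Mathlib
import Pool.Agent.JNG.Defs2
import Pool.Agent.JNG.SB1
import Pool.Agent.JNG.SB2
import Pool.Agent.JNG.SFA
import Pool.Agent.JNG.SFC
import Pool.Agent.JNG.SFD
import Pool.Agent.JNG.SFE

/-!
Second final case: p (c-1) in D.
Proof. N = Nb G D minus Y has at most 3 elements and contains p x, h (different: x < c). Let ya and yc be elements of Nb G D
and Y with the least and the largest idx (`nyb`: idx ya + 12 <= idx yc). By `sfd` (second alternative) every free level l
with idx ya < l <= T is contained in D or contains an element of Nb G D.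
N contains an element w of level at least T - 1, outside S: if level T contains an element of Nb G D take it; otherwise level T
is contained in D and meets the connected set R + Ly (T-1) T (Ch.right), which contains b' not in D, so Jn.exit gives w (levels
T - 1, T, T + 1 are free). So N = {p x, h, w}, and all free levels l with idx ya < l <= T - 2 are contained in D.
Let Y' be the set of y in Y with idx ya < idx y < idx yc, D' = D + the levels idx y, y in Y'. Claim: Nb G D' is inside
{p x, h, w, ya, yc}. Proof as in SFE; the only difference: for v = p j, j < c, adjacent to level t = idx y, suppose p j not in D.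
`ful` for level t - 1 (contained in D): among its three indices at most one is x, the others are in D (w is not in S), so there
is x1 <= j (`mono`) with p x1 in D, and p (c-1) in D, j <= c - 1. The least index w1 > x1 with p w1 not in D satisfies
w1 <= j < c - 1 or so, p w1 in N, w1 < c, so w1 = x, but x < x1 by hall. Contradiction.
Hence card (Nb G D') <= 5; b is not in D', not in Nb G D' (b is not in S, not in Y, and b is not w: level 0). `six` gives a
contradiction.
-/

set_option autoImplicit false

namespace Pool.Agent.JNG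

open SimpleGraph Pool.Agent.LNK

variable {V : Type} [Fintype V] {G : SimpleGraph V} {W : Finset V} {a a' b b' h : V} {U : Finset V}
  {p : ℕ → V} {r c : ℕ} {idx : V → ℕ} {T : ℕ} {Y D : Finset V}

theorem sff (C : Cx G W a a' b b' h U p r c idx T Y) (B : Bad G W a a' b b' Y D) {x : ℕ} (hx : x < c) (hn : p x ∈ Nb G D) (hh : h ∈ Nb G D) (hl : p (c - 1) ∈ D)
    (hall : ∀ i, i < c → p i ∈ D → x < i) : False := by
  classical
  have hcr : c ≤ r := C.tp.cr
  have hhD : h ∉ D := sfa C B
  obtain ⟨ya, yc, hya, hyaY, hyc, hycY, hd, hmin⟩ := sfe_yy C B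
  have hwa := C.yw ya hyaY
  have hwc := C.yw yc hycY
  have hinj := C.tp.pth.inj
  have nx : p x ∉ Y := sfe_p_notY C (by omega)
  have hhS : h ∈ Sg p 0 r := by
    rw [← C.tp.pc]
    exact sfe_mem_S hcr
  have hhY : h ∉ Y := by
    rw [← C.tp.pc]
    exact sfe_p_notY C hcr
  have dxh : p x ≠ h := fun e => by
    rw [← C.tp.pc] at e
    have := hinj x c (by omega) (by omega) e
    omega
  have hb'X : b' ∈ Xs a a' b b' := mem_Xs.2 (Or.inr (Or.inr (Or.inr rfl)))
  obtain ⟨w, hwN, hwS, hwT⟩ : ∃ w ∈ Nb G D, w ∉ Sg p 0 r ∧ T ≤ idx w := by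
    rcases sfd C B (l := T) (by omega) (le_refl _) (fun y hy e => by
        have := C.yw y hy
        omega) hya hyaY (by omega) (Or.inr hl) with h1 | ⟨v, hv, hvN⟩
    · obtain ⟨R, hb', hR, hc⟩ := C.st.ch.right
      obtain ⟨u, _, hu⟩ := C.st.ch.uu T (by omega) (le_refl _)
      have hcn := hc T (by omega) (le_refl _)
      obtain ⟨z, hz, hzE⟩ := Jn.exit (hcn.2 u (Finset.mem_union_right _ hu) b'
        (Finset.mem_union_left _ hb')) (h1 hu) (fun h2 => B.dx b' h2 hb'X)
      rw [Finset.mem_coe, Finset.mem_union] at hzE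
      rcases hzE with h2 | h2
      · have h3 := mem_Ly.1 (hR h2)
        exact ⟨z, hz, h3.2.1, by omega⟩
      · have h3 := mem_Ly.1 h2
        exact ⟨z, hz, h3.2.1, h3.2.2.1⟩
    · have hv' := mem_Ly.1 hv
      exact ⟨v, hvN, hv'.2.1, hv'.2.2.1⟩
  have hwY : w ∉ Y := fun hy => by
    have := C.yw w hy
    omega
  have dxw : p x ≠ w := by
    rintro rfl
    exact hwS (sfe_mem_S (by omega))
  have dhw : h ≠ w := by
    rintro rfl
    exact hwS hhS
  have hN := sfe_three B hn hh hwN nx hhY hwY dxh dxw dhw
  have hlev : ∀ l, idx ya < l → l < idx yc → (∀ y ∈ Y, idx y ≠ l) →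
      Ly W (Sg p 0 r) idx l l ⊆ D := by
    intro l hl1 hl2 hf
    rcases sfd C B (l := l) (by omega) (by omega) hf hya hyaY hl1 (Or.inr hl) with h1 | ⟨v, hv, hvN⟩
    · exact h1
    · exfalso
      have hv' := mem_Ly.1 hv
      have hvY : v ∉ Y := fun hvY => hf v hvY (le_antisymm hv'.2.2.2 hv'.2.2.1)
      rcases hN v hvN hvY with e | e | e
      · rw [e] at hv'
        exact hv'.2.1 (sfe_mem_S (by omega))
      · rw [e] at hv'
        exact hv'.2.1 hhS
      · rw [e] at hv'
        omega
  have hidx : ∀ i, i < c → p i ∈ Nb G D → i = x := by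
    intro i hi hiN
    rcases hN (p i) hiN (sfe_p_notY C (by omega)) with e | e | e
    · exact hinj i x (by omega) (by omega) e
    · rw [← C.tp.pc] at e
      have := hinj i c (by omega) (by omega) e
      omega
    · exfalso
      apply hwS
      rw [← e]
      exact sfe_mem_S (by omega)
  refine sfe_core C B hyaY hycY hmin hN (Or.inr (Or.inl rfl)) ?_ ?_ ?_ hlev ?_
  · intro e
    apply sfe_b C
    rw [e]
    exact sfe_mem_S (by omega)
  · intro e
    apply sfe_b C
    rw [e]
    exact hhS
  · intro e
    have hib : idx b = 0 := C.st.ch.ib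
    rw [e] at hib
    omega
  · intro y hy hy1 hy2 j hj hjN
    by_contra hjD
    have hyw := C.yw y hy
    have hya' : y ≠ ya := by
      rintro rfl
      omega
    have hyc' : y ≠ yc := by
      rintro rfl
      omega
    have h3 := C.ys y hy ya hyaY hya'
    have h4 := C.ys y hy yc hycY hyc'
    have hfr : ∀ z ∈ Y, idx z ≠ idx y - 1 := by
      intro z hz e
      by_cases ez : z = y
      · rw [ez] at e
        omega
      · have := C.ys z hz y hy ez
        omega
    have hl1 := hlev (idx y - 1) (by omega) (by omega) hfr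
    obtain ⟨_, F1, hF1, hF1'⟩ := ful C B hhD (l := idx y - 1) (by omega) (by omega) hl1
    obtain ⟨x1, hx1F, hx1⟩ := sfe_pick (Q := fun i => p i ∈ D) (u := x) (v := x) hF1
      (fun i hi => by
        obtain ⟨g1, g2, g3⟩ := hF1' i hi
        rcases g3 with g3 | g3
        · exact Or.inl g3
        · exact Or.inr (Or.inl (hidx i g1 g3)))
    obtain ⟨g1, g2, _⟩ := hF1' x1 hx1F
    have m1 := C.st.mono (idx y - 1) (idx y) (by omega) (by omega) (by omega) x1 j g1 hj g2 hjN
    have n1 : x1 ≠ j := by
      rintro rfl
      exact hjD hx1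
    obtain ⟨w1, hw1, hw2, hw3⟩ := sfe_gap C.tp.pth hx1 j (by omega) (by omega) hjD
    have a1 := hall x1 g1 hx1
    have e := hidx w1 (by omega) hw3
    omega

end Pool.Agent.JNG
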