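import Mathlib
import Pool.Agent.JNG.Defs2
import Pool.Agent.JNG.CMP
import Pool.Agent.JNG.SB2
import Pool.Agent.JNG.SFA
import Pool.Agent.JNG.SFC
import Pool.Agent.JNG.SFE
import Pool.Agent.JNG.SFF

/-!
The safety lemma: Y can be deleted without creating small separations.
Proof. Suppose card (Nb G D minus Y) <= 3. Let D1 be a component of D (`comp`), Nb G D1 inside Nb G D, so D1 is bad. `sfa`:
h not in D1; `sfc`: some p i in D1 with i < c; `edg`: x < x' <= c. If x' < c use `sfe`; if x' = c then p c = h in Nb G D1 and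
p (c - 1) in D1, use `sff`.
-/

set_option autoImplicit false

namespace Pool.Agent.JNG

open SimpleGraph Pool.Agent.LNK

variable {V : Type} [Fintype V] {G : SimpleGraph V} {W : Finset V} {a a' b b' h : V} {U : Finset V}
  {p : ℕ → V} {r c : ℕ} {idx : V → ℕ} {T : ℕ} {Y D : Finset V}

open Classical in
theorem safe (C : Cx G W a a' b b' h U p r c idx T Y) {D : Finset V} (hD : D ⊆ W) (hne : D.Nonempty) (hX : ∀ v ∈ D, v ∉ Xs a a' b b')
    (hY : ∀ v ∈ D, v ∉ Y) : 4 ≤ (Nb G D \ Y).card := by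
  by_contra hcon
  obtain ⟨u, hu⟩ := hne
  obtain ⟨D1, hD1, _, hcn, hnb⟩ := comp G D u hu
  have B : Bad G W a a' b b' Y D1 := by
    refine ⟨hcn, hD1.trans hD, fun v hv => hX v (hD1 hv), fun v hv => hY v (hD1 hv), ?_⟩
    have h1 : (Nb G D1 \ Y).card ≤ (Nb G D \ Y).card :=
      Finset.card_le_card (Finset.sdiff_subset_sdiff hnb (Finset.Subset.refl Y))
    omega
  obtain ⟨x, x', hxx, hxc, hn, hn', _, hl, hall⟩ := edg C B (sfa C B) (sfc C B)
  rcases Nat.lt_or_ge x' c with h1 | h1
  · exact sfe C B hxx h1 hn hn' hall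
  · have h2 : x' = c := by omega
    subst h2
    rw [C.tp.pc] at hn'
    exact sff C B hxx hn hn' hl (fun i hi hD => (hall i hi hD).1)

end Pool.Agent.JNG
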