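import Mathlib
import Pool.Agent.JNG.Defs2
import Pool.Agent.JNG.SB1
import Pool.Agent.JNG.SAF
import Pool.Agent.JNG.CHO
import Pool.Agent.JNG.MAS
import Pool.Agent.JNG.MSC

/-!
A long strip gives a linkage that misses m vertices of U.
Proof. T = 22 m + 11. For 1 <= l <= T choose u l in U and level l (`uu`), let δ l = card (Nb G {u l}) >= 6 (`deg`; u l in W).
`cho` gives S; Y = image of S under u (m elements: different levels), cc = image of Icc 1 T under u (T elements, inside U). Cx
holds (yw: u l has level l, 6 <= l, l + 5 <= T, in W, not in Sg p 0 r; ys from the separation of S). `safe` gives the safety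
hypothesis of `msc`, `mas` the mass hypothesis (sums over images: Finset.sum_image). `msc` gives a linkage P, Q avoiding Y, and
Y is inside U minus (P + Q): m elements, against `bd`.
-/

set_option autoImplicit false

namespace Pool.Agent.JNG

open SimpleGraph Pool.Agent.LNK

theorem tm1 {V : Type} [Fintype V] {G : SimpleGraph V} {W : Finset V} {a a' b b' h : V} {U : Finset V} {m : ℕ}
    (H : Bd G W a a' b b' h U m) (hm : 1 ≤ m) {p : ℕ → V} {r c : ℕ} (hp : Tp G a a' h p r c) {idx : V → ℕ}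
    (hs : St G W p r c b b' U idx (22 * m + 11)) : False := by
  classical
  have hne : Nonempty V := ⟨a⟩
  have huu := hs.ch.uu
  choose! u hu1 hu2 using huu
  have hidx : ∀ l, 1 ≤ l → l ≤ 22 * m + 11 → idx (u l) = l := by
    intro l h1 h2
    have h3 := (mem_Ly.1 (hu2 l h1 h2)).2.2
    omega
  have hinj : Set.InjOn u ((Finset.Icc 1 (22 * m + 11) : Finset ℕ) : Set ℕ) := by
    intro l hl l' hl' h1
    rw [Finset.mem_coe, Finset.mem_Icc] at hl hl'
    rw [← hidx l hl.1 hl.2, ← hidx l' hl'.1 hl'.2, h1]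
  obtain ⟨F, hF1, hF2, hF3, hF4⟩ := cho m (22 * m + 11) hm (fun l => (Nb G {u l}).card)
    (fun l h1 h2 => H.six.deg (u l) (mem_Ly.1 (hu2 l h1 h2)).1) (le_refl _)
  have hFI : F ⊆ Finset.Icc 1 (22 * m + 11) := by
    intro l hl
    have := hF2 l hl
    rw [Finset.mem_Icc]
    omega
  have hinjF : Set.InjOn u (F : Set ℕ) := hinj.mono (by exact_mod_cast hFI)
  have hYc : F.image u ⊆ (Finset.Icc 1 (22 * m + 11)).image u := Finset.image_subset_image hFI
  have hcU : (Finset.Icc 1 (22 * m + 11)).image u ⊆ U := by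
    intro v hv
    obtain ⟨l, hl, rfl⟩ := Finset.mem_image.1 hv
    rw [Finset.mem_Icc] at hl
    exact hu1 l hl.1 hl.2
  have hYm : ∀ y ∈ F.image u, ∃ l ∈ F, u l = y ∧ idx y = l := by
    intro y hy
    obtain ⟨l, hl, rfl⟩ := Finset.mem_image.1 hy
    have h1 := hF2 l hl
    exact ⟨l, hl, rfl, hidx l (by omega) (by omega)⟩
  have hmas := mas H.six H.ds H.xw H.hu H.ux hcU hYc (by
    rw [Finset.sum_image hinjF, Finset.sum_image hinj, Finset.card_image_of_injOn hinj,
      Nat.card_Icc]
    have h1 : 22 * m + 11 + 1 - 1 = 22 * m + 11 := by omega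
    rw [h1]
    exact hF4)
  have hC : Cx G W a a' b b' h U p r c idx (22 * m + 11) (F.image u) := by
    refine ⟨H.six, H.ds, H.xw, H.hu, H.ux, hp, hs, ?_, ?_⟩
    · intro y hy
      obtain ⟨l, hl, rfl, h2⟩ := hYm y hy
      have h3 := hF2 l hl
      have h4 := mem_Ly.1 (hu2 l (by omega) (by omega))
      exact ⟨h4.1, h4.2.1, by omega, by omega⟩
    · intro y hy y' hy' hne'
      obtain ⟨l, hl, h1, h2⟩ := hYm y hy
      obtain ⟨l', hl', h1', h2'⟩ := hYm y' hy'
      have h3 := hF3 l hl l' hl' (by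
        rintro rfl
        exact hne' (h1.symm.trans h1'))
      omega
  obtain ⟨P, Q, hPQ, hP, hQ⟩ := msc H.six.ins H.ds H.xw
    (fun y hy => H.ux y (hcU (hYc hy)))
    (fun D hD hne' hX hY => safe hC hD hne' hX hY) hmas
  have h1 := H.bd P Q hPQ
  have h2 : F.image u ⊆ U \ (P ∪ Q) := by
    intro y hy
    rw [Finset.mem_sdiff, Finset.mem_union]
    exact ⟨hcU (hYc hy), fun h3 => h3.elim (hP y hy) (hQ y hy)⟩
  have h3 := Finset.card_le_card h2
  rw [Finset.card_image_of_injOn hinjF, hF1] at h3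
  omega

end Pool.Agent.JNG
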