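import Mathlib
import Pool.Agent.JNG.Defs2

/-!
The exchange argument: three levels l1 < l2 < j with l1 + m + 2 <= j.
Proof. Suppose p x2 is a neighbour of level l2, x2 < c, p x1 a neighbour of level l1 with x2 < x1 < c, p x3 a neighbour
of level j with x2 < x3 < c. Let E = Ly l2 l2 (connected, Ch.cn).
P' = Sg p 0 x2 + E + Sg p c r joins a to a': from p 0 to p x2, into E, from a vertex of U in E (`uu`) to h = p c, to p r.
Q' = (L + Ly 1 l1) + Sg p (x2+1) (c-1) + (Ly j T + R) joins b to b': L + Ly 1 l1 is connected and contains b (Ch.left), p x1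
is adjacent to it, the segment is connected (Pth.cn) and contains p x1 and p x3, p x3 is adjacent to Ly j T + R,
which is connected and contains b' (Ch.right). P', Q' are disjoint (levels l1 < l2 < j; levels are outside Sg p 0 r; p
injective). For each level t with l1 < t < j, t not l2, the vertex of U in level t (`uu`) is missed: at least
j - l1 - 2 >= m vertices. Against `bd`.
-/

set_option autoImplicit false

namespace Pool.Agent.JNG

open SimpleGraph Pool.Agent.LNK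

open Classical in
private theorem mon_miss {V : Type} [Fintype V] {G : SimpleGraph V} {W S : Finset V} {b b' : V}
    {U : Finset V} {idx : V → ℕ} {T : ℕ} (hc : Ch G W S b b' U idx T) (I : Finset ℕ)
    (hI : ∀ t ∈ I, 1 ≤ t ∧ t ≤ T) (P : Finset V) (hP : ∀ v ∈ P, v ∉ S → idx v ∉ I) :
    I.card ≤ (U \ P).card := by
  rcases I.eq_empty_or_nonempty with rfl | ⟨t0, ht0⟩
  · rw [Finset.card_empty]
    exact Nat.zero_le _
  haveI : Nonempty V := ⟨(hc.uu t0 (hI t0 ht0).1 (hI t0 ht0).2).choose⟩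
  choose! u hu1 hu2 using fun (t : ℕ) (ht : t ∈ I) => hc.uu t (hI t ht).1 (hI t ht).2
  have hidx : ∀ t ∈ I, idx (u t) = t := by
    intro t ht
    obtain ⟨_, _, h3, h4⟩ := mem_Ly.1 (hu2 t ht)
    exact le_antisymm h4 h3
  have hinj : Set.InjOn u (I : Set ℕ) := by
    intro t ht t' ht' h
    rw [← hidx t ht, ← hidx t' ht', h]
  rw [← Finset.card_image_of_injOn hinj]
  refine Finset.card_le_card (fun v hv => ?_)
  obtain ⟨t, ht, rfl⟩ := Finset.mem_image.1 hv
  refine Finset.mem_sdiff.2 ⟨hu1 t ht, fun hvP => ?_⟩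
  refine hP _ hvP (mem_Ly.1 (hu2 t ht)).2.1 ?_
  rw [hidx t ht]
  exact ht

theorem exch {V : Type} [Fintype V] {G : SimpleGraph V} {W : Finset V} {a a' b b' h : V} {U : Finset V}
    {m : ℕ} (H : Bd G W a a' b b' h U m) {p : ℕ → V} {r c : ℕ} (hp : Tp G a a' h p r c) {idx : V → ℕ} {T : ℕ}
    (hc : Ch G W (Sg p 0 r) b b' U idx T) {l1 l2 j : ℕ} (h1 : 1 ≤ l1) (h2 : l1 < l2) (h3 : l2 < j) (h4 : j ≤ T)
    (h5 : l1 + m + 2 ≤ j) {x1 x2 x3 : ℕ} (hx1 : x1 < c) (hx2 : x2 < c) (hx3 : x3 < c)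
    (n1 : p x1 ∈ Nb G (Ly W (Sg p 0 r) idx l1 l1)) (n2 : p x2 ∈ Nb G (Ly W (Sg p 0 r) idx l2 l2))
    (n3 : p x3 ∈ Nb G (Ly W (Sg p 0 r) idx j j)) : x1 ≤ x2 ∨ x3 ≤ x2 := by
  classical
  by_contra hcon
  push Not at hcon
  obtain ⟨h12, h32⟩ := hcon
  have hcr := hp.cr
  have hT2 : l2 ≤ T := by omega
  have hT1 : l1 ≤ T := by omega
  obtain ⟨-, u1, hu1, had1⟩ := mem_Nb.1 n1
  obtain ⟨-, u2, hu2, had2⟩ := mem_Nb.1 n2
  obtain ⟨-, u3, hu3, had3⟩ := mem_Nb.1 n3
  obtain ⟨L, hbL, hL, hLc⟩ := hc.left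
  obtain ⟨R, hbR, hR, hRc⟩ := hc.right
  obtain ⟨w, hwU, hwE⟩ := hc.uu l2 (by omega) hT2
  have hE := hc.cn l2 l2 (by omega) le_rfl hT2
  set S := Sg p 0 r with hS
  set P' : Finset V := (Sg p 0 x2 ∪ Ly W S idx l2 l2) ∪ Sg p c r with hP'
  set Q' : Finset V := ((L ∪ Ly W S idx 1 l1) ∪ Sg p (x2 + 1) (c - 1)) ∪ (R ∪ Ly W S idx j T) with hQ'
  have hSmem : ∀ x, x ≤ r → p x ∈ S := fun x hx => mem_Sg.2 ⟨x, Nat.zero_le _, hx, rfl⟩
  have hPmem : ∀ v ∈ P', (∃ x, (x ≤ x2 ∨ (c ≤ x ∧ x ≤ r)) ∧ p x = v) ∨ (v ∉ S ∧ idx v = l2) := by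
    intro v hv
    rcases Finset.mem_union.1 hv with hv | hv
    · rcases Finset.mem_union.1 hv with hv | hv
      · obtain ⟨x, _, h7, h8⟩ := mem_Sg.1 hv
        exact Or.inl ⟨x, Or.inl h7, h8⟩
      · obtain ⟨_, h7, h8, h9⟩ := mem_Ly.1 hv
        exact Or.inr ⟨h7, le_antisymm h9 h8⟩
    · obtain ⟨x, h6, h7, h8⟩ := mem_Sg.1 hv
      exact Or.inl ⟨x, Or.inr ⟨h6, h7⟩, h8⟩
  have hQmem : ∀ v ∈ Q', (∃ x, (x2 + 1 ≤ x ∧ x ≤ c - 1) ∧ p x = v) ∨
      (v ∉ S ∧ (idx v ≤ l1 ∨ j ≤ idx v)) := by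
    intro v hv
    rcases Finset.mem_union.1 hv with hv | hv
    · rcases Finset.mem_union.1 hv with hv | hv
      · rcases Finset.mem_union.1 hv with hv | hv
        · obtain ⟨_, h7, h8, h9⟩ := mem_Ly.1 (hL hv)
          exact Or.inr ⟨h7, Or.inl (by omega)⟩
        · obtain ⟨_, h7, h8, h9⟩ := mem_Ly.1 hv
          exact Or.inr ⟨h7, Or.inl h9⟩
      · obtain ⟨x, h6, h7, h8⟩ := mem_Sg.1 hv
        exact Or.inl ⟨x, ⟨h6, h7⟩, h8⟩
    · rcases Finset.mem_union.1 hv with hv | hv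
      · obtain ⟨_, h7, h8, h9⟩ := mem_Ly.1 (hR hv)
        exact Or.inr ⟨h7, Or.inr (by omega)⟩
      · obtain ⟨_, h7, h8, h9⟩ := mem_Ly.1 hv
        exact Or.inr ⟨h7, Or.inr h8⟩
  have hlk : Lkg G a a' b b' P' Q' := by
    refine ⟨fun v hv hv' => ?_, ?_, ?_⟩
    · rcases hPmem v hv with ⟨x, hx, rfl⟩ | ⟨hvS, hvi⟩
      · have hxr : x ≤ r := by omega
        rcases hQmem _ hv' with ⟨y, hy, hyx⟩ | ⟨hvS, -⟩
        · have := hp.pth.inj y x (by omega) hxr hyx
          omega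
        · exact hvS (hSmem x hxr)
      · rcases hQmem _ hv' with ⟨y, hy, rfl⟩ | ⟨-, h⟩
        · exact hvS (hSmem y (by omega))
        · omega
    · have e1 : Jn G (P' : Set V) a (p x2) := by
        rw [← hp.p0]
        refine (hp.pth.jn (Nat.zero_le x2) (by omega)).mono (fun v hv => ?_)
        exact Finset.mem_coe.2 (Finset.mem_union_left _ (Finset.mem_union_left _ (Finset.mem_coe.1 hv)))
      have e2 : Jn G (P' : Set V) (p x2) u2 :=
        Jn.of_adj had2.symm (Jn.right_mem e1)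
          (Finset.mem_coe.2 (Finset.mem_union_left _ (Finset.mem_union_right _ hu2)))
      have e3 : Jn G (P' : Set V) u2 w :=
        (hE.2 u2 hu2 w hwE).mono (fun v hv =>
          Finset.mem_coe.2 (Finset.mem_union_left _ (Finset.mem_union_right _ (Finset.mem_coe.1 hv))))
      have e5 : Jn G (P' : Set V) (p c) (p r) :=
        (hp.pth.jn hcr le_rfl).mono (fun v hv =>
          Finset.mem_coe.2 (Finset.mem_union_right _ (Finset.mem_coe.1 hv)))
      have e4 : Jn G (P' : Set V) w (p c) := by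
        refine Jn.of_adj ?_ (Jn.right_mem e3) (Jn.left_mem e5)
        rw [hp.pc]
        exact (H.hu w hwU).symm
      rw [← hp.pr]
      exact (((e1.trans e2).trans e3).trans e4).trans e5
    · have hu1' : u1 ∈ L ∪ Ly W S idx 1 l1 := by
        refine Finset.mem_union_right _ ?_
        obtain ⟨h6, h7, h8, h9⟩ := mem_Ly.1 hu1
        exact mem_Ly.2 ⟨h6, h7, by omega, h9⟩
      have hu3' : u3 ∈ R ∪ Ly W S idx j T := by
        refine Finset.mem_union_right _ ?_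
        obtain ⟨h6, h7, h8, h9⟩ := mem_Ly.1 hu3
        exact mem_Ly.2 ⟨h6, h7, h8, by omega⟩
      have e1 : Jn G (Q' : Set V) b u1 :=
        ((hLc l1 h1 hT1).2 b (Finset.mem_union_left _ hbL) u1 hu1').mono (fun v hv =>
          Finset.mem_coe.2 (Finset.mem_union_left _ (Finset.mem_union_left _ (Finset.mem_coe.1 hv))))
      have e5 : Jn G (Q' : Set V) u3 b' :=
        ((hRc j (by omega) h4).2 u3 hu3' b' (Finset.mem_union_left _ hbR)).mono (fun v hv =>
          Finset.mem_coe.2 (Finset.mem_union_right _ (Finset.mem_coe.1 hv)))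
      have m1 : p x1 ∈ Sg p (x2 + 1) (c - 1) := mem_Sg.2 ⟨x1, by omega, by omega, rfl⟩
      have m3 : p x3 ∈ Sg p (x2 + 1) (c - 1) := mem_Sg.2 ⟨x3, by omega, by omega, rfl⟩
      have e3 : Jn G (Q' : Set V) (p x1) (p x3) :=
        ((hp.pth.cn (i := x2 + 1) (j := c - 1) (by omega) (by omega)).2 _ m1 _ m3).mono (fun v hv =>
          Finset.mem_coe.2 (Finset.mem_union_left _ (Finset.mem_union_right _ (Finset.mem_coe.1 hv))))
      exact (((e1.trans (Jn.of_adj had1 (Jn.right_mem e1) (Jn.left_mem e3))).trans e3).trans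
        (Jn.of_adj had3.symm (Jn.right_mem e3) (Jn.left_mem e5))).trans e5
  have hbd := H.bd P' Q' hlk
  have hmiss := mon_miss hc ((Finset.Ioo l1 j).erase l2)
    (fun t ht => by
      have h6 := Finset.mem_Ioo.1 (Finset.mem_of_mem_erase ht)
      omega) (P' ∪ Q') (fun v hv hvS hmem => by
      have h6 := Finset.mem_Ioo.1 (Finset.mem_of_mem_erase hmem)
      have h7 := Finset.ne_of_mem_erase hmem
      rcases Finset.mem_union.1 hv with hv | hv
      · rcases hPmem v hv with ⟨x, hx, rfl⟩ | ⟨-, hvi⟩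
        · exact hvS (hSmem x (by omega))
        · exact h7 hvi
      · rcases hQmem v hv with ⟨x, hx, rfl⟩ | ⟨-, hvi⟩
        · exact hvS (hSmem x (by omega))
        · omega)
  rw [Finset.card_erase_of_mem (Finset.mem_Ioo.2 ⟨h2, h3⟩), Nat.card_Ioo] at hmiss
  omega

end Pool.Agent.JNG
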