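import Mathlib
import Pool.Agent.JNG.Defs2
import Pool.Agent.JNG.SUB
import Pool.Agent.JNG.REV
import Pool.Agent.JNG.MON

/-!
A monotone part of the chain.
Proof. By `minus` and `att` every level l between 1 and T has a neighbour p x with x < c (at least 3); let B l be the
largest such x. Let j0 be a level with B j0 maximal.
Case 1: j0 >= T' + m + 3. Take the levels 1, .., T' (`sub_chain` with i0 = 1, j0 = T'). mono: let 1 <= l < l' <= T', p x a
neighbour of level l, p x' of level l', x, x' < c. l' < j0 and l + m + 2 <= j0. `exch` with (l, l', j0), x1 = x, x2 = x',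
x3 = B j0: x <= x' or B j0 <= x'; in the second case x <= B j0 <= x' too.
Case 2: j0 <= T' + m + 2. Take the levels T - T' + 1, .., T (`sub_chain`), all larger than j0 + m + 2, and reverse
(`rev_chain`): orientation b', b. mono for the reversed chain means: for levels l < l' of the old chain in this range, p x
a neighbour of level l, p x' of level l': x' <= x. `exch` with (j0, l, l'), j0 + m + 2 <= l': x1 = B j0, x2 = x,
x3 = x': B j0 <= x or x' <= x; in the first case x' <= B j0 <= x.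
-/

set_option autoImplicit false

namespace Pool.Agent.JNG

open SimpleGraph Pool.Agent.LNK

theorem unim_ex {V : Type} [Fintype V] {G : SimpleGraph V} {W : Finset V} {b b' : V} {U : Finset V}
    {p : ℕ → V} {r c : ℕ} {idx : V → ℕ} {T : ℕ}
    (hc : Ch G W (Sg p 0 r) b b' U idx T)
    (hm : ∀ l, 1 ≤ l → l ≤ T → ∀ x, c < x → x ≤ r → p x ∉ Nb G (Ly W (Sg p 0 r) idx l l))
    {l : ℕ} (h1 : 1 ≤ l) (h2 : l ≤ T) :
    ∃ x, x < c ∧ p x ∈ Nb G (Ly W (Sg p 0 r) idx l l) := by
  classical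
  by_contra hcon
  push Not at hcon
  have h4 := hc.att l h1 h2
  have hsub : (Nb G (Ly W (Sg p 0 r) idx l l) ∩ Sg p 0 r) ⊆ {p c} := by
    intro v hv
    obtain ⟨hv1, hv2⟩ := Finset.mem_inter.1 hv
    obtain ⟨x, _, hxr, rfl⟩ := mem_Sg.1 hv2
    rcases lt_trichotomy x c with h | h | h
    · exact absurd hv1 (hcon x h)
    · rw [h]
      exact Finset.mem_singleton_self _
    · exact absurd hv1 (hm l h1 h2 x h hxr)
  have h5 : (Nb G (Ly W (Sg p 0 r) idx l l) ∩ Sg p 0 r).card ≤ 1 :=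
    (Finset.card_le_card hsub).trans (by rw [Finset.card_singleton])
  have h6 : 4 ≤ (Nb G (Ly W (Sg p 0 r) idx l l) ∩ Sg p 0 r).card := h4
  omega

theorem unim {V : Type} [Fintype V] {G : SimpleGraph V} {W : Finset V} {a a' b b' h : V} {U : Finset V}
    {m : ℕ} (H : Bd G W a a' b b' h U m) {p : ℕ → V} {r c : ℕ} (hp : Tp G a a' h p r c) {idx : V → ℕ} {T : ℕ}
    (hc : Ch G W (Sg p 0 r) b b' U idx T)
    (hm : ∀ l, 1 ≤ l → l ≤ T → ∀ x, c < x → x ≤ r → p x ∉ Nb G (Ly W (Sg p 0 r) idx l l)) (T' : ℕ)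
    (hT1 : 1 ≤ T') (hT : 2 * T' + 2 * m + 6 ≤ T) :
    (∃ idx' : V → ℕ, St G W p r c b b' U idx' T') ∨ (∃ idx' : V → ℕ, St G W p r c b' b U idx' T') := by
  classical
  obtain ⟨X, j0, hj1, hj2, hXc, hXn, hmax⟩ : ∃ X j0, 1 ≤ j0 ∧ j0 ≤ T ∧ X < c ∧
      p X ∈ Nb G (Ly W (Sg p 0 r) idx j0 j0) ∧
      ∀ l x, 1 ≤ l → l ≤ T → x < c → p x ∈ Nb G (Ly W (Sg p 0 r) idx l l) → x ≤ X := by
    have hne : ((Finset.range c).filter (fun x => ∃ l, 1 ≤ l ∧ l ≤ T ∧
        p x ∈ Nb G (Ly W (Sg p 0 r) idx l l))).Nonempty := by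
      obtain ⟨x, hx, hxn⟩ := unim_ex hc hm (l := 1) le_rfl hc.T1
      exact ⟨x, Finset.mem_filter.2 ⟨Finset.mem_range.2 hx, 1, le_rfl, hc.T1, hxn⟩⟩
    obtain ⟨X, hX, hmax⟩ := Finset.exists_max_image _ (fun x => x) hne
    obtain ⟨hXc, j0, hj1, hj2, hXn⟩ := Finset.mem_filter.1 hX
    refine ⟨X, j0, hj1, hj2, Finset.mem_range.1 hXc, hXn, fun l x h1 h2 hx hxn => ?_⟩
    exact hmax x (Finset.mem_filter.2 ⟨Finset.mem_range.2 hx, l, h1, h2, hxn⟩)
  by_cases hcase : T' + m + 3 ≤ j0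
  · left
    obtain ⟨idx', hch, hly⟩ := sub_chain hc 1 T' le_rfl hT1 (by omega)
    have e : T' - 1 + 1 = T' := by omega
    rw [e] at hch hly
    have hly' : ∀ l, 1 ≤ l → l ≤ T' → Ly W (Sg p 0 r) idx' l l = Ly W (Sg p 0 r) idx l l := by
      intro l h1 h2
      have := hly l l h1 le_rfl h2
      rwa [Nat.add_sub_cancel] at this
    refine ⟨idx', hch, ?_, ?_⟩
    · intro l h1 h2 x hx hxr
      rw [hly' l h1 h2]
      exact hm l h1 (by omega) x hx hxr
    · intro l l' h1 h2 h3 x x' hx hx' hn hn'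
      rw [hly' l h1 (by omega)] at hn
      rw [hly' l' (by omega) h3] at hn'
      have := hmax l x h1 (by omega) hx hn
      rcases exch H hp hc h1 h2 (show l' < j0 by omega) hj2 (by omega) hx hx' hXc hn hn' hXn with h | h
      · exact h
      · omega
  · right
    obtain ⟨idx', hch, hly⟩ := sub_chain hc (T - T' + 1) T (by omega) (by omega) le_rfl
    have e : T - (T - T' + 1) + 1 = T' := by omega
    rw [e] at hch hly
    obtain ⟨idx'', hch', hly2⟩ := rev_chain H.six.ins hch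
    have hly' : ∀ l, 1 ≤ l → l ≤ T' → Ly W (Sg p 0 r) idx'' l l =
        Ly W (Sg p 0 r) idx (T + 1 - l) (T + 1 - l) := by
      intro l h1 h2
      rw [hly2 l l h1 le_rfl h2, hly (T' + 1 - l) (T' + 1 - l) (by omega) le_rfl (by omega)]
      congr 1 <;> omega
    refine ⟨idx'', hch', ?_, ?_⟩
    · intro l h1 h2 x hx hxr
      rw [hly' l h1 h2]
      exact hm _ (by omega) (by omega) x hx hxr
    · intro l l' h1 h2 h3 x x' hx hx' hn hn'
      rw [hly' l h1 (by omega)] at hn
      rw [hly' l' (by omega) h3] at hn'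
      have := hmax _ x (by omega) (by omega) hx hn
      rcases exch H hp hc hj1 (show j0 < T + 1 - l' by omega) (show T + 1 - l' < T + 1 - l by omega)
        (by omega) (by omega) hXc hx' hx hXn hn' hn with h | h
      · omega
      · exact h

end Pool.Agent.JNG
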