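import Mathlib
import Pool.Agent.JNG.Defs2
import Pool.Agent.JNG.IND
import Pool.Agent.JNG.CHN
import Pool.Agent.JNG.SUB
import Pool.Agent.JNG.REV
import Pool.Agent.JNG.SID
import Pool.Agent.JNG.UNI
import Pool.Agent.JNG.MSC
import Pool.Agent.JNG.TM1

/-!
There is no bound: if U is large, some linkage misses m vertices of U.
Proof. Suppose Bd holds with card U >= (T0 + 3)(2 m + 3) + m + 12, where T' = 22 m + 11, T1 = 2 T' + 2 m + 6 and T0 = T1 + 2.
`mex` gives a linkage, `ind_path` (3 m + 4 <= card U) an induced path through h from a to a', or from b to b'; in the second case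
use Bd.swap. So let Tp G a a' h p r c and q be given. `chain` with T0 levels. `side` (m + 5 <= T0). In the first case (nothing
after h) take `sub_chain` with levels 2, .., T0 - 1 (T1 levels), apply `unim` and get a strip with T' levels for (b, b') or for
(b', b): `tm1` with H or with H.flip'. In the second case reverse p (`rev_path`; Sg p' 0 r = Sg p 0 r, index x before h
becomes r - x after h), which gives Tp G a' a h p' r (r - c); use H.flip and continue as in the first case.
-/

set_option autoImplicit false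

namespace Pool.Agent.JNG

open SimpleGraph Pool.Agent.LNK

theorem tmf_core {V : Type} [Fintype V] {G : SimpleGraph V} {W : Finset V} {a a' b b' h : V} {U : Finset V}
    {m : ℕ} (H : Bd G W a a' b b' h U m) (hm : 1 ≤ m) {p : ℕ → V} {r c : ℕ} (hp : Tp G a a' h p r c)
    {idx : V → ℕ} (hc : Ch G W (Sg p 0 r) b b' U idx (46 * m + 30))
    (hs : ∀ l, 2 ≤ l → l + 1 ≤ 46 * m + 30 → ∀ x, c < x → x ≤ r →
      p x ∉ Nb G (Ly W (Sg p 0 r) idx l l)) : False := by
  obtain ⟨idx', hc', hL⟩ := sub_chain hc 2 (46 * m + 29) (by omega) (by omega) (by omega)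
  have e1 : 46 * m + 29 - 2 + 1 = 46 * m + 28 := by omega
  rw [e1] at hc' hL
  have hm' : ∀ l, 1 ≤ l → l ≤ 46 * m + 28 → ∀ x, c < x → x ≤ r →
      p x ∉ Nb G (Ly W (Sg p 0 r) idx' l l) := by
    intro l h1 h2 x hx hxr
    rw [hL l l h1 (le_refl _) h2]
    have e2 : l + 2 - 1 = l + 1 := by omega
    rw [e2]
    exact hs (l + 1) (by omega) (by omega) x hx hxr
  rcases unim H hp hc' hm' (22 * m + 11) (by omega) (by omega) with ⟨idx2, h2⟩ | ⟨idx2, h2⟩
  · exact tm1 H hm hp h2
  · exact tm1 H.flip' hm hp h2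

theorem tmf_case {V : Type} [Fintype V] {G : SimpleGraph V} {W : Finset V} {a a' b b' h : V} {U : Finset V}
    {m : ℕ} (H : Bd G W a a' b b' h U m) (hm : 1 ≤ m)
    (hU : (50 * m + 50) * (2 * m + 3) + m + 12 ≤ U.card) {p q : ℕ → V} {r c s : ℕ}
    (hp : Tp G a a' h p r c) (hq : Pth G q s) (hq0 : q 0 = b) (hqs : q s = b')
    (hd : ∀ i j, i ≤ r → j ≤ s → p i ≠ q j) : False := by
  obtain ⟨idx, hc⟩ := chain H hp hq hq0 hqs hd (46 * m + 30) (by omega) (by nlinarith)
  rcases side H hp hc (by omega) with hs | hs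
  · exact tmf_core H hm hp hc hs
  · obtain ⟨hp', hSg⟩ := rev_path hp
    have hc' : Ch G W (Sg (fun i => p (r - i)) 0 r) b b' U idx (46 * m + 30) := by
      rw [hSg]
      exact hc
    refine tmf_core H.flip hm hp' hc' ?_
    intro l h1 h2 x hx hxr
    rw [hSg]
    have hcr := hp.cr
    exact hs l h1 h2 (r - x) (by omega)

theorem tmf {V : Type} [Fintype V] {G : SimpleGraph V} {W : Finset V} {a a' b b' h : V} {U : Finset V} {m : ℕ}
    (H : Bd G W a a' b b' h U m) (hm : 1 ≤ m) (hU : (50 * m + 50) * (2 * m + 3) + m + 12 ≤ U.card) : False := by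
  have h1 : 3 * m + 4 ≤ U.card := by nlinarith
  have h2 : 10 ≤ U.card := by nlinarith
  have hl := mex H.six H.ds H.xw H.hu H.ux h2
  rcases ind_path H h1 hl with ⟨p, r, c, q, s, hp, hq, hq0, hqs, hd⟩ | ⟨p, r, c, q, s, hp, hq, hq0, hqs, hd⟩
  · exact tmf_case H hm hU hp hq hq0 hqs hd
  · exact tmf_case H.swap hm hU hp hq hq0 hqs hd

end Pool.Agent.JNG
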