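import Mathlib
import Pool.Agent.JNG.Defs2
import Pool.Agent.JNG.TMF

/-!
Linkages with many spare neighbours of h.
Proof. Replace m by m + 1. N = (50 m' + 50)(2 m' + 3) + m' + 16 with
m' = m + 1. Suppose no such P, Q exist. Let U' = U minus Xs, at least card U - 4 elements, inside W (Ins). Then Bd G W a a' b b' h U' m':
for a linkage P, Q let P1 = P and W, Q1 = Q and W (a walk with at least one edge stays in W; the terminals are in W); P1, Q1 is a
linkage, inside W, and U' minus (P + Q) is inside U minus (P1 + Q1), so it has fewer than m elements. `tmf` gives a contradiction.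
-/

set_option autoImplicit false

namespace Pool.Agent.JNG

open SimpleGraph Pool.Agent.LNK

private theorem spr_walk {V : Type} {G : SimpleGraph V} {W : Finset V} (hI : Ins G W) {u v : V}
    (w : G.Walk u v) (hu : u ∈ W) : ∀ x ∈ w.support, x ∈ W := by
  induction w with
  | nil =>
    intro x hx
    rw [Walk.support_nil, List.mem_singleton] at hx
    rw [hx]
    exact hu
  | @cons u u' v hadj p ih =>
    intro x hx
    rw [Walk.support_cons, List.mem_cons] at hx
    rcases hx with rfl | hx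
    · exact hu
    · exact ih (hI.right hadj) x hx

open Classical in
private theorem spr_jn {V : Type} {G : SimpleGraph V} {W P : Finset V} (hI : Ins G W) {u v : V}
    (hu : u ∈ W) (h : Jn G (P : Set V) u v) : Jn G ((P ∩ W : Finset V) : Set V) u v := by
  obtain ⟨w, hw⟩ := h
  refine ⟨w, fun x hx => ?_⟩
  rw [Finset.mem_coe, Finset.mem_inter]
  exact ⟨by simpa using hw x hx, spr_walk hI w hu x hx⟩

open Classical in
theorem spare (m : ℕ) : ∃ N : ℕ, ∀ (V : Type) [Fintype V] (G : SimpleGraph V) (W : Finset V)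
    (a a' b b' h : V) (U : Finset V), Six G W → Ds a a' b b' → (∀ v ∈ Xs a a' b b', v ∈ W) →
    (∀ u ∈ U, G.Adj h u) → N ≤ U.card →
    ∃ P Q : Finset V, Lkg G a a' b b' P Q ∧ P ⊆ W ∧ Q ⊆ W ∧ m ≤ (U \ (P ∪ Q)).card := by
  refine ⟨(50 * (m + 1) + 50) * (2 * (m + 1) + 3) + (m + 1) + 16, ?_⟩
  intro V _ G W a a' b b' h U hsix hds hxw hu hN
  by_contra hc
  have hI := hsix.ins
  have H : Bd G W a a' b b' h (U \ Xs a a' b b') (m + 1) := by
    refine ⟨hsix, hds, hxw, fun u hu' => hu u (Finset.mem_sdiff.1 hu').1,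
      fun u hu' => (Finset.mem_sdiff.1 hu').2, fun P Q hPQ => ?_⟩
    have ha : a ∈ W := hxw a (mem_Xs.2 (Or.inl rfl))
    have hb : b ∈ W := hxw b (mem_Xs.2 (Or.inr (Or.inr (Or.inl rfl))))
    have h1 : Lkg G a a' b b' (P ∩ W) (Q ∩ W) := by
      refine ⟨fun v hv hv' => ?_, spr_jn hI ha hPQ.jp, spr_jn hI hb hPQ.jq⟩
      exact hPQ.dj v (Finset.mem_inter.1 hv).1 (Finset.mem_inter.1 hv').1
    have h2 : ¬ m ≤ (U \ (P ∩ W ∪ Q ∩ W)).card := fun h3 =>
      hc ⟨P ∩ W, Q ∩ W, h1, Finset.inter_subset_right, Finset.inter_subset_right, h3⟩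
    have h3 : ((U \ Xs a a' b b') \ (P ∪ Q)).card ≤ (U \ (P ∩ W ∪ Q ∩ W)).card := by
      apply Finset.card_le_card
      intro v hv
      rw [Finset.mem_sdiff, Finset.mem_sdiff, Finset.mem_union] at hv
      rw [Finset.mem_sdiff, Finset.mem_union, Finset.mem_inter, Finset.mem_inter]
      refine ⟨hv.1.1, ?_⟩
      rintro (h4 | h4)
      · exact hv.2 (Or.inl h4.1)
      · exact hv.2 (Or.inr h4.1)
    omega
  have h4 : U.card ≤ (U \ Xs a a' b b').card + 4 := by
    have h5 := Finset.le_card_sdiff (Xs a a' b b') U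
    rw [card_Xs hds] at h5
    omega
  exact tmf H (by omega) (by omega)

end Pool.Agent.JNG
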