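import Mathlib
import Pool.Agent.JNG.Defs2
import Pool.Agent.JNG.SIX
import Pool.Agent.JNG.SPR
import Pool.Agent.JNG.SPC

/-!
The special case through `spare`.
Proof. N is the number of `spare k`. A0 = A.erase h has 2 k - 4 elements. `six_of` (2 k + 8 <= card V) gives Six (Cof G A0) W with
W = univ minus A0. The terminals s i1, t i1, s i2, t i2 are distinct and in W. The vertices of U are not in A (hAU), so h is adjacent
to them in Cof G A0. `spare` gives P, Q inside W, disjoint from A0; `spc` finishes (Jn.of_le, `LNK.cof_le`).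
-/

set_option autoImplicit false

namespace Pool.Agent.JNG

open SimpleGraph Pool.Agent.LNK

open Classical in
theorem spx (k : ℕ) : ∃ N : ℕ, ∀ (V : Type) [Fintype V] (G : SimpleGraph V) (A U : Finset V) (h : V)
    (s t : Fin k → V) (i1 i2 : Fin k), 2 * k + 8 ≤ Fintype.card V →
    (∀ Z : Finset V, Z.card < 2 * k + 2 → ∀ u v, u ∉ Z → v ∉ Z → Jn G {x | x ∉ Z} u v) →
    A.card + 3 = 2 * k → h ∈ A → N ≤ U.card → (∀ a ∈ A, ∀ u ∈ U, G.Adj a u) →
    Function.Injective (Sum.elim s t) → i1 ≠ i2 →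
    (∀ i, i ≠ i1 → i ≠ i2 → s i ∈ A.erase h ∧ t i ∈ A.erase h) →
    s i1 ∉ A.erase h → t i1 ∉ A.erase h → s i2 ∉ A.erase h → t i2 ∉ A.erase h →
    ∃ p : ∀ i, G.Walk (s i) (t i), (∀ i, (p i).IsPath) ∧
      ∀ i j, i ≠ j → ∀ v, v ∈ (p i).support → v ∉ (p j).support := by
  obtain ⟨N, hN⟩ := spare k
  refine ⟨N, fun V _ G A U h s t i1 i2 hV hG hA hh hU hAU hst hi ho hs1 ht1 hs2 ht2 => ?_⟩
  have hc : (A.erase h).card + 4 = 2 * k := by
    have h1 := Finset.card_erase_of_mem hh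
    have h2 := Finset.card_pos.2 ⟨h, hh⟩
    omega
  have h6 := six_of (A.erase h) hc hV hG
  have key : ∀ x y : Fin k ⊕ Fin k, x ≠ y → Sum.elim s t x ≠ Sum.elim s t y :=
    fun x y hxy he => hxy (hst he)
  have hds : Ds (s i1) (t i1) (s i2) (t i2) :=
    ⟨key (.inl i1) (.inr i1) (by simp), key (.inl i1) (.inl i2) (by simpa using hi),
      key (.inl i1) (.inr i2) (by simp), key (.inr i1) (.inl i2) (by simp),
      key (.inr i1) (.inr i2) (by simpa using hi), key (.inl i2) (.inr i2) (by simp)⟩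
  have hUA : ∀ u ∈ U, u ∉ A := fun u hu ha => G.loopless.irrefl _ (hAU u ha u hu)
  have hxw : ∀ v ∈ Xs (s i1) (t i1) (s i2) (t i2), v ∈ Finset.univ \ A.erase h := by
    intro v hv
    rw [Finset.mem_sdiff]
    refine ⟨Finset.mem_univ _, ?_⟩
    rcases mem_Xs.1 hv with rfl | rfl | rfl | rfl
    · exact hs1
    · exact ht1
    · exact hs2
    · exact ht2
  have hadj : ∀ u ∈ U, (Cof G ((A.erase h : Finset V) : Set V)).Adj h u := by
    intro u hu
    refine ⟨hAU h hh u hu, ?_, ?_⟩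
    · simp
    · intro h1
      exact hUA u hu (Finset.mem_of_mem_erase (Finset.mem_coe.1 h1))
  obtain ⟨P, Q, hPQ, hP, hQ, hk⟩ := hN V (Cof G ((A.erase h : Finset V) : Set V)) (Finset.univ \ A.erase h)
    (s i1) (t i1) (s i2) (t i2) h U h6 hds hxw hadj hU
  exact spc (A0 := A.erase h) (fun a ha u hu => hAU a (Finset.mem_of_mem_erase ha) u hu) hst hi ho hPQ.dj
    (Jn.of_le (cof_le _) hPQ.jp) (Jn.of_le (cof_le _) hPQ.jq)
    (fun v hv => (Finset.mem_sdiff.1 (hP hv)).2) (fun v hv => (Finset.mem_sdiff.1 (hQ hv)).2) hk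

end Pool.Agent.JNG
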