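import Mathlib
import Pool.Agent.JNG.Defs

/-!
Counting tokens.
Proof. Let f be the number of y with τ y in A, u the number of y with τ y in U; f + u = 2 k (A and U are disjoint, every τ y is in one
of them, 2 k indices). τ is injective, so A meets the image of τ in exactly f elements and card (A minus image) = 2 k - 3 - f =
u - 3. The pairs with both tokens in U give 2 q different y. (See the proof of CommonNeighbours,
Pool/Agent/Results/MP_e4231c_co/CommonNeighbours.lean, for the same computation.)
-/

set_option autoImplicit false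

namespace Pool.Agent.JNG

open SimpleGraph Pool.Agent.LNK

open Classical in
theorem tkn {V : Type} {k : ℕ} {A U : Finset V} (hA : A.card + 3 = 2 * k) (hd : ∀ v ∈ A, v ∉ U)
    {τ : Fin k ⊕ Fin k → V} (hτ : Function.Injective τ) (h : ∀ y, τ y ∈ A ∨ τ y ∈ U) :
    (A \ Finset.univ.image τ).card + 3 = (Finset.univ.filter fun y => τ y ∈ U).card ∧
    2 * (Finset.univ.filter fun i : Fin k => τ (Sum.inl i) ∈ U ∧ τ (Sum.inr i) ∈ U).card ≤
      (Finset.univ.filter fun y => τ y ∈ U).card := by
  have h1 : (A ∩ Finset.univ.image τ).card = (Finset.univ.filter fun y => τ y ∈ A).card := by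
    rw [← Finset.card_image_of_injective (Finset.univ.filter fun y => τ y ∈ A) hτ]
    congr 1
    ext v
    simp only [Finset.mem_inter, Finset.mem_image, Finset.mem_univ, true_and, Finset.mem_filter]
    constructor
    · rintro ⟨h1, y, rfl⟩
      exact ⟨y, h1, rfl⟩
    · rintro ⟨y, h1, rfl⟩
      exact ⟨h1, y, rfl⟩
  have h2 : (Finset.univ.filter fun y => τ y ∈ A).card +
      (Finset.univ.filter fun y => τ y ∈ U).card = 2 * k := by
    have h3 : (Finset.univ.filter fun y => τ y ∈ U) = Finset.univ.filter fun y => ¬ τ y ∈ A := by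
      ext y
      simp only [Finset.mem_filter, Finset.mem_univ, true_and]
      constructor
      · intro h1 h2
        exact hd _ h2 h1
      · intro h1
        exact (h y).resolve_left h1
    rw [h3, Finset.card_filter_add_card_filter_not, Finset.card_univ, Fintype.card_sum, Fintype.card_fin]
    omega
  have h4 := Finset.card_sdiff_add_card_inter A (Finset.univ.image τ)
  refine ⟨by omega, ?_⟩
  obtain ⟨F, hF⟩ : ∃ F, F = (Finset.univ.filter fun i : Fin k => τ (Sum.inl i) ∈ U ∧ τ (Sum.inr i) ∈ U) :=
    ⟨_, rfl⟩
  have h5 : (F.disjSum F) ⊆ Finset.univ.filter fun y => τ y ∈ U := by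
    intro y hy
    rw [Finset.mem_disjSum] at hy
    rw [Finset.mem_filter]
    refine ⟨Finset.mem_univ _, ?_⟩
    rcases hy with ⟨i, hi, rfl⟩ | ⟨i, hi, rfl⟩
    · rw [hF, Finset.mem_filter] at hi
      exact hi.2.1
    · rw [hF, Finset.mem_filter] at hi
      exact hi.2.2
  have h6 := Finset.card_le_card h5
  rw [Finset.card_disjSum] at h6
  rw [← hF]
  omega

end Pool.Agent.JNG
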