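import Mathlib
import Pool.Agent.JNG.Defs2
import Pool.Agent.JNG.TKN
import Pool.Agent.JNG.SPX

/-!
The main theorem.
Proof. N = max (3 k) (number of spx) + 2 k + 8 or so (card V >= card A + card U >= 2 k + 8). Let x = Sum.elim s t. hcon: deleting fewer
than 2 k + 2 vertices leaves any two others joined (`LNK.jn_of_connected`).
Case A: two different h1, h2 in A are no terminals. `LNK.tokens` with F = {h1, h2}, T = (A + U) minus F (2 k paths, 2 k + 2). The
tokens τ y are in (A minus F) + U. `tkn`; at most 2 k - 5 tokens in A, so u >= 5, and 2 q <= u gives q <= u - 3 = card (A minus image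
τ): `LNK.join_tokens`.
Case B: exactly one h in A is no terminal. `tokens` with F = {h}: every terminal in A is its own token (it is in P y and in
A + U). At most 2 k - 4 tokens in A, u >= 4. If q <= u - 3 use `join_tokens`. Otherwise u = 4, q = 2 (2 q <= u, q >= u - 2): two
indices i1, i2 with all four tokens in U, so these four terminals are not in A; the other 2 k - 4 terminals: the 2 k - 4 elements
of A minus h are all terminals, none of them one of these four, so the other terminals are exactly the elements of A minus h.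
`spx` with h.
Case C: all elements of A are terminals. `tokens` with F empty: u = 3 (the 2 k - 3 terminals in A are their own tokens, the other
3 have tokens in U: tokens are distinct and A is used up). q <= 1. If q = 0 use `join_tokens`. If q = 1: an index i1 with both
terminals outside A, exactly one further terminal outside A, of an index i2, whose other terminal h is in A. All other terminals
are in A and not h. `spx` with h, i1, i2.
(Compare the proof of CommonNeighbours.)
-/

set_option autoImplicit false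

namespace Pool.Agent.JNG

open SimpleGraph Pool.Agent.LNK

/-- Every large `(2k+2)`-connected graph with `2k - 3` vertices that have many common neighbours is
`k`-linked. -/
theorem hubs3 : ∀ k : ℕ, ∃ N : ℕ, ∀ (V : Type) [Fintype V] (G : SimpleGraph V),
    (2 * k + 2 < Fintype.card V ∧
      ∀ S : Finset V, S.card < 2 * k + 2 → (G.induce ((S : Set V)ᶜ)).Connected) →
    ∀ A U : Finset V, A.card + 3 = 2 * k → N ≤ U.card → (∀ a ∈ A, ∀ u ∈ U, G.Adj a u) →
    ∀ s t : Fin k → V, Function.Injective (Sum.elim s t) →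
      ∃ p : ∀ i, G.Walk (s i) (t i),
        (∀ i, (p i).IsPath) ∧
        ∀ i j, i ≠ j → ∀ v, v ∈ (p i).support → v ∉ (p j).support := by
  classical
  intro k
  obtain ⟨N1, hN1⟩ := spx k
  refine ⟨3 * k + N1 + 2 * k + 8, ?_⟩
  intro V _ G hG A U hA hU hAU s t hst
  have hcon : ∀ Z : Finset V, Z.card < 2 * k + 2 → ∀ u v, u ∉ Z → v ∉ Z → Jn G {v | v ∉ Z} u v := by
    intro Z hZ u v hu hv
    exact jn_of_connected (hG.2 Z hZ) (by simpa using hu) (by simpa using hv)
  have hdj : ∀ v, v ∈ A → v ∉ U := fun v hv hv' => (hAU v hv v hv').ne rfl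
  have hcard : Fintype.card (Fin k ⊕ Fin k) = 2 * k := by
    rw [Fintype.card_sum, Fintype.card_fin]
    omega
  have hcardAU : (A ∪ U).card = A.card + U.card :=
    Finset.card_union_of_disjoint (Finset.disjoint_left.2 hdj)
  have hV : 2 * k + 8 ≤ Fintype.card V := by
    have := Finset.card_le_univ U
    omega
  have gen : ∀ F : Finset V, F ⊆ A → F.card ≤ 2 → (∀ y, Sum.elim s t y ∉ F) →
      ∃ τ : Fin k ⊕ Fin k → V, Function.Injective τ ∧ (∀ y, τ y ∈ A ∨ τ y ∈ U) ∧ (∀ y, τ y ∉ F) ∧
        (∀ y, Sum.elim s t y ∈ A → τ y = Sum.elim s t y) ∧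
        ((Finset.univ.filter fun i : Fin k => τ (Sum.inl i) ∈ U ∧ τ (Sum.inr i) ∈ U).card ≤
          (A \ Finset.univ.image τ).card → ∃ p : ∀ i, G.Walk (s i) (t i),
        (∀ i, (p i).IsPath) ∧
        ∀ i j, i ≠ j → ∀ v, v ∈ (p i).support → v ∉ (p j).support) := by
    intro F hFA hF2 hxF
    have hTc : ((A ∪ U) \ F).card + F.card = (A ∪ U).card :=
      Finset.card_sdiff_add_card_eq_card (hFA.trans Finset.subset_union_left)
    obtain ⟨P, τ, h1, h2, h3, h4, h5, h6, h7⟩ := tokens (G := G) F ((A ∪ U) \ F) (Sum.elim s t) hst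
      hxF (fun v hv => (Finset.mem_sdiff.1 hv).2) (by rw [hcard]; omega)
      (fun Z hZ => hcon Z (by rw [hcard] at hZ; omega))
    have hτ : ∀ y, τ y ∈ A ∨ τ y ∈ U := fun y => Finset.mem_union.1 (Finset.mem_sdiff.1 (h3 y)).1
    refine ⟨τ, ?_, hτ, fun y => (Finset.mem_sdiff.1 (h3 y)).2, ?_, fun hq => ?_⟩
    · intro y y' hyy
      by_contra hne
      exact h7 y y' hne (τ y) (h2 y) (hyy ▸ h2 y')
    · intro y hy
      exact (h4 y _ (h1 y) (Finset.mem_sdiff.2 ⟨Finset.mem_union_left _ hy, hxF y⟩)).symm
    · refine join_tokens A U hAU s t P τ h1 h2 hτ ?_ h5 h7 (by omega) hq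
      intro y v hv hvAU
      exact h4 y v hv (Finset.mem_sdiff.2 ⟨Finset.mem_union.2 hvAU, h6 y v hv⟩)
  -- the indices of terminals in `A` and of tokens in `U` are disjoint
  have hXY : ∀ τ : Fin k ⊕ Fin k → V, (∀ y, Sum.elim s t y ∈ A → τ y = Sum.elim s t y) →
      (Finset.univ.filter fun y => Sum.elim s t y ∈ A).card +
        (Finset.univ.filter fun y => τ y ∈ U).card ≤ 2 * k ∧
      (2 * k ≤ (Finset.univ.filter fun y => Sum.elim s t y ∈ A).card +
        (Finset.univ.filter fun y => τ y ∈ U).card → ∀ y, Sum.elim s t y ∈ A ∨ τ y ∈ U) := by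
    intro τ hτx
    have e1 : Disjoint (Finset.univ.filter fun y => Sum.elim s t y ∈ A)
        (Finset.univ.filter fun y => τ y ∈ U) := by
      rw [Finset.disjoint_left]
      intro y hy hy'
      have hy := (Finset.mem_filter.1 hy).2
      have hy' := (Finset.mem_filter.1 hy').2
      rw [hτx y hy] at hy'
      exact hdj _ hy hy'
    have e2 := Finset.card_union_of_disjoint e1
    have e3 := Finset.card_le_univ ((Finset.univ.filter fun y => Sum.elim s t y ∈ A) ∪
        (Finset.univ.filter fun y => τ y ∈ U))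
    rw [hcard] at e3
    refine ⟨by omega, fun h y => ?_⟩
    have e4 : (Finset.univ.filter fun y => Sum.elim s t y ∈ A) ∪
        (Finset.univ.filter fun y => τ y ∈ U) = Finset.univ := by
      apply Finset.eq_univ_of_card
      rw [hcard]
      omega
    have e5 : y ∈ (Finset.univ.filter fun y => Sum.elim s t y ∈ A) ∪
        (Finset.univ.filter fun y => τ y ∈ U) := by
      rw [e4]
      exact Finset.mem_univ y
    rcases Finset.mem_union.1 e5 with h | h
    · exact Or.inl (Finset.mem_filter.1 h).2
    · exact Or.inr (Finset.mem_filter.1 h).2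
  -- the terminals in `B` are indexed
  have hX : ∀ B : Finset V, B ⊆ A → (∀ a ∈ B, ∃ y, Sum.elim s t y = a) →
      B.card ≤ (Finset.univ.filter fun y => Sum.elim s t y ∈ A).card := by
    intro B hB hBt
    have e1 : B ⊆ (Finset.univ.filter fun y => Sum.elim s t y ∈ A).image (Sum.elim s t) := by
      intro a ha
      obtain ⟨y, hy⟩ := hBt a ha
      rw [Finset.mem_image]
      exact ⟨y, Finset.mem_filter.2 ⟨Finset.mem_univ _, hy ▸ hB ha⟩, hy⟩
    exact (Finset.card_le_card e1).trans Finset.card_image_le
  have hF3 : ∀ (F : Finset V) (τ : Fin k ⊕ Fin k → V), F ⊆ A → (∀ y, τ y ∉ F) →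
      F.card ≤ (A \ Finset.univ.image τ).card := by
    intro F τ hFA hF
    apply Finset.card_le_card
    intro v hv
    rw [Finset.mem_sdiff, Finset.mem_image]
    refine ⟨hFA hv, ?_⟩
    rintro ⟨y, _, hy⟩
    exact hF y (hy ▸ hv)
  by_cases hn : ∃ h ∈ A, ∀ y, Sum.elim s t y ≠ h
  · obtain ⟨h, hhA, hh⟩ := hn
    by_cases hn2 : ∃ h' ∈ A, h' ≠ h ∧ ∀ y, Sum.elim s t y ≠ h'
    · -- two hubs that are no terminals
      obtain ⟨h', hh'A, hne, hh'⟩ := hn2
      have hFc : ({h', h} : Finset V).card = 2 := Finset.card_pair hne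
      have hFA : ({h', h} : Finset V) ⊆ A := by
        intro v hv
        rw [Finset.mem_insert, Finset.mem_singleton] at hv
        rcases hv with rfl | rfl
        · exact hh'A
        · exact hhA
      obtain ⟨τ, hinj, hτ, hτF, hτx, hfin⟩ := gen {h', h} hFA (by omega) (by
        intro y hy
        rw [Finset.mem_insert, Finset.mem_singleton] at hy
        rcases hy with hy | hy
        · exact hh' y hy
        · exact hh y hy)
      have ht := tkn hA hdj hinj hτ
      have hF := hF3 {h', h} τ hFA hτF
      exact hfin (by omega)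
    · -- one hub that is no terminal
      push Not at hn2
      obtain ⟨τ, hinj, hτ, hτF, hτx, hfin⟩ := gen {h} (Finset.singleton_subset_iff.2 hhA)
        (by rw [Finset.card_singleton]; omega) (by
        intro y hy
        exact hh y (Finset.mem_singleton.1 hy))
      have ht := tkn hA hdj hinj hτ
      have hF := hF3 {h} τ (Finset.singleton_subset_iff.2 hhA) hτF
      rw [Finset.card_singleton] at hF
      by_cases hq : (Finset.univ.filter fun i : Fin k => τ (Sum.inl i) ∈ U ∧ τ (Sum.inr i) ∈ U).card ≤
          (A \ Finset.univ.image τ).card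
      · exact hfin hq
      · obtain ⟨Q, hQ⟩ : ∃ Q, Q = Finset.univ.filter fun i : Fin k =>
            τ (Sum.inl i) ∈ U ∧ τ (Sum.inr i) ∈ U := ⟨_, rfl⟩
        rw [← hQ] at ht hq
        have hQ2 : Q.card = 2 := by omega
        have hU4 : (Finset.univ.filter fun y => τ y ∈ U).card = 4 := by omega
        have hB := hX (A.erase h) (Finset.erase_subset _ _) (by
          intro a ha
          exact hn2 a (Finset.mem_of_mem_erase ha) (Finset.ne_of_mem_erase ha))
        rw [Finset.card_erase_of_mem hhA] at hB
        have hA0 := Finset.card_pos.2 ⟨h, hhA⟩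
        have hall := (hXY τ hτx).2 (by omega)
        obtain ⟨i1, i2, hi, hQi⟩ := Finset.card_eq_two.1 hQ2
        have hsub : Q.disjSum Q ⊆ Finset.univ.filter fun y => τ y ∈ U := by
          intro y hy
          rw [Finset.mem_disjSum] at hy
          rw [Finset.mem_filter]
          refine ⟨Finset.mem_univ _, ?_⟩
          rcases hy with ⟨i, hi, rfl⟩ | ⟨i, hi, rfl⟩
          · rw [hQ, Finset.mem_filter] at hi
            exact hi.2.1
          · rw [hQ, Finset.mem_filter] at hi
            exact hi.2.2
        have heq : Q.disjSum Q = Finset.univ.filter fun y => τ y ∈ U := by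
          apply Finset.eq_of_subset_of_card_le hsub
          rw [Finset.card_disjSum, hU4, hQ2]
        have hi1 : i1 ∈ Q := by rw [hQi]; simp
        have hi2 : i2 ∈ Q := by rw [hQi]; simp
        have hmemU : ∀ i ∈ Q, τ (Sum.inl i) ∈ U ∧ τ (Sum.inr i) ∈ U := by
          intro i hi
          rw [hQ, Finset.mem_filter] at hi
          exact hi.2
        have hnA : ∀ y, τ y ∈ U → Sum.elim s t y ∉ A.erase h := by
          intro y hy hy'
          have := hτx y (Finset.mem_of_mem_erase hy')
          rw [this] at hy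
          exact hdj _ (Finset.mem_of_mem_erase hy') hy
        refine hN1 V G A U h s t i1 i2 hV hcon hA hhA (by omega) hAU hst hi ?_
          (hnA (Sum.inl i1) (hmemU i1 hi1).1) (hnA (Sum.inr i1) (hmemU i1 hi1).2)
          (hnA (Sum.inl i2) (hmemU i2 hi2).1) (hnA (Sum.inr i2) (hmemU i2 hi2).2)
        intro i hne1 hne2
        have hiQ : i ∉ Q := by
          rw [hQi]
          simp [hne1, hne2]
        refine ⟨?_, ?_⟩
        · rcases hall (Sum.inl i) with h1 | h1
          · exact Finset.mem_erase.2 ⟨hh (Sum.inl i), h1⟩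
          · exfalso
            have h2 : Sum.inl i ∈ Q.disjSum Q := by
              rw [heq]
              exact Finset.mem_filter.2 ⟨Finset.mem_univ _, h1⟩
            exact hiQ (Finset.inl_mem_disjSum.1 h2)
        · rcases hall (Sum.inr i) with h1 | h1
          · exact Finset.mem_erase.2 ⟨hh (Sum.inr i), h1⟩
          · exfalso
            have h2 : Sum.inr i ∈ Q.disjSum Q := by
              rw [heq]
              exact Finset.mem_filter.2 ⟨Finset.mem_univ _, h1⟩
            exact hiQ (Finset.inr_mem_disjSum.1 h2)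
  · -- all hubs are terminals
    push Not at hn
    obtain ⟨τ, hinj, hτ, hτF, hτx, hfin⟩ := gen ∅ (Finset.empty_subset _) (by simp) (by simp)
    have ht := tkn hA hdj hinj hτ
    have hB := hX A (Finset.Subset.refl _) hn
    have hXY1 := (hXY τ hτx).1
    by_cases hq : (Finset.univ.filter fun i : Fin k => τ (Sum.inl i) ∈ U ∧ τ (Sum.inr i) ∈ U).card ≤
        (A \ Finset.univ.image τ).card
    · exact hfin hq
    · obtain ⟨Q, hQ⟩ : ∃ Q, Q = Finset.univ.filter fun i : Fin k =>
          τ (Sum.inl i) ∈ U ∧ τ (Sum.inr i) ∈ U := ⟨_, rfl⟩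
      rw [← hQ] at ht hq
      have hU3 : (Finset.univ.filter fun y => τ y ∈ U).card = 3 := by omega
      have hQ1 : Q.card = 1 := by omega
      have hall := (hXY τ hτx).2 (by omega)
      obtain ⟨i1, hQi⟩ := Finset.card_eq_one.1 hQ1
      have hi1 : i1 ∈ Q := by rw [hQi]; simp
      have hmemU : ∀ i ∈ Q, τ (Sum.inl i) ∈ U ∧ τ (Sum.inr i) ∈ U := by
        intro i hi
        rw [hQ, Finset.mem_filter] at hi
        exact hi.2
      have hQmem : ∀ i, τ (Sum.inl i) ∈ U → τ (Sum.inr i) ∈ U → i = i1 := by
        intro i h1 h2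
        have h3 : i ∈ Q := by
          rw [hQ, Finset.mem_filter]
          exact ⟨Finset.mem_univ _, h1, h2⟩
        rw [hQi, Finset.mem_singleton] at h3
        exact h3
      have hsub : Q.disjSum Q ⊆ Finset.univ.filter fun y => τ y ∈ U := by
        intro y hy
        rw [Finset.mem_disjSum] at hy
        rw [Finset.mem_filter]
        refine ⟨Finset.mem_univ _, ?_⟩
        rcases hy with ⟨i, hi, rfl⟩ | ⟨i, hi, rfl⟩
        · exact (hmemU i hi).1
        · exact (hmemU i hi).2
      have hdc : ((Finset.univ.filter fun y => τ y ∈ U) \ Q.disjSum Q).card = 1 := by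
        rw [Finset.card_sdiff_of_subset hsub, Finset.card_disjSum, hU3, hQ1]
      obtain ⟨y2, hy2⟩ := Finset.card_eq_one.1 hdc
      have hy2m : y2 ∈ (Finset.univ.filter fun y => τ y ∈ U) \ Q.disjSum Q := by
        rw [hy2]
        exact Finset.mem_singleton_self _
      obtain ⟨hy2U, hy2Q⟩ := Finset.mem_sdiff.1 hy2m
      have hy2U := (Finset.mem_filter.1 hy2U).2
      have hnA : ∀ y, τ y ∈ U → Sum.elim s t y ∉ A := by
        intro y hy hy'
        have := hτx y hy'
        rw [this] at hy
        exact hdj _ hy' hy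
      have hun : ∀ y, τ y ∈ U → y = Sum.inl i1 ∨ y = Sum.inr i1 ∨ y = y2 := by
        intro y hy
        by_cases h1 : y ∈ Q.disjSum Q
        · rw [Finset.mem_disjSum, hQi] at h1
          rcases h1 with ⟨i, hi, rfl⟩ | ⟨i, hi, rfl⟩
          · rw [Finset.mem_singleton.1 hi]
            exact Or.inl rfl
          · rw [Finset.mem_singleton.1 hi]
            exact Or.inr (Or.inl rfl)
        · have h2 : y ∈ (Finset.univ.filter fun y => τ y ∈ U) \ Q.disjSum Q :=
            Finset.mem_sdiff.2 ⟨Finset.mem_filter.2 ⟨Finset.mem_univ _, hy⟩, h1⟩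
          rw [hy2, Finset.mem_singleton] at h2
          exact Or.inr (Or.inr h2)
      -- the other side of `y2`
      obtain ⟨i2, y3, hi12, hy3, hy3A, hcov⟩ : ∃ (i2 : Fin k) (y3 : Fin k ⊕ Fin k), i1 ≠ i2 ∧ y3 ≠ y2 ∧
          Sum.elim s t y3 ∈ A ∧ ((y2 = Sum.inl i2 ∧ y3 = Sum.inr i2) ∨
            (y2 = Sum.inr i2 ∧ y3 = Sum.inl i2)) := by
        rcases y2 with i2 | i2
        · have hne : i1 ≠ i2 := by
            rintro rfl
            exact hy2Q (Finset.inl_mem_disjSum.2 hi1)
          refine ⟨i2, Sum.inr i2, hne, by simp, ?_, Or.inl ⟨rfl, rfl⟩⟩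
          rcases hall (Sum.inr i2) with h1 | h1
          · exact h1
          · exact absurd (hQmem i2 hy2U h1).symm hne
        · have hne : i1 ≠ i2 := by
            rintro rfl
            exact hy2Q (Finset.inr_mem_disjSum.2 hi1)
          refine ⟨i2, Sum.inl i2, hne, by simp, ?_, Or.inr ⟨rfl, rfl⟩⟩
          rcases hall (Sum.inl i2) with h1 | h1
          · exact h1
          · exact absurd (hQmem i2 h1 hy2U).symm hne
      have key : ∀ y, y ≠ y3 → Sum.elim s t y ∈ A → Sum.elim s t y ∈ A.erase (Sum.elim s t y3) :=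
        fun y hy hyA => Finset.mem_erase.2 ⟨fun h => hy (hst h), hyA⟩
      have key2 : ∀ y, τ y ∈ U → Sum.elim s t y ∉ A.erase (Sum.elim s t y3) :=
        fun y hy h => hnA y hy (Finset.mem_of_mem_erase h)
      have key3 : Sum.elim s t y3 ∉ A.erase (Sum.elim s t y3) := Finset.notMem_erase _ _
      have key4 : Sum.elim s t (Sum.inl i2) ∉ A.erase (Sum.elim s t y3) ∧
          Sum.elim s t (Sum.inr i2) ∉ A.erase (Sum.elim s t y3) := by
        rcases hcov with ⟨h1, h2⟩ | ⟨h1, h2⟩
        · rw [← h1, ← h2]
          exact ⟨key2 _ hy2U, key3⟩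
        · rw [← h1, ← h2]
          exact ⟨key3, key2 _ hy2U⟩
      refine hN1 V G A U (Sum.elim s t y3) s t i1 i2 hV hcon hA hy3A (by omega) hAU hst hi12 ?_
        (key2 (Sum.inl i1) (hmemU i1 hi1).1) (key2 (Sum.inr i1) (hmemU i1 hi1).2) key4.1 key4.2
      intro i hne1 hne2
      have hs : ∀ y : Fin k ⊕ Fin k, y = Sum.inl i ∨ y = Sum.inr i →
          Sum.elim s t y ∈ A.erase (Sum.elim s t y3) := by
        intro y hy
        apply key y
        · rintro rfl
          rcases hcov with ⟨_, h2⟩ | ⟨_, h2⟩ <;> rcases hy with h3 | h3 <;> rw [h3] at h2 <;>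
            first | exact absurd h2 Sum.inl_ne_inr | exact absurd h2 Sum.inr_ne_inl |
              exact hne2 (Sum.inl_injective h2) | exact hne2 (Sum.inr_injective h2)
        · rcases hall y with h1 | h1
          · exact h1
          · exfalso
            rcases hun y h1 with h2 | h2 | h2
            · rcases hy with h3 | h3 <;> rw [h3] at h2 <;>
                first | exact absurd h2 Sum.inl_ne_inr | exact absurd h2 Sum.inr_ne_inl |
                exact hne1 (Sum.inl_injective h2) | exact hne1 (Sum.inr_injective h2)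
            · rcases hy with h3 | h3 <;> rw [h3] at h2 <;>
                first | exact absurd h2 Sum.inl_ne_inr | exact absurd h2 Sum.inr_ne_inl |
                exact hne1 (Sum.inl_injective h2) | exact hne1 (Sum.inr_injective h2)
            · rcases hcov with ⟨h4, _⟩ | ⟨h4, _⟩ <;> rcases hy with h3 | h3 <;>
                rw [h3, h4] at h2 <;>
                first | exact absurd h2 Sum.inl_ne_inr | exact absurd h2 Sum.inr_ne_inl |
              exact hne2 (Sum.inl_injective h2) | exact hne2 (Sum.inr_injective h2)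
      exact ⟨hs (Sum.inl i) (Or.inl rfl), hs (Sum.inr i) (Or.inr rfl)⟩

end Pool.Agent.JNG
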